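import Mathlib

set_option autoImplicit false

open MeasureTheory Set Module Filter Topology
open scoped ENNReal Pointwise

namespace Pool.Agent.H14IIB

/-- Euclidean `n`-space -/
abbrev E (n : ℕ) := EuclideanSpace ℝ (Fin n)

/-- origin-symmetric convex bodies -/
structure Body {n : ℕ} (K : Set (E n)) : Prop where
  compact : IsCompact K
  convex : Convex ℝ K
  int_nonempty : (interior K).Nonempty
  symm : ∀ x ∈ K, -x ∈ K

/-- the intersection body: `x ≠ 0` is in `IB K` iff `‖x‖ ≤ vol_{n-1} (K ∩ x^⊥)` -/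
def IB {n : ℕ} (K : Set (E n)) : Set (E n) :=
  {x | x = 0 ∨ ENNReal.ofReal ‖x‖ ≤ μHE[n - 1] (K ∩ {y | inner ℝ x y = 0})}

/-- Banach-Mazur distance of `A` from `B` -/
noncomputable def dBM {n : ℕ} (A B : Set (E n)) : ℝ :=
  sInf {l : ℝ | 1 ≤ l ∧ ∃ T : E n ≃ₗ[ℝ] E n, B ⊆ T '' A ∧ T '' A ⊆ l • B}

/-- the point of `E (d+1)` whose `0`-th coordinate is `t` and whose other coordinates are `y` -/
noncomputable def emb {d : ℕ} (y : Fin d → ℝ) (t : ℝ) : E (d + 1) :=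
  WithLp.toLp 2 (Fin.cons t y)

/-- homogeneous extension of the radial function of the intersection body -/
noncomputable def sec {d : ℕ} (K : Set (E (d + 1))) (ξ : E (d + 1)) : ℝ≥0∞ :=
  μHE[d] (K ∩ {y | inner ℝ ξ y = 0}) / ENNReal.ofReal ‖ξ‖

/-- `sec` in the chart `w ↦ hyperplane {emb y (w ⬝ y)}` -/
noncomputable def A {d : ℕ} (K : Set (E (d + 1))) (w : Fin d → ℝ) : ℝ≥0∞ :=
  volume {y : Fin d → ℝ | emb y (w ⬝ᵥ y) ∈ K}

/-- radial function in the direction `emb (-w) 1` -/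
noncomputable def rad {d : ℕ} (K : Set (E (d + 1))) (w : Fin d → ℝ) : ℝ≥0∞ :=
  volume {s : ℝ | emb (-(s • w)) s ∈ K} / 2

/-- shadow system: the chord `[c-l,c+l]` over `y` is moved to `[τc-l,τc+l]` -/
def Lt {d : ℕ} (L : Set (E (d + 1))) (τ : ℝ) : Set (E (d + 1)) :=
  {x | ∃ (y : Fin d → ℝ) (t₁ t₂ : ℝ), emb y t₁ ∈ L ∧ emb y t₂ ∈ L ∧
    x = emb y (t₁ - ((1 - τ) / 2) * (t₁ + t₂))}

/-- projection of `L` -/
def PP {d : ℕ} (L : Set (E (d + 1))) : Set (Fin d → ℝ) := {y | ∃ t, emb y t ∈ L}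

noncomputable def up {d : ℕ} (L : Set (E (d + 1))) (y : Fin d → ℝ) : ℝ := sSup {t | emb y t ∈ L}

/-- midpoint of the chord over `y` -/
noncomputable def cc {d : ℕ} (L : Set (E (d + 1))) (y : Fin d → ℝ) : ℝ := (up L y - up L (-y)) / 2

/-- half length of the chord over `y` -/
noncomputable def ll {d : ℕ} (L : Set (E (d + 1))) (y : Fin d → ℝ) : ℝ := (up L y + up L (-y)) / 2

/-- volume of the set of hyperplanes meeting `Lt L τ` over all `y i` -/
noncomputable def FF {d : ℕ} (L : Set (E (d + 1))) (τ : ℝ) (y : Fin (d + 1) → (Fin d → ℝ)) : ℝ≥0∞ :=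
  volume {w : Fin d → ℝ | ∀ i, emb (y i) (w ⬝ᵥ y i) ∈ Lt L τ}

/-- `vol(IK)/vol(K)^d` -/
noncomputable def Q {d : ℕ} (K : Set (E (d + 1))) : ℝ :=
  (volume (IB K)).toReal / (volume K).toReal ^ d


end Pool.Agent.H14IIB
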