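import Mathlib
import Pool.Agent.H14IIB.Defs

set_option autoImplicit false

open MeasureTheory Set Module Filter Topology
open scoped ENNReal Pointwise

namespace Pool.Agent.H14IIB

section G1
theorem G1_emb_add {d : ℕ} (y y' : Fin d → ℝ) (t t' : ℝ) :
    emb (y + y') (t + t') = emb y t + emb y' t' := by
  ext i
  refine Fin.cases ?_ (fun j => ?_) i <;> simp [emb]

theorem G1_emb_smul {d : ℕ} (c : ℝ) (y : Fin d → ℝ) (t : ℝ) :
    emb (c • y) (c * t) = c • emb y t := by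
  ext i
  refine Fin.cases ?_ (fun j => ?_) i <;> simp [emb]

/-- the inclusion of `E d` as the coordinate hyperplane -/
noncomputable def G1_J (d : ℕ) : E d →ₗᵢ[ℝ] E (d + 1) where
  toFun z := emb z.ofLp 0
  map_add' x y := by
    have := G1_emb_add x.ofLp y.ofLp 0 0
    simpa using this
  map_smul' c x := by
    have := G1_emb_smul c x.ofLp 0
    simpa using this
  norm_map' x := by
    simp only [LinearMap.coe_mk, AddHom.coe_mk]
    rw [EuclideanSpace.norm_eq, EuclideanSpace.norm_eq, Fin.sum_univ_succ]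
    simp [emb]

theorem G1_J_apply {d : ℕ} (z : E d) : G1_J d z = emb z.ofLp 0 := rfl

/-- the projection onto the last coordinates -/
noncomputable def G1_P (d : ℕ) : E (d + 1) →ₗ[ℝ] E d where
  toFun x := WithLp.toLp 2 (fun i => x.ofLp i.succ)
  map_add' x y := by ext i; simp
  map_smul' c x := by ext i; simp

theorem G1_P_apply {d : ℕ} (x : E (d + 1)) (i : Fin d) : (G1_P d x).ofLp i = x.ofLp i.succ := rfl

theorem G1_single_succ {d : ℕ} (j : Fin d) :
    (EuclideanSpace.single j.succ (1 : ℝ) : E (d + 1)) = emb (Pi.single j 1) 0 := by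
  ext i
  refine Fin.cases ?_ (fun k => ?_) i
  · simp [emb]
  · simp only [emb, Fin.cons_succ]
    by_cases h : k = j
    · subst h; simp
    · rw [Pi.single_eq_of_ne h]
      simp [h]

theorem G1_single_zero {d : ℕ} :
    (EuclideanSpace.single 0 (1 : ℝ) : E (d + 1)) = emb 0 1 := by
  ext i
  refine Fin.cases ?_ (fun k => ?_) i
  · simp [emb]
  · simp [emb]

theorem G1_det {d : ℕ} (T' : E (d + 1) →ₗ[ℝ] E (d + 1)) (c : ℝ)
    (h0 : ∀ y : Fin d → ℝ, (T' (emb y 0)).ofLp 0 = 0) (h1 : (T' (emb 0 1)).ofLp 0 = c) :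
    LinearMap.det T' = c * LinearMap.det (G1_P d ∘ₗ T' ∘ₗ (G1_J d).toLinearMap) := by
  rw [← LinearMap.det_toMatrix (EuclideanSpace.basisFun (Fin (d + 1)) ℝ).toBasis,
    ← LinearMap.det_toMatrix (EuclideanSpace.basisFun (Fin d) ℝ).toBasis,
    Matrix.det_succ_row_zero, Finset.sum_eq_single 0]
  · simp only [Fin.val_zero, pow_zero, one_mul]
    congr 1
    · rw [LinearMap.toMatrix_apply]
      simp only [OrthonormalBasis.coe_toBasis, EuclideanSpace.basisFun_apply,
        OrthonormalBasis.coe_toBasis_repr_apply, EuclideanSpace.basisFun_repr]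
      rw [G1_single_zero, h1]
    · congr 1
      ext i j
      rw [Matrix.submatrix_apply, LinearMap.toMatrix_apply, LinearMap.toMatrix_apply]
      simp only [OrthonormalBasis.coe_toBasis, EuclideanSpace.basisFun_apply,
        OrthonormalBasis.coe_toBasis_repr_apply, EuclideanSpace.basisFun_repr,
        Fin.zero_succAbove, LinearMap.comp_apply]
      rw [G1_P_apply, G1_single_succ]
      rfl
  · intro j _ hj
    obtain ⟨k, rfl⟩ := Fin.exists_succ_eq.mpr hj
    rw [LinearMap.toMatrix_apply]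
    simp only [OrthonormalBasis.coe_toBasis, EuclideanSpace.basisFun_apply,
        OrthonormalBasis.coe_toBasis_repr_apply, EuclideanSpace.basisFun_repr]
    rw [G1_single_succ, h0]
    simp
  · intro h
    exact absurd (Finset.mem_univ _) h

theorem G1_basis {d : ℕ} (ξ : E (d + 1)) (hξ : ξ ≠ 0) :
    ∃ b : OrthonormalBasis (Fin (d + 1)) ℝ (E (d + 1)), b 0 = (‖ξ‖)⁻¹ • ξ := by
  have hn : ‖ξ‖ ≠ 0 := norm_ne_zero_iff.mpr hξ
  have ho : Orthonormal ℝ (({0} : Set (Fin (d + 1))).domRestrict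
      (fun _ => (‖ξ‖)⁻¹ • ξ)) := by
    constructor
    · intro i
      simp [Set.domRestrict, norm_smul, hn]
    · intro i j hij
      exact absurd (Subsingleton.elim i j) hij
  obtain ⟨b, hb⟩ := ho.exists_orthonormalBasis_extension_of_card_eq (by simp)
  exact ⟨b, hb 0 rfl⟩

theorem G1_normDet {d : ℕ} (T : E (d + 1) ≃ₗ[ℝ] E (d + 1)) (ξ : E (d + 1)) (hξ : ξ ≠ 0)
    (h0 : ∀ y : Fin d → ℝ, inner ℝ ξ (T (emb y 0)) = 0) (h1 : inner ℝ ξ (T (emb 0 1)) = 1) :
    ((T : E (d + 1) →ₗ[ℝ] E (d + 1)) ∘ₗ (G1_J d).toLinearMap).normDet =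
      ‖ξ‖ * |LinearMap.det (T : E (d + 1) →ₗ[ℝ] E (d + 1))| := by
  obtain ⟨b, hb⟩ := G1_basis ξ hξ
  have hn : ‖ξ‖ ≠ 0 := norm_ne_zero_iff.mpr hξ
  set S : E (d + 1) →ₗᵢ[ℝ] E (d + 1) := b.repr.symm.toLinearIsometry with hS
  set T' : E (d + 1) →ₗ[ℝ] E (d + 1) := b.repr.toLinearEquiv.toLinearMap ∘ₗ T.toLinearMap with hT'
  have hST : S.toLinearMap ∘ₗ T' = T.toLinearMap := by
    ext x i
    simp [hS, hT']
  have hT0 : ∀ y : Fin d → ℝ, (T' (emb y 0)).ofLp 0 = 0 := by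
    intro y
    have : (T' (emb y 0)).ofLp 0 = inner ℝ (b 0) (T (emb y 0)) := by
      simp [hT', OrthonormalBasis.repr_apply_apply]
    rw [this, hb, inner_smul_left, h0]
    simp
  have hT1 : (T' (emb 0 1)).ofLp 0 = ‖ξ‖⁻¹ := by
    have : (T' (emb 0 1)).ofLp 0 = inner ℝ (b 0) (T (emb 0 1)) := by
      simp [hT', OrthonormalBasis.repr_apply_apply]
    rw [this, hb, inner_smul_left, h1]
    simp
  have hdet := G1_det T' ‖ξ‖⁻¹ hT0 hT1
  set B : E d →ₗ[ℝ] E d := G1_P d ∘ₗ T' ∘ₗ (G1_J d).toLinearMap with hB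
  have hJB : (G1_J d).toLinearMap ∘ₗ B = T' ∘ₗ (G1_J d).toLinearMap := by
    refine LinearMap.ext fun z => ?_
    apply PiLp.ext
    intro i
    refine Fin.cases ?_ (fun k => ?_) i
    · have h2 : (T' (G1_J d z)).ofLp 0 = 0 := hT0 z.ofLp
      have h3 : (G1_J d (B z)).ofLp 0 = 0 := by
        rw [G1_J_apply]; simp [emb]
      change (G1_J d (B z)).ofLp 0 = (T' (G1_J d z)).ofLp 0
      rw [h2, h3]
    · change (G1_J d (B z)).ofLp k.succ = (T' (G1_J d z)).ofLp k.succ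
      rw [G1_J_apply]
      simp only [emb, Fin.cons_succ]
      rfl
  have hTJ : (T : E (d + 1) →ₗ[ℝ] E (d + 1)) ∘ₗ (G1_J d).toLinearMap =
      (S.comp (G1_J d)).toLinearMap ∘ₗ B := by
    have e1 : (S.comp (G1_J d)).toLinearMap = S.toLinearMap ∘ₗ (G1_J d).toLinearMap := rfl
    rw [e1, LinearMap.comp_assoc, hJB, ← LinearMap.comp_assoc, hST]
  have hTn : |LinearMap.det (T : E (d + 1) →ₗ[ℝ] E (d + 1))| = |LinearMap.det T'| := by
    have e2 : (T : E (d + 1) →ₗ[ℝ] E (d + 1)) = S.toLinearMap ∘ₗ T' := hST.symm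
    rw [← LinearMap.normDet_eq_abs_det, ← LinearMap.normDet_eq_abs_det, e2,
      LinearMap.normDet_comp_of_finrank_eq _ _ rfl, LinearIsometry.normDet_eq_one, one_mul]
  rw [hTJ, LinearMap.normDet_comp_of_finrank_eq _ _ rfl, LinearIsometry.normDet_eq_one, one_mul,
    LinearMap.normDet_eq_abs_det, hTn, hdet, abs_mul, abs_inv, abs_norm,
    ← mul_assoc, mul_inv_cancel₀ hn, one_mul]

theorem G1 {d : ℕ} (T : E (d + 1) ≃ₗ[ℝ] E (d + 1)) (ξ : E (d + 1)) (hξ : ξ ≠ 0)
    (h0 : ∀ y : Fin d → ℝ, inner ℝ ξ (T (emb y 0)) = 0) (h1 : inner ℝ ξ (T (emb 0 1)) = 1)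
    (K : Set (E (d + 1))) (hK : MeasurableSet K) :
    sec K ξ = ENNReal.ofReal |LinearMap.det (T : E (d + 1) →ₗ[ℝ] E (d + 1))| *
      volume {y : Fin d → ℝ | T (emb y 0) ∈ K} := by
  have hn : 0 < ‖ξ‖ := norm_pos_iff.mpr hξ
  set f0 : E d →ₗ[ℝ] E (d + 1) :=
    (T : E (d + 1) →ₗ[ℝ] E (d + 1)) ∘ₗ (G1_J d).toLinearMap with hf0
  have hf0a : ∀ z : E d, f0 z = T (emb z.ofLp 0) := fun z => rfl
  have hrange : Set.range f0 = {y | inner ℝ ξ y = 0} := by
    ext y
    constructor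
    · rintro ⟨z, rfl⟩
      exact h0 z.ofLp
    · intro hy
      have hx : T.symm y = emb (fun i => (T.symm y).ofLp i.succ) ((T.symm y).ofLp 0) := by
        ext i
        refine Fin.cases ?_ (fun k => ?_) i <;> simp [emb]
      set a : Fin d → ℝ := fun i => (T.symm y).ofLp i.succ with ha
      set t : ℝ := (T.symm y).ofLp 0 with ht
      have h2 : emb a t = emb a 0 + t • emb 0 1 := by
        rw [← G1_emb_smul, ← G1_emb_add]
        simp
      have h3 : y = T (emb a 0) + t • T (emb 0 1) := by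
        rw [← map_smul, ← map_add, ← h2, ← hx]
        simp
      have h4 : inner ℝ ξ y = t := by
        rw [h3, inner_add_right, inner_smul_right, h0, h1]
        simp
      have h5 : t = 0 := by rw [← h4]; exact hy
      refine ⟨WithLp.toLp 2 a, ?_⟩
      rw [hf0a, h3, h5]
      simp
  have hinter : K ∩ {y | inner ℝ ξ y = 0} = f0 '' (f0 ⁻¹' K) := by
    rw [Set.image_preimage_eq_inter_range, hrange]
  have hfr : finrank ℝ (E d) = d := by simp
  have hmain := f0.euclideanHausdorffMeasure_image_eq_normDet_mul_volume (f0 ⁻¹' K)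
  rw [hfr] at hmain
  have hfm : Measurable f0 := (LinearMap.continuous_of_finiteDimensional f0).measurable
  have hvol : volume {y : Fin d → ℝ | T (emb y 0) ∈ K} = volume (f0 ⁻¹' K) := by
    have := (PiLp.volume_preserving_toLp (Fin d)).measure_preimage
      (hfm hK).nullMeasurableSet
    rw [← this]
    rfl
  unfold sec
  rw [hinter, hmain, hvol, hf0, G1_normDet T ξ hξ h0 h1, ENNReal.ofReal_mul hn.le,
    mul_assoc, mul_comm (ENNReal.ofReal ‖ξ‖), mul_div_assoc, ENNReal.div_self, mul_one]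
  · exact (ENNReal.ofReal_pos.mpr hn).ne'
  · exact ENNReal.ofReal_ne_top

end G1

section G2
theorem G2 {d : ℕ} (ξ : E (d + 1)) (hξ : ξ ≠ 0) :
    ∃ T : E (d + 1) ≃ₗ[ℝ] E (d + 1),
      (∀ y : Fin d → ℝ, inner ℝ ξ (T (emb y 0)) = 0) ∧ inner ℝ ξ (T (emb 0 1)) = 1 := by
  have he : (EuclideanSpace.single (0 : Fin (d + 1)) (1 : ℝ)) ≠ 0 := by
    intro h
    have := congrArg (fun v : E (d + 1) => v 0) h
    simp at this
  obtain ⟨S, hS⟩ := SeparatingDual.exists_continuousLinearEquiv_apply_eq (R := ℝ) hξ he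
  have h1 : (LinearMap.adjoint (S : E (d + 1) →ₗ[ℝ] E (d + 1))) ∘ₗ
      (LinearMap.adjoint (S.symm : E (d + 1) →ₗ[ℝ] E (d + 1))) = LinearMap.id := by
    rw [← LinearMap.adjoint_comp]
    have : (S.symm : E (d + 1) →ₗ[ℝ] E (d + 1)) ∘ₗ (S : E (d + 1) →ₗ[ℝ] E (d + 1))
        = LinearMap.id := by
      ext x; simp
    rw [this]
    exact LinearMap.adjoint_id
  have h2 : (LinearMap.adjoint (S.symm : E (d + 1) →ₗ[ℝ] E (d + 1))) ∘ₗ
      (LinearMap.adjoint (S : E (d + 1) →ₗ[ℝ] E (d + 1))) = LinearMap.id := by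
    rw [← LinearMap.adjoint_comp]
    have : (S : E (d + 1) →ₗ[ℝ] E (d + 1)) ∘ₗ (S.symm : E (d + 1) →ₗ[ℝ] E (d + 1))
        = LinearMap.id := by
      ext x; simp
    rw [this]
    exact LinearMap.adjoint_id
  obtain ⟨T, hT⟩ : ∃ T : E (d + 1) ≃ₗ[ℝ] E (d + 1), ∀ x,
      T x = LinearMap.adjoint (S : E (d + 1) →ₗ[ℝ] E (d + 1)) x :=
    ⟨LinearEquiv.ofLinearMap _ _ h1 h2, fun x => rfl⟩
  refine ⟨T, ?_⟩
  have key : ∀ x : E (d + 1), inner ℝ ξ (T x) = x 0 := by
    intro x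
    rw [hT x, LinearMap.adjoint_inner_right]
    have hS' : (S : E (d + 1) →ₗ[ℝ] E (d + 1)) ξ = EuclideanSpace.single 0 1 := hS
    rw [hS', EuclideanSpace.inner_single_left]
    simp
  constructor
  · intro y
    rw [key]
    simp [emb]
  · rw [key]
    simp [emb]

end G2

section G3
theorem G3 {d : ℕ} (T : E (d + 1) ≃ₗ[ℝ] E (d + 1)) (ξ : E (d + 1)) (hξ : ξ ≠ 0)
    (K : Set (E (d + 1))) (hK : MeasurableSet K) :
    sec (T '' K) ξ = ENNReal.ofReal |LinearMap.det (T : E (d + 1) →ₗ[ℝ] E (d + 1))| *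
      sec K (LinearMap.adjoint (T : E (d + 1) →ₗ[ℝ] E (d + 1)) ξ) := by
  set η := LinearMap.adjoint (T : E (d + 1) →ₗ[ℝ] E (d + 1)) ξ with hη
  have hin : ∀ v : E (d + 1), inner ℝ ξ (T v) = inner ℝ η v := by
    intro v
    rw [hη, LinearMap.adjoint_inner_left]
    rfl
  have hη0 : η ≠ 0 := by
    intro h
    apply hξ
    have h1 := hin (T.symm ξ)
    rw [h, inner_zero_left, LinearEquiv.apply_symm_apply] at h1
    exact inner_self_eq_zero.1 h1
  obtain ⟨T0, h0, h1⟩ := G2 η hη0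
  have hmeas : MeasurableSet (T '' K) :=
    (T.toContinuousLinearEquiv.toHomeomorph.measurableEmbedding.measurableSet_image).2 hK
  have e1 := G1 (T0.trans T) ξ hξ
    (fun y => by rw [LinearEquiv.trans_apply, hin]; exact h0 y)
    (by rw [LinearEquiv.trans_apply, hin]; exact h1) (T '' K) hmeas
  have e2 := G1 T0 η hη0 h0 h1 K hK
  rw [e1, e2]
  have hset : {y : Fin d → ℝ | (T0.trans T) (emb y 0) ∈ T '' K} =
      {y : Fin d → ℝ | T0 (emb y 0) ∈ K} := by
    ext y
    show (T0.trans T) (emb y 0) ∈ T '' K ↔ T0 (emb y 0) ∈ K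
    rw [LinearEquiv.trans_apply]
    exact T.injective.mem_set_image
  have hdet : LinearMap.det ((T0.trans T : E (d + 1) ≃ₗ[ℝ] E (d + 1)) : E (d + 1) →ₗ[ℝ] E (d + 1)) =
      LinearMap.det (T : E (d + 1) →ₗ[ℝ] E (d + 1)) *
        LinearMap.det (T0 : E (d + 1) →ₗ[ℝ] E (d + 1)) := by
    rw [LinearEquiv.coe_trans, LinearMap.det_comp]
  rw [hset, hdet, abs_mul, ENNReal.ofReal_mul (abs_nonneg _), mul_assoc]

end G3

section G4
theorem G4_emb_zero {d : ℕ} (y : Fin d → ℝ) (t : ℝ) : (emb y t) 0 = t := rfl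

theorem G4_emb_succ {d : ℕ} (y : Fin d → ℝ) (t : ℝ) (i : Fin d) : (emb y t) i.succ = y i := rfl

theorem G4_eta {d : ℕ} (v : E (d + 1)) : emb (fun i => v i.succ) (v 0) = v := by
  ext i
  refine Fin.cases ?_ (fun i => ?_) i
  · rfl
  · rfl

/-- the linear equivalence -/
noncomputable def G4_T {d : ℕ} (w : Fin d → ℝ) (t : ℝ) (ht : t ≠ 0) : E (d + 1) ≃ₗ[ℝ] E (d + 1) where
  toFun v := emb (fun i => v i.succ) (w ⬝ᵥ (fun i => v i.succ) + v 0 / t)
  map_add' v v' := by
    ext i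
    refine Fin.cases ?_ (fun i => ?_) i
    · show w ⬝ᵥ (fun i => (v + v') i.succ) + (v + v') 0 / t =
        (w ⬝ᵥ (fun i => v i.succ) + v 0 / t) + (w ⬝ᵥ (fun i => v' i.succ) + v' 0 / t)
      have : (fun i : Fin d => (v + v') i.succ) = (fun i => v i.succ) + (fun i => v' i.succ) := rfl
      rw [this, dotProduct_add, PiLp.add_apply]
      ring
    · rfl
  map_smul' c v := by
    ext i
    refine Fin.cases ?_ (fun i => ?_) i
    · show w ⬝ᵥ (fun i => (c • v) i.succ) + (c • v) 0 / t =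
        c * (w ⬝ᵥ (fun i => v i.succ) + v 0 / t)
      have : (fun i : Fin d => (c • v) i.succ) = c • (fun i => v i.succ) := rfl
      rw [this, dotProduct_smul, PiLp.smul_apply, smul_eq_mul, smul_eq_mul]
      ring
    · rfl
  invFun v := emb (fun i => v i.succ) (t * (v 0 - w ⬝ᵥ (fun i => v i.succ)))
  left_inv v := by
    ext i
    refine Fin.cases ?_ (fun i => ?_) i
    · show t * ((w ⬝ᵥ (fun i => v i.succ) + v 0 / t) - w ⬝ᵥ (fun i => v i.succ)) = v 0
      field_simp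
      ring
    · rfl
  right_inv v := by
    ext i
    refine Fin.cases ?_ (fun i => ?_) i
    · show w ⬝ᵥ (fun i => v i.succ) + (t * (v 0 - w ⬝ᵥ (fun i => v i.succ))) / t = v 0
      field_simp
      ring
    · rfl

theorem G4_T_emb {d : ℕ} (w : Fin d → ℝ) (t : ℝ) (ht : t ≠ 0) (y : Fin d → ℝ) (s : ℝ) :
    G4_T w t ht (emb y s) = emb y (w ⬝ᵥ y + s / t) := rfl

/-- matrix of `G4_T` -/
noncomputable def G4_M {d : ℕ} (w : Fin d → ℝ) (t : ℝ) : Matrix (Fin (d + 1)) (Fin (d + 1)) ℝ :=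
  Matrix.of (Fin.cons (Fin.cons (1 / t) w) (fun i => Fin.cons 0 (fun j => if i = j then 1 else 0)))

theorem G4_M_det {d : ℕ} (w : Fin d → ℝ) (t : ℝ) : (G4_M w t).det = 1 / t := by
  rw [Matrix.det_of_upperTriangular]
  · rw [Fin.prod_univ_succ]
    simp [G4_M]
  · intro i j hij
    revert hij
    refine Fin.cases ?_ (fun i => ?_) i
    · intro h
      simp at h
    · refine Fin.cases ?_ (fun j => ?_) j
      · intro _
        simp [G4_M]
      · intro h
        simp only [id_eq, Fin.succ_lt_succ_iff] at h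
        simp [G4_M, ne_of_gt h]

theorem G4_T_det {d : ℕ} (w : Fin d → ℝ) (t : ℝ) (ht : t ≠ 0) :
    LinearMap.det (G4_T w t ht : E (d + 1) →ₗ[ℝ] E (d + 1)) = 1 / t := by
  rw [← G4_M_det w t, ← LinearMap.det_toLin']
  let e : (Fin (d + 1) → ℝ) ≃ₗ[ℝ] E (d + 1) := (WithLp.linearEquiv 2 ℝ (Fin (d + 1) → ℝ)).symm
  rw [← LinearMap.det_conj (Matrix.toLin' (G4_M w t)) e]
  congr 1
  ext v i
  simp only [LinearMap.comp_apply, LinearEquiv.coe_coe]
  show (G4_T w t ht v) i = ((G4_M w t).mulVec (fun j => v j)) i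
  refine Fin.cases ?_ (fun i => ?_) i
  · show w ⬝ᵥ (fun i => v i.succ) + v 0 / t = _
    simp only [Matrix.mulVec, dotProduct, G4_M, Matrix.of_apply, Fin.sum_univ_succ, Fin.cons_zero,
      Fin.cons_succ]
    ring
  · show v i.succ = _
    simp [Matrix.mulVec, dotProduct, G4_M, Matrix.of_apply, Fin.sum_univ_succ]

theorem G4 {d : ℕ} (K : Set (E (d + 1))) (hK : MeasurableSet K) (x : Fin d → ℝ) (t : ℝ)
    (ht : t ≠ 0) : sec K (emb x t) = A K (-(t⁻¹ • x)) / ENNReal.ofReal |t| := by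
  have hinner : ∀ (a b : Fin d → ℝ) (s r : ℝ), inner ℝ (emb a s) (emb b r) = s * r + a ⬝ᵥ b := by
    intro a b s r
    rw [PiLp.inner_apply, Fin.sum_univ_succ]
    simp only [G4_emb_zero, G4_emb_succ, dotProduct]
    congr 1
    · simp [mul_comm]
    · refine Finset.sum_congr rfl (fun i _ => ?_)
      simp [mul_comm]
  have hne : emb x t ≠ 0 := by
    intro h
    apply ht
    have := congrArg (fun v : E (d + 1) => v 0) h
    simpa [G4_emb_zero] using this
  rw [G1 (G4_T (-(t⁻¹ • x)) t ht) (emb x t) hne ?_ ?_ K hK, G4_T_det]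
  · have h1 : |1 / t| = |t|⁻¹ := by rw [abs_div, abs_one, one_div]
    rw [h1, ENNReal.ofReal_inv_of_pos (abs_pos.mpr ht), mul_comm, ← div_eq_mul_inv]
    congr 1
    unfold A
    congr 1
    ext y
    simp only [G4_T_emb, zero_div, add_zero]
  · intro y
    rw [G4_T_emb, hinner, zero_div, add_zero, neg_dotProduct, smul_dotProduct, smul_eq_mul]
    field_simp
    ring
  · rw [G4_T_emb, hinner, dotProduct_zero, dotProduct_zero]
    field_simp
    ring

end G4

section G5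
theorem G5 {d : ℕ} (K : Set (E (d + 1))) (x : E (d + 1)) (hx : x ≠ 0) :
    x ∈ IB K ↔ 1 ≤ sec K x := by
  have hpos : 0 < ‖x‖ := norm_pos_iff.2 hx
  have h0 : ENNReal.ofReal ‖x‖ ≠ 0 := by
    rw [Ne, ENNReal.ofReal_eq_zero, not_le]; exact hpos
  unfold sec
  rw [ENNReal.le_div_iff_mul_le (Or.inl h0) (Or.inl ENNReal.ofReal_ne_top), one_mul]
  constructor
  · rintro (h | h)
    · exact absurd h hx
    · exact h
  · intro h
    exact Or.inr h

theorem G5b {d : ℕ} (K : Set (E (d + 1))) (x : E (d + 1)) (hx : x ≠ 0) (c : ℝ) (hc : c ≠ 0) :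
    sec K (c • x) = sec K x / ENNReal.ofReal |c| := by
  have hset : {y : E (d + 1) | inner ℝ (c • x) y = 0} = {y | inner ℝ x y = 0} := by
    ext y
    simp [real_inner_smul_left, hc]
  have hpos : 0 < ‖x‖ := norm_pos_iff.2 hx
  have hcpos : 0 < |c| := abs_pos.2 hc
  unfold sec
  rw [hset, norm_smul, Real.norm_eq_abs, ENNReal.ofReal_mul (abs_nonneg c), div_eq_mul_inv,
    div_eq_mul_inv, div_eq_mul_inv, mul_assoc]
  congr 1
  rw [ENNReal.mul_inv, mul_comm]
  · left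
    rw [Ne, ENNReal.ofReal_eq_zero, not_le]; exact hcpos
  · left
    exact ENNReal.ofReal_ne_top

end G5

section G6
theorem G6_det_adjoint {n : ℕ} (f : E n →ₗ[ℝ] E n) :
    LinearMap.det (LinearMap.adjoint f) = LinearMap.det f := by
  let b := EuclideanSpace.basisFun (Fin n) ℝ
  rw [← LinearMap.det_toMatrix b.toBasis (LinearMap.adjoint f),
    ← LinearMap.det_toMatrix b.toBasis f, LinearMap.toMatrix_adjoint, Matrix.det_conjTranspose]
  simp

/-- the inverse of the adjoint -/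
noncomputable def G6_U {n : ℕ} (T : E n ≃ₗ[ℝ] E n) : E n ≃ₗ[ℝ] E n :=
  LinearEquiv.ofLinearMap (LinearMap.adjoint (T.symm : E n →ₗ[ℝ] E n))
    (LinearMap.adjoint (T : E n →ₗ[ℝ] E n))
    (by rw [← LinearMap.adjoint_comp]; simp)
    (by rw [← LinearMap.adjoint_comp]; simp)

theorem G6 {d : ℕ} (T : E (d + 1) ≃ₗ[ℝ] E (d + 1)) : ∃ S : E (d + 1) ≃ₗ[ℝ] E (d + 1),
    |LinearMap.det (S : E (d + 1) →ₗ[ℝ] E (d + 1))| =
      |LinearMap.det (T : E (d + 1) →ₗ[ℝ] E (d + 1))| ^ d ∧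
    ∀ K : Set (E (d + 1)), MeasurableSet K → IB (T '' K) = S '' (IB K) := by
  have hdet : LinearMap.det (T : E (d + 1) →ₗ[ℝ] E (d + 1)) ≠ 0 := (LinearEquiv.isUnit_det' T).ne_zero
  set c : ℝ := |LinearMap.det (T : E (d + 1) →ₗ[ℝ] E (d + 1))| with hc
  have hc0 : 0 < c := abs_pos.mpr hdet
  refine ⟨(G6_U T).trans (LinearEquiv.smulOfNeZero ℝ (E (d + 1)) c hc0.ne'), ?_, ?_⟩
  · have h1 : (((G6_U T).trans (LinearEquiv.smulOfNeZero ℝ (E (d + 1)) c hc0.ne') :
        E (d + 1) ≃ₗ[ℝ] E (d + 1)) : E (d + 1) →ₗ[ℝ] E (d + 1)) =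
        c • LinearMap.adjoint (T.symm : E (d + 1) →ₗ[ℝ] E (d + 1)) := by
      ext x
      rfl
    rw [h1, LinearMap.det_smul, G6_det_adjoint, finrank_euclideanSpace, Fintype.card_fin, abs_mul,
      abs_of_nonneg (by positivity)]
    have h2 : |LinearMap.det (T.symm : E (d + 1) →ₗ[ℝ] E (d + 1))| * c = 1 := by
      rw [hc, ← abs_mul, LinearEquiv.det_symm_mul_det, abs_one]
    rw [pow_succ, mul_assoc, mul_comm c, h2, mul_one]
  · intro K hK
    ext x
    rw [LinearEquiv.image_eq_preimage_symm _ (IB K), mem_preimage]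
    have hs : ((G6_U T).trans (LinearEquiv.smulOfNeZero ℝ (E (d + 1)) c hc0.ne')).symm x =
        c⁻¹ • LinearMap.adjoint (T : E (d + 1) →ₗ[ℝ] E (d + 1)) x := by
      rw [LinearEquiv.symm_apply_eq]
      change x = c • LinearMap.adjoint (T.symm : E (d + 1) →ₗ[ℝ] E (d + 1))
        (c⁻¹ • LinearMap.adjoint (T : E (d + 1) →ₗ[ℝ] E (d + 1)) x)
      rw [map_smul, smul_smul, mul_inv_cancel₀ hc0.ne', one_smul, ← LinearMap.comp_apply,
        ← LinearMap.adjoint_comp]
      simp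
    by_cases hx : x = 0
    · subst hx
      simp [IB]
    have hy : c⁻¹ • LinearMap.adjoint (T : E (d + 1) →ₗ[ℝ] E (d + 1)) x ≠ 0 := by
      rw [← hs]
      exact (LinearEquiv.map_ne_zero_iff _).mpr hx
    rw [hs, G5 _ _ hx, G5 _ _ hy, G3 T x hx K hK, G5b _ _ ?_ _ (inv_ne_zero hc0.ne'),
      abs_of_pos (inv_pos.mpr hc0), ENNReal.ofReal_inv_of_pos hc0, ← hc, div_eq_mul_inv, inv_inv,
      mul_comm]
    intro h0
    exact hy (by rw [h0, smul_zero])

end G6

section G10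
theorem G10_cont {d : ℕ} :
    Continuous (fun p : (Fin d → ℝ) × (Fin d → ℝ) => emb p.2 (p.1 ⬝ᵥ p.2)) := by
  unfold emb
  apply (PiLp.continuous_toLp 2 _).comp
  apply continuous_pi
  intro i
  refine Fin.cases ?_ (fun j => ?_) i
  · simp only [Fin.cons_zero]
    unfold dotProduct
    exact continuous_finsetSum _ (fun j _ => ((continuous_apply j).comp continuous_fst).mul
      ((continuous_apply j).comp continuous_snd))
  · simp only [Fin.cons_succ]
    exact (continuous_apply j).comp continuous_snd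

theorem G10 {d : ℕ} (K : Set (E (d + 1))) (hK : MeasurableSet K) : Measurable (A K) := by
  have h1 : MeasurableSet {p : (Fin d → ℝ) × (Fin d → ℝ) | emb p.2 (p.1 ⬝ᵥ p.2) ∈ K} :=
    G10_cont.measurable hK
  exact measurable_measure_prodMk_left h1

end G10

section G7
theorem G7_half (d : ℕ) (ρ : ℝ) (hρ : 0 ≤ ρ) :
    ∫ t in (0:ℝ)..ρ, |t| ^ d = ρ ^ (d + 1) / (d + 1) := by
  have h1 : ∫ t in (0:ℝ)..ρ, |t| ^ d = ∫ t in (0:ℝ)..ρ, t ^ d := by
    apply intervalIntegral.integral_congr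
    intro t ht
    rw [Set.uIcc_of_le hρ] at ht
    simp only
    rw [abs_of_nonneg ht.1]
  rw [h1, integral_pow, zero_pow (by omega), sub_zero]

theorem G7_half' (d : ℕ) (ρ : ℝ) (hρ : 0 ≤ ρ) :
    ∫ t in (-ρ)..(0:ℝ), |t| ^ d = ρ ^ (d + 1) / (d + 1) := by
  have h1 := intervalIntegral.integral_comp_neg (a := 0) (b := ρ) (fun t : ℝ => |t| ^ d)
  simp only [abs_neg, neg_zero] at h1
  rw [← h1, G7_half d ρ hρ]

theorem G7_full (d : ℕ) (ρ : ℝ) (hρ : 0 ≤ ρ) :
    ∫⁻ t in Icc (-ρ) ρ, ENNReal.ofReal (|t| ^ d) =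
      ENNReal.ofReal (2 / (d + 1)) * ENNReal.ofReal ρ ^ (d + 1) := by
  have hc : Continuous (fun t : ℝ => |t| ^ d) := by fun_prop
  rw [← ofReal_integral_eq_lintegral_ofReal hc.continuousOn.integrableOn_Icc
    (Eventually.of_forall fun t => by positivity), integral_Icc_eq_integral_Ioc,
    ← intervalIntegral.integral_of_le (by linarith),
    ← intervalIntegral.integral_add_adjacent_intervals
      (hc.intervalIntegrable (-ρ) 0) (hc.intervalIntegrable 0 ρ),
    G7_half d ρ hρ, G7_half' d ρ hρ, ← ENNReal.ofReal_pow hρ,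
    ← ENNReal.ofReal_mul (by positivity)]
  congr 1
  ring

theorem G7_inner (d : ℕ) (R : ℝ≥0∞) :
    ∫⁻ t : ℝ, ({t : ℝ | ENNReal.ofReal |t| ≤ R}).indicator (fun t => ENNReal.ofReal (|t| ^ d)) t =
      ENNReal.ofReal (2 / (d + 1)) * R ^ (d + 1) := by
  have hms : MeasurableSet {t : ℝ | ENNReal.ofReal |t| ≤ R} :=
    measurableSet_le (by fun_prop) measurable_const
  rw [lintegral_indicator hms]
  by_cases hR : R = ⊤
  · subst hR
    have h2 : (0:ℝ) < 2 / (d + 1) := by positivity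
    rw [ENNReal.top_pow (by omega), ENNReal.mul_top (by simpa using h2)]
    have huniv : {t : ℝ | ENNReal.ofReal |t| ≤ ⊤} = univ := by
      ext t
      simp
    rw [huniv, Measure.restrict_univ]
    apply ENNReal.eq_top_of_forall_nnreal_le
    intro b
    -- choose `ρ` large
    have h3 : ∀ ρ : ℝ, 0 ≤ ρ → ENNReal.ofReal (2 / (d + 1) * ρ ^ (d + 1)) ≤
        ∫⁻ t : ℝ, ENNReal.ofReal (|t| ^ d) := by
      intro ρ hρ
      rw [ENNReal.ofReal_mul h2.le, ENNReal.ofReal_pow hρ, ← G7_full d ρ hρ]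
      exact setLIntegral_le_lintegral _ _
    set ρ : ℝ := max 1 ((b:ℝ) * (d + 1) / 2) with hρd
    have hρ1 : 1 ≤ ρ := le_max_left _ _
    have hρ2 : (b:ℝ) * (d + 1) / 2 ≤ ρ := le_max_right _ _
    have h4 : (b:ℝ) ≤ 2 / (d + 1) * ρ ^ (d + 1) := by
      have h5 : ρ ≤ ρ ^ (d + 1) := le_self_pow₀ hρ1 (by omega)
      have h6 : (b:ℝ) * (d + 1) / 2 ≤ ρ ^ (d + 1) := hρ2.trans h5
      have h7 : (0:ℝ) < (d:ℝ) + 1 := by positivity
      calc (b:ℝ) = 2 / (d + 1) * ((b:ℝ) * (d + 1) / 2) := by field_simp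
        _ ≤ 2 / (d + 1) * ρ ^ (d + 1) := mul_le_mul_of_nonneg_left h6 h2.le
    refine le_trans ?_ (h3 ρ (by linarith))
    rw [← ENNReal.ofReal_coe_nnreal]
    exact ENNReal.ofReal_le_ofReal h4
  · have hset : {t : ℝ | ENNReal.ofReal |t| ≤ R} = Icc (-R.toReal) R.toReal := by
      ext t
      rw [mem_ofPred_eq, mem_Icc, ← abs_le, ENNReal.ofReal_le_iff_le_toReal hR]
    rw [hset, G7_full d _ ENNReal.toReal_nonneg, ENNReal.ofReal_toReal hR]

theorem G7_emb_mp (d : ℕ) :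
    MeasurePreserving (fun p : ℝ × (Fin d → ℝ) => (emb p.2 p.1 : E (d + 1))) volume volume := by
  have h1 := (volume_preserving_piFinSuccAbove (fun _ : Fin (d + 1) => ℝ) 0).symm
  have h2 := (PiLp.volume_preserving_toLp (Fin (d + 1))).comp h1
  have h3 : (fun p : ℝ × (Fin d → ℝ) => (emb p.2 p.1 : E (d + 1))) =
      (@WithLp.toLp 2 (Fin (d + 1) → ℝ)) ∘
        (MeasurableEquiv.piFinSuccAbove (fun _ : Fin (d + 1) => ℝ) 0).symm := by
    funext p
    simp only [emb, Function.comp_apply]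
    congr 1
    exact (Fin.insertNth_zero' p.1 p.2).symm
  rw [h3]
  exact h2

theorem G7_slice (d : ℕ) (r : (Fin d → ℝ) → ℝ≥0∞) (t : ℝ) (ht : t ≠ 0) :
    volume {x : Fin d → ℝ | ENNReal.ofReal |t| ≤ r (-(t⁻¹ • x))} =
      ENNReal.ofReal (|t| ^ d) * volume {w : Fin d → ℝ | ENNReal.ofReal |t| ≤ r w} := by
  have h1 : {x : Fin d → ℝ | ENNReal.ofReal |t| ≤ r (-(t⁻¹ • x))} =
      ((-t⁻¹) • ·) ⁻¹' {w : Fin d → ℝ | ENNReal.ofReal |t| ≤ r w} := by
    ext x
    simp only [mem_ofPred_eq, mem_preimage, neg_smul]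
  rw [h1, Measure.addHaar_preimage_smul volume (neg_ne_zero.2 (inv_ne_zero ht))]
  congr 2
  rw [Module.finrank_fin_fun, abs_inv, abs_pow, abs_neg, abs_inv, inv_pow, inv_inv]

theorem G7 {d : ℕ} (M : Set (E (d + 1))) (hM : MeasurableSet M) (r : (Fin d → ℝ) → ℝ≥0∞)
    (hr : Measurable r)
    (h : ∀ (x : Fin d → ℝ) (t : ℝ), t ≠ 0 → (emb x t ∈ M ↔ ENNReal.ofReal |t| ≤ r (-(t⁻¹ • x)))) :
    volume M = ENNReal.ofReal (2 / (d + 1)) * ∫⁻ w, r w ^ (d + 1) := by
  have hmp := G7_emb_mp d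
  rw [← hmp.measure_preimage hM.nullMeasurableSet]
  have hM' : MeasurableSet ((fun p : ℝ × (Fin d → ℝ) => (emb p.2 p.1 : E (d + 1))) ⁻¹' M) :=
    hmp.measurable hM
  rw [Measure.volume_eq_prod, Measure.prod_apply hM']
  have h0 : ∀ᵐ t : ℝ, t ≠ 0 := by
    have := (measure_singleton (μ := (volume : Measure ℝ)) (0:ℝ))
    exact compl_mem_ae_iff.2 this
  have hjm : MeasurableSet {p : ℝ × (Fin d → ℝ) | ENNReal.ofReal |p.1| ≤ r p.2} :=
    measurableSet_le (by fun_prop) (hr.comp measurable_snd)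
  have h1 : ∀ᵐ t : ℝ, volume (Prod.mk t ⁻¹'
      ((fun p : ℝ × (Fin d → ℝ) => (emb p.2 p.1 : E (d + 1))) ⁻¹' M)) =
      ∫⁻ w : Fin d → ℝ, ({p : ℝ × (Fin d → ℝ) | ENNReal.ofReal |p.1| ≤ r p.2}).indicator
        (fun p => ENNReal.ofReal (|p.1| ^ d)) (t, w) := by
    filter_upwards [h0] with t ht
    have e1 : (Prod.mk t ⁻¹' ((fun p : ℝ × (Fin d → ℝ) => (emb p.2 p.1 : E (d + 1))) ⁻¹' M)) =
        {x : Fin d → ℝ | ENNReal.ofReal |t| ≤ r (-(t⁻¹ • x))} := by
      ext x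
      exact h x t ht
    rw [e1, G7_slice d r t ht]
    have e2 : MeasurableSet {w : Fin d → ℝ | ENNReal.ofReal |t| ≤ r w} :=
      measurableSet_le measurable_const hr
    rw [← lintegral_indicator_const e2]
    rfl
  rw [lintegral_congr_ae h1, lintegral_lintegral_swap]
  · rw [← lintegral_const_mul _ (hr.pow_const _)]
    apply lintegral_congr
    intro w
    rw [← G7_inner d (r w)]
    rfl
  · apply Measurable.aemeasurable
    apply Measurable.indicator _ hjm
    fun_prop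

end G7

section G7b

theorem G7b_int (m : ℕ) (R : ℝ≥0∞) :
    ∫⁻ t : ℝ, (if ENNReal.ofReal |t| ≤ R then ENNReal.ofReal |t| ^ m else 0) =
      ENNReal.ofReal (2 / ((m + 1 : ℕ) : ℝ)) * R ^ (m + 1) := by
  have hm1 : (0:ℝ) < ((m + 1 : ℕ) : ℝ) := by positivity
  by_cases hR : R = ⊤
  · subst hR
    simp only [le_top, if_true]
    rw [ENNReal.top_pow (by omega), ENNReal.mul_top (by
      rw [Ne, ENNReal.ofReal_eq_zero, not_le]; positivity)]
    rw [eq_top_iff]
    calc (⊤ : ℝ≥0∞) = volume (Ici (1:ℝ)) := by rw [Real.volume_Ici]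
      _ = ∫⁻ _t in Ici (1:ℝ), 1 := by simp
      _ ≤ ∫⁻ t in Ici (1:ℝ), ENNReal.ofReal |t| ^ m := by
          apply setLIntegral_mono' measurableSet_Ici
          intro t ht
          apply one_le_pow₀
          rw [ENNReal.one_le_ofReal]
          exact le_trans ht (le_abs_self t)
      _ ≤ ∫⁻ t : ℝ, ENNReal.ofReal |t| ^ m := setLIntegral_le_lintegral _ _
  · set ρ := R.toReal with hρ
    have hρ0 : 0 ≤ ρ := ENNReal.toReal_nonneg
    have hRρ : R = ENNReal.ofReal ρ := (ENNReal.ofReal_toReal hR).symm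
    have h1 : ∀ t : ℝ, (if ENNReal.ofReal |t| ≤ R then ENNReal.ofReal |t| ^ m else 0) =
        (Icc (-ρ) ρ).indicator (fun t => ENNReal.ofReal (|t| ^ m)) t := by
      intro t
      by_cases ht : t ∈ Icc (-ρ) ρ
      · rw [indicator_of_mem ht, if_pos, ENNReal.ofReal_pow (abs_nonneg t)]
        rw [hRρ]; exact ENNReal.ofReal_le_ofReal (abs_le.2 ht)
      · rw [indicator_of_notMem ht, if_neg]
        rw [hRρ, ENNReal.ofReal_le_ofReal_iff hρ0]
        intro h; exact ht (abs_le.1 h)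
    simp only [h1]
    rw [lintegral_indicator measurableSet_Icc]
    have hcont : Continuous (fun t : ℝ => |t| ^ m) := by fun_prop
    rw [← ofReal_integral_eq_lintegral_ofReal]
    · have h2 : ∫ t in Icc (-ρ) ρ, |t| ^ m = 2 / ((m + 1 : ℕ) : ℝ) * ρ ^ (m + 1) := by
        rw [integral_Icc_eq_integral_Ioc, ← intervalIntegral.integral_of_le (by linarith)]
        rw [← intervalIntegral.integral_add_adjacent_intervals (b := 0)
          (hcont.intervalIntegrable _ _) (hcont.intervalIntegrable _ _)]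
        have h3 : ∫ t in (0:ℝ)..ρ, |t| ^ m = ρ ^ (m + 1) / (m + 1) := by
          have : ∫ t in (0:ℝ)..ρ, |t| ^ m = ∫ t in (0:ℝ)..ρ, t ^ m := by
            apply intervalIntegral.integral_congr
            intro t ht
            rw [uIcc_of_le hρ0] at ht
            simp only [abs_of_nonneg ht.1]
          rw [this, integral_pow]; simp
        have h4 : ∫ t in (-ρ)..0, |t| ^ m = ρ ^ (m + 1) / (m + 1) := by
          have := intervalIntegral.integral_comp_neg (f := fun t : ℝ => |t| ^ m) (a := 0) (b := ρ)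
          simp only [abs_neg, neg_zero] at this
          rw [← this, h3]
        rw [h3, h4]
        push_cast
        field_simp
        ring
      rw [h2, ENNReal.ofReal_mul (by positivity), ENNReal.ofReal_pow hρ0, ← hRρ]
    · exact (hcont.integrableOn_Icc)
    · exact Filter.Eventually.of_forall fun t => by positivity

theorem G7b_vol {d : ℕ} (f : E (d + 1) → ℝ≥0∞) :
    ∫⁻ x, f x = ∫⁻ p : ℝ × (Fin d → ℝ), f (emb p.2 p.1) ∂(volume.prod volume) := by
  have h1 := (volume_preserving_piFinSuccAbove (fun _ : Fin (d + 1) => ℝ) 0).symm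
  have h2 : MeasurePreserving (WithLp.toLp 2 : (Fin (d + 1) → ℝ) → E (d + 1)) :=
    PiLp.volume_preserving_toLp (Fin (d + 1))
  have h3 := h2.comp h1
  have hemb : MeasurableEmbedding ((WithLp.toLp 2 : (Fin (d + 1) → ℝ) → E (d + 1)) ∘
      (MeasurableEquiv.piFinSuccAbove (fun _ : Fin (d + 1) => ℝ) 0).symm) :=
    (MeasurableEquiv.toLp 2 (Fin (d + 1) → ℝ)).measurableEmbedding.comp
      (MeasurableEquiv.measurableEmbedding _)
  have h4 := h3.lintegral_comp_emb hemb f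
  rw [← h4]
  apply lintegral_congr
  intro p
  congr 1
  unfold emb
  simp only [Function.comp_apply]
  congr 1
  funext i
  refine Fin.cases ?_ ?_ i
  · simp [MeasurableEquiv.piFinSuccAbove]
  · intro j; simp [MeasurableEquiv.piFinSuccAbove]

theorem G7b_scale {d : ℕ} (g : (Fin d → ℝ) → ℝ≥0∞) (hg : Measurable g) {t : ℝ} (ht : t ≠ 0) :
    ∫⁻ y, g (-(t⁻¹ • y)) = ENNReal.ofReal |t| ^ d * ∫⁻ w, g w := by
  have h1 : ∀ y : Fin d → ℝ, -(t⁻¹ • y) = (-t⁻¹) • y := fun y => (neg_smul _ _).symm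
  simp only [h1]
  have hc : -t⁻¹ ≠ 0 := neg_ne_zero.2 (inv_ne_zero ht)
  have h2 := Measure.map_addHaar_smul (volume : Measure (Fin d → ℝ)) hc
  have h3 : ∫⁻ y, g ((-t⁻¹) • y) = ∫⁻ w, g w ∂(Measure.map ((-t⁻¹) • · ) (volume : Measure (Fin d → ℝ))) := by
    rw [lintegral_map hg (measurable_const_smul _)]
  rw [h3, h2, lintegral_smul_measure]
  simp only [finrank_fin_fun, smul_eq_mul]
  congr 1
  rw [← ENNReal.ofReal_pow (abs_nonneg t)]
  congr 1
  rw [abs_inv, abs_pow, abs_neg, abs_inv, inv_pow, inv_inv]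

theorem G7b {d : ℕ} (hd : 1 ≤ d) (M : Set (E (d + 1))) (hM : MeasurableSet M)
    (r : (Fin d → ℝ) → ℝ≥0∞) (hr : Measurable r)
    (h : ∀ (x : Fin d → ℝ) (t : ℝ), t ≠ 0 → (emb x t ∈ M ↔ ENNReal.ofReal |t| ≤ r (-(t⁻¹ • x))))
    (K : Set (E (d + 1))) (hK : MeasurableSet K) :
    ∫⁻ x in M, sec K x = ENNReal.ofReal (2 / d) * ∫⁻ w, A K w * r w ^ d := by
  obtain ⟨m, rfl⟩ : ∃ m, d = m + 1 := ⟨d - 1, by omega⟩
  have hA := G10 K hK
  set h0 : ℝ → (Fin (m + 1) → ℝ) → ℝ≥0∞ := fun t w =>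
    if ENNReal.ofReal |t| ≤ r w then A K w / ENNReal.ofReal |t| else 0 with hh0
  have hm0 : Measurable (Function.uncurry h0) := by
    apply Measurable.ite
    · apply measurableSet_le
      · exact (measurable_fst.abs).ennreal_ofReal
      · exact hr.comp measurable_snd
    · exact (hA.comp measurable_snd).div (measurable_fst.abs).ennreal_ofReal
    · exact measurable_const
  have e1 : ∫⁻ x in M, sec K x = ∫⁻ p : ℝ × (Fin (m + 1) → ℝ),
      h0 p.1 (-(p.1⁻¹ • p.2)) ∂(volume.prod volume) := by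
    rw [← lintegral_indicator hM, G7b_vol]
    apply lintegral_congr_ae
    have hne : ∀ᵐ t : ℝ, t ≠ 0 := by
      have : volume ({0} : Set ℝ) = 0 := measure_singleton 0
      exact compl_mem_ae_iff.2 this
    have hne2 : ∀ᵐ p : ℝ × (Fin (m + 1) → ℝ) ∂(volume.prod volume), p.1 ≠ 0 :=
      Measure.quasiMeasurePreserving_fst.ae hne
    filter_upwards [hne2] with p hp
    by_cases hpM : emb p.2 p.1 ∈ M
    · rw [indicator_of_mem hpM, G4 K hK _ _ hp]
      simp only [hh0]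
      rw [if_pos ((h _ _ hp).1 hpM)]
    · rw [indicator_of_notMem hpM]
      simp only [hh0]
      rw [if_neg (fun hc => hpM ((h _ _ hp).2 hc))]
  have hmeas1 : Measurable (fun p : ℝ × (Fin (m + 1) → ℝ) => h0 p.1 (-(p.1⁻¹ • p.2))) := by
    have h2 : Measurable (fun p : ℝ × (Fin (m + 1) → ℝ) => (p.1, -(p.1⁻¹ • p.2))) :=
      measurable_fst.prodMk ((measurable_fst.inv.smul measurable_snd).neg)
    exact hm0.comp h2
  rw [e1, lintegral_prod _ hmeas1.aemeasurable]
  have e2 : ∫⁻ t : ℝ, ∫⁻ y : Fin (m + 1) → ℝ, h0 t (-(t⁻¹ • y)) =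
      ∫⁻ t : ℝ, ∫⁻ w : Fin (m + 1) → ℝ,
        A K w * (if ENNReal.ofReal |t| ≤ r w then ENNReal.ofReal |t| ^ m else 0) := by
    apply lintegral_congr_ae
    have hne : ∀ᵐ t : ℝ, t ≠ 0 := by
      have : volume ({0} : Set ℝ) = 0 := measure_singleton 0
      exact compl_mem_ae_iff.2 this
    filter_upwards [hne] with t ht
    have hmt : Measurable (h0 t) := hm0.comp (measurable_const.prodMk measurable_id)
    rw [G7b_scale (h0 t) hmt ht, ← lintegral_const_mul _ hmt]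
    apply lintegral_congr
    intro w
    simp only [hh0]
    by_cases hw : ENNReal.ofReal |t| ≤ r w
    · rw [if_pos hw, if_pos hw]
      have hpos : ENNReal.ofReal |t| ≠ 0 := by
        rw [Ne, ENNReal.ofReal_eq_zero, not_le]; exact abs_pos.2 ht
      rw [pow_succ, mul_assoc, ENNReal.mul_div_cancel hpos ENNReal.ofReal_ne_top, mul_comm]
    · rw [if_neg hw, if_neg hw, mul_zero, mul_zero]
  rw [e2, lintegral_lintegral_swap]
  · have e3 : ∫⁻ w, ENNReal.ofReal (2 / ((m + 1 : ℕ) : ℝ)) * (A K w * r w ^ (m + 1)) =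
        ENNReal.ofReal (2 / ((m + 1 : ℕ) : ℝ)) * ∫⁻ w, A K w * r w ^ (m + 1) :=
      lintegral_const_mul _ (hA.mul (hr.pow_const (m + 1)))
    rw [← e3]
    apply lintegral_congr
    intro w
    rw [lintegral_const_mul _ (by
      apply Measurable.ite
      · exact measurableSet_le (measurable_id.abs).ennreal_ofReal measurable_const
      · exact ((measurable_id.abs).ennreal_ofReal).pow_const _
      · exact measurable_const), G7b_int]
    ring
  · apply Measurable.aemeasurable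
    apply Measurable.mul
    · exact hA.comp measurable_snd
    · apply Measurable.ite
      · exact measurableSet_le (measurable_fst.abs).ennreal_ofReal (hr.comp measurable_snd)
      · exact ((measurable_fst.abs).ennreal_ofReal).pow_const _
      · exact measurable_const

end G7b

section G8
theorem G8_emb_cont {d : ℕ} : Continuous (fun p : (Fin d → ℝ) × ℝ => emb p.1 p.2) := by
  unfold emb
  refine (PiLp.continuous_toLp 2 _).comp ?_
  apply continuous_pi
  intro i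
  refine Fin.cases ?_ (fun j => ?_) i
  · simpa using continuous_snd
  · simp only [Fin.cons_succ]
    fun_prop

/-- the integrand -/
noncomputable def G8_F {d : ℕ} (M K : Set (E (d + 1))) (x y : Fin d → ℝ) (t : ℝ) : ℝ≥0∞ :=
  M.indicator 1 (emb x t) * ENNReal.ofReal |t|⁻¹ * K.indicator 1 (emb y (-(t⁻¹ * (x ⬝ᵥ y))))

theorem G8_F_meas {d : ℕ} (M K : Set (E (d + 1))) (hM : MeasurableSet M) (hK : MeasurableSet K) :
    Measurable (fun q : ((Fin d → ℝ) × (Fin d → ℝ)) × ℝ => G8_F M K q.1.1 q.1.2 q.2) := by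
  unfold G8_F
  have h1 : Measurable (M.indicator (1 : E (d + 1) → ℝ≥0∞)) := measurable_one.indicator hM
  have h2 : Measurable (K.indicator (1 : E (d + 1) → ℝ≥0∞)) := measurable_one.indicator hK
  have e1 : Measurable (fun q : ((Fin d → ℝ) × (Fin d → ℝ)) × ℝ => emb q.1.1 q.2) :=
    G8_emb_cont.measurable.comp (by fun_prop : Measurable
      (fun q : ((Fin d → ℝ) × (Fin d → ℝ)) × ℝ => ((q.1.1, q.2) : (Fin d → ℝ) × ℝ)))
  have hdot : Measurable (fun q : ((Fin d → ℝ) × (Fin d → ℝ)) × ℝ => q.1.1 ⬝ᵥ q.1.2) := by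
    unfold dotProduct
    fun_prop
  have e2 : Measurable (fun q : ((Fin d → ℝ) × (Fin d → ℝ)) × ℝ =>
      emb q.1.2 (-(q.2⁻¹ * (q.1.1 ⬝ᵥ q.1.2)))) :=
    G8_emb_cont.measurable.comp ((measurable_snd.comp measurable_fst).prodMk
      ((measurable_snd.inv.mul hdot).neg))
  refine ((h1.comp e1).mul ?_).mul (h2.comp e2)
  exact ENNReal.measurable_ofReal.comp (by fun_prop)

theorem G8_fun {d : ℕ} (p : ℝ × (Fin d → ℝ)) :
    (WithLp.toLp 2 ∘ ⇑(MeasurableEquiv.piFinSuccAbove (fun _ : Fin (d + 1) => ℝ) 0).symm) p =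
      emb p.2 p.1 := by
  simp only [Function.comp_apply, emb]
  congr 1
  simp only [MeasurableEquiv.piFinSuccAbove]
  exact Fin.insertNth_zero' _ _

theorem G8_lint {d : ℕ} (f : E (d + 1) → ℝ≥0∞) :
    ∫⁻ x, f x = ∫⁻ p : ℝ × (Fin d → ℝ), f (emb p.2 p.1) := by
  have h1 := (volume_preserving_piFinSuccAbove (fun _ : Fin (d + 1) => ℝ) 0).symm
  have h2 := PiLp.volume_preserving_toLp (Fin (d + 1))
  have h3 := h2.comp h1
  have h4 := h3.lintegral_comp_emb (((MeasurableEquiv.toLp 2 (Fin (d + 1) → ℝ)).measurableEmbedding).comp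
    (MeasurableEquiv.measurableEmbedding _)) f
  simp only [G8_fun] at h4
  exact h4.symm

theorem G8_dot_null {d : ℕ} (hd : 1 ≤ d) : ∀ᵐ x : Fin d → ℝ, ∀ᵐ y : Fin d → ℝ, x ⬝ᵥ y ≠ 0 := by
  haveI : Nonempty (Fin d) := ⟨⟨0, hd⟩⟩
  have h0 : ∀ᵐ x : Fin d → ℝ, x ≠ 0 := by
    have : volume ({0} : Set (Fin d → ℝ)) = 0 := measure_singleton 0
    rw [ae_iff]
    simpa using this
  filter_upwards [h0] with x hx
  rw [ae_iff]
  simp only [ne_eq, not_not]
  have h1 : {y : Fin d → ℝ | x ⬝ᵥ y = 0} =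
      (LinearMap.ker (dotProductBilin ℝ ℝ x : (Fin d → ℝ) →ₗ[ℝ] ℝ) : Set (Fin d → ℝ)) := by
    ext y
    simp
  rw [h1]
  apply Measure.addHaar_submodule
  intro htop
  apply hx
  rw [← dotProduct_self_eq_zero (R := ℝ)]
  have : x ∈ LinearMap.ker (dotProductBilin ℝ ℝ x : (Fin d → ℝ) →ₗ[ℝ] ℝ) := by
    rw [htop]; trivial
  simpa using this

theorem G8_subst {d : ℕ} (M K : Set (E (d + 1))) (x y : Fin d → ℝ) (h : x ⬝ᵥ y ≠ 0) :
    ∫⁻ t, G8_F M K x y t = ∫⁻ t, G8_F K M y x t := by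
  set a := x ⬝ᵥ y with ha
  have h0 : MeasurableSet ({0}ᶜ : Set ℝ) := (measurableSet_singleton 0).compl
  have hae : ∀ f : ℝ → ℝ≥0∞, ∫⁻ t, f t = ∫⁻ t in ({0}ᶜ : Set ℝ), f t := by
    intro f
    rw [Measure.restrict_eq_self_of_ae_mem]
    rw [ae_iff]
    simp
  rw [hae, hae (fun t => G8_F K M y x t)]
  have himg : (fun t : ℝ => -(t⁻¹ * a)) '' ({0}ᶜ : Set ℝ) = {0}ᶜ := by
    ext s
    simp only [mem_image, mem_compl_iff, mem_singleton_iff]
    constructor
    · rintro ⟨t, ht, rfl⟩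
      exact neg_ne_zero.2 (mul_ne_zero (inv_ne_zero ht) h)
    · intro hs
      refine ⟨-(s⁻¹ * a), neg_ne_zero.2 (mul_ne_zero (inv_ne_zero hs) h), ?_⟩
      field_simp
  have hcv := lintegral_image_eq_lintegral_abs_deriv_mul (s := ({0}ᶜ : Set ℝ))
    (f := fun t : ℝ => -(t⁻¹ * a)) (f' := fun t => -(-(t ^ 2)⁻¹ * a)) h0
    (by
      intro t ht
      exact (((hasDerivAt_inv ht).mul_const a).neg).hasDerivWithinAt)
    (by
      intro s hs t ht hst
      simp only [neg_inj] at hst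
      exact inv_injective (mul_right_cancel₀ h hst))
    (fun t => G8_F M K x y t)
  rw [himg] at hcv
  rw [hcv]
  apply setLIntegral_congr_fun h0
  intro t ht
  have ht0 : t ≠ 0 := ht
  simp only [G8_F]
  have e1 : -((-(t⁻¹ * a))⁻¹ * (x ⬝ᵥ y)) = t := by
    rw [← ha]; field_simp
  have e2 : y ⬝ᵥ x = a := by rw [ha, dotProduct_comm]
  rw [e1, e2]
  have e3 : ENNReal.ofReal |-(-(t ^ 2)⁻¹ * a)| * ENNReal.ofReal |-(t⁻¹ * a)|⁻¹ =
      ENNReal.ofReal |t|⁻¹ := by
    rw [← ENNReal.ofReal_mul (abs_nonneg _)]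
    congr 1
    rw [← abs_inv, ← abs_mul, ← abs_inv, ← abs_neg]
    congr 1
    field_simp
  calc _ = (ENNReal.ofReal |-(-(t ^ 2)⁻¹ * a)| * ENNReal.ofReal |-(t⁻¹ * a)|⁻¹) *
        (M.indicator 1 (emb x (-(t⁻¹ * a))) * K.indicator 1 (emb y t)) := by ring
    _ = _ := by rw [e3]; ring

theorem G8_half {d : ℕ} (K M : Set (E (d + 1))) (hK : MeasurableSet K)
    (hM : MeasurableSet M) : ∫⁻ x in M, sec K x = ∫⁻ x, ∫⁻ y, ∫⁻ t, G8_F M K x y t := by
  have hF := G8_F_meas M K hM hK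
  rw [← lintegral_indicator hM, G8_lint]
  have hne : ∀ᵐ p : ℝ × (Fin d → ℝ), p.1 ≠ 0 := by
    have h1 : ∀ᵐ t : ℝ, t ≠ 0 := by
      rw [ae_iff]; simp
    exact Measure.quasiMeasurePreserving_fst.ae h1
  have hcongr : ∀ᵐ p : ℝ × (Fin d → ℝ), M.indicator (sec K) (emb p.2 p.1) =
      ∫⁻ y, G8_F M K p.2 y p.1 := by
    filter_upwards [hne] with p hp
    have h1 : ∫⁻ y, G8_F M K p.2 y p.1 = (M.indicator 1 (emb p.2 p.1) * ENNReal.ofReal |p.1|⁻¹) *
        A K (-(p.1⁻¹ • p.2)) := by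
      unfold G8_F
      rw [lintegral_const_mul']
      · congr 1
        have hm : MeasurableSet {y : Fin d → ℝ | emb y (-(p.1⁻¹ • p.2) ⬝ᵥ y) ∈ K} := by
          have hc0 : Measurable (fun y : Fin d → ℝ => (-(p.1⁻¹ • p.2) ⬝ᵥ y)) := by
            unfold dotProduct
            fun_prop
          have hc : Measurable (fun y : Fin d → ℝ => emb y (-(p.1⁻¹ • p.2) ⬝ᵥ y)) :=
            G8_emb_cont.measurable.comp (measurable_id.prodMk hc0)
          exact hc hK
        unfold A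
        rw [← lintegral_indicator_one hm]
        apply lintegral_congr
        intro y
        have : -(p.1⁻¹ * (p.2 ⬝ᵥ y)) = -(p.1⁻¹ • p.2) ⬝ᵥ y := by
          rw [neg_dotProduct, smul_dotProduct, smul_eq_mul]
        rw [this]
        rfl
      · apply ENNReal.mul_ne_top
        · by_cases hx : emb p.2 p.1 ∈ M
          · simp [hx]
          · simp [hx]
        · exact ENNReal.ofReal_ne_top
    rw [h1]
    by_cases hx : emb p.2 p.1 ∈ M
    · rw [indicator_of_mem hx, indicator_of_mem hx, G4 K hK p.2 p.1 hp, Pi.one_apply, one_mul,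
        ENNReal.div_eq_inv_mul, ENNReal.ofReal_inv_of_pos (abs_pos.2 hp)]
    · rw [indicator_of_notMem hx, indicator_of_notMem hx, zero_mul, zero_mul]
  rw [lintegral_congr_ae hcongr]
  have hF2 : Measurable (fun q : (ℝ × (Fin d → ℝ)) × (Fin d → ℝ) => G8_F M K q.1.2 q.2 q.1.1) :=
    hF.comp (by fun_prop : Measurable (fun q : (ℝ × (Fin d → ℝ)) × (Fin d → ℝ) =>
      (((q.1.2, q.2), q.1.1) : ((Fin d → ℝ) × (Fin d → ℝ)) × ℝ)))
  have hF3 : Measurable (fun p : ℝ × (Fin d → ℝ) => ∫⁻ y, G8_F M K p.2 y p.1) :=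
    hF2.lintegral_prod_right'
  rw [Measure.volume_eq_prod, lintegral_prod_symm' _ hF3]
  apply lintegral_congr
  intro x
  simp only
  apply lintegral_lintegral_swap
  apply Measurable.aemeasurable
  exact hF.comp (by fun_prop : Measurable (fun q : ℝ × (Fin d → ℝ) =>
      (((x, q.2), q.1) : ((Fin d → ℝ) × (Fin d → ℝ)) × ℝ)))

theorem G8 {d : ℕ} (hd : 1 ≤ d) (K M : Set (E (d + 1))) (hK : MeasurableSet K)
    (hM : MeasurableSet M) : ∫⁻ x in M, sec K x = ∫⁻ x in K, sec M x := by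
  rw [G8_half K M hK hM, G8_half M K hM hK]
  have hF := G8_F_meas K M hK hM
  have hF2 : Measurable (fun q : (Fin d → ℝ) × (Fin d → ℝ) => ∫⁻ t, G8_F K M q.1 q.2 t) :=
    hF.lintegral_prod_right'
  rw [lintegral_lintegral_swap (f := fun x y => ∫⁻ t, G8_F K M x y t) hF2.aemeasurable]
  apply lintegral_congr_ae
  filter_upwards [G8_dot_null hd] with x hx
  apply lintegral_congr_ae
  filter_upwards [hx] with y hy
  exact G8_subst M K x y hy

end G8

section G9
theorem G9_cont {d : ℕ} : Continuous (fun p : (Fin d → ℝ) × ℝ => (emb p.1 p.2 : E (d + 1))) := by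
  unfold emb
  refine (PiLp.continuous_toLp 2 _).comp ?_
  refine continuous_pi fun i => ?_
  refine Fin.cases ?_ (fun j => ?_) i
  · simp only [Fin.cons_zero]; exact continuous_snd
  · simp only [Fin.cons_succ]
    exact (continuous_apply j).comp continuous_fst

theorem G9_smul {d : ℕ} (a : ℝ) (y : Fin d → ℝ) (t : ℝ) :
    (a • emb y t : E (d + 1)) = emb (a • y) (a * t) := by
  unfold emb
  rw [← WithLp.toLp_smul]
  congr 1
  ext i
  refine Fin.cases ?_ (fun j => ?_) i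
  · simp
  · simp

theorem G9_zero {d : ℕ} (y : Fin d → ℝ) (t : ℝ) : (emb y t : E (d + 1)) 0 = t := by
  simp [emb]

theorem G9 {d : ℕ} (L : Set (E (d + 1))) (hL : Body L) : Measurable (rad L) ∧
    ∀ (x : Fin d → ℝ) (t : ℝ), t ≠ 0 →
      (emb x t ∈ L ↔ ENNReal.ofReal |t| ≤ rad L (-(t⁻¹ • x))) := by
  constructor
  · have hcl : IsClosed {p : (Fin d → ℝ) × ℝ | emb (-(p.2 • p.1)) p.2 ∈ L} := by
      refine hL.compact.isClosed.preimage ?_
      have h1 : Continuous (fun p : (Fin d → ℝ) × ℝ => ((-(p.2 • p.1), p.2) : (Fin d → ℝ) × ℝ)) := by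
        fun_prop
      exact G9_cont.comp h1
    have h2 := measurable_measure_prodMk_left (ν := (volume : Measure ℝ)) hcl.measurableSet
    exact h2.div_const 2
  · intro x t ht
    have h0L : (0 : E (d + 1)) ∈ L := by
      obtain ⟨z, hz⟩ := hL.int_nonempty
      have hz' : z ∈ L := interior_subset hz
      have := hL.convex hz' (hL.symm z hz') (by norm_num : (0:ℝ) ≤ 1 / 2)
        (by norm_num : (0:ℝ) ≤ 1 / 2) (by norm_num)
      simpa using this
    set v : E (d + 1) := emb x t with hv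
    have hS : {s : ℝ | emb (-(s • (-(t⁻¹ • x)))) s ∈ L} = {s : ℝ | (s * t⁻¹) • v ∈ L} := by
      ext s
      show emb (-(s • (-(t⁻¹ • x)))) s ∈ L ↔ (s * t⁻¹) • v ∈ L
      rw [hv, G9_smul]
      have e1 : -(s • (-(t⁻¹ • x))) = (s * t⁻¹) • x := by
        rw [smul_neg, neg_neg, smul_smul]
      have e2 : s * t⁻¹ * t = s := by field_simp
      rw [e1, e2]
    have hrad : rad L (-(t⁻¹ • x)) = volume {s : ℝ | (s * t⁻¹) • v ∈ L} / 2 := by
      unfold rad
      rw [hS]
    rw [hrad]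
    set S : Set ℝ := {s : ℝ | (s * t⁻¹) • v ∈ L} with hSdef
    have hScl : IsClosed S := hL.compact.isClosed.preimage (by fun_prop)
    have hSbd : Bornology.IsBounded S := by
      obtain ⟨R, hR⟩ := hL.compact.isBounded.exists_norm_le
      refine (Metric.isBounded_closedBall (x := (0:ℝ)) (r := R)).subset ?_
      intro s hs
      rw [mem_closedBall_zero_iff]
      have h1 := hR _ hs
      have h2 : ((s * t⁻¹) • v) 0 = s := by
        rw [hv, G9_smul, G9_zero]
        field_simp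
      have h3 := PiLp.norm_apply_le ((s * t⁻¹) • v) 0
      rw [h2] at h3
      exact h3.trans h1
    have hSc : IsCompact S := Metric.isCompact_of_isClosed_isBounded hScl hSbd
    have h0 : (0:ℝ) ∈ S := by
      show ((0:ℝ) * t⁻¹) • v ∈ L
      rw [zero_mul, zero_smul]
      exact h0L
    have hsymm : ∀ s ∈ S, -s ∈ S := by
      intro s hs
      have h1 := hL.symm _ hs
      show (-s * t⁻¹) • v ∈ L
      rw [neg_mul, neg_smul]
      exact h1
    have hSconv : Convex ℝ S := by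
      intro a ha b hb p q hp hq hpq
      have h1 := hL.convex ha hb hp hq hpq
      show ((p • a + q • b) * t⁻¹) • v ∈ L
      have : ((p • a + q • b) * t⁻¹) • v = p • (a * t⁻¹) • v + q • (b * t⁻¹) • v := by
        rw [smul_smul, smul_smul, ← add_smul]
        congr 1
        simp only [smul_eq_mul]
        ring
      rw [this]
      exact h1
    have habs : ∀ s ∈ S, Icc (-|s|) |s| ⊆ S := by
      intro s hs
      have h1 : |s| ∈ S := by
        rcases abs_choice s with h | h <;> rw [h]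
        · exact hs
        · exact hsymm s hs
      exact hSconv.ordConnected.out (hsymm _ h1) h1
    have htS : v ∈ L ↔ t ∈ S := by
      show v ∈ L ↔ (t * t⁻¹) • v ∈ L
      rw [mul_inv_cancel₀ ht, one_smul]
    rw [htS]
    have hvol : ∀ r : ℝ, 0 ≤ r → volume (Icc (-r) r) = 2 * ENNReal.ofReal r := by
      intro r hr
      rw [Real.volume_Icc]
      have : r - -r = 2 * r := by ring
      rw [this, ENNReal.ofReal_mul (by norm_num)]
      norm_num
    have hdiv : ∀ a : ℝ≥0∞, 2 * a / 2 = a := by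
      intro a
      rw [mul_comm, ENNReal.mul_div_cancel_right (by norm_num) (by norm_num)]
    constructor
    · intro h
      have h1 := measure_mono (μ := volume) (habs t h)
      rw [hvol _ (abs_nonneg _)] at h1
      calc ENNReal.ofReal |t| = 2 * ENNReal.ofReal |t| / 2 := (hdiv _).symm
        _ ≤ volume S / 2 := by gcongr
    · intro h
      by_contra htn
      obtain ⟨s0, hs0, hmax⟩ := hSc.exists_isMaxOn ⟨0, h0⟩ (continuous_abs.continuousOn)
      have hlt : |s0| < |t| := by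
        by_contra hge
        push Not at hge
        apply htn
        apply habs s0 hs0
        exact abs_le.1 hge
      have hsub : S ⊆ Icc (-|s0|) |s0| := by
        intro s hs
        exact abs_le.1 (hmax hs)
      have h1 := measure_mono (μ := volume) hsub
      rw [hvol _ (abs_nonneg _)] at h1
      have h2 : ENNReal.ofReal |t| ≤ ENNReal.ofReal |s0| := by
        calc ENNReal.ofReal |t| ≤ volume S / 2 := h
          _ ≤ 2 * ENNReal.ofReal |s0| / 2 := by gcongr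
          _ = _ := hdiv _
      have h3 := (ENNReal.ofReal_le_ofReal_iff (abs_nonneg _)).1 h2
      linarith

end G9

section G11
theorem G11_emb_smul {d : ℕ} (c : ℝ) (y : Fin d → ℝ) (t : ℝ) :
    emb (c • y) (c * t) = c • emb y t := by
  unfold emb
  ext i
  refine Fin.cases ?_ (fun j => ?_) i
  · simp
  · simp

theorem G11_set {d : ℕ} (M : Set (E (d + 1))) (c : ℝ) (hc : 0 < c) (w : Fin d → ℝ) :
    {y : Fin d → ℝ | emb y (w ⬝ᵥ y) ∈ c • M} = c • {y : Fin d → ℝ | emb y (w ⬝ᵥ y) ∈ M} := by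
  ext y
  rw [Set.mem_smul_set_iff_inv_smul_mem₀ hc.ne']
  show emb y (w ⬝ᵥ y) ∈ c • M ↔ emb (c⁻¹ • y) (w ⬝ᵥ (c⁻¹ • y)) ∈ M
  rw [Set.mem_smul_set_iff_inv_smul_mem₀ hc.ne', dotProduct_smul, smul_eq_mul, G11_emb_smul]

theorem G11 {d : ℕ} (K M : Set (E (d + 1))) (c : ℝ) (hc : 0 < c) (h : K ⊆ c • M)
    (w : Fin d → ℝ) : A K w ≤ ENNReal.ofReal (c ^ d) * A M w := by
  unfold A
  calc volume {y : Fin d → ℝ | emb y (w ⬝ᵥ y) ∈ K}
      ≤ volume {y : Fin d → ℝ | emb y (w ⬝ᵥ y) ∈ c • M} := measure_mono fun y hy => h hy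
    _ = volume (c • {y : Fin d → ℝ | emb y (w ⬝ᵥ y) ∈ M}) := by rw [G11_set M c hc w]
    _ = ENNReal.ofReal (c ^ d) * volume {y : Fin d → ℝ | emb y (w ⬝ᵥ y) ∈ M} := by
      rw [Measure.addHaar_smul, finrank_fin_fun, abs_of_pos (by positivity)]

theorem G12 {d : ℕ} (K M : Set (E (d + 1))) (c : ℝ) (hc : 0 < c) (h : K ⊆ c • M) :
    IB K ⊆ (c ^ d) • IB M := by
  intro x hx
  have hcd : 0 < c ^ d := by positivity
  rw [Set.mem_smul_set_iff_inv_smul_mem₀ hcd.ne']
  rcases hx with rfl | hx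
  · left
    exact smul_zero _
  · right
    have hset : {y : E (d + 1) | inner ℝ ((c ^ d)⁻¹ • x) y = 0} = {y | inner ℝ x y = 0} := by
      ext y
      show inner ℝ ((c ^ d)⁻¹ • x) y = 0 ↔ inner ℝ x y = 0
      rw [real_inner_smul_left, mul_eq_zero]
      constructor
      · rintro (h1 | h1)
        · exact absurd h1 (inv_ne_zero hcd.ne')
        · exact h1
      · exact Or.inr
    rw [hset]
    have hsub : K ∩ {y | inner ℝ x y = 0} ⊆ c • (M ∩ {y | inner ℝ x y = 0}) := by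
      rintro y ⟨hy1, hy2⟩
      obtain ⟨m, hm, rfl⟩ := h hy1
      refine ⟨m, ⟨hm, ?_⟩, rfl⟩
      have hy3 : inner ℝ x (c • m) = 0 := hy2
      rw [real_inner_smul_right, mul_eq_zero] at hy3
      exact hy3.resolve_left hc.ne'
    have hle : μHE[d + 1 - 1] (K ∩ {y | inner ℝ x y = 0}) ≤
        ENNReal.ofReal (c ^ d) * μHE[d + 1 - 1] (M ∩ {y : E (d + 1) | inner ℝ x y = 0}) := by
      refine (measure_mono hsub).trans (le_of_eq ?_)
      rw [Measure.euclideanHausdorffMeasure_smul₀ _ hc.ne', Nat.add_sub_cancel,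
        ENNReal.smul_def, smul_eq_mul]
      congr 1
      rw [ENNReal.coe_pow, ENNReal.ofReal_pow hc.le]
      congr 1
      rw [← enorm_eq_nnnorm, Real.enorm_of_nonneg hc.le]
    have hn : ENNReal.ofReal ‖(c ^ d)⁻¹ • x‖ =
        (ENNReal.ofReal (c ^ d))⁻¹ * ENNReal.ofReal ‖x‖ := by
      rw [norm_smul, Real.norm_of_nonneg (by positivity), ENNReal.ofReal_mul (by positivity),
        ENNReal.ofReal_inv_of_pos hcd]
    rw [hn]
    calc (ENNReal.ofReal (c ^ d))⁻¹ * ENNReal.ofReal ‖x‖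
        ≤ (ENNReal.ofReal (c ^ d))⁻¹ * (ENNReal.ofReal (c ^ d) *
          μHE[d + 1 - 1] (M ∩ {y : E (d + 1) | inner ℝ x y = 0})) :=
          mul_le_mul_right (hx.trans hle) _
      _ = μHE[d + 1 - 1] (M ∩ {y : E (d + 1) | inner ℝ x y = 0}) := by
          rw [← mul_assoc, ENNReal.inv_mul_cancel (by positivity) ENNReal.ofReal_ne_top, one_mul]

end G11

end Pool.Agent.H14IIB
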