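import Mathlib
import Pool.Agent.H14IIB.Defs
import Pool.Agent.H14IIB.G

set_option autoImplicit false

open MeasureTheory Set Module Filter Topology
open scoped ENNReal Pointwise

namespace Pool.Agent.H14IIB

section B1
theorem B1_scale (a c : ℝ) (ha : 0 < a) (K : Set ℝ) :
    volume ((fun x => a * x + c) '' K) = ENNReal.ofReal a * volume K := by
  have : (fun x => a * x + c) '' K = (fun x => x + c) '' ((fun x => a * x) '' K) := by
    rw [image_image]
  rw [this]
  have e1 : volume ((fun x : ℝ => x + c) '' ((fun x => a * x) '' K))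
      = volume ((fun x => a * x) '' K) := by
    simp
  rw [e1]
  have e2 := Measure.addHaar_image_homothety (volume : Measure ℝ) (0 : ℝ) a K
  have e3 : (fun x => a * x) '' K = (AffineMap.homothety (0 : ℝ) a) '' K := by
    congr 1
    ext x
    simp [AffineMap.homothety_apply]
  rw [e3, e2]
  simp [abs_of_pos ha]

/-- one-dimensional Brunn-Minkowski, compact case -/
theorem B1_bmc {a b : ℝ} (ha : 0 < a) (hb : 0 < b) {K L C : Set ℝ} (hK : IsCompact K) (hL : IsCompact L)
    (hK' : K.Nonempty) (hL' : L.Nonempty)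
    (hC : ∀ x ∈ K, ∀ y ∈ L, a * x + b * y ∈ C) :
    ENNReal.ofReal a * volume K + ENNReal.ofReal b * volume L ≤ volume C := by
  obtain ⟨p, hp, hpmax⟩ := hK.exists_isMaxOn hK' continuousOn_id
  obtain ⟨q, hq, hqmin⟩ := hL.exists_isMinOn hL' continuousOn_id
  have hpmax' : ∀ x ∈ K, x ≤ p := fun x hx => hpmax hx
  have hqmin' : ∀ y ∈ L, q ≤ y := fun y hy => hqmin hy
  set S1 : Set ℝ := (fun x => a * x + b * q) '' K with hS1
  set S2 : Set ℝ := (fun y => b * y + a * p) '' L with hS2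
  have hS1c : IsCompact S1 := hK.image (by fun_prop)
  have hS2c : IsCompact S2 := hL.image (by fun_prop)
  have h1 : S1 ∪ S2 ⊆ C := by
    rintro z (⟨x, hx, rfl⟩ | ⟨y, hy, rfl⟩)
    · exact hC x hx q hq
    · have := hC p hp y hy
      simp only
      rw [add_comm]; exact this
  have hint : volume (S1 ∩ S2) = 0 := by
    refine measure_mono_null (t := {a * p + b * q}) ?_ (by simp)
    rintro z ⟨⟨x, hx, hxz⟩, ⟨y, hy, hyz⟩⟩
    simp only at hxz hyz
    have e1 := mul_le_mul_of_nonneg_left (hpmax' x hx) ha.le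
    have e2 := mul_le_mul_of_nonneg_left (hqmin' y hy) hb.le
    simp only [mem_singleton_iff]
    linarith
  have hu : volume (S1 ∪ S2) + volume (S1 ∩ S2) = volume S1 + volume S2 :=
    measure_union_add_inter S1 hS2c.measurableSet
  rw [hint, add_zero] at hu
  have h2 : volume S1 + volume S2 ≤ volume C := by
    rw [← hu]; exact measure_mono h1
  rw [hS1, hS2, B1_scale a _ ha, B1_scale b _ hb] at h2
  exact h2

theorem B1_bm {a b : ℝ} (ha : 0 < a) (hb : 0 < b) {A B C : Set ℝ} (hA : MeasurableSet A)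
    (hB : MeasurableSet B) (hA' : A.Nonempty) (hB' : B.Nonempty)
    (hC : ∀ x ∈ A, ∀ y ∈ B, a * x + b * y ∈ C) :
    ENNReal.ofReal a * volume A + ENNReal.ofReal b * volume B ≤ volume C := by
  obtain ⟨p, hp⟩ := hA'
  obtain ⟨q, hq⟩ := hB'
  have key : ∀ K, K ⊆ A → IsCompact K → ∀ L, L ⊆ B → IsCompact L →
      ENNReal.ofReal a * volume K + ENNReal.ofReal b * volume L ≤ volume C := by
    intro K hKA hK L hLB hL
    have h := B1_bmc ha hb (K := insert p K) (L := insert q L) (C := C) (hK.insert p) (hL.insert q)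
      (insert_nonempty _ _) (insert_nonempty _ _) (fun x hx y hy => hC x (insert_subset hp hKA hx) y
        (insert_subset hq hLB hy))
    refine le_trans ?_ h
    gcongr
    · exact subset_insert _ _
    · exact subset_insert _ _
  rw [hA.measure_eq_iSup_isCompact, hB.measure_eq_iSup_isCompact]
  simp only [ENNReal.mul_iSup]
  simp only [iSup_and']
  refine ENNReal.biSup_add_biSup_le' ⟨∅, empty_subset _, isCompact_empty⟩
    ⟨∅, empty_subset _, isCompact_empty⟩ ?_
  rintro K ⟨hKA, hK⟩ L ⟨hLB, hL⟩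
  exact key K hKA hK L hLB hL

/-- one-dimensional Prekopa-Leindler, normalised case -/
theorem B1_pl1_aux {a b : ℝ} (ha : 0 < a) (hb : 0 < b) (hab : a + b = 1)
    (f g h : ℝ → ℝ) (hf : Measurable f) (hg : Measurable g) (hh : Measurable h)
    (f0 : ∀ x, 0 ≤ f x) (g0 : ∀ x, 0 ≤ g x) (h0 : ∀ x, 0 ≤ h x)
    (f1 : ∀ x, f x ≤ 1) (g1 : ∀ x, g x ≤ 1)
    (hfs : ∀ t, t < 1 → ∃ x, t < f x) (hgs : ∀ t, t < 1 → ∃ x, t < g x)
    (H : ∀ x y, f x ^ a * g y ^ b ≤ h (a * x + b * y)) :
    ENNReal.ofReal a * (∫⁻ x, ENNReal.ofReal (f x)) + ENNReal.ofReal b * (∫⁻ x, ENNReal.ofReal (g x))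
      ≤ ∫⁻ x, ENNReal.ofReal (h x) := by
  rw [lintegral_eq_lintegral_meas_lt volume (Filter.Eventually.of_forall f0) hf.aemeasurable,
    lintegral_eq_lintegral_meas_lt volume (Filter.Eventually.of_forall g0) hg.aemeasurable,
    lintegral_eq_lintegral_meas_lt volume (Filter.Eventually.of_forall h0) hh.aemeasurable]
  have hm : ∀ k : ℝ → ℝ, Measurable (fun t : ℝ => volume {a : ℝ | t < k a}) := fun k =>
    (Antitone.measurable (fun s t hst => measure_mono (fun a (ha : t < k a) =>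
      show s < k a from lt_of_le_of_lt hst ha)))
  rw [← lintegral_const_mul _ (hm f), ← lintegral_const_mul _ (hm g),
    ← lintegral_add_left ((hm f).const_mul _)]
  refine setLIntegral_mono' measurableSet_Ioi ?_
  intro t ht
  have ht0 : 0 < t := ht
  by_cases ht1 : t < 1
  · refine B1_bm ha hb (hf measurableSet_Ioi) (hg measurableSet_Ioi) (hfs t ht1) (hgs t ht1) ?_
    intro x hx y hy
    have hx' : t < f x := hx
    have hy' : t < g y := hy
    have hxy := H x y
    have e1 : t ^ a < f x ^ a := Real.rpow_lt_rpow ht0.le hx' ha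
    have e2 : t ^ b < g y ^ b := Real.rpow_lt_rpow ht0.le hy' hb
    have h2 : t < h (a * x + b * y) := by
      calc t = t ^ a * t ^ b := by rw [← Real.rpow_add ht0, hab, Real.rpow_one]
        _ < f x ^ a * g y ^ b :=
          mul_lt_mul'' e1 e2 (Real.rpow_nonneg ht0.le _) (Real.rpow_nonneg ht0.le _)
        _ ≤ _ := hxy
    exact h2
  · push Not at ht1
    have e1 : {a : ℝ | t < f a} = ∅ := by
      ext a; simp; linarith [f1 a]
    have e2 : {a : ℝ | t < g a} = ∅ := by
      ext a; simp; linarith [g1 a]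
    simp [e1, e2]

theorem B1_pl1_bdd {a b : ℝ} (ha : 0 < a) (hb : 0 < b) (hab : a + b = 1)
    (F G H : ℝ → ℝ≥0∞) (hF : Measurable F) (hG : Measurable G) (hH : Measurable H)
    (k : ℝ≥0∞) (hk : k ≠ ∞) (Fk : ∀ x, F x ≤ k) (Gk : ∀ x, G x ≤ k)
    (HH : ∀ x y, F x ^ a * G y ^ b ≤ H (a * x + b * y)) :
    (∫⁻ x, F x) ^ a * (∫⁻ x, G x) ^ b ≤ ∫⁻ x, H x := by
  by_cases hM0 : (⨆ x, F x) = 0
  · have : ∀ x, F x = 0 := by simpa using hM0
    simp [this, ha, ENNReal.zero_rpow_of_pos ha]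
  by_cases hN0 : (⨆ x, G x) = 0
  · have : ∀ x, G x = 0 := by simpa using hN0
    simp [this, hb, ENNReal.zero_rpow_of_pos hb]
  set M := ⨆ x, F x with hM
  set N := ⨆ x, G x with hN
  have hMk : M ≤ k := iSup_le Fk
  have hNk : N ≤ k := iSup_le Gk
  have hMt : M ≠ ∞ := ne_top_of_le_ne_top hk hMk
  have hNt : N ≠ ∞ := ne_top_of_le_ne_top hk hNk
  by_cases hC : (∫⁻ x, H x) = ∞
  · rw [hC]; exact le_top
  set m := M.toReal with hm
  set n := N.toReal with hn
  have mpos : 0 < m := ENNReal.toReal_pos hM0 hMt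
  have npos : 0 < n := ENNReal.toReal_pos hN0 hNt
  have hFt : ∀ x, F x ≠ ∞ := fun x => ne_top_of_le_ne_top hk (Fk x)
  have hGt : ∀ x, G x ≠ ∞ := fun x => ne_top_of_le_ne_top hk (Gk x)
  obtain ⟨c, hc⟩ : ∃ c : ℝ, c = m ^ a * n ^ b := ⟨_, rfl⟩
  have hmn : 0 < c := by rw [hc]; positivity
  set f : ℝ → ℝ := fun x => m⁻¹ * (F x).toReal with hf
  set g : ℝ → ℝ := fun x => n⁻¹ * (G x).toReal with hg
  set h' : ℝ → ℝ≥0∞ := fun x => min (ENNReal.ofReal c⁻¹ * H x) 1 with hh'
  set h : ℝ → ℝ := fun x => (h' x).toReal with hh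
  have h't : ∀ x, h' x ≠ ∞ := fun x => ne_top_of_le_ne_top ENNReal.one_ne_top (min_le_right _ _)
  have f0 : ∀ x, 0 ≤ f x := fun x => by positivity
  have g0 : ∀ x, 0 ≤ g x := fun x => by positivity
  have h0 : ∀ x, 0 ≤ h x := fun x => ENNReal.toReal_nonneg
  have FM : ∀ x, (F x).toReal ≤ m := fun x => ENNReal.toReal_mono hMt (le_iSup F x)
  have GN : ∀ x, (G x).toReal ≤ n := fun x => ENNReal.toReal_mono hNt (le_iSup G x)
  have f1 : ∀ x, f x ≤ 1 := fun x => by
    have := FM x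
    simp only [hf]
    rw [inv_mul_le_iff₀ mpos]; linarith
  have g1 : ∀ x, g x ≤ 1 := fun x => by
    have := GN x
    simp only [hg]
    rw [inv_mul_le_iff₀ npos]; linarith
  have hfs : ∀ t, t < 1 → ∃ x, t < f x := by
    intro t ht
    by_cases ht0 : t < 0
    · exact ⟨0, lt_of_lt_of_le ht0 (f0 0)⟩
    push Not at ht0
    have h1 : ENNReal.ofReal (t * m) < M := by
      rw [ENNReal.ofReal_lt_iff_lt_toReal (by positivity) hMt]
      nlinarith
    obtain ⟨x, hx⟩ := lt_iSup_iff.mp h1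
    refine ⟨x, ?_⟩
    rw [ENNReal.ofReal_lt_iff_lt_toReal (by positivity) (hFt x)] at hx
    simp only [hf]
    rw [lt_inv_mul_iff₀ mpos]; linarith
  have hgs : ∀ t, t < 1 → ∃ x, t < g x := by
    intro t ht
    by_cases ht0 : t < 0
    · exact ⟨0, lt_of_lt_of_le ht0 (g0 0)⟩
    push Not at ht0
    have h1 : ENNReal.ofReal (t * n) < N := by
      rw [ENNReal.ofReal_lt_iff_lt_toReal (by positivity) hNt]
      nlinarith
    obtain ⟨x, hx⟩ := lt_iSup_iff.mp h1
    refine ⟨x, ?_⟩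
    rw [ENNReal.ofReal_lt_iff_lt_toReal (by positivity) (hGt x)] at hx
    simp only [hg]
    rw [lt_inv_mul_iff₀ npos]; linarith
  have scal : ∀ u v : ℝ, 0 ≤ u → 0 ≤ v → (m⁻¹ * u) ^ a * (n⁻¹ * v) ^ b = c⁻¹ * (u ^ a * v ^ b) := by
    intro u v hu hv
    rw [Real.mul_rpow (by positivity) hu, Real.mul_rpow (by positivity) hv, Real.inv_rpow mpos.le,
      Real.inv_rpow npos.le, hc, mul_inv]
    ring
  have H1 : ∀ x y, f x ^ a * g y ^ b ≤ h (a * x + b * y) := by
    intro x y
    simp only [hh, hh']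
    rcases le_total (ENNReal.ofReal c⁻¹ * H (a * x + b * y)) 1 with hle | hle
    · rw [min_eq_left hle]
      have hHt : H (a * x + b * y) ≠ ∞ := by
        intro hinf
        rw [hinf, ENNReal.mul_top (by simpa using hmn)] at hle
        simp at hle
      rw [ENNReal.toReal_mul, ENNReal.toReal_ofReal (by positivity)]
      have h2 := ENNReal.toReal_mono hHt (HH x y)
      rw [ENNReal.toReal_mul, ← ENNReal.toReal_rpow, ← ENNReal.toReal_rpow] at h2
      simp only [hf, hg]
      rw [scal _ _ ENNReal.toReal_nonneg ENNReal.toReal_nonneg]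
      gcongr
    · rw [min_eq_right hle]
      simp only [ENNReal.toReal_one]
      exact mul_le_one₀ (Real.rpow_le_one (f0 x) (f1 x) ha.le) (Real.rpow_nonneg (g0 y) _)
        (Real.rpow_le_one (g0 y) (g1 y) hb.le)
  have hfm : Measurable f := (hF.ennreal_toReal).const_mul _
  have hgm : Measurable g := (hG.ennreal_toReal).const_mul _
  have hhm : Measurable h := ((hH.const_mul _).min measurable_const).ennreal_toReal
  have main := B1_pl1_aux ha hb hab f g h hfm hgm hhm f0 g0 h0 f1 g1 hfs hgs H1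
  have e1 : (∫⁻ x, ENNReal.ofReal (f x)) = ENNReal.ofReal m⁻¹ * ∫⁻ x, F x := by
    rw [← lintegral_const_mul _ hF]
    refine lintegral_congr (fun x => ?_)
    simp only [hf]
    rw [ENNReal.ofReal_mul (by positivity), ENNReal.ofReal_toReal (hFt x)]
  have e2 : (∫⁻ x, ENNReal.ofReal (g x)) = ENNReal.ofReal n⁻¹ * ∫⁻ x, G x := by
    rw [← lintegral_const_mul _ hG]
    refine lintegral_congr (fun x => ?_)
    simp only [hg]
    rw [ENNReal.ofReal_mul (by positivity), ENNReal.ofReal_toReal (hGt x)]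
  have e3 : (∫⁻ x, ENNReal.ofReal (h x)) ≤ ENNReal.ofReal c⁻¹ * ∫⁻ x, H x := by
    rw [← lintegral_const_mul _ hH]
    refine lintegral_mono (fun x => ?_)
    simp only [hh]
    rw [ENNReal.ofReal_toReal (h't x)]
    exact min_le_left _ _
  have main2 : ENNReal.ofReal a * (ENNReal.ofReal m⁻¹ * (∫⁻ x, F x)) +
      ENNReal.ofReal b * (ENNReal.ofReal n⁻¹ * (∫⁻ x, G x))
      ≤ ENNReal.ofReal c⁻¹ * ∫⁻ x, H x := by
    rw [← e1, ← e2]
    exact main.trans e3
  set A := ∫⁻ x, F x with hA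
  set B := ∫⁻ x, G x with hB
  set C := ∫⁻ x, H x with hC'
  have hR : ENNReal.ofReal c⁻¹ * C ≠ ∞ := by finiteness
  have ha' : ENNReal.ofReal a ≠ 0 := by simpa using ha
  have hb' : ENNReal.ofReal b ≠ 0 := by simpa using hb
  have hAt : A ≠ ∞ := by
    intro hinf
    rw [hinf, ENNReal.mul_top (by simpa using mpos), ENNReal.mul_top ha'] at main2
    simp only [top_add, top_le_iff] at main2
    exact hR main2
  have hBt : B ≠ ∞ := by
    intro hinf
    rw [hinf, ENNReal.mul_top (by simpa using npos), ENNReal.mul_top hb'] at main2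
    simp only [add_top, top_le_iff] at main2
    exact hR main2
  have main3 := ENNReal.toReal_mono hR main2
  rw [ENNReal.toReal_add (by finiteness) (by finiteness), ENNReal.toReal_mul, ENNReal.toReal_mul,
    ENNReal.toReal_mul, ENNReal.toReal_mul, ENNReal.toReal_mul, ENNReal.toReal_ofReal (by positivity),
    ENNReal.toReal_ofReal (by positivity), ENNReal.toReal_ofReal (by positivity),
    ENNReal.toReal_ofReal (by positivity), ENNReal.toReal_ofReal (by positivity)] at main3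
  have hfin : A.toReal ^ a * B.toReal ^ b ≤ C.toReal := by
    have a0 : 0 ≤ A.toReal := ENNReal.toReal_nonneg
    have b0 : 0 ≤ B.toReal := ENNReal.toReal_nonneg
    have c0 : 0 ≤ C.toReal := ENNReal.toReal_nonneg
    have hag := Real.geom_mean_le_arith_mean2_weighted ha.le hb.le
      (show 0 ≤ m⁻¹ * A.toReal by positivity) (show 0 ≤ n⁻¹ * B.toReal by positivity) hab
    rw [scal _ _ a0 b0] at hag
    have h4 : c⁻¹ * (A.toReal ^ a * B.toReal ^ b) ≤ c⁻¹ * C.toReal := hag.trans main3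
    exact le_of_mul_le_mul_left h4 (by positivity)
  rw [← ENNReal.ofReal_toReal hAt, ← ENNReal.ofReal_toReal hBt, ← ENNReal.ofReal_toReal hC,
    ENNReal.ofReal_rpow_of_nonneg ENNReal.toReal_nonneg ha.le,
    ENNReal.ofReal_rpow_of_nonneg ENNReal.toReal_nonneg hb.le,
    ← ENNReal.ofReal_mul (Real.rpow_nonneg ENNReal.toReal_nonneg _)]
  exact ENNReal.ofReal_le_ofReal hfin

theorem B1_rpow_iSup {ι : Sort*} (f : ι → ℝ≥0∞) {a : ℝ} (ha : 0 < a) :
    (⨆ i, f i) ^ a = ⨆ i, f i ^ a :=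
  (ENNReal.orderIsoRpow a ha).map_iSup f

/-- one-dimensional Prekopa-Leindler inequality -/
theorem B1_pl1 {a b : ℝ} (ha : 0 < a) (hb : 0 < b) (hab : a + b = 1)
    (F G H : ℝ → ℝ≥0∞) (hF : Measurable F) (hG : Measurable G) (hH : Measurable H)
    (HH : ∀ x y, F x ^ a * G y ^ b ≤ H (a * x + b * y)) :
    (∫⁻ x, F x) ^ a * (∫⁻ x, G x) ^ b ≤ ∫⁻ x, H x := by
  have trunc : ∀ K : ℝ → ℝ≥0∞, Measurable K →
      (∫⁻ x, K x) = ⨆ k : ℕ, ∫⁻ x, min (K x) (k : ℝ≥0∞) := by
    intro K hK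
    rw [← lintegral_iSup (fun k => hK.min measurable_const)]
    · refine lintegral_congr (fun x => ?_)
      rw [← inf_iSup_eq, ENNReal.iSup_natCast]
      simp
    · intro k l hkl x
      simp only
      gcongr
  rw [trunc F hF, trunc G hG, B1_rpow_iSup _ ha, B1_rpow_iSup _ hb, ENNReal.iSup_mul]
  refine iSup_le (fun k => ?_)
  rw [ENNReal.mul_iSup]
  refine iSup_le (fun l => ?_)
  refine B1_pl1_bdd ha hb hab _ _ H (hF.min measurable_const) (hG.min measurable_const) hH
    (max (k : ℝ≥0∞) l) (by finiteness) (fun x => ?_) (fun x => ?_) (fun x y => ?_)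
  · exact (min_le_right _ _).trans (le_max_left _ _)
  · exact (min_le_right _ _).trans (le_max_right _ _)
  · refine le_trans ?_ (HH x y)
    gcongr
    · exact min_le_left _ _
    · exact min_le_left _ _

theorem B1_measurable_cons (n : ℕ) :
    Measurable (fun p : ℝ × (Fin n → ℝ) => (Fin.cons p.1 p.2 : Fin (n + 1) → ℝ)) := by
  rw [measurable_pi_iff]
  intro i
  refine Fin.cases ?_ (fun j => ?_) i
  · simpa using measurable_fst
  · simp only [Fin.cons_succ]
    exact (measurable_pi_apply j).comp measurable_snd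

theorem B1_lintegral_succ (n : ℕ) (f : (Fin (n + 1) → ℝ) → ℝ≥0∞) (hf : Measurable f) :
    (∫⁻ s, f s) = ∫⁻ a : ℝ, ∫⁻ v : Fin n → ℝ, f (Fin.cons a v) := by
  have hmp := (volume_preserving_piFinSuccAbove (fun _ : Fin (n + 1) => ℝ) 0).symm
  have hcons := B1_measurable_cons n
  have h1 := hmp.lintegral_comp hf
  rw [← h1, Measure.volume_eq_prod, lintegral_prod]
  · simp only [MeasurableEquiv.piFinSuccAbove_symm_apply, Fin.insertNthEquiv_zero]
    rfl
  · have : (fun p : ℝ × (Fin n → ℝ) => f ((MeasurableEquiv.piFinSuccAbove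
        (fun _ : Fin (n + 1) => ℝ) 0).symm p)) = fun p => f (Fin.cons p.1 p.2) := by
      ext p
      simp only [MeasurableEquiv.piFinSuccAbove_symm_apply, Fin.insertNthEquiv_zero]
      rfl
    rw [this]
    exact (hf.comp hcons).aemeasurable

/-- Prekopa-Leindler in dimension `n`, weighted form -/
theorem B1_pln {a b : ℝ} (ha : 0 < a) (hb : 0 < b) (hab : a + b = 1) :
    ∀ (n : ℕ) (f g h : (Fin n → ℝ) → ℝ≥0∞), Measurable f → Measurable g →
    Measurable h →
    (∀ s t : Fin n → ℝ, f s ^ a * g t ^ b ≤ h (a • s + b • t)) →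
    (∫⁻ s, f s) ^ a * (∫⁻ s, g s) ^ b ≤ ∫⁻ s, h s := by
  intro n
  induction n with
  | zero =>
    intro f g h hf hg hh H
    simp only [lintegral_unique]
    have hv : (volume : Measure (Fin 0 → ℝ)) univ = 1 := by
      rw [Measure.volume_pi_eq_dirac (fun i => i.elim0)]; simp
    rw [hv]
    simp only [mul_one]
    have h1 : ∀ x y : Fin 0 → ℝ, x = y := fun x y => Subsingleton.elim _ _
    have := H (Unique.instInhabited.default) (Unique.instInhabited.default)
    rw [h1 (a • _ + b • _) (Unique.instInhabited.default)] at this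
    exact this
  | succ n ih =>
    intro f g h hf hg hh H
    rw [B1_lintegral_succ n f hf, B1_lintegral_succ n g hg, B1_lintegral_succ n h hh]
    have hcons := B1_measurable_cons n
    have hcons2 : ∀ a : ℝ, Measurable (fun v : Fin n → ℝ => (Fin.cons a v : Fin (n + 1) → ℝ)) :=
      fun a => hcons.comp (measurable_const.prodMk measurable_id)
    refine B1_pl1 ha hb hab _ _ _ ?_ ?_ ?_ ?_
    · exact (hf.comp hcons).lintegral_prod_right'
    · exact (hg.comp hcons).lintegral_prod_right'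
    · exact (hh.comp hcons).lintegral_prod_right'
    · intro x y
      refine ih _ _ _ (hf.comp (hcons2 x)) (hg.comp (hcons2 y)) (hh.comp (hcons2 _)) ?_
      intro s t
      have := H (Fin.cons x s) (Fin.cons y t)
      refine this.trans ?_
      apply le_of_eq
      congr 1
      ext i
      refine Fin.cases ?_ (fun j => ?_) i <;> simp

theorem B1 {n : ℕ} {a b : ℝ} (ha : 0 < a) (hb : 0 < b) (hab : a + b = 1)
    {X Y Z : Set (Fin n → ℝ)} (hX : MeasurableSet X) (hY : MeasurableSet Y)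
    (hZ : MeasurableSet Z) (H : ∀ x ∈ X, ∀ y ∈ Y, a • x + b • y ∈ Z) :
    volume X ^ a * volume Y ^ b ≤ volume Z := by
  have h := B1_pln ha hb hab n (X.indicator 1) (Y.indicator 1) (Z.indicator 1)
    (measurable_one.indicator hX) (measurable_one.indicator hY) (measurable_one.indicator hZ) ?_
  · rw [lintegral_indicator_one hX, lintegral_indicator_one hY, lintegral_indicator_one hZ] at h
    exact h
  · intro s t
    by_cases hs : s ∈ X
    · by_cases ht : t ∈ Y
      · rw [indicator_of_mem hs, indicator_of_mem ht, indicator_of_mem (H s hs t ht)]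
        simp
      · rw [indicator_of_notMem ht, ENNReal.zero_rpow_of_pos hb]; simp
    · rw [indicator_of_notMem hs, ENNReal.zero_rpow_of_pos ha]; simp

end B1

section B2

/-- one-dimensional Brunn-Minkowski, compact case -/
theorem B2_bm_compact {K L C : Set ℝ} (hK : IsCompact K) (hL : IsCompact L)
    (hK' : K.Nonempty) (hL' : L.Nonempty)
    (hC : ∀ x ∈ K, ∀ y ∈ L, x + y ∈ C) :
    volume K + volume L ≤ volume C := by
  obtain ⟨a, ha, hamax⟩ := hK.exists_isMaxOn hK' continuousOn_id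
  obtain ⟨b, hb, hbmin⟩ := hL.exists_isMinOn hL' continuousOn_id
  have hamax' : ∀ x ∈ K, x ≤ a := fun x hx => hamax hx
  have hbmin' : ∀ y ∈ L, b ≤ y := fun y hy => hbmin hy
  set S1 : Set ℝ := (fun x => x + b) '' K with hS1
  set S2 : Set ℝ := (fun y => y + a) '' L with hS2
  have hS1c : IsCompact S1 := hK.image (by fun_prop)
  have hS2c : IsCompact S2 := hL.image (by fun_prop)
  have h1 : S1 ∪ S2 ⊆ C := by
    rintro z (⟨x, hx, rfl⟩ | ⟨y, hy, rfl⟩)
    · exact hC x hx b hb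
    · have h := hC a ha y hy
      rw [add_comm] at h
      exact h
  have hint : volume (S1 ∩ S2) = 0 := by
    refine measure_mono_null (t := {a + b}) ?_ (by simp)
    rintro z ⟨⟨x, hx, hxz⟩, ⟨y, hy, hyz⟩⟩
    simp only at hxz hyz
    have e1 := hamax' x hx
    have e2 := hbmin' y hy
    simp only [mem_singleton_iff]
    linarith
  have hv1 : volume S1 = volume K := by
    rw [hS1]
    simp
  have hv2 : volume S2 = volume L := by
    rw [hS2]
    simp
  have hu : volume (S1 ∪ S2) + volume (S1 ∩ S2) = volume S1 + volume S2 :=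
    measure_union_add_inter S1 hS2c.measurableSet
  rw [hint, add_zero] at hu
  rw [← hv1, ← hv2, ← hu]
  exact measure_mono h1

theorem B2_bm {A B C : Set ℝ} (hA : MeasurableSet A) (hB : MeasurableSet B)
    (hA' : A.Nonempty) (hB' : B.Nonempty)
    (hC : ∀ x ∈ A, ∀ y ∈ B, x + y ∈ C) :
    volume A + volume B ≤ volume C := by
  obtain ⟨a, ha⟩ := hA'
  obtain ⟨b, hb⟩ := hB'
  have key : ∀ K, K ⊆ A → IsCompact K → ∀ L, L ⊆ B → IsCompact L →
      volume K + volume L ≤ volume C := by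
    intro K hKA hK L hLB hL
    have h := B2_bm_compact (K := insert a K) (L := insert b L) (C := C) (hK.insert a)
      (hL.insert b) (insert_nonempty _ _) (insert_nonempty _ _)
      (fun x hx y hy => hC x (insert_subset ha hKA hx) y (insert_subset hb hLB hy))
    refine le_trans ?_ h
    gcongr
    · exact subset_insert _ _
    · exact subset_insert _ _
  rw [hA.measure_eq_iSup_isCompact, hB.measure_eq_iSup_isCompact]
  simp only [iSup_and']
  refine ENNReal.biSup_add_biSup_le' ⟨∅, empty_subset _, isCompact_empty⟩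
    ⟨∅, empty_subset _, isCompact_empty⟩ ?_
  rintro K ⟨hKA, hK⟩ L ⟨hLB, hL⟩
  exact key K hKA hK L hLB hL

/-- normalised case -/
theorem B2_aux (f g h : ℝ → ℝ) (hf : Measurable f) (hg : Measurable g) (hh : Measurable h)
    (f0 : ∀ x, 0 ≤ f x) (g0 : ∀ x, 0 ≤ g x) (h0 : ∀ x, 0 ≤ h x)
    (f1 : ∀ x, f x ≤ 1) (g1 : ∀ x, g x ≤ 1)
    (hfs : ∀ t, t < 1 → ∃ x, t < f x) (hgs : ∀ t, t < 1 → ∃ x, t < g x)
    (H : ∀ x y t, 0 < t → t < 1 → t < f x → t < g y → t < h (x + y)) :
    (∫⁻ x, ENNReal.ofReal (f x)) + (∫⁻ x, ENNReal.ofReal (g x))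
      ≤ ∫⁻ x, ENNReal.ofReal (h x) := by
  rw [lintegral_eq_lintegral_meas_lt volume (Filter.Eventually.of_forall f0) hf.aemeasurable,
    lintegral_eq_lintegral_meas_lt volume (Filter.Eventually.of_forall g0) hg.aemeasurable,
    lintegral_eq_lintegral_meas_lt volume (Filter.Eventually.of_forall h0) hh.aemeasurable]
  have hm : ∀ k : ℝ → ℝ, Measurable (fun t : ℝ => volume {a : ℝ | t < k a}) := fun k =>
    (Antitone.measurable (fun s t hst => measure_mono (fun a (ha : t < k a) =>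
      show s < k a from lt_of_le_of_lt hst ha)))
  rw [← lintegral_add_left (hm f)]
  refine setLIntegral_mono' measurableSet_Ioi ?_
  intro t ht
  have ht0 : 0 < t := ht
  by_cases ht1 : t < 1
  · refine B2_bm (hf measurableSet_Ioi) (hg measurableSet_Ioi) (hfs t ht1) (hgs t ht1) ?_
    intro x hx y hy
    exact H x y t ht0 ht1 hx hy
  · push Not at ht1
    have e1 : {a : ℝ | t < f a} = ∅ := by
      ext a; simp; linarith [f1 a]
    have e2 : {a : ℝ | t < g a} = ∅ := by
      ext a; simp; linarith [g1 a]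
    simp [e1, e2]

theorem B2 (f g h : ℝ → ℝ≥0∞) (hf : Measurable f) (hg : Measurable g) (hh : Measurable h)
    (k : ℝ≥0∞) (hk : k ≠ ∞) (hfk : ∀ x, f x ≤ k) (hgk : ∀ x, g x ≤ k)
    (H : ∀ p q x y : ℝ, 0 < x → 0 < y → ENNReal.ofReal (1 / x ^ 2) ≤ f p →
      ENNReal.ofReal (1 / y ^ 2) ≤ g q → ENNReal.ofReal (1 / (x + y) ^ 2) ≤ h (p + q)) :
    (∫⁻ x, f x) * (∫⁻ x, g x) ≤ (∫⁻ x, h x) * ((∫⁻ x, f x) + ∫⁻ x, g x) := by
  by_cases hM0 : (⨆ x, f x) = 0
  · have : ∀ x, f x = 0 := by simpa using hM0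
    simp [this]
  by_cases hN0 : (⨆ x, g x) = 0
  · have : ∀ x, g x = 0 := by simpa using hN0
    simp [this]
  set M := ⨆ x, f x with hM
  set N := ⨆ x, g x with hN
  have hMk : M ≤ k := iSup_le hfk
  have hNk : N ≤ k := iSup_le hgk
  have hMt : M ≠ ∞ := ne_top_of_le_ne_top hk hMk
  have hNt : N ≠ ∞ := ne_top_of_le_ne_top hk hNk
  by_cases hC : (∫⁻ x, h x) = ∞
  · rw [hC]
    by_cases hs : (∫⁻ x, f x) + ∫⁻ x, g x = 0
    · rw [add_eq_zero] at hs
      rw [hs.1]; simp
    · rw [ENNReal.top_mul hs]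
      exact le_top
  set m := M.toReal with hm
  set n := N.toReal with hn
  have mpos : 0 < m := ENNReal.toReal_pos hM0 hMt
  have npos : 0 < n := ENNReal.toReal_pos hN0 hNt
  have hFt : ∀ x, f x ≠ ∞ := fun x => ne_top_of_le_ne_top hk (hfk x)
  have hGt : ∀ x, g x ≠ ∞ := fun x => ne_top_of_le_ne_top hk (hgk x)
  set a := (Real.sqrt m)⁻¹ with ha
  set b := (Real.sqrt n)⁻¹ with hb
  have apos : 0 < a := inv_pos.2 (Real.sqrt_pos.2 mpos)
  have bpos : 0 < b := inv_pos.2 (Real.sqrt_pos.2 npos)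
  have ha2 : a ^ 2 = m⁻¹ := by rw [ha, inv_pow, Real.sq_sqrt mpos.le]
  have hb2 : b ^ 2 = n⁻¹ := by rw [hb, inv_pow, Real.sq_sqrt npos.le]
  set f' : ℝ → ℝ := fun x => m⁻¹ * (f x).toReal with hf'
  set g' : ℝ → ℝ := fun x => n⁻¹ * (g x).toReal with hg'
  set h1 : ℝ → ℝ≥0∞ := fun x => min (ENNReal.ofReal ((a + b) ^ 2) * h x) 1 with hh1
  set h' : ℝ → ℝ := fun x => (h1 x).toReal with hh'
  have h't : ∀ x, h1 x ≠ ∞ := fun x => ne_top_of_le_ne_top ENNReal.one_ne_top (min_le_right _ _)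
  have f0 : ∀ x, 0 ≤ f' x := fun x => by positivity
  have g0 : ∀ x, 0 ≤ g' x := fun x => by positivity
  have h0 : ∀ x, 0 ≤ h' x := fun x => ENNReal.toReal_nonneg
  have FM : ∀ x, (f x).toReal ≤ m := fun x => ENNReal.toReal_mono hMt (le_iSup f x)
  have GN : ∀ x, (g x).toReal ≤ n := fun x => ENNReal.toReal_mono hNt (le_iSup g x)
  have f1 : ∀ x, f' x ≤ 1 := fun x => by
    have := FM x
    simp only [hf']
    rw [inv_mul_le_iff₀ mpos]; linarith
  have g1 : ∀ x, g' x ≤ 1 := fun x => by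
    have := GN x
    simp only [hg']
    rw [inv_mul_le_iff₀ npos]; linarith
  have hfs : ∀ t, t < 1 → ∃ x, t < f' x := by
    intro t ht
    by_cases ht0 : t < 0
    · exact ⟨0, lt_of_lt_of_le ht0 (f0 0)⟩
    push Not at ht0
    have h1 : ENNReal.ofReal (t * m) < M := by
      rw [ENNReal.ofReal_lt_iff_lt_toReal (by positivity) hMt]
      nlinarith
    obtain ⟨x, hx⟩ := lt_iSup_iff.mp h1
    refine ⟨x, ?_⟩
    rw [ENNReal.ofReal_lt_iff_lt_toReal (by positivity) (hFt x)] at hx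
    simp only [hf']
    rw [lt_inv_mul_iff₀ mpos]; linarith
  have hgs : ∀ t, t < 1 → ∃ x, t < g' x := by
    intro t ht
    by_cases ht0 : t < 0
    · exact ⟨0, lt_of_lt_of_le ht0 (g0 0)⟩
    push Not at ht0
    have h1 : ENNReal.ofReal (t * n) < N := by
      rw [ENNReal.ofReal_lt_iff_lt_toReal (by positivity) hNt]
      nlinarith
    obtain ⟨x, hx⟩ := lt_iSup_iff.mp h1
    refine ⟨x, ?_⟩
    rw [ENNReal.ofReal_lt_iff_lt_toReal (by positivity) (hGt x)] at hx
    simp only [hg']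
    rw [lt_inv_mul_iff₀ npos]; linarith
  have H1 : ∀ x y t, 0 < t → t < 1 → t < f' x → t < g' y → t < h' (x + y) := by
    intro p q t ht0 ht1 hp hq
    obtain ⟨θ, hθ1, hθ2, hθ3, hθ4⟩ : ∃ θ, t < θ ∧ θ ≤ f' p ∧ θ ≤ g' q ∧ θ ≤ 1 :=
      ⟨min (f' p) (g' q), lt_min hp hq, min_le_left _ _, min_le_right _ _,
        (min_le_left _ _).trans (f1 p)⟩
    have θpos : 0 < θ := ht0.trans hθ1
    set s := (Real.sqrt θ)⁻¹ with hs
    have spos : 0 < s := inv_pos.2 (Real.sqrt_pos.2 θpos)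
    have hs2 : s ^ 2 = θ⁻¹ := by rw [hs, inv_pow, Real.sq_sqrt θpos.le]
    have hh := H p q (s * a) (s * b) (by positivity) (by positivity)
      (by
        rw [mul_pow, hs2, ha2]
        refine ENNReal.ofReal_le_of_le_toReal ?_
        have h2 : θ ≤ m⁻¹ * (f p).toReal := hθ2
        rw [le_inv_mul_iff₀ mpos] at h2
        have h3 : 1 / (θ⁻¹ * m⁻¹) = m * θ := by field_simp
        rw [h3]; exact h2)
      (by
        rw [mul_pow, hs2, hb2]
        refine ENNReal.ofReal_le_of_le_toReal ?_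
        have h2 : θ ≤ n⁻¹ * (g q).toReal := hθ3
        rw [le_inv_mul_iff₀ npos] at h2
        have h3 : 1 / (θ⁻¹ * n⁻¹) = n * θ := by field_simp
        rw [h3]; exact h2)
    have h4 : 1 / (s * a + s * b) ^ 2 = θ / (a + b) ^ 2 := by
      rw [← mul_add, mul_pow, hs2]
      field_simp
    rw [h4] at hh
    have h5 : ENNReal.ofReal θ ≤ ENNReal.ofReal ((a + b) ^ 2) * h (p + q) := by
      calc ENNReal.ofReal θ = ENNReal.ofReal ((a + b) ^ 2) * ENNReal.ofReal (θ / (a + b) ^ 2) := by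
            rw [← ENNReal.ofReal_mul (by positivity)]
            congr 1
            field_simp
        _ ≤ _ := by gcongr
    have h6 : ENNReal.ofReal θ ≤ h1 (p + q) := by
      refine le_min h5 ?_
      rw [← ENNReal.ofReal_one]
      exact ENNReal.ofReal_le_ofReal hθ4
    have h7 : θ ≤ h' (p + q) := by
      rw [hh', ← ENNReal.ofReal_le_iff_le_toReal (h't _)]
      exact h6
    exact lt_of_lt_of_le hθ1 h7
  have hfm : Measurable f' := (hf.ennreal_toReal).const_mul _
  have hgm : Measurable g' := (hg.ennreal_toReal).const_mul _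
  have hhm : Measurable h' := ((hh.const_mul _).min measurable_const).ennreal_toReal
  have main := B2_aux f' g' h' hfm hgm hhm f0 g0 h0 f1 g1 hfs hgs H1
  have e1 : (∫⁻ x, ENNReal.ofReal (f' x)) = ENNReal.ofReal m⁻¹ * ∫⁻ x, f x := by
    rw [← lintegral_const_mul _ hf]
    refine lintegral_congr (fun x => ?_)
    simp only [hf']
    rw [ENNReal.ofReal_mul (by positivity), ENNReal.ofReal_toReal (hFt x)]
  have e2 : (∫⁻ x, ENNReal.ofReal (g' x)) = ENNReal.ofReal n⁻¹ * ∫⁻ x, g x := by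
    rw [← lintegral_const_mul _ hg]
    refine lintegral_congr (fun x => ?_)
    simp only [hg']
    rw [ENNReal.ofReal_mul (by positivity), ENNReal.ofReal_toReal (hGt x)]
  have e3 : (∫⁻ x, ENNReal.ofReal (h' x)) ≤ ENNReal.ofReal ((a + b) ^ 2) * ∫⁻ x, h x := by
    rw [← lintegral_const_mul _ hh]
    refine lintegral_mono (fun x => ?_)
    simp only [hh']
    rw [ENNReal.ofReal_toReal (h't x)]
    exact min_le_left _ _
  have main2 : ENNReal.ofReal m⁻¹ * (∫⁻ x, f x) + ENNReal.ofReal n⁻¹ * (∫⁻ x, g x)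
      ≤ ENNReal.ofReal ((a + b) ^ 2) * ∫⁻ x, h x := by
    rw [← e1, ← e2]
    exact main.trans e3
  set A := ∫⁻ x, f x with hA
  set B := ∫⁻ x, g x with hB
  set C := ∫⁻ x, h x with hC'
  have hR : ENNReal.ofReal ((a + b) ^ 2) * C ≠ ∞ := by finiteness
  have hAt : A ≠ ∞ := by
    intro hinf
    rw [hinf, ENNReal.mul_top (by simpa using mpos)] at main2
    simp only [top_add, top_le_iff] at main2
    exact hR main2
  have hBt : B ≠ ∞ := by
    intro hinf
    rw [hinf, ENNReal.mul_top (by simpa using npos)] at main2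
    simp only [add_top, top_le_iff] at main2
    exact hR main2
  have main3 := ENNReal.toReal_mono hR main2
  rw [ENNReal.toReal_add (by finiteness) (by finiteness), ENNReal.toReal_mul, ENNReal.toReal_mul,
    ENNReal.toReal_mul, ENNReal.toReal_ofReal (by positivity),
    ENNReal.toReal_ofReal (by positivity), ENNReal.toReal_ofReal (by positivity), ← ha2,
    ← hb2] at main3
  have hfin : A.toReal * B.toReal ≤ C.toReal * (A.toReal + B.toReal) := by
    have a0 : 0 ≤ A.toReal := ENNReal.toReal_nonneg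
    have b0 : 0 ≤ B.toReal := ENNReal.toReal_nonneg
    have c0 : 0 ≤ C.toReal := ENNReal.toReal_nonneg
    have h5 : 0 < (a + b) ^ 2 := by positivity
    refine le_of_mul_le_mul_left ?_ h5
    calc (a + b) ^ 2 * (A.toReal * B.toReal)
        ≤ (a ^ 2 * A.toReal + b ^ 2 * B.toReal) * (A.toReal + B.toReal) := by
          nlinarith [sq_nonneg (a * A.toReal - b * B.toReal)]
      _ ≤ ((a + b) ^ 2 * C.toReal) * (A.toReal + B.toReal) := by gcongr
      _ = _ := by ring
  rw [← ENNReal.ofReal_toReal hAt, ← ENNReal.ofReal_toReal hBt, ← ENNReal.ofReal_toReal hC,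
    ← ENNReal.ofReal_add ENNReal.toReal_nonneg ENNReal.toReal_nonneg,
    ← ENNReal.ofReal_mul ENNReal.toReal_nonneg, ← ENNReal.ofReal_mul ENNReal.toReal_nonneg]
  exact ENNReal.ofReal_le_ofReal hfin

end B2

section B3
theorem B3_cv (F : ℝ → ℝ≥0∞) :
    ∫⁻ s in Ioi (0 : ℝ), F s = ∫⁻ p in Ioi (0 : ℝ), F (1 / p) * ENNReal.ofReal (1 / p ^ 2) := by
  have him : (fun p : ℝ => 1 / p) '' Ioi (0 : ℝ) = Ioi 0 := by
    ext s
    simp only [mem_image, mem_Ioi]
    constructor
    · rintro ⟨p, hp, rfl⟩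
      positivity
    · intro hs
      exact ⟨1 / s, by positivity, by simp⟩
  have hder : ∀ p ∈ Ioi (0 : ℝ), HasDerivWithinAt (fun p : ℝ => 1 / p) (-(p ^ 2)⁻¹) (Ioi 0) p := by
    intro p hp
    have := (hasDerivAt_inv (ne_of_gt (mem_Ioi.1 hp))).hasDerivWithinAt (s := Ioi (0 : ℝ))
    simpa [one_div] using this
  have hinj : InjOn (fun p : ℝ => 1 / p) (Ioi (0 : ℝ)) := by
    intro a ha b hb hab
    simpa using hab
  have := lintegral_image_eq_lintegral_abs_deriv_mul measurableSet_Ioi hder hinj F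
  rw [him] at this
  rw [this]
  refine setLIntegral_congr_fun measurableSet_Ioi fun p hp => ?_
  have : |(-(p ^ 2)⁻¹ : ℝ)| = 1 / p ^ 2 := by
    rw [abs_neg, abs_of_nonneg (by positivity), one_div]
  simp only [this]
  rw [mul_comm]

/-- the transformed function -/
noncomputable def B3_f (F : ℝ → ℝ≥0∞) (p : ℝ) : ℝ≥0∞ :=
  (Ioi (0 : ℝ)).indicator (fun p => F (1 / p) * ENNReal.ofReal (1 / p ^ 2)) p

theorem B3_int (F : ℝ → ℝ≥0∞) : ∫⁻ s in Ioi (0 : ℝ), F s = ∫⁻ p, B3_f F p := by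
  rw [B3_cv, ← lintegral_indicator measurableSet_Ioi]
  rfl

theorem B3_meas (F : ℝ → ℝ≥0∞) (hF : Measurable F) : Measurable (B3_f F) := by
  refine Measurable.indicator ?_ measurableSet_Ioi
  exact (hF.comp (by fun_prop)).mul (by fun_prop)

theorem B3_bd (F : ℝ → ℝ≥0∞) (k : ℝ≥0∞) (hk : ∀ x, F x ≤ k) (R : ℝ)
    (hR : ∀ x : ℝ, R < |x| → F x = 0) (p : ℝ) :
    B3_f F p ≤ k * ENNReal.ofReal ((max R 0) ^ 2) := by
  unfold B3_f
  by_cases hp : p ∈ Ioi (0 : ℝ)
  · rw [indicator_of_mem hp]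
    have hp0 : 0 < p := hp
    by_cases h : R < |1 / p|
    · rw [hR _ h]; simp
    · push Not at h
      have h1 : 1 / p ≤ R := by rwa [abs_of_pos (by positivity)] at h
      have h2 : 1 / p ^ 2 ≤ (max R 0) ^ 2 := by
        have : (1 / p) ^ 2 ≤ (max R 0) ^ 2 :=
          pow_le_pow_left₀ (by positivity) (h1.trans (le_max_left _ _)) 2
        simpa [div_pow] using this
      exact mul_le_mul' (hk _) (ENNReal.ofReal_le_ofReal h2)
  · rw [indicator_of_notMem hp]; exact zero_le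

theorem B3_lb (F : ℝ → ℝ≥0∞) (p x : ℝ) (hx : 0 < x) (h : ENNReal.ofReal (1 / x ^ 2) ≤ B3_f F p) :
    0 < p ∧ ENNReal.ofReal ((p / x) ^ 2) ≤ F (1 / p) := by
  unfold B3_f at h
  by_cases hp : p ∈ Ioi (0 : ℝ)
  · rw [indicator_of_mem hp] at h
    have hp0 : 0 < p := hp
    refine ⟨hp0, ?_⟩
    have h1 : ENNReal.ofReal (p ^ 2) * ENNReal.ofReal (1 / x ^ 2) ≤
        ENNReal.ofReal (p ^ 2) * (F (1 / p) * ENNReal.ofReal (1 / p ^ 2)) :=
      mul_le_mul' le_rfl h
    rw [← ENNReal.ofReal_mul (by positivity)] at h1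
    have h2 : ENNReal.ofReal (p ^ 2) * (F (1 / p) * ENNReal.ofReal (1 / p ^ 2)) = F (1 / p) := by
      rw [mul_comm (F (1 / p)), ← mul_assoc, ← ENNReal.ofReal_mul (by positivity)]
      have : p ^ 2 * (1 / p ^ 2) = 1 := by field_simp
      rw [this]; simp
    rw [h2] at h1
    have h3 : (p / x) ^ 2 = p ^ 2 * (1 / x ^ 2) := by field_simp
    rw [h3]; exact h1
  · rw [indicator_of_notMem hp] at h
    exfalso
    have : 0 < ENNReal.ofReal (1 / x ^ 2) := ENNReal.ofReal_pos.2 (by positivity)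
    exact absurd h (not_le.2 this)

theorem B3 (G : ℝ → ℝ → ℝ≥0∞) (hG : Measurable (fun p : ℝ × ℝ => G p.1 p.2)) (k : ℝ≥0∞)
    (hk : k ≠ ∞) (hGk : ∀ x y, G x y ≤ k) (R : ℝ)
    (hR : ∀ x y : ℝ, (R < |x| ∨ R < |y|) → G x y = 0)
    (H : ∀ a b x y x' y' : ℝ, 0 < a → 0 < b → a + b = 1 →
      G x y ^ a * G x' y' ^ b ≤ G (a * x + b * x') (a * y + b * y')) :
    (∫⁻ s in Ioi (0 : ℝ), G s 0) * (∫⁻ s in Ioi (0 : ℝ), G 0 s) ≤
      (∫⁻ s in Ioi (0 : ℝ), G s s) *
        ((∫⁻ s in Ioi (0 : ℝ), G s 0) + ∫⁻ s in Ioi (0 : ℝ), G 0 s) := by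
  rw [B3_int (fun s => G s 0), B3_int (fun s => G 0 s), B3_int (fun s => G s s)]
  have m1 : Measurable (fun s => G s 0) := hG.comp (measurable_id.prodMk measurable_const)
  have m2 : Measurable (fun s => G 0 s) := hG.comp (measurable_const.prodMk measurable_id)
  have m3 : Measurable (fun s => G s s) := hG.comp (measurable_id.prodMk measurable_id)
  refine B2 _ _ _ (B3_meas _ m1) (B3_meas _ m2) (B3_meas _ m3)
    (k * ENNReal.ofReal ((max R 0) ^ 2)) (ENNReal.mul_ne_top hk ENNReal.ofReal_ne_top)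
    (B3_bd _ k (fun x => hGk _ _) R (fun x hx => hR _ _ (Or.inl hx)))
    (B3_bd _ k (fun x => hGk _ _) R (fun x hx => hR _ _ (Or.inr hx))) ?_
  intro p q x y hx hy h1 h2
  obtain ⟨hp, h1⟩ := B3_lb _ p x hx h1
  obtain ⟨hq, h2⟩ := B3_lb _ q y hy h2
  have hm : 0 < p + q := by positivity
  have hab : p / (p + q) + q / (p + q) = 1 := by field_simp
  have h3 := H (p / (p + q)) (q / (p + q)) (1 / p) 0 0 (1 / q) (by positivity) (by positivity) hab
  have e1 : p / (p + q) * (1 / p) + q / (p + q) * 0 = 1 / (p + q) := by field_simp; ring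
  have e2 : p / (p + q) * 0 + q / (p + q) * (1 / q) = 1 / (p + q) := by field_simp; ring
  rw [e1, e2] at h3
  have h4 : ENNReal.ofReal ((p / x) ^ 2) ^ (p / (p + q)) * ENNReal.ofReal ((q / y) ^ 2) ^ (q / (p + q))
      ≤ G (1 / (p + q)) (1 / (p + q)) :=
    le_trans (mul_le_mul' (ENNReal.rpow_le_rpow h1 (by positivity))
      (ENNReal.rpow_le_rpow h2 (by positivity))) h3
  rw [ENNReal.ofReal_rpow_of_pos (by positivity), ENNReal.ofReal_rpow_of_pos (by positivity),
    ← ENNReal.ofReal_mul (by positivity)] at h4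
  have key : ((p + q) / (x + y)) ^ 2 ≤
      ((p / x) ^ 2) ^ (p / (p + q)) * ((q / y) ^ 2) ^ (q / (p + q)) := by
    have am := Real.geom_mean_le_arith_mean2_weighted (w₁ := p / (p + q)) (w₂ := q / (p + q))
      (p₁ := x / p) (p₂ := y / q) (by positivity) (by positivity) (by positivity) (by positivity) hab
    have e3 : p / (p + q) * (x / p) + q / (p + q) * (y / q) = (x + y) / (p + q) := by
      field_simp
    rw [e3] at am
    have hpos : 0 < (x / p) ^ (p / (p + q)) * (y / q) ^ (q / (p + q)) := by positivity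
    have e4 : ((p / x) ^ 2) ^ (p / (p + q)) * ((q / y) ^ 2) ^ (q / (p + q)) =
        (((x / p) ^ (p / (p + q)) * (y / q) ^ (q / (p + q)))⁻¹) ^ 2 := by
      rw [mul_inv, mul_pow, ← Real.inv_rpow (by positivity), ← Real.inv_rpow (by positivity),
        inv_div, inv_div]
      congr 1
      · rw [← Real.rpow_natCast, ← Real.rpow_mul (by positivity), ← Real.rpow_natCast,
          ← Real.rpow_mul (by positivity), mul_comm]
      · rw [← Real.rpow_natCast, ← Real.rpow_mul (by positivity), ← Real.rpow_natCast,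
          ← Real.rpow_mul (by positivity), mul_comm]
    rw [e4]
    have e5 : (p + q) / (x + y) = ((x + y) / (p + q))⁻¹ := by rw [inv_div]
    rw [e5]
    exact pow_le_pow_left₀ (by positivity) (inv_anti₀ hpos am) 2
  have h5 : ENNReal.ofReal (((p + q) / (x + y)) ^ 2) ≤ G (1 / (p + q)) (1 / (p + q)) :=
    (ENNReal.ofReal_le_ofReal key).trans h4
  unfold B3_f
  rw [indicator_of_mem (mem_Ioi.2 hm)]
  calc ENNReal.ofReal (1 / (x + y) ^ 2)
      = ENNReal.ofReal (((p + q) / (x + y)) ^ 2) * ENNReal.ofReal (1 / (p + q) ^ 2) := by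
        rw [← ENNReal.ofReal_mul (by positivity)]
        congr 1
        field_simp
    _ ≤ _ := mul_le_mul' h5 le_rfl

end B3

section B4a
/-- codimension two sections -/
noncomputable def GG {k : ℕ} (K : Set (E (k + 2))) (x y : ℝ) : ℝ≥0∞ :=
  volume {z : Fin k → ℝ | (WithLp.toLp 2 (Fin.cons x (Fin.cons y z : Fin (k + 1) → ℝ) : Fin (k + 2) → ℝ) : E (k + 2)) ∈ K}

theorem B4a_split {k : ℕ} (A : Set (Fin (k + 1) → ℝ)) (hA : MeasurableSet A) :
    volume A = ∫⁻ s : ℝ, volume {z : Fin k → ℝ | (Fin.cons s z : Fin (k + 1) → ℝ) ∈ A} := by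
  have hmp := (volume_preserving_piFinSuccAbove (fun _ : Fin (k + 1) => ℝ) 0).symm
  have h1 := hmp.measure_preimage hA.nullMeasurableSet
  rw [← h1]
  have hm : MeasurableSet ((MeasurableEquiv.piFinSuccAbove (fun _ : Fin (k + 1) => ℝ) 0).symm ⁻¹' A) :=
    (MeasurableEquiv.piFinSuccAbove (fun _ : Fin (k + 1) => ℝ) 0).symm.measurable hA
  have h2 := Measure.prod_apply (μ := (volume : Measure ℝ)) (ν := (volume : Measure (Fin k → ℝ))) hm
  refine Eq.trans h2 ?_
  apply lintegral_congr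
  intro s
  congr 1
  ext z
  simp only [Set.mem_preimage, Set.mem_setOf_eq]
  have h3 : (MeasurableEquiv.piFinSuccAbove (fun _ : Fin (k + 1) => ℝ) 0).symm (s, z) =
      (Fin.cons s z : Fin (k + 1) → ℝ) := by
    exact congrFun (congrFun (congrArg (fun f => f) (rfl : (fun (s : ℝ) (z : Fin k → ℝ) =>
      (MeasurableEquiv.piFinSuccAbove (fun _ : Fin (k + 1) => ℝ) 0).symm (s, z)) = fun s z =>
      (Fin.insertNth 0 s z : Fin (k + 1) → ℝ))) s) z |>.trans (Fin.insertNth_zero' (β := ℝ) s z)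
  rw [h3]

theorem B4a_det {n : ℕ} (T : E n ≃ₗ[ℝ] E n) (hT : ∀ v, T (T v) = v) :
    |LinearMap.det (T : E n →ₗ[ℝ] E n)| = 1 := by
  have h1 : (T : E n →ₗ[ℝ] E n) ∘ₗ (T : E n →ₗ[ℝ] E n) = LinearMap.id := by
    ext1 v
    exact hT v
  have h2 := LinearMap.det_comp (T : E n →ₗ[ℝ] E n) (T : E n →ₗ[ℝ] E n)
  rw [h1, LinearMap.det_id] at h2
  have h3 : |LinearMap.det (T : E n →ₗ[ℝ] E n)| * |LinearMap.det (T : E n →ₗ[ℝ] E n)| = 1 := by
    rw [← abs_mul, ← h2, abs_one]
  nlinarith [abs_nonneg (LinearMap.det (T : E n →ₗ[ℝ] E n))]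

/-- swap of the first two coordinates -/
noncomputable def B4a_f1 (k : ℕ) : E (k + 2) →ₗ[ℝ] E (k + 2) where
  toFun v := WithLp.toLp 2 (fun i => if i = 0 then v 1 else if i = 1 then v 0 else v i)
  map_add' v w := by
    ext i
    simp only [PiLp.add_apply]
    split_ifs <;> rfl
  map_smul' c v := by
    ext i
    simp only [PiLp.smul_apply, RingHom.id_apply]
    split_ifs <;> rfl

theorem B4a_f1_inv (k : ℕ) : Function.Involutive (B4a_f1 k) := by
  intro v
  ext i
  simp only [B4a_f1, LinearMap.coe_mk, AddHom.coe_mk]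
  by_cases h0 : i = 0
  · subst h0; simp
  · by_cases h1 : i = 1
    · subst h1; simp
    · simp [h0, h1]

/-- `(v₀, v₁, z) ↦ (v₀ + v₁, -v₁, z)` -/
noncomputable def B4a_f2 (k : ℕ) : E (k + 2) →ₗ[ℝ] E (k + 2) where
  toFun v := WithLp.toLp 2 (fun i => if i = 0 then v 0 + v 1 else if i = 1 then - v 1 else v i)
  map_add' v w := by
    ext i
    simp only [PiLp.add_apply]
    split_ifs
    · ring
    · ring
    · rfl
  map_smul' c v := by
    ext i
    simp only [PiLp.smul_apply, RingHom.id_apply, smul_eq_mul]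
    split_ifs
    · ring
    · ring
    · rfl

theorem B4a_f2_inv (k : ℕ) : Function.Involutive (B4a_f2 k) := by
  intro v
  ext i
  simp only [B4a_f2, LinearMap.coe_mk, AddHom.coe_mk]
  by_cases h0 : i = 0
  · subst h0; simp
  · by_cases h1 : i = 1
    · subst h1; simp
    · simp [h0, h1]

theorem B4a_emb_meas {d : ℕ} : Measurable fun y : Fin d → ℝ => (emb y 0 : E (d + 1)) := by
  unfold emb
  apply (WithLp.measurable_toLp 2 _).comp
  rw [measurable_pi_iff]
  intro i
  refine Fin.cases ?_ (fun j => ?_) i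
  · simp only [Fin.cons_zero]
    exact measurable_const
  · simp only [Fin.cons_succ]
    exact measurable_pi_apply j

theorem B4a_main {k : ℕ} (K : Set (E (k + 2))) (hK : MeasurableSet K) (T : E (k + 2) ≃ₗ[ℝ] E (k + 2))
    (hT : ∀ v, T (T v) = v) (ξ : E (k + 2)) (hξ : ξ ≠ 0)
    (h0 : ∀ y : Fin (k + 1) → ℝ, inner ℝ ξ (T (emb y 0)) = 0) (h1 : inner ℝ ξ (T (emb 0 1)) = 1)
    (p q : ℝ → ℝ) (hpq : ∀ (s : ℝ) (z : Fin k → ℝ), T (emb (Fin.cons s z : Fin (k + 1) → ℝ) 0) =
      WithLp.toLp 2 (Fin.cons (p s) (Fin.cons (q s) z : Fin (k + 1) → ℝ) : Fin (k + 2) → ℝ)) :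
    sec (d := k + 1) K ξ = ∫⁻ s : ℝ, GG K (p s) (q s) := by
  rw [G1 T ξ hξ h0 h1 K hK, B4a_det T hT, ENNReal.ofReal_one, one_mul]
  have hm : MeasurableSet {y : Fin (k + 1) → ℝ | T (emb y 0) ∈ K} := by
    have hc : Continuous T := T.toLinearMap.continuous_of_finiteDimensional
    exact (hc.measurable.comp B4a_emb_meas) hK
  rw [B4a_split _ hm]
  apply lintegral_congr
  intro s
  unfold GG
  congr 1
  ext z
  simp only [Set.mem_setOf_eq]
  rw [hpq]

theorem B4a {k : ℕ} (K : Set (E (k + 2))) (hK : MeasurableSet K) :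
    sec (d := k + 1) K (EuclideanSpace.single 0 (1 : ℝ)) = ∫⁻ s : ℝ, GG K 0 s ∧
    sec (d := k + 1) K (EuclideanSpace.single 1 (1 : ℝ)) = ∫⁻ s : ℝ, GG K s 0 ∧
    sec (d := k + 1) K (EuclideanSpace.single 0 (1 : ℝ) + EuclideanSpace.single 1 (1 : ℝ)) =
      ∫⁻ s : ℝ, GG K s (-s) := by
  have in0 : ∀ v : E (k + 2), inner ℝ (EuclideanSpace.single 0 (1 : ℝ)) v = v 0 := fun v => by
    rw [EuclideanSpace.inner_single_left]; simp
  have in1 : ∀ v : E (k + 2), inner ℝ (EuclideanSpace.single 1 (1 : ℝ)) v = v 1 := fun v => by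
    rw [EuclideanSpace.inner_single_left]; simp
  refine ⟨?_, ?_, ?_⟩
  · apply B4a_main K hK (LinearEquiv.refl ℝ _) (fun v => rfl) _ ?_ ?_ ?_ (fun _ => 0) (fun s => s)
    · intro s z
      rfl
    · intro h
      have := congrArg (fun v : E (k + 2) => v 0) h
      simp at this
    · intro y
      rw [in0]
      simp [emb]
    · rw [in0]
      simp [emb]
  · apply B4a_main K hK (LinearEquiv.ofInvolutive (B4a_f1 k) (B4a_f1_inv k)) (B4a_f1_inv k) _ ?_ ?_ ?_
      (fun s => s) (fun _ => 0)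
    · intro s z
      change B4a_f1 k _ = _
      ext i
      refine Fin.cases ?_ (fun j => ?_) i
      · simp [B4a_f1, emb]
      · refine Fin.cases ?_ (fun j => ?_) j
        · simp [B4a_f1, emb]
        · have h1 : (j.succ.succ : Fin (k + 2)) ≠ 0 := Fin.succ_ne_zero _
          have h2 : (j.succ.succ : Fin (k + 2)) ≠ 1 := by
            intro h
            exact Fin.succ_ne_zero j (Fin.succ_injective _ h)
          simp [B4a_f1, emb, h2]
    · intro h
      have := congrArg (fun v : E (k + 2) => v 1) h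
      simp at this
    · intro y
      rw [in1]
      change B4a_f1 k _ 1 = _
      simp [B4a_f1, emb]
    · rw [in1]
      change B4a_f1 k _ 1 = _
      simp [B4a_f1, emb]
  · apply B4a_main K hK (LinearEquiv.ofInvolutive (B4a_f2 k) (B4a_f2_inv k)) (B4a_f2_inv k) _ ?_ ?_ ?_
      (fun s => s) (fun s => -s)
    · intro s z
      change B4a_f2 k _ = _
      ext i
      refine Fin.cases ?_ (fun j => ?_) i
      · simp [B4a_f2, emb]
      · refine Fin.cases ?_ (fun j => ?_) j
        · simp [B4a_f2, emb]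
        · have h1 : (j.succ.succ : Fin (k + 2)) ≠ 0 := Fin.succ_ne_zero _
          have h2 : (j.succ.succ : Fin (k + 2)) ≠ 1 := by
            intro h
            exact Fin.succ_ne_zero j (Fin.succ_injective _ h)
          simp [B4a_f2, emb, h2]
    · intro h
      have := congrArg (fun v : E (k + 2) => v 0) h
      simp at this
    · intro y
      rw [inner_add_left, in0, in1]
      change B4a_f2 k _ 0 + B4a_f2 k _ 1 = _
      simp [B4a_f2, emb]
    · rw [inner_add_left, in0, in1]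
      change B4a_f2 k _ 0 + B4a_f2 k _ 1 = _
      simp [B4a_f2, emb]

end B4a

section B4b
/-- the point with the given first two coordinates -/
noncomputable def B4b_pt {k : ℕ} (x y : ℝ) (z : Fin k → ℝ) : E (k + 2) :=
  (WithLp.toLp 2 (Fin.cons x (Fin.cons y z : Fin (k + 1) → ℝ) : Fin (k + 2) → ℝ) : E (k + 2))

theorem B4b_cont {k : ℕ} :
    Continuous (fun p : (ℝ × ℝ) × (Fin k → ℝ) => B4b_pt p.1.1 p.1.2 p.2) := by
  refine (PiLp.continuous_toLp 2 _).comp (continuous_pi fun i => ?_)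
  refine Fin.cases ?_ (fun i => ?_) i
  · simp only [Fin.cons_zero]
    fun_prop
  · simp only [Fin.cons_succ]
    refine Fin.cases ?_ (fun i => ?_) i
    · simp only [Fin.cons_zero]
      fun_prop
    · simp only [Fin.cons_succ]
      fun_prop

theorem B4b_cont' {k : ℕ} (x y : ℝ) : Continuous (fun z : Fin k → ℝ => B4b_pt x y z) := by
  have h : Continuous (fun z : Fin k → ℝ => (((x, y), z) : (ℝ × ℝ) × (Fin k → ℝ))) :=
    Continuous.prodMk continuous_const continuous_id
  exact B4b_cont.comp h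

theorem B4b_comb {k : ℕ} (a b x y x' y' : ℝ) (z z' : Fin k → ℝ) :
    a • B4b_pt x y z + b • B4b_pt x' y' z' =
      B4b_pt (a * x + b * x') (a * y + b * y') (a • z + b • z') := by
  ext i
  refine Fin.cases ?_ (fun i => ?_) i
  · simp [B4b_pt]
  · refine Fin.cases ?_ (fun i => ?_) i
    · simp [B4b_pt]
    · simp [B4b_pt]

theorem B4b_neg {k : ℕ} (x y : ℝ) (z : Fin k → ℝ) :
    -B4b_pt x y z = B4b_pt (-x) (-y) (-z) := by
  ext i
  refine Fin.cases ?_ (fun i => ?_) i
  · simp [B4b_pt]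
  · refine Fin.cases ?_ (fun i => ?_) i
    · simp [B4b_pt]
    · simp [B4b_pt]

theorem B4b_coord {k : ℕ} (x y : ℝ) (z : Fin k → ℝ) :
    |x| ≤ ‖B4b_pt x y z‖ ∧ |y| ≤ ‖B4b_pt x y z‖ ∧ ∀ i, |z i| ≤ ‖B4b_pt x y z‖ := by
  refine ⟨?_, ?_, fun i => ?_⟩
  · have h := PiLp.norm_apply_le (B4b_pt x y z) 0
    simpa [B4b_pt] using h
  · have h := PiLp.norm_apply_le (B4b_pt x y z) (Fin.succ 0)
    simpa [B4b_pt] using h
  · have h := PiLp.norm_apply_le (B4b_pt x y z) (Fin.succ (Fin.succ i))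
    simpa [B4b_pt] using h

theorem B4b {k : ℕ} (K : Set (E (k + 2))) (hK : Body K) :
    Measurable (fun p : ℝ × ℝ => GG K p.1 p.2) ∧
    (∃ m : ℝ≥0∞, m ≠ ∞ ∧ ∀ x y, GG K x y ≤ m) ∧
    (∃ R : ℝ, ∀ x y : ℝ, (R < |x| ∨ R < |y|) → GG K x y = 0) ∧
    (∀ a b x y x' y' : ℝ, 0 < a → 0 < b → a + b = 1 →
      GG K x y ^ a * GG K x' y' ^ b ≤ GG K (a * x + b * x') (a * y + b * y')) ∧
    (∀ x y, GG K (-x) (-y) = GG K x y) := by
  have hGG : ∀ x y, GG K x y = volume {z : Fin k → ℝ | B4b_pt x y z ∈ K} := fun x y => rfl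
  have hcl : IsClosed K := hK.compact.isClosed
  have hms : ∀ x y, MeasurableSet {z : Fin k → ℝ | B4b_pt x y z ∈ K} := fun x y =>
    (hcl.preimage (B4b_cont' x y)).measurableSet
  obtain ⟨R, hR⟩ := hK.compact.isBounded.exists_norm_le
  refine ⟨?_, ⟨volume (Icc (fun _ => -R) (fun _ => R) : Set (Fin k → ℝ)),
    isCompact_Icc.measure_lt_top.ne, fun x y => ?_⟩, ⟨R, fun x y hxy => ?_⟩, ?_, fun x y => ?_⟩
  · have hm : MeasurableSet ((fun p : (ℝ × ℝ) × (Fin k → ℝ) => B4b_pt p.1.1 p.1.2 p.2) ⁻¹' K) :=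
      (hcl.preimage B4b_cont).measurableSet
    exact measurable_measure_prodMk_left hm
  · rw [hGG]
    refine measure_mono fun z hz => ?_
    have h1 := fun i => ((B4b_coord x y z).2.2 i).trans (hR _ hz)
    exact ⟨fun i => (abs_le.1 (h1 i)).1, fun i => (abs_le.1 (h1 i)).2⟩
  · rw [hGG]
    have : {z : Fin k → ℝ | B4b_pt x y z ∈ K} = ∅ := by
      refine Set.eq_empty_of_forall_notMem fun z hz => ?_
      have h1 := (B4b_coord x y z).1.trans (hR _ hz)
      have h2 := (B4b_coord x y z).2.1.trans (hR _ hz)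
      rcases hxy with h | h
      · exact absurd h1 (not_le.2 h)
      · exact absurd h2 (not_le.2 h)
    rw [this, measure_empty]
  · intro a b x y x' y' ha hb hab
    rw [hGG, hGG, hGG]
    refine B1 ha hb hab (hms _ _) (hms _ _) (hms _ _) fun z hz z' hz' => ?_
    show B4b_pt (a * x + b * x') (a * y + b * y') (a • z + b • z') ∈ K
    rw [← B4b_comb]
    exact hK.convex hz hz' ha.le hb.le hab
  · rw [hGG, hGG]
    have : {z : Fin k → ℝ | B4b_pt (-x) (-y) z ∈ K} =
        Neg.neg ⁻¹' {z : Fin k → ℝ | B4b_pt x y z ∈ K} := by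
      ext z
      constructor
      · intro hz
        have h := hK.symm _ hz
        rw [B4b_neg, neg_neg, neg_neg] at h
        exact h
      · intro hz
        have h := hK.symm _ hz
        rw [B4b_neg, neg_neg] at h
        exact h
    rw [this]
    exact Measure.measure_preimage_neg volume _

end B4b

section B4c
theorem B4c_half (f : ℝ → ℝ≥0∞) (hf : ∀ s, f (-s) = f s) :
    ∫⁻ s, f s = 2 * ∫⁻ s in Ioi (0 : ℝ), f s := by
  have h1 : ∫⁻ s, f s = (∫⁻ s in Ioi (0 : ℝ), f s) + ∫⁻ s in (Ioi (0 : ℝ))ᶜ, f s :=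
    (lintegral_add_compl f measurableSet_Ioi).symm
  have h2 : ∫⁻ s in (Ioi (0 : ℝ))ᶜ, f s = ∫⁻ s in Iio (0 : ℝ), f s := by
    rw [compl_Ioi]
    exact setLIntegral_congr Iio_ae_eq_Iic.symm
  have h3 : ∫⁻ s in Iio (0 : ℝ), f s = ∫⁻ s in Ioi (0 : ℝ), f s := by
    have h := (Measure.measurePreserving_neg (volume : Measure ℝ)).setLIntegral_comp_preimage_emb
      (MeasurableEquiv.neg ℝ).measurableEmbedding f (Iio 0)
    rw [← h]
    have h4 : (Neg.neg ⁻¹' Iio (0 : ℝ)) = Ioi 0 := by ext x; simp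
    rw [h4]
    exact lintegral_congr (fun x => hf x)
  rw [h1, h2, h3, two_mul]

theorem B4c {k : ℕ} (K : Set (E (k + 2))) (hK : Body K) :
    sec (d := k + 1) K (EuclideanSpace.single 0 (1 : ℝ)) *
        sec (d := k + 1) K (EuclideanSpace.single 1 (1 : ℝ)) ≤
      sec (d := k + 1) K (EuclideanSpace.single 0 (1 : ℝ) + EuclideanSpace.single 1 (1 : ℝ)) *
        (sec (d := k + 1) K (EuclideanSpace.single 0 (1 : ℝ)) +
          sec (d := k + 1) K (EuclideanSpace.single 1 (1 : ℝ))) := by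
  obtain ⟨e0, e1, e2⟩ := B4a K hK.compact.measurableSet
  obtain ⟨hm, ⟨m, hm1, hm2⟩, ⟨R, hR⟩, hlc, hev⟩ := B4b K hK
  have hB := B3 (fun x y => GG K x (-y))
    (hm.comp (measurable_fst.prodMk measurable_snd.neg)) m hm1 (fun x y => hm2 x (-y)) R
    (fun x y h => hR x (-y) (by rwa [abs_neg])) (by
      intro a b x y x' y' ha hb hab
      have h := hlc a b x (-y) x' (-y') ha hb hab
      have h2 : a * -y + b * -y' = -(a * y + b * y') := by ring
      rw [h2] at h
      exact h)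
  simp only [neg_zero] at hB
  have h0 : ∫⁻ s : ℝ, GG K 0 s = 2 * ∫⁻ s in Ioi (0 : ℝ), GG K 0 (-s) := by
    rw [B4c_half (fun s => GG K 0 s) (fun s => by
      have := hev 0 s
      rwa [neg_zero] at this)]
    congr 1
    refine lintegral_congr (fun s => ?_)
    have := hev 0 s
    rw [neg_zero] at this
    exact this.symm
  have h1 : ∫⁻ s : ℝ, GG K s 0 = 2 * ∫⁻ s in Ioi (0 : ℝ), GG K s 0 :=
    B4c_half (fun s => GG K s 0) (fun s => by
      have := hev s 0
      rwa [neg_zero] at this)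
  have h2 : ∫⁻ s : ℝ, GG K s (-s) = 2 * ∫⁻ s in Ioi (0 : ℝ), GG K s (-s) :=
    B4c_half (fun s => GG K s (-s)) (fun s => hev s (-s))
  rw [e0, e1, e2, h0, h1, h2]
  generalize (∫⁻ s in Ioi (0 : ℝ), GG K s 0) = a at *
  generalize (∫⁻ s in Ioi (0 : ℝ), GG K 0 (-s)) = b at *
  generalize (∫⁻ s in Ioi (0 : ℝ), GG K s (-s)) = c at *
  calc 2 * b * (2 * a) = 4 * (a * b) := by ring
    _ ≤ 4 * (c * (a + b)) := by gcongr
    _ = 2 * c * (2 * b + 2 * a) := by ring

end B4c

section B5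
theorem B5_ennreal (s : ℝ≥0∞) (c : ℝ) (hc : c ≠ 0) (hc1 : 1 + c ≠ 0) :
    s * (s / ENNReal.ofReal |c|) ≤
      s / ENNReal.ofReal |1 + c| * (s + s / ENNReal.ofReal |c|) := by
  obtain ⟨a, ha⟩ : ∃ a, a = ENNReal.ofReal |c| := ⟨_, rfl⟩
  obtain ⟨b, hb⟩ : ∃ b, b = ENNReal.ofReal |1 + c| := ⟨_, rfl⟩
  have ha0 : a ≠ 0 := by
    rw [ha]
    simpa using hc
  have hat : a ≠ ⊤ := by rw [ha]; exact ENNReal.ofReal_ne_top
  have hb0 : b ≠ 0 := by
    rw [hb]
    simpa using hc1
  have hbt : b ≠ ⊤ := by rw [hb]; exact ENNReal.ofReal_ne_top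
  have hab : b ≤ 1 + a := by
    rw [ha, hb, ← ENNReal.ofReal_one, ← ENNReal.ofReal_add (by norm_num) (abs_nonneg _)]
    apply ENNReal.ofReal_le_ofReal
    have := abs_add_le 1 c
    rwa [abs_one] at this
  rw [← ha, ← hb]
  have h1 : a⁻¹ ≤ b⁻¹ * (1 + a⁻¹) := by
    calc a⁻¹ = b⁻¹ * (b * a⁻¹) := by
          rw [← mul_assoc, ENNReal.inv_mul_cancel hb0 hbt, one_mul]
      _ ≤ b⁻¹ * ((1 + a) * a⁻¹) := by gcongr
      _ = b⁻¹ * (1 + a⁻¹) := by
          rw [add_mul, one_mul, ENNReal.mul_inv_cancel ha0 hat, add_comm]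
  calc s * (s / a) = (s * s) * a⁻¹ := by rw [div_eq_mul_inv]; ring
    _ ≤ (s * s) * (b⁻¹ * (1 + a⁻¹)) := by gcongr
    _ = s / b * (s + s / a) := by
        rw [div_eq_mul_inv, div_eq_mul_inv]
        ring

theorem B5_equiv {k : ℕ} (x y : E (k + 2)) (h : LinearIndependent ℝ ![x, y]) :
    ∃ S : E (k + 2) ≃ₗ[ℝ] E (k + 2), S x = EuclideanSpace.single 0 (1 : ℝ) ∧
      S y = EuclideanSpace.single 1 (1 : ℝ) := by
  classical
  have hx : x ∈ h.linearIndepOn_id.extend (Set.subset_univ _) :=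
    h.linearIndepOn_id.subset_extend _ ⟨0, rfl⟩
  have hy : y ∈ h.linearIndepOn_id.extend (Set.subset_univ _) :=
    h.linearIndepOn_id.subset_extend _ ⟨1, rfl⟩
  have hxy : x ≠ y := by
    intro he
    have := h.injective (a₁ := 0) (a₂ := 1) he
    exact absurd this (by decide)
  obtain ⟨b, hb⟩ : ∃ b : Basis (h.linearIndepOn_id.extend (Set.subset_univ _)) ℝ (E (k + 2)),
      ∀ i, b i = (i : E (k + 2)) :=
    ⟨Basis.extend h.linearIndepOn_id, fun i => Basis.extend_apply_self _ i⟩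
  obtain ⟨b', hb'⟩ : ∃ b' : Basis (Fin (k + 2)) ℝ (E (k + 2)),
      ∀ i, b' i = EuclideanSpace.single i (1 : ℝ) :=
    ⟨(EuclideanSpace.basisFun (Fin (k + 2)) ℝ).toBasis, fun i => by simp⟩
  let e0 := b.indexEquiv b'
  let ix : h.linearIndepOn_id.extend (Set.subset_univ _) := ⟨x, hx⟩
  let iy : h.linearIndepOn_id.extend (Set.subset_univ _) := ⟨y, hy⟩
  have hixy : ix ≠ iy := by
    intro he
    exact hxy (Subtype.ext_iff.1 he)
  let e1 := e0.trans (Equiv.swap (e0 ix) 0)
  have he1 : e1 ix = 0 := by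
    show Equiv.swap (e0 ix) 0 (e0 ix) = 0
    exact Equiv.swap_apply_left _ _
  let e2 := e1.trans (Equiv.swap (e1 iy) 1)
  have he2x : e2 ix = 0 := by
    show Equiv.swap (e1 iy) 1 (e1 ix) = 0
    rw [he1]
    apply Equiv.swap_apply_of_ne_of_ne
    · rw [← he1]
      intro he
      exact hixy (e1.injective he)
    · intro he
      exact absurd (congrArg Fin.val he) (by simp)
  have he2y : e2 iy = 1 := by
    show Equiv.swap (e1 iy) 1 (e1 iy) = 1
    exact Equiv.swap_apply_left _ _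
  refine ⟨b.equiv b' e2, ?_, ?_⟩
  · have h1 : b.equiv b' e2 (b ix) = b' (e2 ix) := Basis.equiv_apply _ _ _ _
    rw [hb, he2x, hb'] at h1
    exact h1
  · have h1 : b.equiv b' e2 (b iy) = b' (e2 iy) := Basis.equiv_apply _ _ _ _
    rw [hb, he2y, hb'] at h1
    exact h1

theorem B5_adj {n : ℕ} (S : E n ≃ₗ[ℝ] E n) : ∃ T : E n ≃ₗ[ℝ] E n,
    LinearMap.adjoint (T : E n →ₗ[ℝ] E n) = (S : E n →ₗ[ℝ] E n) := by
  refine ⟨LinearEquiv.ofLinearMap (LinearMap.adjoint (S : E n →ₗ[ℝ] E n))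
    (LinearMap.adjoint (S.symm : E n →ₗ[ℝ] E n)) ?_ ?_, ?_⟩
  · rw [← LinearMap.adjoint_comp]
    simp
  · rw [← LinearMap.adjoint_comp]
    simp
  · have h1 : ((LinearEquiv.ofLinearMap (LinearMap.adjoint (S : E n →ₗ[ℝ] E n))
        (LinearMap.adjoint (S.symm : E n →ₗ[ℝ] E n)) (by
          rw [← LinearMap.adjoint_comp]
          simp) (by
          rw [← LinearMap.adjoint_comp]
          simp) : E n ≃ₗ[ℝ] E n) : E n →ₗ[ℝ] E n) = LinearMap.adjoint (S : E n →ₗ[ℝ] E n) := by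
      ext z
      rfl
    rw [h1, LinearMap.adjoint_adjoint]

theorem B5_body {n : ℕ} (K : Set (E n)) (hK : Body K) (T : E n ≃ₗ[ℝ] E n) : Body (T '' K) := by
  have hc : Continuous T := T.toContinuousLinearEquiv.continuous
  refine ⟨hK.compact.image hc, hK.convex.linear_image (T : E n →ₗ[ℝ] E n), ?_, ?_⟩
  · obtain ⟨z, hz⟩ := hK.int_nonempty
    have h1 : IsOpen (T '' interior K) :=
      T.toContinuousLinearEquiv.toHomeomorph.isOpenMap _ isOpen_interior
    exact ⟨T z, mem_interior.2 ⟨T '' interior K, Set.image_mono interior_subset, h1, ⟨z, hz, rfl⟩⟩⟩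
  · rintro _ ⟨z, hz, rfl⟩
    exact ⟨-z, hK.symm z hz, map_neg T z⟩

theorem B5 {k : ℕ} (K : Set (E (k + 2))) (hK : Body K) (x y : E (k + 2)) (hx : x ≠ 0)
    (hy : y ≠ 0) (hxy : x + y ≠ 0) :
    sec (d := k + 1) K x * sec (d := k + 1) K y ≤
      sec (d := k + 1) K (x + y) * (sec (d := k + 1) K x + sec (d := k + 1) K y) := by
  by_cases hli : LinearIndependent ℝ ![x, y]
  · obtain ⟨S, hSx, hSy⟩ := B5_equiv x y hli
    obtain ⟨T, hT⟩ := B5_adj S
    have hK' : Body (T.symm '' K) := B5_body K hK T.symm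
    have himg : K = T '' (T.symm '' K) := by
      rw [Set.image_image]
      simp
    have hmeas : MeasurableSet (T.symm '' K) := hK'.compact.isClosed.measurableSet
    have hG : ∀ ξ : E (k + 2), ξ ≠ 0 → sec (d := k + 1) K ξ =
        ENNReal.ofReal |LinearMap.det (T : E (k + 2) →ₗ[ℝ] E (k + 2))| *
          sec (d := k + 1) (T.symm '' K) (S ξ) := by
      intro ξ hξ
      have h1 := G3 (d := k + 1) T ξ hξ (T.symm '' K) hmeas
      rw [← himg] at h1
      rw [h1]
      have h2 : LinearMap.adjoint (T : E (k + 1 + 1) →ₗ[ℝ] E (k + 1 + 1)) ξ = S ξ := by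
        have := LinearMap.congr_fun hT ξ
        exact this
      rw [h2]
    rw [hG x hx, hG y hy, hG (x + y) hxy, map_add, hSx, hSy]
    have h3 := B4c (T.symm '' K) hK'
    obtain ⟨D, hD⟩ : ∃ D, D = ENNReal.ofReal |LinearMap.det (T : E (k + 2) →ₗ[ℝ] E (k + 2))| :=
      ⟨_, rfl⟩
    rw [← hD]
    calc _ = D * D * (sec (d := k + 1) (T.symm '' K) (EuclideanSpace.single 0 (1 : ℝ)) *
        sec (d := k + 1) (T.symm '' K) (EuclideanSpace.single 1 (1 : ℝ))) := by ring
      _ ≤ D * D * (sec (d := k + 1) (T.symm '' K)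
            (EuclideanSpace.single 0 (1 : ℝ) + EuclideanSpace.single 1 (1 : ℝ)) *
          (sec (d := k + 1) (T.symm '' K) (EuclideanSpace.single 0 (1 : ℝ)) +
          sec (d := k + 1) (T.symm '' K) (EuclideanSpace.single 1 (1 : ℝ)))) :=
          mul_le_mul_right h3 _
      _ = _ := by ring
  · rw [LinearIndependent.pair_iff' hx] at hli
    push Not at hli
    obtain ⟨c, rfl⟩ := hli
    have hc : c ≠ 0 := by
      rintro rfl
      exact hy (zero_smul _ _)
    have hsum : x + c • x = (1 + c) • x := by rw [add_smul, one_smul]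
    have hc1 : 1 + c ≠ 0 := by
      intro h0
      apply hxy
      rw [hsum, h0, zero_smul]
    rw [hsum, G5b (d := k + 1) K x hx c hc, G5b (d := k + 1) K x hx (1 + c) hc1]
    exact B5_ennreal _ c hc hc1

end B5

section B6
theorem B6_par {d : ℕ} (u : E (d + 1)) (hu0 : u ≠ 0) : ∃ T : E d →ₗᵢ[ℝ] E (d + 1),
    ∀ x, inner ℝ u x = 0 ↔ x ∈ range T := by
  set S : Submodule ℝ (E (d + 1)) := (Submodule.span ℝ {u})ᗮ with hS
  have hr : finrank ℝ S = d := by
    have h1 := Submodule.finrank_add_finrank_orthogonal (Submodule.span ℝ {u})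
    rw [finrank_span_singleton hu0, finrank_euclideanSpace_fin, ← hS] at h1
    omega
  let b := (stdOrthonormalBasis ℝ S).reindex (finCongr hr)
  refine ⟨S.subtypeₗᵢ.comp b.repr.symm.toLinearIsometry, ?_⟩
  intro x
  constructor
  · intro hx
    have hxS : x ∈ S := by
      rw [hS, Submodule.mem_orthogonal_singleton_iff_inner_right]
      exact hx
    refine ⟨b.repr ⟨x, hxS⟩, ?_⟩
    simp
  · rintro ⟨y, rfl⟩
    have : ((b.repr.symm y : S) : E (d + 1)) ∈ S := (b.repr.symm y).2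
    exact Submodule.mem_orthogonal_singleton_iff_inner_right.1 this

theorem B6_sec {d : ℕ} (K : Set (E (d + 1))) (u : E (d + 1)) (T : E d →ₗᵢ[ℝ] E (d + 1))
    (hT : ∀ x, inner ℝ u x = 0 ↔ x ∈ range T) :
    μHE[d] (K ∩ {y | inner ℝ u y = 0}) = volume {y : E d | T y ∈ K} := by
  have h1 : K ∩ {y | inner ℝ u y = 0} = T '' {y : E d | T y ∈ K} := by
    ext x
    constructor
    · rintro ⟨hx, hx0⟩
      obtain ⟨y, rfl⟩ := (hT x).1 hx0
      exact ⟨y, hx, rfl⟩
    · rintro ⟨y, hy, rfl⟩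
      exact ⟨hy, (hT _).2 ⟨y, rfl⟩⟩
  rw [h1, T.isometry.euclideanHausdorffMeasure_image,
    EuclideanSpace.euclideanHausdorffMeasure_eq_volume]

theorem B6 {d : ℕ} (K : Set (E (d + 1))) (hK : Body K) : ∃ m M : ℝ, 0 < m ∧ 0 < M ∧
    ∀ x : E (d + 1), x ≠ 0 → ENNReal.ofReal (m / ‖x‖) ≤ sec K x ∧
      sec K x ≤ ENNReal.ofReal (M / ‖x‖) := by
  obtain ⟨r, hr, hrK⟩ : ∃ r : ℝ, 0 < r ∧ Metric.closedBall (0 : E (d + 1)) r ⊆ K := by
    obtain ⟨c, hc⟩ := hK.int_nonempty
    obtain ⟨ε, hε, hεK⟩ := Metric.isOpen_iff.1 isOpen_interior c hc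
    refine ⟨ε / 2, by positivity, fun z hz => ?_⟩
    rw [mem_closedBall_zero_iff] at hz
    have h1 : c + z ∈ K := by
      apply interior_subset
      apply hεK
      rw [Metric.mem_ball, dist_eq_norm, add_sub_cancel_left]
      linarith
    have h2 : c - z ∈ K := by
      apply interior_subset
      apply hεK
      rw [Metric.mem_ball, dist_eq_norm, sub_sub_cancel_left, norm_neg]
      linarith
    have h3 := hK.symm _ h2
    have h4 := hK.convex h1 h3 (a := 1 / 2) (b := 1 / 2) (by norm_num) (by norm_num) (by norm_num)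
    have h5 : (1 / 2 : ℝ) • (c + z) + (1 / 2 : ℝ) • (-(c - z)) = z := by
      module
    rwa [h5] at h4
  obtain ⟨R, hR, hRK⟩ : ∃ R : ℝ, 0 < R ∧ K ⊆ Metric.closedBall (0 : E (d + 1)) R := by
    obtain ⟨R, hR⟩ := hK.compact.isBounded.subset_closedBall 0
    exact ⟨max R 1, by positivity, hR.trans (Metric.closedBall_subset_closedBall (le_max_left _ _))⟩
  have hpos : ∀ ρ : ℝ, 0 < ρ → 0 < (volume (Metric.closedBall (0 : E d) ρ)).toReal := by
    intro ρ hρ
    rw [ENNReal.toReal_pos_iff]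
    exact ⟨Metric.measure_closedBall_pos _ _ hρ, measure_closedBall_lt_top⟩
  have hof : ∀ ρ : ℝ, ENNReal.ofReal (volume (Metric.closedBall (0 : E d) ρ)).toReal =
      volume (Metric.closedBall (0 : E d) ρ) := fun ρ =>
    ENNReal.ofReal_toReal measure_closedBall_lt_top.ne
  refine ⟨(volume (Metric.closedBall (0 : E d) r)).toReal,
    (volume (Metric.closedBall (0 : E d) R)).toReal, hpos r hr, hpos R hR, fun x hx => ?_⟩
  obtain ⟨T, hT⟩ := B6_par x hx
  have hxn : 0 < ‖x‖ := norm_pos_iff.2 hx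
  rw [sec, B6_sec K x T hT, ENNReal.ofReal_div_of_pos hxn, ENNReal.ofReal_div_of_pos hxn, hof, hof]
  constructor
  · apply ENNReal.div_le_div_right
    apply measure_mono
    intro y hy
    apply hrK
    rw [mem_closedBall_zero_iff] at hy ⊢
    rwa [T.norm_map]
  · apply ENNReal.div_le_div_right
    apply measure_mono
    intro y hy
    have := hRK hy
    rw [mem_closedBall_zero_iff] at this ⊢
    rwa [T.norm_map] at this

end B6

section B7
theorem B7_main {k : ℕ} (K : Set (E (k + 2))) (hK : Body K) :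
    ∃ (N : E (k + 2) → ℝ) (m M : ℝ), 0 < m ∧ 0 < M ∧ (∀ x, ‖x‖ / M ≤ N x) ∧
      (∀ x, N x ≤ ‖x‖ / m) ∧ (∀ x y, N (x + y) ≤ N x + N y) ∧
      (∀ (c : ℝ) x, N (c • x) = |c| * N x) ∧ ∀ x, x ∈ IB K ↔ N x ≤ 1 := by
  classical
  obtain ⟨m, M, hm, hM, hb⟩ := B6 (d := k + 1) K hK
  -- real valued radial function
  have hfin : ∀ x : E (k + 2), x ≠ 0 → sec (d := k + 1) K x ≠ ∞ := fun x hx =>
    ne_top_of_le_ne_top ENNReal.ofReal_ne_top (hb x hx).2
  have hlo : ∀ x : E (k + 2), x ≠ 0 → m / ‖x‖ ≤ (sec (d := k + 1) K x).toReal := fun x hx =>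
    (ENNReal.ofReal_le_iff_le_toReal (hfin x hx)).1 (hb x hx).1
  have hup : ∀ x : E (k + 2), x ≠ 0 → (sec (d := k + 1) K x).toReal ≤ M / ‖x‖ := fun x hx =>
    ENNReal.toReal_le_of_le_ofReal (by positivity) (hb x hx).2
  have hpos : ∀ x : E (k + 2), x ≠ 0 → 0 < (sec (d := k + 1) K x).toReal := fun x hx =>
    lt_of_lt_of_le (by have := norm_pos_iff.2 hx; positivity) (hlo x hx)
  have hN0 : ∀ x : E (k + 2), x ≠ 0 → 
      (if x = 0 then 0 else ((sec (d := k + 1) K x).toReal)⁻¹ : ℝ) =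
        ((sec (d := k + 1) K x).toReal)⁻¹ := fun x hx => if_neg hx
  refine ⟨fun x => if x = 0 then 0 else ((sec (d := k + 1) K x).toReal)⁻¹, m, M, hm, hM,
    ?_, ?_, ?_, ?_, ?_⟩
  · intro x
    by_cases hx : x = 0
    · simp [hx]
    · simp only [if_neg hx]
      have hx' := norm_pos_iff.2 hx
      have h := hup x hx
      have hp := hpos x hx
      rw [div_le_iff₀ hM, ← div_eq_inv_mul, le_div_iff₀ hp]
      rw [le_div_iff₀ hx'] at h
      linarith
  · intro x
    by_cases hx : x = 0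
    · simp [hx]
    · simp only [if_neg hx]
      have hx' := norm_pos_iff.2 hx
      have h := hlo x hx
      have hp := hpos x hx
      rw [le_div_iff₀ hm, ← div_eq_inv_mul, div_le_iff₀ hp]
      rw [div_le_iff₀ hx'] at h
      linarith
  · intro x y
    by_cases hx : x = 0
    · simp [hx]
    by_cases hy : y = 0
    · simp [hy]
    by_cases hxy : x + y = 0
    · simp only [if_neg hx, if_neg hy, if_pos hxy]
      have := hpos x hx
      have := hpos y hy
      positivity
    simp only [if_neg hx, if_neg hy, if_neg hxy]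
    have h := B5 K hK x y hx hy hxy
    have h' := ENNReal.toReal_mono (ENNReal.mul_ne_top (hfin _ hxy)
      (ENNReal.add_ne_top.2 ⟨hfin x hx, hfin y hy⟩)) h
    rw [ENNReal.toReal_mul, ENNReal.toReal_mul, ENNReal.toReal_add (hfin x hx) (hfin y hy)] at h'
    have p1 := hpos x hx
    have p2 := hpos y hy
    have p3 := hpos _ hxy
    rw [inv_add_inv p1.ne' p2.ne', ← one_div, div_le_div_iff₀ p3 (by positivity)]
    linarith
  · intro c x
    by_cases hx : x = 0
    · simp [hx]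
    by_cases hc : c = 0
    · simp [hc]
    have hcx : c • x ≠ 0 := smul_ne_zero hc hx
    simp only [if_neg hx, if_neg hcx]
    rw [G5b K x hx c hc, ENNReal.toReal_div, ENNReal.toReal_ofReal (abs_nonneg c), inv_div]
    ring
  · intro x
    by_cases hx : x = 0
    · simp only [if_pos hx]
      exact iff_of_true (Or.inl hx) zero_le_one
    · simp only [if_neg hx]
      rw [G5 K x hx, inv_le_one₀ (hpos x hx)]
      constructor
      · intro h
        have := ENNReal.toReal_mono (hfin x hx) h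
        simpa using this
      · intro h
        have := (ENNReal.ofReal_le_iff_le_toReal (hfin x hx)).2 h
        simpa using this

theorem B7 {d : ℕ} (hd : 1 ≤ d) (K : Set (E (d + 1))) (hK : Body K) : Body (IB K) := by
  obtain ⟨k, rfl⟩ : ∃ k, d = k + 1 := ⟨d - 1, by omega⟩
  obtain ⟨N, m, M, hm, hM, h1, h2, h3, h4, h5⟩ := B7_main K hK
  have hset : IB K = {x | N x ≤ 1} := by
    ext x; exact h5 x
  have hneg : ∀ x, N (-x) = N x := by
    intro x
    have := h4 (-1) x
    simpa using this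
  have hcont : Continuous N := by
    have hlip : ∀ x y, N x ≤ N y + (1 / m) * dist x y := by
      intro x y
      have := h3 y (x - y)
      rw [add_sub_cancel] at this
      have h6 := h2 (x - y)
      rw [dist_eq_norm]
      have : ‖x - y‖ / m = 1 / m * ‖x - y‖ := by ring
      linarith
    exact (LipschitzWith.of_le_add_mul (⟨1 / m, by positivity⟩ : NNReal) hlip).continuous
  refine ⟨?_, ?_, ?_, ?_⟩
  · refine Metric.isCompact_of_isClosed_isBounded ?_ ?_
    · rw [hset]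
      exact isClosed_le hcont continuous_const
    · refine (Metric.isBounded_closedBall (x := (0 : E (k + 2))) (r := M)).subset ?_
      intro x hx
      rw [h5] at hx
      have := h1 x
      rw [mem_closedBall_zero_iff]
      have h6 := (h1 x).trans hx
      rw [div_le_iff₀ hM] at h6
      linarith
  · rw [hset]
    intro x hx y hy a b ha hb hab
    have hx' : N x ≤ 1 := hx
    have hy' : N y ≤ 1 := hy
    show N (a • x + b • y) ≤ 1
    have := h3 (a • x) (b • y)
    rw [h4, h4, abs_of_nonneg ha, abs_of_nonneg hb] at this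
    nlinarith [mul_le_mul_of_nonneg_left hx' ha, mul_le_mul_of_nonneg_left hy' hb]
  · refine ⟨0, mem_interior.2 ⟨Metric.ball 0 m, ?_, Metric.isOpen_ball, Metric.mem_ball_self hm⟩⟩
    intro x hx
    rw [h5]
    rw [mem_ball_zero_iff] at hx
    have := h2 x
    have h6 : ‖x‖ / m ≤ 1 := by
      rw [div_le_one hm]; exact hx.le
    linarith
  · intro x hx
    rw [h5] at hx ⊢
    rw [hneg]; exact hx

end B7

end Pool.Agent.H14IIB
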