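import Mathlib
import Pool.Agent.H14IIB.Defs

set_option autoImplicit false

open MeasureTheory Set Module Filter Topology
open scoped ENNReal Pointwise

namespace Pool.Agent.H14IIB

section R2

theorem R2_emb_eta {d : ℕ} (x : E (d + 1)) :
    x = emb (fun i => x (Fin.succ i)) (x 0) := by
  unfold emb
  ext i
  refine Fin.cases ?_ (fun j => ?_) i <;> simp

theorem R2_emb_sub {d : ℕ} (y : Fin d → ℝ) (t c : ℝ) :
    emb y t - c • emb (0 : Fin d → ℝ) 1 = emb y (t - c) := by
  unfold emb
  ext i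
  refine Fin.cases ?_ (fun j => ?_) i <;> simp

/-- the linear functional `x ↦ x 0 - a ⬝ (tail x)` -/
noncomputable def R2_g {d : ℕ} (a : Fin d → ℝ) : E (d + 1) →ₗ[ℝ] ℝ where
  toFun x := x 0 - a ⬝ᵥ (fun i => x (Fin.succ i))
  map_add' x y := by
    simp only [PiLp.add_apply, dotProduct, mul_add, Finset.sum_add_distrib]
    ring
  map_smul' c x := by
    simp only [PiLp.smul_apply, smul_eq_mul, dotProduct, RingHom.id_apply, mul_sub, Finset.mul_sum]
    congr 1
    refine Finset.sum_congr rfl fun i _ => ?_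
    ring

theorem R2 {d : ℕ} (L : Set (E (d + 1))) (T : E (d + 1) ≃ₗ[ℝ] E (d + 1)) (v : E (d + 1))
    (hT : T v = emb 0 1) (a : Fin d → ℝ)
    (h : ∀ (y : Fin d → ℝ) (t : ℝ), emb y t ∈ T '' L → emb y (2 * (a ⬝ᵥ y) - t) ∈ T '' L) :
    ∃ f : E (d + 1) →ₗ[ℝ] ℝ, f v = 1 ∧ ∀ x ∈ L, x - (2 * f x) • v ∈ L := by
  refine ⟨(R2_g a) ∘ₗ T.toLinearMap, ?_, ?_⟩
  · simp [R2_g, hT, emb, dotProduct]
  · intro x hx
    have h1 : emb (fun i => (T x) (Fin.succ i)) ((T x) 0) ∈ T '' L := by
      rw [← R2_emb_eta]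
      exact ⟨x, hx, rfl⟩
    obtain ⟨x', hx', hx'eq⟩ := h _ _ h1
    have h2 : x - (2 * ((R2_g a) ∘ₗ T.toLinearMap) x) • v = x' := by
      apply T.injective
      rw [map_sub, map_smul, hT, hx'eq]
      conv_lhs => rw [R2_emb_eta (T x)]
      rw [R2_emb_sub]
      congr 1
      simp only [LinearMap.comp_apply, LinearEquiv.coe_coe, R2_g, LinearMap.coe_mk, AddHom.coe_mk]
      ring
    rw [h2]
    exact hx'

theorem R2b {d : ℕ} (v : E (d + 1)) (hv : v ≠ 0) :
    ∃ T : E (d + 1) ≃ₗ[ℝ] E (d + 1), T v = emb 0 1 := by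
  have h0 : (emb (0 : Fin d → ℝ) 1 : E (d + 1)) ≠ 0 := by
    intro h
    have := congrArg (fun x : E (d + 1) => x 0) h
    simp [emb] at this
  obtain ⟨A, hA⟩ := SeparatingDual.exists_continuousLinearEquiv_apply_eq (R := ℝ) hv h0
  exact ⟨A.toLinearEquiv, hA⟩

end R2

section R3
theorem R3_exists_T {V : Type} [AddCommGroup V] [Module ℝ V] [FiniteDimensional ℝ V] (n : ℕ)
    (hn : finrank ℝ V = n) (cd : InnerProductSpace.Core ℝ V) :
    ∃ T : V ≃ₗ[ℝ] E n, ∀ x, ‖T x‖ ^ 2 = cd.inner x x := by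
  let _ : NormedAddCommGroup V := cd.toNormedAddCommGroup
  let _ : InnerProductSpace ℝ V := InnerProductSpace.ofCore cd.toCore
  let b := (stdOrthonormalBasis ℝ V).reindex (finCongr hn)
  refine ⟨b.repr.toLinearEquiv, fun x => ?_⟩
  have h1 : ‖b.repr x‖ = ‖x‖ := b.repr.norm_map x
  have h2 : inner ℝ x x = ‖x‖ ^ 2 := real_inner_self_eq_norm_sq x
  show ‖b.repr x‖ ^ 2 = _
  rw [h1, ← h2]

theorem R3_zero_int {n : ℕ} (L : Set (E n)) (hL : Body L) :
    ∃ r > 0, Metric.closedBall (0 : E n) r ⊆ L := by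
  obtain ⟨x, hx⟩ := hL.int_nonempty
  obtain ⟨ε, hε, hb⟩ := Metric.isOpen_iff.1 isOpen_interior x hx
  refine ⟨ε / 2, by positivity, fun y hy => ?_⟩
  rw [mem_closedBall_zero_iff] at hy
  have h1 : x + y ∈ L := interior_subset (hb (by
    rw [Metric.mem_ball, dist_eq_norm, add_sub_cancel_left]; linarith))
  have h2 : x - y ∈ L := interior_subset (hb (by
    rw [Metric.mem_ball, dist_eq_norm, sub_sub_cancel_left, norm_neg]; linarith))
  have h3 := hL.symm _ h2
  have h4 := hL.convex h1 h3 (by norm_num : (0 : ℝ) ≤ 1 / 2) (by norm_num : (0 : ℝ) ≤ 1 / 2)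
    (by norm_num)
  have h5 : (1 / 2 : ℝ) • (x + y) + (1 / 2 : ℝ) • -(x - y) = y := by module
  rwa [h5] at h4

/-- the polar body -/
def R3_D {n : ℕ} (L : Set (E n)) : Set (E n) := {p | ∀ z ∈ L, inner ℝ p z ≤ 1}

theorem R3_D_compact {n : ℕ} (L : Set (E n)) (hL : Body L) : IsCompact (R3_D L) := by
  obtain ⟨r, hr, hrL⟩ := R3_zero_int L hL
  have hcl : IsClosed (R3_D L) := by
    have h1 : R3_D L = ⋂ z ∈ L, {p : E n | inner ℝ p z ≤ 1} := by
      ext p
      simp [R3_D]
    rw [h1]
    exact isClosed_biInter (fun z _ => isClosed_le (by fun_prop) continuous_const)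
  refine (isCompact_closedBall (0 : E n) (1 / r)).of_isClosed_subset hcl (fun p hp => ?_)
  rw [mem_closedBall_zero_iff]
  by_cases hp0 : p = 0
  · rw [hp0, norm_zero]; positivity
  · have hpn : 0 < ‖p‖ := norm_pos_iff.2 hp0
    have h2 := hp ((r / ‖p‖) • p) (hrL (by
      rw [mem_closedBall_zero_iff, norm_smul, Real.norm_of_nonneg (by positivity)]
      rw [div_mul_cancel₀ _ hpn.ne']))
    rw [inner_smul_right, real_inner_self_eq_norm_sq] at h2
    rw [le_div_iff₀ hr]
    calc ‖p‖ * r = r / ‖p‖ * ‖p‖ ^ 2 := by field_simp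
      _ ≤ 1 := h2

theorem R3_D_ball {n : ℕ} (L : Set (E n)) (hL : Body L) :
    ∃ ε > 0, Metric.ball (0 : E n) ε ⊆ R3_D L := by
  obtain ⟨R, hR⟩ := hL.compact.isBounded.exists_norm_le
  have hR0 : 0 < max R 1 := lt_of_lt_of_le one_pos (le_max_right _ _)
  refine ⟨1 / max R 1, by positivity, fun p hp z hz => ?_⟩
  rw [mem_ball_zero_iff, lt_div_iff₀ hR0] at hp
  calc inner ℝ p z ≤ ‖p‖ * ‖z‖ := real_inner_le_norm _ _
    _ ≤ ‖p‖ * max R 1 :=
      mul_le_mul_of_nonneg_left ((hR z hz).trans (le_max_left _ _)) (norm_nonneg _)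
    _ ≤ 1 := hp.le

/-- the form -/
noncomputable def R3_g {n : ℕ} (L : Set (E n)) (x y : E n) : ℝ :=
  ∫ p in R3_D L, inner ℝ x p * inner ℝ y p

theorem R3_int {n : ℕ} (L : Set (E n)) (hL : Body L) (x y : E n) :
    IntegrableOn (fun p : E n => inner ℝ x p * inner ℝ y p) (R3_D L) :=
  (by fun_prop : Continuous (fun p : E n => inner ℝ x p * inner ℝ y p)).continuousOn.integrableOn_compact
    (R3_D_compact L hL)

theorem R3_definite {n : ℕ} (L : Set (E n)) (hL : Body L) (x : E n) (h : R3_g L x x = 0) :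
    x = 0 := by
  by_contra hx
  have hxn : 0 < ‖x‖ := norm_pos_iff.2 hx
  obtain ⟨ε, hε, hb⟩ := R3_D_ball L hL
  unfold R3_g at h
  rw [setIntegral_eq_zero_iff_of_nonneg_ae (Filter.Eventually.of_forall
    (fun p => mul_self_nonneg _)) (R3_int L hL x x)] at h
  have h1 : (fun p : E n => inner ℝ x p * inner ℝ x p) =ᵐ[volume.restrict (Metric.ball (0 : E n) ε)]
      (0 : E n → ℝ) := ae_restrict_of_ae_restrict_of_subset hb h
  have h2 := Measure.eqOn_open_of_ae_eq h1 Metric.isOpen_ball
    (by fun_prop : Continuous (fun p : E n => inner ℝ x p * inner ℝ x p)).continuousOn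
    continuousOn_const
  have h3 := h2 (show (ε / (2 * ‖x‖)) • x ∈ Metric.ball (0 : E n) ε by
    rw [mem_ball_zero_iff, norm_smul, Real.norm_of_nonneg (by positivity)]
    have : ε / (2 * ‖x‖) * ‖x‖ = ε / 2 := by field_simp
    rw [this]; linarith)
  simp only [Pi.zero_apply, inner_smul_right, real_inner_self_eq_norm_sq] at h3
  have h4 : 0 < ε / (2 * ‖x‖) * ‖x‖ ^ 2 := by positivity
  rcases mul_eq_zero.1 h3 with h5 | h5 <;> linarith

/-- the inner product -/
@[reducible] noncomputable def R3_core {n : ℕ} (L : Set (E n)) (hL : Body L) : InnerProductSpace.Core ℝ (E n) where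
  inner x y := R3_g L x y
  conj_inner_symm x y := by
    show R3_g L y x = R3_g L x y
    unfold R3_g
    simp only [mul_comm]
  re_inner_nonneg x := by
    show 0 ≤ R3_g L x x
    exact integral_nonneg (fun p => mul_self_nonneg _)
  add_left x y z := by
    show R3_g L (x + y) z = R3_g L x z + R3_g L y z
    unfold R3_g
    rw [← integral_add (R3_int L hL x z) (R3_int L hL y z)]
    congr 1
    funext p
    rw [inner_add_left, add_mul]
  smul_left x y r := by
    show R3_g L (r • x) y = r * R3_g L x y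
    unfold R3_g
    rw [← integral_const_mul]
    congr 1
    funext p
    rw [real_inner_smul_left, mul_assoc]
  definite x h := R3_definite L hL x h

theorem R3_invol_mp {n : ℕ} (τ : E n →ₗ[ℝ] E n) (hτ : ∀ p, τ (τ p) = p) :
    MeasurePreserving τ volume volume := by
  have h1 : τ.comp τ = LinearMap.id := LinearMap.ext hτ
  have h2 : LinearMap.det τ * LinearMap.det τ = 1 := by
    rw [← LinearMap.det_comp, h1, LinearMap.det_id]
  have h3 : LinearMap.det τ ≠ 0 := by
    intro h; rw [h] at h2; simp at h2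
  refine ⟨(LinearMap.continuous_of_finiteDimensional τ).measurable, ?_⟩
  rw [Measure.map_linearMap_addHaar_eq_smul_addHaar _ h3]
  have h4 : |(LinearMap.det τ)⁻¹| = 1 := by
    rcases mul_self_eq_one_iff.1 h2 with h | h <;> rw [h] <;> simp
  rw [h4]
  simp

theorem R3_inv {n : ℕ} (L : Set (E n)) (v : E n) (f : E n →ₗ[ℝ] ℝ) (hf : f v = 1)
    (hσ : ∀ x ∈ L, x - (2 * f x) • v ∈ L) (x : E n) :
    R3_g L (x - (2 * f x) • v) (x - (2 * f x) • v) = R3_g L x x := by
  set a : E n := (InnerProductSpace.toDual ℝ (E n)).symm (LinearMap.toContinuousLinearMap f) with ha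
  have hfa : ∀ y, f y = inner ℝ a y := by
    intro y
    rw [ha, InnerProductSpace.toDual_symm_apply]
    rfl
  have hva : inner ℝ v a = 1 := by rw [real_inner_comm, ← hfa, hf]
  set τ : E n →ₗ[ℝ] E n := LinearMap.id -
    (2 : ℝ) • ((innerSL ℝ v).toLinearMap.smulRight a) with hτ
  have hτa : ∀ p, τ p = p - (2 * inner ℝ v p) • a := by
    intro p
    rw [hτ]
    simp [smul_smul]
  have hinv : ∀ p, τ (τ p) = p := by
    intro p
    rw [hτa, hτa p, inner_sub_right, inner_smul_right, hva]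
    module
  have hadj : ∀ y p, inner ℝ (y - (2 * f y) • v) p = inner ℝ y (τ p) := by
    intro y p
    rw [hτa, inner_sub_left, inner_sub_right, real_inner_smul_left, inner_smul_right, hfa,
      real_inner_comm y a]
    ring
  have hmem : ∀ p ∈ R3_D L, τ p ∈ R3_D L := by
    intro p hp z hz
    rw [real_inner_comm, ← hadj, real_inner_comm]
    exact hp _ (hσ z hz)
  have hpre : τ ⁻¹' (R3_D L) = R3_D L := by
    ext p
    constructor
    · intro h
      have := hmem _ h
      rwa [hinv] at this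
    · intro h
      exact hmem p h
  have hcont : Continuous τ := LinearMap.continuous_of_finiteDimensional τ
  let e : E n ≃ₜ E n :=
    { toFun := τ, invFun := τ, left_inv := hinv, right_inv := hinv,
      continuous_toFun := hcont, continuous_invFun := hcont }
  have hemb : MeasurableEmbedding τ := e.measurableEmbedding
  have h1 := (R3_invol_mp τ hinv).setIntegral_preimage_emb hemb
    (fun p => inner ℝ x p * inner ℝ x p) (R3_D L)
  rw [hpre] at h1
  unfold R3_g
  simp only [hadj]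
  exact h1

theorem R3_swap {n : ℕ} (L : Set (E n)) (T0 : E n ≃ₗ[ℝ] E n)
    (h : ∀ v : E n, v ≠ 0 → ∃ f : E n →ₗ[ℝ] ℝ, f v = 1 ∧ (∀ x ∈ L, x - (2 * f x) • v ∈ L) ∧
      ∀ x, ‖T0 (x - (2 * f x) • v)‖ ^ 2 = ‖T0 x‖ ^ 2)
    (p q : E n) (hpq : ‖p‖ = ‖q‖) (hp : p ∈ T0 '' L) : q ∈ T0 '' L := by
  by_cases hne : p = q
  · rwa [← hne]
  set w := p - q with hw
  have hw0 : w ≠ 0 := sub_ne_zero.2 hne
  have hwn : 0 < ‖w‖ ^ 2 := by
    have := norm_pos_iff.2 hw0
    positivity
  have hv0 : T0.symm w ≠ 0 := by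
    intro h0
    apply hw0
    rw [← T0.apply_symm_apply w, h0, map_zero]
  obtain ⟨f, hf1, hfL, hfn⟩ := h (T0.symm w) hv0
  set F : E n → ℝ := fun z => f (T0.symm z) with hF
  have hiso : ∀ z, ‖z - (2 * F z) • w‖ ^ 2 = ‖z‖ ^ 2 := by
    intro z
    have := hfn (T0.symm z)
    rw [map_sub, map_smul, T0.apply_symm_apply, T0.apply_symm_apply] at this
    exact this
  have hFw : F w = 1 := hf1
  have hFadd : ∀ z, F (z + w) = F z + 1 := by
    intro z
    simp only [hF]
    rw [map_add, map_add]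
    exact congrArg _ hf1
  have hprod : ∀ z, F z * (F z * ‖w‖ ^ 2 - inner ℝ z w) = 0 := by
    intro z
    have h1 := hiso z
    rw [norm_sub_sq_real, inner_smul_right, norm_smul, mul_pow, Real.norm_eq_abs, sq_abs] at h1
    nlinarith
  have hall : ∀ z, F z * ‖w‖ ^ 2 = inner ℝ z w := by
    intro z
    by_cases hz : F z = 0
    · have h1 := hprod (z + w)
      rw [hFadd, hz, zero_add, one_mul, one_mul, inner_add_left, real_inner_self_eq_norm_sq] at h1
      rw [hz, zero_mul]
      linarith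
    · rcases mul_eq_zero.1 (hprod z) with h1 | h1
      · exact absurd h1 hz
      · linarith
  have hFp : F p = 1 / 2 := by
    have h1 := hall p
    have h2 : ‖w‖ ^ 2 = 2 * inner ℝ p w := by
      rw [hw, norm_sub_sq_real, inner_sub_right, real_inner_self_eq_norm_sq, ← hpq]
      ring
    have h3 : F p * ‖w‖ ^ 2 = 1 / 2 * ‖w‖ ^ 2 := by rw [h1]; linarith
    exact mul_right_cancel₀ hwn.ne' h3
  obtain ⟨x, hx, rfl⟩ := hp
  refine ⟨x - (2 * f x) • T0.symm w, hfL x hx, ?_⟩
  rw [map_sub, map_smul, T0.apply_symm_apply]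
  have h4 : f x = 1 / 2 := by
    have : F (T0 x) = f x := by simp only [hF, T0.symm_apply_apply]
    rw [← this, hFp]
  rw [h4, hw]
  module

theorem R3 {n : ℕ} (L : Set (E n)) (hL : Body L)
    (h : ∀ v : E n, v ≠ 0 → ∃ f : E n →ₗ[ℝ] ℝ, f v = 1 ∧ ∀ x ∈ L, x - (2 * f x) • v ∈ L) :
    ∃ T : E n ≃ₗ[ℝ] E n, T '' L = Metric.closedBall 0 1 := by
  have hne : L.Nonempty := hL.int_nonempty.mono interior_subset
  obtain ⟨r, hr, hrL⟩ := R3_zero_int L hL
  have h0L : (0 : E n) ∈ L := hrL (Metric.mem_closedBall_self hr.le)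
  rcases subsingleton_or_nontrivial (E n) with hsub | hnt
  · refine ⟨LinearEquiv.refl ℝ _, ?_⟩
    ext x
    constructor
    · intro _
      rw [Subsingleton.elim x 0]
      exact Metric.mem_closedBall_self zero_le_one
    · intro _
      exact ⟨0, h0L, Subsingleton.elim _ _⟩
  obtain ⟨T0, hT0⟩ := R3_exists_T n (finrank_euclideanSpace_fin) (R3_core L hL)
  have hswap : ∀ p q : E n, ‖p‖ = ‖q‖ → p ∈ T0 '' L → q ∈ T0 '' L := by
    refine R3_swap L T0 (fun v hv => ?_)
    obtain ⟨f, hf1, hf2⟩ := h v hv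
    refine ⟨f, hf1, hf2, fun x => ?_⟩
    rw [hT0, hT0]
    exact R3_inv L v f hf1 hf2 x
  have hcont : Continuous T0 := LinearMap.continuous_of_finiteDimensional T0.toLinearMap
  have hcomp : IsCompact (T0 '' L) := hL.compact.image hcont
  obtain ⟨p0, hp0, hmax⟩ := hcomp.exists_isMaxOn (hne.image _) continuous_norm.continuousOn
  have hρ : 0 < ‖p0‖ := by
    obtain ⟨x, hx⟩ := exists_ne (0 : E n)
    have hxn : 0 < ‖x‖ := norm_pos_iff.2 hx
    have h1 : (r / ‖x‖) • x ∈ L := hrL (by
      rw [mem_closedBall_zero_iff, norm_smul, Real.norm_of_nonneg (by positivity),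
        div_mul_cancel₀ _ hxn.ne'])
    have h2 : T0 ((r / ‖x‖) • x) ≠ 0 := by
      rw [Ne, LinearEquiv.map_eq_zero_iff, smul_eq_zero]
      push Not
      exact ⟨by positivity, hx⟩
    have h3 := hmax (mem_image_of_mem T0 h1)
    exact lt_of_lt_of_le (norm_pos_iff.2 h2) h3
  have hL' : T0 '' L = Metric.closedBall 0 ‖p0‖ := by
    ext q
    rw [mem_closedBall_zero_iff]
    constructor
    · intro hq
      exact hmax hq
    · intro hq
      by_cases hq0 : q = 0
      · rw [hq0]; exact ⟨0, h0L, map_zero _⟩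
      · have hqn : 0 < ‖q‖ := norm_pos_iff.2 hq0
        have h1 : (‖p0‖ / ‖q‖) • q ∈ T0 '' L := hswap p0 _ (by
          rw [norm_smul, Real.norm_of_nonneg (by positivity), div_mul_cancel₀ _ hqn.ne']) hp0
        obtain ⟨x, hx, hxq⟩ := h1
        refine ⟨(‖q‖ / ‖p0‖) • x, ?_, ?_⟩
        · have h2 := hL.convex hx h0L (by positivity : 0 ≤ ‖q‖ / ‖p0‖)
            (by rw [sub_nonneg, div_le_one hρ]; exact hq : 0 ≤ 1 - ‖q‖ / ‖p0‖) (by ring)
          rwa [smul_zero, add_zero] at h2
        · rw [map_smul, hxq, smul_smul]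
          have h3 : ‖q‖ / ‖p0‖ * (‖p0‖ / ‖q‖) = 1 := by field_simp
          rw [h3, one_smul]
  refine ⟨T0.trans (LinearEquiv.smulOfNeZero ℝ (E n) (‖p0‖⁻¹) (inv_ne_zero hρ.ne')), ?_⟩
  have h1 : (T0.trans (LinearEquiv.smulOfNeZero ℝ (E n) (‖p0‖⁻¹) (inv_ne_zero hρ.ne'))) '' L =
      (fun z => ‖p0‖⁻¹ • z) '' (T0 '' L) := by
    rw [image_image]
    rfl
  rw [h1, hL']
  ext z
  rw [mem_closedBall_zero_iff]
  constructor
  · rintro ⟨y, hy, rfl⟩
    rw [mem_closedBall_zero_iff] at hy
    rw [norm_smul, Real.norm_of_nonneg (by positivity), inv_mul_le_iff₀ hρ, mul_one]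
    exact hy
  · intro hz
    refine ⟨‖p0‖ • z, ?_, ?_⟩
    · rw [mem_closedBall_zero_iff, norm_smul, norm_norm]
      exact mul_le_of_le_one_right hρ.le hz
    · show ‖p0‖⁻¹ • ‖p0‖ • z = z
      rw [smul_smul, inv_mul_cancel₀ hρ.ne', one_smul]

end R3

section C1
theorem C1_zero {n : ℕ} {K : Set (E n)} (hK : Body K) : (0 : E n) ∈ interior K := by
  obtain ⟨a, ha⟩ := hK.int_nonempty
  have h := hK.convex.combo_interior_self_subset_interior (a := 1 / 2) (b := 1 / 2)
    (by norm_num) (by norm_num) (by norm_num)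
  apply h
  rw [Set.mem_add]
  refine ⟨(1 / 2 : ℝ) • a, smul_mem_smul_set ha, (1 / 2 : ℝ) • (-a),
    smul_mem_smul_set (hK.symm _ (interior_subset ha)), by simp⟩

theorem C1_abs {n : ℕ} {K : Set (E n)} (hK : Body K) (x : Fin n → E n) (hx : ∀ i, x i ∈ K)
    (a : Fin n → ℝ) (ha : ∑ i, |a i| ≤ 1) : ∑ i, a i • x i ∈ K := by
  have h0 : (0 : E n) ∈ K := interior_subset (C1_zero hK)
  rcases (Finset.sum_nonneg fun i _ => abs_nonneg (a i)).eq_or_lt with h | h
  · have : ∀ i, a i = 0 := fun i => by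
      have := (Finset.sum_eq_zero_iff_of_nonneg (fun i _ => abs_nonneg (a i))).1 h.symm i
        (Finset.mem_univ _)
      simpa using this
    simp [this, h0]
  · set s := ∑ i, |a i| with hs
    have h1 : ∑ i, (|a i| / s) • ((SignType.sign (a i) : ℝ) • x i) ∈ K := by
      refine hK.convex.sum_mem (fun i _ => by positivity) ?_ (fun i _ => ?_)
      · rw [← Finset.sum_div, ← hs, div_self h.ne']
      · rcases lt_trichotomy (a i) 0 with hi | hi | hi
        · simp [sign_neg hi, hK.symm _ (hx i)]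
        · simp [hi, h0]
        · simp [sign_pos hi, hx i]
    have h2 : ∑ i, a i • x i = s • ∑ i, (|a i| / s) • ((SignType.sign (a i) : ℝ) • x i) := by
      rw [Finset.smul_sum]
      refine Finset.sum_congr rfl fun i _ => ?_
      rw [smul_smul, smul_smul]
      congr 1
      have : s * (|a i| / s) = |a i| := by field_simp
      rw [this, mul_comm, sign_mul_abs]
    rw [h2]
    exact hK.convex.smul_mem_of_zero_mem h0 h1 ⟨h.le, ha⟩

theorem C1 (n : ℕ) : ∃ R : ℝ, 1 ≤ R ∧ ∀ K : Set (E n), Body K →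
    ∃ T : E n ≃ₗ[ℝ] E n, Metric.closedBall 0 1 ⊆ T '' K ∧ T '' K ⊆ Metric.closedBall 0 R := by
  refine ⟨max 1 n, le_max_left _ _, fun K hK => ?_⟩
  rcases Nat.eq_zero_or_pos n with rfl | hn
  · refine ⟨LinearEquiv.refl ℝ _, ?_, ?_⟩
    · intro y _
      have h0 : (0 : E 0) ∈ K := interior_subset (C1_zero hK)
      exact ⟨0, h0, Subsingleton.elim _ _⟩
    · rintro _ ⟨y, _, rfl⟩
      have : (LinearEquiv.refl ℝ (E 0)) y = 0 := Subsingleton.elim _ _
      rw [this]
      simp
  have hn' : (0 : ℝ) < n := by exact_mod_cast hn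
  -- the determinant
  let e : Basis (Fin n) ℝ (E n) := (EuclideanSpace.basisFun (Fin n) ℝ).toBasis
  have hcont : Continuous (fun x : Fin n → E n => e.det x) := by
    have : (fun x : Fin n → E n => e.det x) = fun x => Matrix.det (e.toMatrix x) := by
      funext x; rw [Basis.det_apply]
    rw [this]
    apply Continuous.matrix_det
    refine continuous_matrix fun i j => ?_
    have : (fun x : Fin n → E n => e.toMatrix x i j) = fun x => x j i := by
      funext x
      simp [Basis.toMatrix_apply, e]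
    rw [this]
    fun_prop
  have hcomp : IsCompact (Set.pi univ fun _ : Fin n => K) := isCompact_univ_pi fun _ => hK.compact
  have h0 : (0 : E n) ∈ interior K := C1_zero hK
  have hne : (Set.pi univ fun _ : Fin n => K).Nonempty :=
    ⟨fun _ => 0, fun _ _ => interior_subset h0⟩
  obtain ⟨x, hxK, hmax⟩ := hcomp.exists_isMaxOn hne (hcont.abs.continuousOn)
  have hx : ∀ i, x i ∈ K := fun i => hxK i (mem_univ i)
  -- positivity
  have hpos : 0 < |e.det x| := by
    obtain ⟨r, hr, hball⟩ := Metric.isOpen_iff.1 isOpen_interior 0 h0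
    have hmem : (fun i => (r / 2) • e i) ∈ Set.pi univ fun _ : Fin n => K := by
      intro i _
      apply interior_subset
      apply hball
      have : ‖e i‖ = 1 := by simp [e]
      rw [mem_ball_zero_iff, norm_smul, this, mul_one, Real.norm_eq_abs, abs_of_pos (by positivity)]
      linarith
    have h1 : |e.det (fun i => (r / 2) • e i)| ≤ |e.det x| := hmax hmem
    have h2 : e.det (fun i => (r / 2) • e i) = (r / 2) ^ n := by
      have := e.det.map_smul_univ (fun _ : Fin n => r / 2) e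
      rw [this, e.det_self]
      simp [div_pow]
    rw [h2, abs_of_pos (by positivity)] at h1
    exact lt_of_lt_of_le (by positivity) h1
  have hunit : IsUnit (e.det x) := isUnit_iff_ne_zero.2 (abs_pos.1 hpos)
  obtain ⟨hli, hspan⟩ := e.is_basis_iff_det.2 hunit
  let b : Basis (Fin n) ℝ (E n) := Basis.mk hli hspan.ge
  have hb : ∀ i, b i = x i := fun i => by simp [b]
  have hb' : (b : Fin n → E n) = x := funext hb
  -- coordinates
  have hco : ∀ z ∈ K, ∀ i, |b.repr z i| ≤ 1 := by
    intro z hz i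
    have hmem : Function.update x i z ∈ Set.pi univ fun _ : Fin n => K := by
      intro j _
      by_cases hj : j = i
      · subst hj; simpa using hz
      · simpa [Function.update_of_ne hj] using hx j
    have h1 : |e.det (Function.update x i z)| ≤ |e.det x| := hmax hmem
    have h2 : e.det (Function.update x i z) = e.det x * b.repr z i := by
      have h3 := AlternatingMap.eq_smul_basis_det b e.det
      have h4 : b.det (Function.update x i z) = b.repr z i := by
        rw [Basis.det_apply, ← hb', Basis.toMatrix_update, Basis.toMatrix_self,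
          ← Matrix.cramer_apply, Matrix.cramer_one]
        rfl
      conv_lhs => rw [h3]
      rw [AlternatingMap.smul_apply, h4, hb', smul_eq_mul]
    rw [h2, abs_mul] at h1
    by_contra hcon
    push Not at hcon
    nlinarith
  let T0 : E n ≃ₗ[ℝ] E n := b.equivFun.trans (WithLp.linearEquiv 2 ℝ (Fin n → ℝ)).symm
  have hs : Real.sqrt n ≠ 0 := (Real.sqrt_pos.2 hn').ne'
  let T : E n ≃ₗ[ℝ] E n := T0.trans (LinearEquiv.smulOfNeZero ℝ (E n) (Real.sqrt n) hs)
  have hT : ∀ z i, (T z) i = Real.sqrt n * b.repr z i := by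
    intro z i
    simp [T, T0]
  refine ⟨T, ?_, ?_⟩
  · intro y hy
    rw [mem_closedBall_zero_iff] at hy
    refine ⟨∑ i, (y i / Real.sqrt n) • x i, ?_, ?_⟩
    · refine C1_abs hK x hx _ ?_
      have h1 : ∑ i, |y i / Real.sqrt n| = (∑ i, |y i|) / Real.sqrt n := by
        rw [Finset.sum_div]
        refine Finset.sum_congr rfl fun i _ => ?_
        rw [abs_div, abs_of_pos (Real.sqrt_pos.2 hn')]
      rw [h1, div_le_one (Real.sqrt_pos.2 hn')]
      have h2 : (∑ i, |y i|) ^ 2 ≤ n * ∑ i, |y i| ^ 2 := by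
        have := sq_sum_le_card_mul_sum_sq (s := (Finset.univ : Finset (Fin n)))
          (f := fun i => |y i|)
        simpa using this
      have h3 : ∑ i, |y i| ^ 2 ≤ 1 := by
        have := EuclideanSpace.norm_sq_eq y
        have h4 : ∑ i, |y i| ^ 2 = ‖y‖ ^ 2 := by
          rw [this]
          refine Finset.sum_congr rfl fun i _ => by rw [Real.norm_eq_abs]
        rw [h4]
        exact pow_le_one₀ (norm_nonneg _) hy
      apply Real.le_sqrt_of_sq_le
      nlinarith
    · ext i
      rw [hT]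
      have : b.repr (∑ i, (y i / Real.sqrt n) • x i) i = y i / Real.sqrt n := by
        rw [← hb']
        exact congrFun (b.repr_sum_self (fun i => y i / Real.sqrt n)) i
      rw [this]
      field_simp
  · rintro _ ⟨z, hz, rfl⟩
    rw [mem_closedBall_zero_iff]
    refine le_trans ?_ (le_max_right _ _)
    have h1 : ‖T z‖ ^ 2 ≤ (n : ℝ) ^ 2 := by
      rw [EuclideanSpace.norm_sq_eq]
      calc ∑ i, ‖(T z) i‖ ^ 2 ≤ ∑ _i : Fin n, (n : ℝ) := by
            refine Finset.sum_le_sum fun i _ => ?_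
            rw [hT, Real.norm_eq_abs, abs_mul, mul_pow, sq_abs, Real.sq_sqrt hn'.le]
            have := hco z hz i
            have h0 : 0 ≤ |b.repr z i| := abs_nonneg _
            nlinarith [mul_le_mul this this h0 zero_le_one]
        _ = (n : ℝ) ^ 2 := by simp [sq]
    exact (le_abs_self _).trans (abs_le_of_sq_le_sq h1 hn'.le)

end C1

section C2
theorem C2_nhds {n : ℕ} {K : Set (E n)} (h1 : Metric.closedBall 0 1 ⊆ K) :
    K ∈ 𝓝 (0 : E n) :=
  Filter.mem_of_superset (Metric.closedBall_mem_nhds 0 one_pos) h1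

theorem C2_lip {n : ℕ} {K : Set (E n)} (hK : Body K) (h1 : Metric.closedBall 0 1 ⊆ K)
    (x y : E n) : |gauge K x - gauge K y| ≤ ‖x - y‖ := by
  have h := hK.convex.lipschitzWith_gauge (r := 1) one_pos
    ((Metric.ball_subset_closedBall).trans (by simpa using h1))
  have := h.dist_le_mul x y
  rw [Real.dist_eq, dist_eq_norm] at this
  simpa using this

theorem C2_le_norm {n : ℕ} {K : Set (E n)} (h1 : Metric.closedBall 0 1 ⊆ K)
    (x : E n) : gauge K x ≤ ‖x‖ := by
  have := mul_gauge_le_norm (r := 1) (x := x) ((Metric.ball_subset_closedBall).trans h1)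
  simpa using this

theorem C2_ge {n : ℕ} {K : Set (E n)} (h1 : Metric.closedBall 0 1 ⊆ K) {R : ℝ} (hR : 0 < R)
    (h2 : K ⊆ Metric.closedBall 0 R)
    (x : E n) : ‖x‖ ≤ R * gauge K x := by
  have := le_gauge_of_subset_closedBall (absorbent_nhds_zero (C2_nhds h1)) hR.le h2 (x := x)
  rw [div_le_iff₀ hR] at this
  linarith

theorem C2_mem {n : ℕ} {K : Set (E n)} (hK : Body K) (h1 : Metric.closedBall 0 1 ⊆ K)
    (x : E n) : gauge K x ≤ 1 ↔ x ∈ K := by
  rw [gauge_le_one_iff_mem_closure hK.convex (C2_nhds h1), hK.compact.isClosed.closure_eq]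

theorem C2 {n : ℕ} (R : ℝ) (K : ℕ → Set (E n)) (hK : ∀ j, Body (K j))
    (h1 : ∀ j, Metric.closedBall 0 1 ⊆ K j) (h2 : ∀ j, K j ⊆ Metric.closedBall 0 R)
    (U : Ultrafilter ℕ) :
    ∃ L : Set (E n), Body L ∧ ∀ δ : ℝ, 0 < δ →
      ∀ᶠ j in (U : Filter ℕ), K j ⊆ (1 + δ) • L ∧ L ⊆ (1 + δ) • K j := by
  set R' : ℝ := max R 1 with hR'
  have hR0 : 0 < R' := lt_of_lt_of_le one_pos (le_max_right _ _)
  have h2' : ∀ j, K j ⊆ Metric.closedBall 0 R' := fun j =>
    (h2 j).trans (Metric.closedBall_subset_closedBall (le_max_left _ _))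
  have hlim : ∀ x : E n, ∃ y : ℝ, Tendsto (fun j => gauge (K j) x) (U : Filter ℕ) (𝓝 y) := by
    intro x
    obtain ⟨y, _, hy⟩ := (isCompact_Icc (a := (0:ℝ)) (b := ‖x‖)).ultrafilter_le_nhds
      (U.map (fun j => gauge (K j) x)) (by
        rw [Filter.le_principal_iff, Ultrafilter.coe_map, Filter.mem_map]
        exact Filter.Eventually.of_forall (fun j => ⟨gauge_nonneg x, C2_le_norm (h1 j) x⟩))
    exact ⟨y, hy⟩
  choose N hN using hlim
  have hNle : ∀ x, N x ≤ ‖x‖ := fun x =>
    le_of_tendsto (hN x) (Eventually.of_forall fun j => C2_le_norm (h1 j) x)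
  have hNnn : ∀ x, 0 ≤ N x := fun x =>
    ge_of_tendsto (hN x) (Eventually.of_forall fun j => gauge_nonneg x)
  have hNge : ∀ x, ‖x‖ ≤ R' * N x := fun x =>
    ge_of_tendsto ((hN x).const_mul R') (Eventually.of_forall fun j => C2_ge (h1 j) hR0 (h2' j) x)
  have hNlip : ∀ x y, |N x - N y| ≤ ‖x - y‖ := fun x y =>
    le_of_tendsto ((hN x).sub (hN y)).abs (Eventually.of_forall fun j => C2_lip (hK j) (h1 j) x y)
  have hNadd : ∀ x y, N (x + y) ≤ N x + N y := fun x y =>
    le_of_tendsto_of_tendsto' (hN (x + y)) ((hN x).add (hN y)) (fun j =>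
      gauge_add_le (hK j).convex (absorbent_nhds_zero (C2_nhds (h1 j))) x y)
  have hNsmul : ∀ (c : ℝ) x, 0 ≤ c → N (c • x) = c * N x := by
    intro c x hc
    refine tendsto_nhds_unique (hN (c • x)) ?_
    have : (fun j => gauge (K j) (c • x)) = fun j => c * gauge (K j) x := by
      ext j
      rw [gauge_smul_of_nonneg hc, smul_eq_mul]
    rw [this]
    exact (hN x).const_mul c
  have hNneg : ∀ x, N (-x) = N x := by
    intro x
    refine tendsto_nhds_unique (hN (-x)) ?_
    have : (fun j => gauge (K j) (-x)) = fun j => gauge (K j) x := by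
      ext j
      exact gauge_neg (hK j).symm x
    rw [this]
    exact hN x
  have hNcont : Continuous N := by
    have : LipschitzWith 1 N := by
      apply LipschitzWith.of_dist_le_mul
      intro x y
      rw [Real.dist_eq, dist_eq_norm]
      simpa using hNlip x y
    exact this.continuous
  refine ⟨{x | N x ≤ 1}, ⟨?_, ?_, ?_, ?_⟩, ?_⟩
  · apply Metric.isCompact_of_isClosed_isBounded
    · exact isClosed_le hNcont continuous_const
    · apply (Metric.isBounded_closedBall (x := (0 : E n)) (r := R')).subset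
      intro x hx
      rw [mem_closedBall_zero_iff]
      have hx' : N x ≤ 1 := hx
      have := hNge x
      nlinarith
  · intro x hx y hy a b ha hb hab
    have hx' : N x ≤ 1 := hx
    have hy' : N y ≤ 1 := hy
    show N (a • x + b • y) ≤ 1
    have := hNadd (a • x) (b • y)
    rw [hNsmul a x ha, hNsmul b y hb] at this
    nlinarith
  · refine ⟨0, mem_interior_iff_mem_nhds.2 (Filter.mem_of_superset
      (Metric.closedBall_mem_nhds 0 one_pos) ?_)⟩
    intro x hx
    rw [mem_closedBall_zero_iff] at hx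
    exact (hNle x).trans hx
  · intro x hx
    show N (-x) ≤ 1
    rw [hNneg]
    exact hx
  · intro δ hδ
    set η : ℝ := δ / (3 * R') with hη
    have hη0 : 0 < η := by positivity
    have hηδ : 3 * η * R' = δ := by
      rw [hη]; field_simp
    obtain ⟨t, hts, htf, htc⟩ := (isCompact_sphere (0 : E n) 1).finite_cover_balls hη0
    have hev : ∀ᶠ j in (U : Filter ℕ), ∀ x ∈ t, |gauge (K j) x - N x| < η := by
      rw [Filter.eventually_all_finite htf]
      intro x _
      have := (hN x).eventually (Metric.ball_mem_nhds (N x) hη0)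
      filter_upwards [this] with j hj
      rwa [Real.dist_eq] at hj
    filter_upwards [hev] with j hj
    have hunif1 : ∀ x : E n, ‖x‖ = 1 → |gauge (K j) x - N x| ≤ 3 * η := by
      intro x hx
      have hxs : x ∈ Metric.sphere (0 : E n) 1 := by simpa using hx
      obtain ⟨y, hy, hxy⟩ := Set.mem_iUnion₂.1 (htc hxs)
      rw [Metric.mem_ball, dist_eq_norm] at hxy
      have e1 := C2_lip (hK j) (h1 j) x y
      have e2 := hj y hy
      have e3 := hNlip x y
      rw [abs_le] at e1 e3 ⊢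
      rw [abs_lt] at e2
      constructor <;> linarith [e1.1, e1.2, e2.1, e2.2, e3.1, e3.2]
    have hunif : ∀ x : E n, |gauge (K j) x - N x| ≤ 3 * η * ‖x‖ := by
      intro x
      by_cases hx : x = 0
      · subst hx
        have h0 : N 0 = 0 := le_antisymm (by simpa using hNle 0) (hNnn 0)
        rw [h0, gauge_zero]
        simp
      · have hx0 : 0 < ‖x‖ := norm_pos_iff.2 hx
        have e := hunif1 (‖x‖⁻¹ • x) (by rw [norm_smul, norm_inv, norm_norm, inv_mul_cancel₀ hx0.ne'])
        rw [gauge_smul_of_nonneg (inv_nonneg.2 hx0.le), smul_eq_mul,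
          hNsmul _ _ (inv_nonneg.2 hx0.le), ← mul_sub, abs_mul, abs_of_pos (inv_pos.2 hx0),
          inv_mul_le_iff₀ hx0] at e
        linarith
    have hpos : (0:ℝ) < 1 + δ := by linarith
    constructor
    · intro x hx
      rw [Set.mem_smul_set_iff_inv_smul_mem₀ hpos.ne']
      show N ((1 + δ)⁻¹ • x) ≤ 1
      rw [hNsmul _ _ (inv_nonneg.2 hpos.le), inv_mul_le_iff₀ hpos]
      have e1 := (C2_mem (hK j) (h1 j) x).2 hx
      have e2 := (abs_le.1 (hunif x)).1
      have e3 := C2_ge (h1 j) hR0 (h2' j) x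
      have e4 : 3 * η * ‖x‖ ≤ δ := by
        rw [← hηδ]
        apply mul_le_mul_of_nonneg_left _ (by positivity)
        nlinarith
      linarith
    · intro x hx
      have hx' : N x ≤ 1 := hx
      rw [Set.mem_smul_set_iff_inv_smul_mem₀ hpos.ne', ← C2_mem (hK j) (h1 j),
        gauge_smul_of_nonneg (inv_nonneg.2 hpos.le), smul_eq_mul, inv_mul_le_iff₀ hpos]
      have e2 := (abs_le.1 (hunif x)).2
      have e3 := hNge x
      have e4 : 3 * η * ‖x‖ ≤ δ := by
        rw [← hηδ]
        apply mul_le_mul_of_nonneg_left _ (by positivity)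
        nlinarith
      linarith

end C2

end Pool.Agent.H14IIB
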