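import Mathlib
import Pool.Agent.H14IIB.Defs
import Pool.Agent.H14IIB.B

set_option autoImplicit false

open MeasureTheory Set Module Filter Topology
open scoped ENNReal Pointwise

namespace Pool.Agent.H14IIB

section H1
theorem H1 {α : Type} [MeasurableSpace α] (μ : Measure α) (d : ℕ) (f g : α → ℝ≥0∞)
    (hf : Measurable f) (hg : Measurable g) :
    (∫⁻ x, f x * g x ^ d ∂μ) ^ (d + 1) ≤
      (∫⁻ x, f x ^ (d + 1) ∂μ) * (∫⁻ x, g x ^ (d + 1) ∂μ) ^ d := by
  rcases Nat.eq_zero_or_pos d with rfl | hd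
  · simp
  have hd' : (0:ℝ) < d := by exact_mod_cast hd
  have hpq : ((d:ℝ) + 1).HolderConjugate (((d:ℝ) + 1) / d) := by
    rw [Real.holderConjugate_iff]
    constructor
    · linarith
    · field_simp
      ring
  have h := ENNReal.lintegral_mul_le_Lp_mul_Lq μ hpq hf.aemeasurable (hg.pow_const d).aemeasurable
  have h2 : ∀ x, f x ^ ((d:ℝ) + 1) = f x ^ (d+1) := by
    intro x
    rw [← ENNReal.rpow_natCast]
    push_cast
    rfl
  have h3 : ∀ x, (g x ^ d) ^ (((d:ℝ) + 1) / d) = g x ^ (d+1) := by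
    intro x
    rw [← ENNReal.rpow_natCast, ← ENNReal.rpow_mul, ← ENNReal.rpow_natCast]
    congr 1
    push_cast
    field_simp
  simp only [h2, h3] at h
  calc (∫⁻ x, f x * g x ^ d ∂μ) ^ (d + 1)
      ≤ ((∫⁻ x, f x ^ (d + 1) ∂μ) ^ (1 / ((d:ℝ) + 1)) *
          (∫⁻ x, g x ^ (d + 1) ∂μ) ^ (1 / (((d:ℝ) + 1) / d))) ^ (d + 1) := by
        gcongr
        exact h
    _ = (∫⁻ x, f x ^ (d + 1) ∂μ) * (∫⁻ x, g x ^ (d + 1) ∂μ) ^ d := by
        rw [mul_pow]
        congr 1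
        · rw [← ENNReal.rpow_natCast, ← ENNReal.rpow_mul]
          have : 1 / ((d:ℝ) + 1) * ((d + 1 : ℕ) : ℝ) = 1 := by
            push_cast
            field_simp
          rw [this, ENNReal.rpow_one]
        · rw [← ENNReal.rpow_natCast, ← ENNReal.rpow_mul, ← ENNReal.rpow_natCast _ d]
          congr 1
          push_cast
          field_simp

end H1

section S1
theorem S1_neg {d : ℕ} (y : Fin d → ℝ) (t : ℝ) : -(emb y t) = emb (-y) (-t) := by
  ext i
  refine Fin.cases ?_ (fun j => ?_) i <;> simp [emb]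

theorem S1_comb {d : ℕ} (y : Fin d → ℝ) (a b s t : ℝ) (hab : a + b = 1) :
    a • emb y s + b • emb y t = emb y (a * s + b * t) := by
  ext i
  refine Fin.cases ?_ (fun j => ?_) i
  · simp [emb]
  · simp only [emb, PiLp.add_apply, PiLp.smul_apply, Fin.cons_succ, smul_eq_mul]
    rw [← add_mul, hab, one_mul]

theorem S1_cont {d : ℕ} (y : Fin d → ℝ) : Continuous (fun t : ℝ => emb y t) := by
  unfold emb
  refine (PiLp.continuous_toLp 2 _).comp (continuous_pi fun i => ?_)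
  refine Fin.cases ?_ (fun j => ?_) i
  · simpa using continuous_id'
  · simpa using continuous_const

theorem S1_inj {d : ℕ} (y y' : Fin d → ℝ) (t t' : ℝ) (h : emb y t = emb y' t') :
    y = y' ∧ t = t' := by
  unfold emb at h
  have h2 : (Fin.cons t y : Fin (d + 1) → ℝ) = Fin.cons t' y' := (WithLp.toLp_injective 2) h
  have h3 := congrFun h2 0
  refine ⟨?_, by simpa using h3⟩
  funext j
  have h4 := congrFun h2 j.succ
  simpa using h4

theorem S1_cpt {d : ℕ} (L : Set (E (d + 1))) (hL : Body L) (y : Fin d → ℝ) :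
    IsCompact {t : ℝ | emb y t ∈ L} := by
  have hcl : IsClosed {t : ℝ | emb y t ∈ L} := hL.compact.isClosed.preimage (S1_cont y)
  obtain ⟨R, hR⟩ := hL.compact.isBounded.exists_norm_le
  refine Metric.isCompact_of_isClosed_isBounded hcl ?_
  refine (Metric.isBounded_iff_subset_closedBall 0).2 ⟨R, ?_⟩
  intro t ht
  have h1 := hR _ ht
  have h2 := PiLp.norm_apply_le (emb y t) 0
  have h3 : (emb y t) 0 = t := by simp [emb]
  rw [h3] at h2
  rw [mem_closedBall_zero_iff]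
  exact h2.trans h1

theorem S1_le {d : ℕ} (L : Set (E (d + 1))) (hL : Body L) (y : Fin d → ℝ) (t : ℝ)
    (ht : emb y t ∈ L) : t ≤ up L y :=
  le_csSup (S1_cpt L hL y).bddAbove ht

theorem S1_up_mem {d : ℕ} (L : Set (E (d + 1))) (hL : Body L) (y : Fin d → ℝ)
    (hy : y ∈ PP L) : emb y (up L y) ∈ L :=
  (S1_cpt L hL y).sSup_mem hy

theorem S1_neg_mem {d : ℕ} (L : Set (E (d + 1))) (hL : Body L) (y : Fin d → ℝ) (t : ℝ)
    (h : emb y t ∈ L) : emb (-y) (-t) ∈ L := by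
  rw [← S1_neg]
  exact hL.symm _ h

theorem S1 {d : ℕ} (L : Set (E (d + 1))) (hL : Body L) (y : Fin d → ℝ) (t : ℝ) :
    emb y t ∈ L ↔ y ∈ PP L ∧ |t - cc L y| ≤ ll L y := by
  rw [abs_le]
  unfold cc ll
  constructor
  · intro h
    refine ⟨⟨t, h⟩, ?_, ?_⟩
    · have h1 := S1_le L hL (-y) (-t) (S1_neg_mem L hL y t h)
      linarith
    · have h1 := S1_le L hL y t h
      linarith
  · rintro ⟨hy, h1, h2⟩
    have ha : emb y (up L y) ∈ L := S1_up_mem L hL y hy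
    have hy' : -y ∈ PP L := by
      obtain ⟨s, hs⟩ := hy
      exact ⟨-s, S1_neg_mem L hL y s hs⟩
    have hb : emb y (-(up L (-y))) ∈ L := by
      have := S1_neg_mem L hL (-y) _ (S1_up_mem L hL (-y) hy')
      simpa using this
    set a := up L y with hadef
    set b := -(up L (-y)) with hbdef
    have hbt : b ≤ t := by linarith
    have hta : t ≤ a := by linarith
    rcases eq_or_lt_of_le (hbt.trans hta) with h | h
    · have : t = a := le_antisymm hta (h ▸ hbt)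
      rw [this]; exact ha
    · have hpos : 0 < a - b := sub_pos.2 h
      have hm := hL.convex ha hb (a := (t - b) / (a - b)) (b := (a - t) / (a - b))
        (div_nonneg (by linarith) hpos.le) (div_nonneg (by linarith) hpos.le)
        (by field_simp; ring)
      rw [S1_comb _ _ _ _ _ (by field_simp; ring)] at hm
      have : (t - b) / (a - b) * a + (a - t) / (a - b) * b = t := by
        field_simp; ring
      rwa [this] at hm

theorem S2 {d : ℕ} (L : Set (E (d + 1))) (hL : Body L) (τ : ℝ) (h0 : 0 ≤ τ) (h1 : τ ≤ 1)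
    (y : Fin d → ℝ) (t : ℝ) :
    emb y t ∈ Lt L τ ↔ y ∈ PP L ∧ |t - τ * cc L y| ≤ ll L y := by
  rw [abs_le]
  constructor
  · rintro ⟨y', t₁, t₂, hm1, hm2, he⟩
    obtain ⟨rfl, rfl⟩ := S1_inj _ _ _ _ he
    obtain ⟨hy, ha⟩ := (S1 L hL y t₁).1 hm1
    obtain ⟨-, hb⟩ := (S1 L hL y t₂).1 hm2
    rw [abs_le] at ha hb
    refine ⟨hy, ?_, ?_⟩
    · nlinarith [mul_nonneg (by linarith : (0:ℝ) ≤ 1 + τ) (by linarith [ha.1] : (0:ℝ) ≤ t₁ - cc L y + ll L y),
        mul_nonneg (by linarith : (0:ℝ) ≤ 1 - τ) (by linarith [hb.2] : (0:ℝ) ≤ ll L y - (t₂ - cc L y))]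
    · nlinarith [mul_nonneg (by linarith : (0:ℝ) ≤ 1 + τ) (by linarith [ha.2] : (0:ℝ) ≤ ll L y - (t₁ - cc L y)),
        mul_nonneg (by linarith : (0:ℝ) ≤ 1 - τ) (by linarith [hb.1] : (0:ℝ) ≤ t₂ - cc L y + ll L y)]
  · rintro ⟨hy, ha, hb⟩
    refine ⟨y, cc L y + (t - τ * cc L y), cc L y - (t - τ * cc L y), ?_, ?_, ?_⟩
    · refine (S1 L hL y _).2 ⟨hy, ?_⟩
      rw [abs_le]; constructor <;> linarith
    · refine (S1 L hL y _).2 ⟨hy, ?_⟩
      rw [abs_le]; constructor <;> linarith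
    · congr 1
      ring

end S1

section S3
theorem S3_emb_add {d : ℕ} (y y' : Fin d → ℝ) (t t' : ℝ) :
    emb (y + y') (t + t') = emb y t + emb y' t' := by
  ext i
  refine Fin.cases ?_ (fun i => ?_) i
  · simp [emb]
  · simp [emb]

theorem S3_emb_smul {d : ℕ} (c : ℝ) (y : Fin d → ℝ) (t : ℝ) :
    emb (c • y) (c * t) = c • emb y t := by
  ext i
  refine Fin.cases ?_ (fun i => ?_) i
  · simp [emb]
  · simp [emb]

theorem S3_emb_self {d : ℕ} (x : E (d + 1)) : emb (fun i : Fin d => x i.succ) (x 0) = x := by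
  ext i
  refine Fin.cases ?_ (fun i => ?_) i
  · simp [emb]
  · simp [emb]

theorem S3_emb_neg {d : ℕ} (y : Fin d → ℝ) (t : ℝ) : emb (-y) (-t) = -emb y t := by
  have := S3_emb_smul (-1) y t
  simpa using this

theorem S3_norm_emb {d : ℕ} (y : Fin d → ℝ) (t : ℝ) : ‖emb y (-t)‖ = ‖emb y t‖ := by
  rw [EuclideanSpace.norm_eq, EuclideanSpace.norm_eq, Fin.sum_univ_succ, Fin.sum_univ_succ]
  simp [emb]

theorem S3_zero_mem {d : ℕ} {L : Set (E (d + 1))} (hL : Body L) : (0 : E (d + 1)) ∈ interior L := by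
  obtain ⟨x, hx⟩ := hL.int_nonempty
  have h := hL.convex.combo_interior_self_mem_interior hx (hL.symm x (interior_subset hx))
    (show (0 : ℝ) < 1 / 2 by norm_num) (show (0 : ℝ) ≤ 1 / 2 by norm_num) (by norm_num)
  simpa using h

theorem S3_image {d : ℕ} (L : Set (E (d + 1))) (τ : ℝ) :
    Lt L τ = (fun p : E (d + 1) × E (d + 1) => emb (fun i : Fin d => p.1 i.succ)
      (p.1 0 - ((1 - τ) / 2) * (p.1 0 + p.2 0))) ''
      ((L ×ˢ L) ∩ {p | ∀ i : Fin d, p.1 i.succ = p.2 i.succ}) := by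
  ext x
  constructor
  · rintro ⟨y, t₁, t₂, h1, h2, rfl⟩
    refine ⟨(emb y t₁, emb y t₂), ⟨⟨h1, h2⟩, fun i => ?_⟩, ?_⟩
    · simp [emb]
    · simp [emb]
  · rintro ⟨⟨a, b⟩, ⟨⟨ha, hb⟩, hab⟩, rfl⟩
    refine ⟨fun i : Fin d => a i.succ, a 0, b 0, ?_, ?_, rfl⟩
    · rw [S3_emb_self]; exact ha
    · have : (fun i : Fin d => a i.succ) = fun i : Fin d => b i.succ := funext hab
      rw [this, S3_emb_self]; exact hb

theorem S3_emb_cont {d : ℕ} : Continuous (fun p : (Fin d → ℝ) × ℝ => emb p.1 p.2) := by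
  unfold emb
  refine (PiLp.continuous_toLp 2 _).comp ?_
  refine continuous_pi fun i => ?_
  refine Fin.cases ?_ (fun i => ?_) i
  · simp only [Fin.cons_zero]; exact continuous_snd
  · simp only [Fin.cons_succ]; fun_prop

theorem S3_compact {d : ℕ} (L : Set (E (d + 1))) (hL : IsCompact L) (τ : ℝ) :
    IsCompact (Lt L τ) := by
  rw [S3_image]
  refine IsCompact.image ((hL.prod hL).inter_right ?_) ?_
  · have : {p : E (d + 1) × E (d + 1) | ∀ i : Fin d, p.1 i.succ = p.2 i.succ} =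
        ⋂ i : Fin d, {p | p.1 i.succ = p.2 i.succ} := by
      ext p; simp
    rw [this]
    refine isClosed_iInter fun i => isClosed_eq ?_ ?_
    · fun_prop
    · fun_prop
  · refine S3_emb_cont.comp (Continuous.prodMk ?_ ?_)
    · fun_prop
    · fun_prop

theorem S3 {d : ℕ} (L : Set (E (d + 1))) (hL : Body L) (τ : ℝ) (h0 : 0 ≤ τ) (h1 : τ ≤ 1) :
    Body (Lt L τ) := by
  refine ⟨S3_compact L hL.compact τ, ?_, ?_, ?_⟩
  · rintro _ ⟨y, t₁, t₂, a1, a2, rfl⟩ _ ⟨y', t₁', t₂', b1, b2, rfl⟩ a b ha hb hab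
    refine ⟨a • y + b • y', a * t₁ + b * t₁', a * t₂ + b * t₂', ?_, ?_, ?_⟩
    · rw [S3_emb_add, S3_emb_smul, S3_emb_smul]
      exact hL.convex a1 b1 ha hb hab
    · rw [S3_emb_add, S3_emb_smul, S3_emb_smul]
      exact hL.convex a2 b2 ha hb hab
    · rw [← S3_emb_smul, ← S3_emb_smul, ← S3_emb_add]
      congr 1
      ring
  · have hz := S3_zero_mem hL
    rw [mem_interior_iff_mem_nhds, Metric.mem_nhds_iff] at hz
    obtain ⟨r, hr, hball⟩ := hz
    refine ⟨0, ?_⟩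
    rw [mem_interior_iff_mem_nhds, Metric.mem_nhds_iff]
    refine ⟨r, hr, fun x hx => ?_⟩
    rw [mem_ball_zero_iff] at hx
    have e := S3_emb_self x
    refine ⟨fun i : Fin d => x i.succ, x 0, -(x 0), ?_, ?_, ?_⟩
    · rw [e]; exact hball (mem_ball_zero_iff.2 hx)
    · refine hball (mem_ball_zero_iff.2 ?_)
      rw [S3_norm_emb, e]; exact hx
    · rw [add_neg_cancel, mul_zero, sub_zero, e]
  · rintro _ ⟨y, t₁, t₂, a1, a2, rfl⟩
    refine ⟨-y, -t₁, -t₂, ?_, ?_, ?_⟩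
    · rw [S3_emb_neg]; exact hL.symm _ a1
    · rw [S3_emb_neg]; exact hL.symm _ a2
    · rw [← S3_emb_neg]
      congr 1
      ring

theorem S3b {d : ℕ} (L : Set (E (d + 1))) (hL : Body L) : Lt L 1 = L := by
  ext x
  constructor
  · rintro ⟨y, t₁, t₂, a1, a2, rfl⟩
    simpa using a1
  · intro hx
    have e := S3_emb_self x
    refine ⟨fun i : Fin d => x i.succ, x 0, x 0, ?_, ?_, ?_⟩
    · rw [e]; exact hx
    · rw [e]; exact hx
    · simp only [sub_self, zero_div, zero_mul, sub_zero]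
      exact e.symm

end S3

section S4
theorem S4_fubini {d : ℕ} (A : Set (E (d + 1))) (hA : MeasurableSet A) :
    volume A = ∫⁻ y : Fin d → ℝ, volume {t : ℝ | emb y t ∈ A} := by
  have h1 := (PiLp.volume_preserving_toLp (Fin (d + 1))).measure_preimage hA.nullMeasurableSet
  rw [← h1]
  have hm : MeasurableSet ((WithLp.toLp 2 : (Fin (d + 1) → ℝ) → E (d + 1)) ⁻¹' A) :=
    (PiLp.volume_preserving_toLp (Fin (d + 1))).measurable hA
  have h2 := ((volume_preserving_piFinSuccAbove (fun _ : Fin (d + 1) => ℝ) 0).symm).measure_preimage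
    hm.nullMeasurableSet
  rw [← h2]
  have hm2 : MeasurableSet ((MeasurableEquiv.piFinSuccAbove (fun _ : Fin (d + 1) => ℝ) 0).symm ⁻¹'
      ((WithLp.toLp 2 : (Fin (d + 1) → ℝ) → E (d + 1)) ⁻¹' A)) :=
    (MeasurableEquiv.measurable _) hm
  rw [Measure.volume_eq_prod, Measure.prod_apply_symm hm2]
  refine lintegral_congr (fun y => ?_)
  congr 1
  ext t
  have h3 : (MeasurableEquiv.piFinSuccAbove (fun _ : Fin (d + 1) => ℝ) 0).symm (t, y) =
      Fin.cons t y := by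
    funext i
    refine Fin.cases ?_ (fun k => ?_) i
    · simp [MeasurableEquiv.piFinSuccAbove]
    · simp [MeasurableEquiv.piFinSuccAbove]
  simp only [mem_preimage, mem_ofPred_eq, h3]
  exact Iff.rfl

theorem S4_vol (c l : ℝ) : volume {t : ℝ | |t - c| ≤ l} = ENNReal.ofReal (2 * l) := by
  have h : {t : ℝ | |t - c| ≤ l} = Metric.closedBall c l := by
    ext t; simp [Real.dist_eq]
  rw [h, Real.volume_closedBall]

theorem S4 {d : ℕ} (L : Set (E (d + 1))) (hL : Body L) (τ : ℝ) (h0 : 0 ≤ τ) (h1 : τ ≤ 1) :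
    volume (Lt L τ) = volume L := by
  rw [S4_fubini _ (S3 L hL τ h0 h1).compact.measurableSet, S4_fubini _ hL.compact.measurableSet]
  refine lintegral_congr (fun y => ?_)
  simp only [S1 L hL, S2 L hL τ h0 h1]
  by_cases hy : y ∈ PP L
  · simp only [hy, true_and]
    rw [S4_vol, S4_vol]
  · simp only [hy, false_and]

end S4

section S5
theorem S5_emb_add {d : ℕ} (y y' : Fin d → ℝ) (t t' : ℝ) :
    emb y t + emb y' t' = emb (y + y') (t + t') := by
  ext i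
  refine Fin.cases ?_ (fun j => ?_) i
  · rfl
  · rfl

theorem S5_norm_sq {d : ℕ} (y : Fin d → ℝ) (t : ℝ) :
    ‖emb y t‖ ^ 2 = t ^ 2 + ∑ j, y j ^ 2 := by
  rw [EuclideanSpace.norm_sq_eq, Fin.sum_univ_succ]
  have h0 : (emb y t) 0 = t := rfl
  have h1 : ∀ j : Fin d, (emb y t) j.succ = y j := fun _ => rfl
  rw [h0]
  simp only [h1, Real.norm_eq_abs, sq_abs]

theorem S5_abs_le {d : ℕ} (y : Fin d → ℝ) (t : ℝ) : |t| ≤ ‖emb y t‖ := by
  apply abs_le_of_sq_le_sq _ (norm_nonneg _)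
  rw [S5_norm_sq]
  have : 0 ≤ ∑ j, y j ^ 2 := Finset.sum_nonneg fun j _ => sq_nonneg _
  linarith

theorem S5_norm_zero {d : ℕ} (t : ℝ) : ‖emb (0 : Fin d → ℝ) t‖ = |t| := by
  have h : ‖emb (0 : Fin d → ℝ) t‖ ^ 2 = |t| ^ 2 := by
    rw [S5_norm_sq]
    simp
  exact (pow_left_inj₀ (norm_nonneg _) (abs_nonneg _) (by norm_num)).1 h

theorem S5_norm_neg {d : ℕ} (y : Fin d → ℝ) (t : ℝ) : ‖emb y (-t)‖ = ‖emb y t‖ := by
  have h : ‖emb y (-t)‖ ^ 2 = ‖emb y t‖ ^ 2 := by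
    rw [S5_norm_sq, S5_norm_sq]
    ring
  exact (pow_left_inj₀ (norm_nonneg _) (norm_nonneg _) (by norm_num)).1 h

theorem S5_exists {d : ℕ} (x : E (d + 1)) : ∃ (y : Fin d → ℝ) (t : ℝ), x = emb y t := by
  refine ⟨fun j => x j.succ, x 0, ?_⟩
  ext i
  refine Fin.cases ?_ (fun j => ?_) i
  · rfl
  · rfl

theorem S5_absorb {d : ℕ} {L : Set (E (d + 1))} (hc : Convex ℝ L) {r : ℝ} (hr : 0 < r)
    (hb : ∀ p : E (d + 1), ‖p‖ ≤ r → p ∈ L) {a b : E (d + 1)} (ha : a ∈ L) {ρ : ℝ}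
    (hρ : ‖b‖ ≤ ρ) : a + b ∈ (1 + ρ / r) • L := by
  have hρ0 : 0 ≤ ρ := (norm_nonneg _).trans hρ
  rw [Set.mem_smul_set]
  rcases hρ0.eq_or_lt with h | h
  · rw [← h] at hρ ⊢
    have hb0 : b = 0 := norm_le_zero_iff.1 hρ
    refine ⟨a, ha, ?_⟩
    rw [hb0, zero_div, add_zero, one_smul, add_zero]
  · have hl : 0 < ρ / r := div_pos h hr
    have hl1 : 0 < 1 + ρ / r := by linarith
    refine ⟨(1 / (1 + ρ / r)) • a + ((ρ / r) / (1 + ρ / r)) • ((ρ / r)⁻¹ • b), ?_, ?_⟩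
    · refine hc ha (hb _ ?_) (by positivity) (by positivity) ?_
      · rw [norm_smul, Real.norm_of_nonneg (by positivity)]
        calc (ρ / r)⁻¹ * ‖b‖ ≤ (ρ / r)⁻¹ * ρ := mul_le_mul_of_nonneg_left hρ (by positivity)
          _ = r := by field_simp
      · field_simp
    · rw [smul_add, smul_smul, smul_smul, smul_smul]
      have e1 : (1 + ρ / r) * (1 / (1 + ρ / r)) = 1 := by field_simp
      have e2 : (1 + ρ / r) * (ρ / r / (1 + ρ / r)) * (ρ / r)⁻¹ = 1 := by field_simp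
      have e2' : (1 + ρ / r) * (ρ / r / (1 + ρ / r) * (ρ / r)⁻¹) = 1 := by rw [← mul_assoc, e2]
      first
        | rw [e1, e2, one_smul, one_smul]
        | rw [e1, e2', one_smul, one_smul]

theorem S5_ball {d : ℕ} {L : Set (E (d + 1))} (hL : Body L) :
    ∃ r : ℝ, 0 < r ∧ ∀ p : E (d + 1), ‖p‖ ≤ r → p ∈ L := by
  obtain ⟨x, hx⟩ := hL.int_nonempty
  have h0 : (0 : E (d + 1)) ∈ interior L := by
    have hnx : -x ∈ L := hL.symm x (interior_subset hx)
    have h := hL.convex.combo_interior_self_mem_interior hx hnx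
      (a := 1 / 2) (b := 1 / 2) (by norm_num) (by norm_num) (by norm_num)
    have e : (1 / 2 : ℝ) • x + (1 / 2 : ℝ) • (-x) = 0 := by
      rw [smul_neg, add_neg_cancel]
    rwa [e] at h
  obtain ⟨ε, hε, hball⟩ := Metric.isOpen_iff.1 isOpen_interior 0 h0
  refine ⟨ε / 2, by positivity, fun p hp => ?_⟩
  apply interior_subset
  apply hball
  rw [Metric.mem_ball, dist_zero_right]
  linarith

theorem S5 {d : ℕ} (L : Set (E (d + 1))) (hL : Body L) : ∃ C : ℝ, 0 ≤ C ∧ ∀ τ : ℝ, 0 ≤ τ → τ ≤ 1 →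
    Lt L τ ⊆ (1 + C * (1 - τ)) • L ∧ L ⊆ (1 + C * (1 - τ)) • Lt L τ := by
  obtain ⟨r, hr, hball⟩ := S5_ball hL
  obtain ⟨R, hR⟩ := hL.compact.isBounded.exists_norm_le
  have hR0 : 0 ≤ R := (norm_nonneg _).trans (hR 0 (hball 0 (by rw [norm_zero]; exact hr.le)))
  refine ⟨R / r, by positivity, fun τ h0 h1 => ?_⟩
  have hε : 0 ≤ 1 - τ := by linarith
  have heq : 1 + R / r * (1 - τ) = 1 + ((1 - τ) * R) / r := by ring
  rw [heq]
  constructor
  · rintro x ⟨y, t₁, t₂, ht₁, ht₂, rfl⟩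
    have a1 : |t₁| ≤ R := (S5_abs_le y t₁).trans (hR _ ht₁)
    have a2 : |t₂| ≤ R := (S5_abs_le y t₂).trans (hR _ ht₂)
    have e : emb y (t₁ - ((1 - τ) / 2) * (t₁ + t₂)) =
        emb y t₁ + emb 0 (-(((1 - τ) / 2) * (t₁ + t₂))) := by
      rw [S5_emb_add, add_zero, sub_eq_add_neg]
    rw [e]
    refine S5_absorb hL.convex hr hball ht₁ ?_
    rw [S5_norm_zero, abs_neg, abs_mul, abs_of_nonneg (by linarith : 0 ≤ (1 - τ) / 2)]
    have a3 : |t₁ + t₂| ≤ 2 * R := by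
      refine (abs_add_le t₁ t₂).trans ?_
      linarith
    calc (1 - τ) / 2 * |t₁ + t₂| ≤ (1 - τ) / 2 * (2 * R) :=
          mul_le_mul_of_nonneg_left a3 (by linarith)
      _ = (1 - τ) * R := by ring
  · intro x hx
    obtain ⟨y, t, rfl⟩ := S5_exists x
    obtain ⟨hP, ht⟩ := (S1 L hL y t).1 hx
    have hl0 : 0 ≤ ll L y := (abs_nonneg _).trans ht
    have hc : emb y (cc L y) ∈ L := (S1 L hL y _).2 ⟨hP, by rw [sub_self, abs_zero]; exact hl0⟩
    have hcR : |cc L y| ≤ R := (S5_abs_le y _).trans (hR _ hc)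
    have hm : emb y (t - (1 - τ) * cc L y) ∈ Lt L τ := by
      refine (S2 L hL τ h0 h1 y _).2 ⟨hP, ?_⟩
      have e : t - (1 - τ) * cc L y - τ * cc L y = t - cc L y := by ring
      rw [e]
      exact ht
    have e : emb y t = emb y (t - (1 - τ) * cc L y) + emb 0 ((1 - τ) * cc L y) := by
      rw [S5_emb_add, add_zero, sub_add_cancel]
    rw [e]
    refine S5_absorb (S3 L hL τ h0 h1).convex hr ?_ hm ?_
    · intro p hp
      obtain ⟨y', s, rfl⟩ := S5_exists p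
      refine ⟨y', s, -s, hball _ hp, hball _ (by rw [S5_norm_neg]; exact hp), ?_⟩
      congr 1
      ring
    · rw [S5_norm_zero, abs_mul, abs_of_nonneg hε]
      exact mul_le_mul_of_nonneg_left hcR hε

end S5

section S7
def S7_W {d : ℕ} (L : Set (E (d + 1))) (τ : ℝ) (y : Fin (d + 1) → (Fin d → ℝ)) :
    Set (Fin d → ℝ) :=
  {w | ∀ i, y i ∈ PP L ∧ |w ⬝ᵥ y i - τ * cc L (y i)| ≤ ll L (y i)}

theorem S7_FF {d : ℕ} (L : Set (E (d + 1))) (hL : Body L) (τ : ℝ) (h0 : 0 ≤ τ) (h1 : τ ≤ 1)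
    (y : Fin (d + 1) → (Fin d → ℝ)) : FF L τ y = volume (S7_W L τ y) := by
  unfold FF S7_W
  congr 1
  ext w
  simp only [mem_ofPred_eq]
  exact forall_congr' fun i => S2 L hL τ h0 h1 (y i) _

theorem S7_meas {d : ℕ} (L : Set (E (d + 1))) (τ : ℝ) (y : Fin (d + 1) → (Fin d → ℝ)) :
    MeasurableSet (S7_W L τ y) := by
  have h : S7_W L τ y = ⋂ i, {w | y i ∈ PP L ∧ |w ⬝ᵥ y i - τ * cc L (y i)| ≤ ll L (y i)} := by
    ext w; simp [S7_W]
  rw [h]
  refine MeasurableSet.iInter fun i => ?_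
  by_cases hi : y i ∈ PP L
  · have h2 : {w : Fin d → ℝ | y i ∈ PP L ∧ |w ⬝ᵥ y i - τ * cc L (y i)| ≤ ll L (y i)} =
        {w | |w ⬝ᵥ y i - τ * cc L (y i)| ≤ ll L (y i)} := by
      ext w; simp [hi]
    rw [h2]
    have hc : Continuous (fun w : Fin d → ℝ => |w ⬝ᵥ y i - τ * cc L (y i)|) := by
      have : Continuous (fun w : Fin d → ℝ => w ⬝ᵥ y i) :=
        Continuous.dotProduct continuous_id continuous_const
      exact (this.sub continuous_const).abs
    exact (isClosed_le hc continuous_const).measurableSet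
  · have h2 : {w : Fin d → ℝ | y i ∈ PP L ∧ |w ⬝ᵥ y i - τ * cc L (y i)| ≤ ll L (y i)} = ∅ := by
      ext w; simp [hi]
    rw [h2]
    exact MeasurableSet.empty

theorem S7_half (x : ℝ≥0∞) : x ^ (1 / 2 : ℝ) * x ^ (1 / 2 : ℝ) = x := by
  rw [← ENNReal.rpow_add_of_nonneg _ _ (by norm_num) (by norm_num)]
  norm_num

theorem S7 {d : ℕ} (L : Set (E (d + 1))) (hL : Body L) (τ : ℝ) (h0 : 0 ≤ τ) (h1 : τ ≤ 1)
    (y : Fin (d + 1) → (Fin d → ℝ)) :
    FF L 1 y * FF L τ y ≤ FF L ((1 + τ) / 2) y ^ 2 ∧ FF L 1 y ≤ FF L 0 y := by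
  rw [S7_FF L hL 1 zero_le_one le_rfl, S7_FF L hL τ h0 h1, S7_FF L hL 0 le_rfl zero_le_one,
    S7_FF L hL ((1 + τ) / 2) (by linarith) (by linarith)]
  constructor
  · have h := B1 (a := 1 / 2) (b := 1 / 2) (by norm_num) (by norm_num) (by norm_num)
      (S7_meas L 1 y) (S7_meas L τ y) (S7_meas L ((1 + τ) / 2) y) (by
        intro x hx z hz i
        refine ⟨(hx i).1, ?_⟩
        have e1 := abs_le.1 (hx i).2
        have e2 := abs_le.1 (hz i).2
        rw [add_dotProduct, smul_dotProduct, smul_dotProduct, smul_eq_mul, smul_eq_mul, abs_le]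
        constructor <;> nlinarith [e1.1, e1.2, e2.1, e2.2])
    calc volume (S7_W L 1 y) * volume (S7_W L τ y)
        = (volume (S7_W L 1 y) ^ (1 / 2 : ℝ) * volume (S7_W L τ y) ^ (1 / 2 : ℝ)) ^ 2 := by
          rw [sq, mul_mul_mul_comm, S7_half, S7_half]
      _ ≤ _ := pow_le_pow_left' h 2
  · have hm : MeasurableSet (Neg.neg ⁻¹' (S7_W L 1 y) : Set (Fin d → ℝ)) :=
      measurable_neg (S7_meas L 1 y)
    have h := B1 (a := 1 / 2) (b := 1 / 2) (by norm_num) (by norm_num) (by norm_num)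
      (S7_meas L 1 y) hm (S7_meas L 0 y) (by
        intro x hx z hz i
        refine ⟨(hx i).1, ?_⟩
        have e1 := abs_le.1 (hx i).2
        have e2 := abs_le.1 (hz i).2
        rw [neg_dotProduct] at e2
        rw [add_dotProduct, smul_dotProduct, smul_dotProduct, smul_eq_mul, smul_eq_mul, abs_le]
        constructor <;> nlinarith [e1.1, e1.2, e2.1, e2.2])
    have hv : volume (Neg.neg ⁻¹' (S7_W L 1 y) : Set (Fin d → ℝ)) = volume (S7_W L 1 y) :=
      Measure.measure_preimage_neg volume _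
    rw [hv, S7_half] at h
    exact h

end S7

section S8
theorem S8_cont {d : ℕ} (i : Fin (d + 1)) :
    Continuous (fun p : (Fin d → ℝ) × (Fin (d + 1) → (Fin d → ℝ)) =>
      (emb (p.2 i) (p.1 ⬝ᵥ p.2 i) : E (d + 1))) := by
  unfold emb
  refine (PiLp.continuous_toLp 2 _).comp ?_
  apply continuous_pi
  intro j
  refine Fin.cases ?_ (fun k => ?_) j
  · simp only [Fin.cons_zero, dotProduct]
    fun_prop
  · simp only [Fin.cons_succ]
    fun_prop

theorem S8_meas {d : ℕ} (K : Set (E (d + 1))) (hK : MeasurableSet K) :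
    MeasurableSet {p : (Fin d → ℝ) × (Fin (d + 1) → (Fin d → ℝ)) |
      ∀ i, emb (p.2 i) (p.1 ⬝ᵥ p.2 i) ∈ K} := by
  have h1 : {p : (Fin d → ℝ) × (Fin (d + 1) → (Fin d → ℝ)) |
      ∀ i, emb (p.2 i) (p.1 ⬝ᵥ p.2 i) ∈ K} =
      ⋂ i, (fun p : (Fin d → ℝ) × (Fin (d + 1) → (Fin d → ℝ)) =>
        (emb (p.2 i) (p.1 ⬝ᵥ p.2 i) : E (d + 1))) ⁻¹' K := by
    ext p; simp
  rw [h1]
  exact MeasurableSet.iInter fun i => (S8_cont i).measurable hK

theorem S8_pow {d : ℕ} (K : Set (E (d + 1))) (w : Fin d → ℝ) :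
    A K w ^ (d + 1) = volume {y : Fin (d + 1) → (Fin d → ℝ) | ∀ i, emb (y i) (w ⬝ᵥ y i) ∈ K} := by
  have h1 : {y : Fin (d + 1) → (Fin d → ℝ) | ∀ i, emb (y i) (w ⬝ᵥ y i) ∈ K} =
      Set.pi univ (fun _ : Fin (d + 1) => {y : Fin d → ℝ | emb y (w ⬝ᵥ y) ∈ K}) := by
    ext y; simp
  rw [h1, volume_pi_pi]
  simp [A]

theorem S8 {d : ℕ} (K : Set (E (d + 1))) (hK : MeasurableSet K) :
    ∫⁻ w, A K w ^ (d + 1) =
      ∫⁻ y : Fin (d + 1) → (Fin d → ℝ), volume {w : Fin d → ℝ | ∀ i, emb (y i) (w ⬝ᵥ y i) ∈ K} := by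
  simp only [S8_pow]
  have h1 := Measure.prod_apply (μ := (volume : Measure (Fin d → ℝ)))
    (ν := (volume : Measure (Fin (d + 1) → (Fin d → ℝ)))) (S8_meas K hK)
  have h2 := Measure.prod_apply_symm (μ := (volume : Measure (Fin d → ℝ)))
    (ν := (volume : Measure (Fin (d + 1) → (Fin d → ℝ)))) (S8_meas K hK)
  exact h1.symm.trans h2

theorem S8b {d : ℕ} (K : Set (E (d + 1))) (hK : MeasurableSet K) :
    Measurable (fun y : Fin (d + 1) → (Fin d → ℝ) =>
      volume {w : Fin d → ℝ | ∀ i, emb (y i) (w ⬝ᵥ y i) ∈ K}) :=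
  measurable_measure_prodMk_right (S8_meas K hK)

end S8

section S9
theorem S9_real {g : ℝ} (hg : 0 < g) (f : ℕ → ℝ) (h0 : g ≤ f 0) (h1 : ∀ k, g * f k ≤ f (k + 1) ^ 2)
    (hf : ∀ k, 0 ≤ f k) (k : ℕ) : g ≤ f k ∧ (1 / 2 : ℝ) ^ k * (1 - g / f 0) ≤ 1 - g / f k := by
  induction k with
  | zero => exact ⟨h0, by rw [pow_zero, one_mul]⟩
  | succ k ih =>
    obtain ⟨i1, i2⟩ := ih
    have a1 : g ^ 2 ≤ f (k + 1) ^ 2 := by
      refine le_trans ?_ (h1 k)
      rw [sq]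
      exact mul_le_mul_of_nonneg_left i1 hg.le
    have a2 : g ≤ f (k + 1) := by
      exact (sq_le_sq₀ hg.le (hf _)).mp a1
    refine ⟨a2, ?_⟩
    have fk : 0 < f k := lt_of_lt_of_le hg i1
    have fk1 : 0 < f (k + 1) := lt_of_lt_of_le hg a2
    -- 1 - g / f k ≤ 2 * (1 - g / f (k+1))
    have b1 : (g / f (k + 1)) ^ 2 ≤ g / f k := by
      rw [div_pow, div_le_div_iff₀ (by positivity) fk]
      nlinarith [h1 k]
    have b2 : 0 ≤ (1 - g / f (k + 1)) ^ 2 := sq_nonneg _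
    have b3 : (1 / 2 : ℝ) ^ (k + 1) * (1 - g / f 0) = (1 / 2) * ((1 / 2 : ℝ) ^ k * (1 - g / f 0)) := by
      rw [pow_succ]; ring
    rw [b3]
    nlinarith

theorem S9 {α : Type} [MeasurableSpace α] (μ : Measure α) (F : ℕ → α → ℝ≥0∞) (G : α → ℝ≥0∞)
    (hF : ∀ k, Measurable (F k)) (hG : Measurable G)
    (h1 : ∀ k x, G x * F k x ≤ F (k + 1) x ^ 2) (h0 : ∀ x, G x ≤ F 0 x)
    (C : ℝ) (hC : 0 ≤ C) (hfin : ∫⁻ x, G x ∂μ ≠ ∞)
    (h2 : ∀ k, ∫⁻ x, F k x ∂μ ≤
      ∫⁻ x, G x ∂μ + ENNReal.ofReal (C * (1 / 4) ^ k) * ∫⁻ x, G x ∂μ) :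
    ∀ᵐ x ∂μ, G x = 0 ∨ F 0 x = G x := by
  have hFfin : ∀ k, ∫⁻ x, F k x ∂μ ≠ ∞ := by
    intro k
    refine ne_top_of_le_ne_top ?_ (h2 k)
    exact ENNReal.add_ne_top.mpr ⟨hfin, ENNReal.mul_ne_top ENNReal.ofReal_ne_top hfin⟩
  have hk : ∀ᵐ x ∂μ, ∀ k, F k x < ∞ := by
    rw [ae_all_iff]
    intro k
    exact ae_lt_top (hF k) (hFfin k)
  have hGf : ∀ᵐ x ∂μ, G x < ∞ := ae_lt_top hG hfin
  obtain ⟨D, hD⟩ : ∃ D : α → ℝ≥0∞, D = fun x =>
    ENNReal.ofReal ((G x).toReal * (1 - (G x).toReal / (F 0 x).toReal)) := ⟨_, rfl⟩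
  have hDm : Measurable D := by
    rw [hD]
    have m1 : Measurable (fun x => (G x).toReal) := hG.ennreal_toReal
    have m2 : Measurable (fun x => (F 0 x).toReal) := (hF 0).ennreal_toReal
    exact (m1.mul (measurable_const.sub (m1.div m2))).ennreal_ofReal
  have hreal : ∀ x, (∀ k, F k x < ∞) → G x < ∞ → G x ≠ 0 →
      0 < (G x).toReal ∧ ∀ k, (G x).toReal ≤ (F k x).toReal ∧
        (1 / 2 : ℝ) ^ k * (1 - (G x).toReal / (F 0 x).toReal) ≤ 1 - (G x).toReal / (F k x).toReal := by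
    intro x hx hgx hg0
    have hg : 0 < (G x).toReal := ENNReal.toReal_pos hg0 hgx.ne
    refine ⟨hg, ?_⟩
    apply S9_real hg (fun k => (F k x).toReal)
    · exact ENNReal.toReal_mono (hx 0).ne (h0 x)
    · intro k
      have := ENNReal.toReal_mono (ENNReal.pow_ne_top (hx (k + 1)).ne) (h1 k x)
      rw [ENNReal.toReal_mul, ENNReal.toReal_pow] at this
      exact this
    · intro k
      exact ENNReal.toReal_nonneg
  have key : ∀ k, ∀ᵐ x ∂μ, G x + ENNReal.ofReal ((1 / 2 : ℝ) ^ k) * D x ≤ F k x := by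
    intro k
    filter_upwards [hk, hGf] with x hx hgx
    by_cases hg0 : G x = 0
    · rw [hD]
      simp [hg0]
    · obtain ⟨hg, hr⟩ := hreal x hx hgx hg0
      obtain ⟨r1, r2⟩ := hr k
      rw [hD]
      beta_reduce
      rw [← ENNReal.ofReal_mul (by positivity), ← ENNReal.ofReal_toReal hgx.ne,
        ← ENNReal.ofReal_toReal (hx k).ne]
      rw [ENNReal.ofReal_toReal hgx.ne]
      have hfk : 0 < (F k x).toReal := lt_of_lt_of_le hg r1
      have hf0 : (G x).toReal ≤ (F 0 x).toReal := (hr 0).1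
      have hf0' : 0 < (F 0 x).toReal := lt_of_lt_of_le hg hf0
      have q1 : 0 ≤ 1 - (G x).toReal / (F 0 x).toReal := by
        rw [sub_nonneg, div_le_one hf0']
        exact hf0
      have q2 : G x = ENNReal.ofReal (G x).toReal := (ENNReal.ofReal_toReal hgx.ne).symm
      have q3 : 0 ≤ (1 / 2 : ℝ) ^ k * ((G x).toReal * (1 - (G x).toReal / (F 0 x).toReal)) := by positivity
      calc G x + ENNReal.ofReal ((1 / 2 : ℝ) ^ k * ((G x).toReal * (1 - (G x).toReal / (F 0 x).toReal)))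
          = ENNReal.ofReal ((G x).toReal + (1 / 2 : ℝ) ^ k * ((G x).toReal * (1 - (G x).toReal / (F 0 x).toReal))) := by
            rw [ENNReal.ofReal_add hg.le q3, ← q2]
        _ ≤ ENNReal.ofReal (F k x).toReal := by
            apply ENNReal.ofReal_le_ofReal
            have q4 : (G x).toReal * (1 - (G x).toReal / (F k x).toReal) ≤ (F k x).toReal - (G x).toReal := by
              have e1 : (F k x).toReal - (G x).toReal = (F k x).toReal * (1 - (G x).toReal / (F k x).toReal) := by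
                field_simp
              rw [e1]
              apply mul_le_mul_of_nonneg_right r1
              rw [sub_nonneg, div_le_one hfk]
              exact r1
            have q5 := mul_le_mul_of_nonneg_left r2 hg.le
            nlinarith
  have hint : ∀ k, ∫⁻ x, G x ∂μ + ENNReal.ofReal ((1 / 2 : ℝ) ^ k) * ∫⁻ x, D x ∂μ ≤ ∫⁻ x, F k x ∂μ := by
    intro k
    rw [← lintegral_const_mul _ hDm, ← lintegral_add_left hG]
    exact lintegral_mono_ae (key k)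
  have hb : ∀ k : ℕ, ∫⁻ x, D x ∂μ ≤ ENNReal.ofReal (C * (1 / 2) ^ k) * ∫⁻ x, G x ∂μ := by
    intro k
    have s1 := (hint k).trans (h2 k)
    rw [ENNReal.add_le_add_iff_left hfin] at s1
    have s2 := mul_le_mul_right s1 (ENNReal.ofReal ((2 : ℝ) ^ k))
    rw [← mul_assoc, ← mul_assoc, ← ENNReal.ofReal_mul (by positivity), ← ENNReal.ofReal_mul (by positivity)] at s2
    have e1 : (2 : ℝ) ^ k * (1 / 2) ^ k = 1 := by
      rw [← mul_pow]; norm_num
    have e2 : (2 : ℝ) ^ k * (C * (1 / 4) ^ k) = C * (1 / 2) ^ k := by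
      have : (2 : ℝ) ^ k * (1 / 4) ^ k = (1 / 2) ^ k := by
        rw [← mul_pow]; norm_num
      rw [← this]; ring
    rw [e1, e2, ENNReal.ofReal_one, one_mul] at s2
    exact s2
  have hlim : Tendsto (fun k : ℕ => ENNReal.ofReal (C * (1 / 2) ^ k) * ∫⁻ x, G x ∂μ) atTop (𝓝 0) := by
    have t1 : Tendsto (fun k : ℕ => C * (1 / 2 : ℝ) ^ k) atTop (𝓝 0) := by
      have := (tendsto_pow_atTop_nhds_zero_of_lt_one (show (0:ℝ) ≤ 1 / 2 by norm_num)
        (show (1 / 2 : ℝ) < 1 by norm_num)).const_mul C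
      rwa [mul_zero] at this
    have t2 : Tendsto (fun k : ℕ => ENNReal.ofReal (C * (1 / 2 : ℝ) ^ k)) atTop (𝓝 0) := by
      have := ENNReal.tendsto_ofReal t1
      rwa [ENNReal.ofReal_zero] at this
    have t3 := ENNReal.Tendsto.mul_const t2 (Or.inr hfin)
    rwa [zero_mul] at t3
  have hD0 : ∫⁻ x, D x ∂μ = 0 := by
    apply le_antisymm _ (zero_le)
    exact ge_of_tendsto' hlim hb
  rw [lintegral_eq_zero_iff hDm] at hD0
  filter_upwards [hk, hGf, hD0] with x hx hgx hd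
  by_cases hg0 : G x = 0
  · exact Or.inl hg0
  · right
    obtain ⟨hg, hr⟩ := hreal x hx hgx hg0
    have hf0 : (G x).toReal ≤ (F 0 x).toReal := (hr 0).1
    have hf0' : 0 < (F 0 x).toReal := lt_of_lt_of_le hg hf0
    rw [hD] at hd
    have hd' : ENNReal.ofReal ((G x).toReal * (1 - (G x).toReal / (F 0 x).toReal)) = 0 := hd
    rw [ENNReal.ofReal_eq_zero] at hd'
    have h3 : 1 - (G x).toReal / (F 0 x).toReal ≤ 0 := by
      by_contra hcon
      push Not at hcon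
      have := mul_pos hg hcon
      linarith
    have h4 : (F 0 x).toReal ≤ (G x).toReal := by
      rw [sub_nonpos, one_le_div hf0'] at h3
      exact h3
    exact (ENNReal.toReal_eq_toReal_iff' (hx 0).ne hgx.ne).mp (le_antisymm h4 hf0)

end S9

section S10
theorem S10_poly (M : ℝ) (hM : 0 ≤ M) (n : ℕ) : ∃ C : ℝ, 0 ≤ C ∧ ∀ r : ℝ, 0 ≤ r → r ≤ M →
    r ^ n - 1 - n * (r - 1) ≤ C * (r - 1) ^ 2 := by
  induction n with
  | zero => exact ⟨0, le_rfl, fun r _ _ => by simp⟩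
  | succ n ih =>
    obtain ⟨C, hC, h⟩ := ih
    refine ⟨M * C + n, by positivity, ?_⟩
    intro r h0 h1
    have h2 := h r h0 h1
    have h3 : r ^ (n + 1) - 1 - ((n + 1 : ℕ) : ℝ) * (r - 1) =
        r * (r ^ n - 1 - n * (r - 1)) + n * (r - 1) ^ 2 := by
      push_cast; ring
    rw [h3]
    have h4 : r * (r ^ n - 1 - n * (r - 1)) ≤ r * (C * (r - 1) ^ 2) :=
      mul_le_mul_of_nonneg_left h2 h0
    have h5 : r * (C * (r - 1) ^ 2) ≤ M * (C * (r - 1) ^ 2) :=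
      mul_le_mul_of_nonneg_right h1 (by positivity)
    nlinarith

theorem S10_pow (T : ℝ) (hT : 0 ≤ T) (d : ℕ) : ∃ C : ℝ, 0 ≤ C ∧ ∀ θ : ℝ, 0 ≤ θ → θ ≤ T →
    (1 + θ) ^ d - 1 ≤ C * θ := by
  induction d with
  | zero => exact ⟨0, le_rfl, fun r _ _ => by simp⟩
  | succ n ih =>
    obtain ⟨C, hC, h⟩ := ih
    refine ⟨(1 + T) * C + 1, by positivity, ?_⟩
    intro θ h0 h1
    have h2 := h θ h0 h1
    have h3 : (1 + θ) ^ (n + 1) - 1 = (1 + θ) * ((1 + θ) ^ n - 1) + θ := by ring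
    rw [h3]
    have h4 : (1 + θ) * ((1 + θ) ^ n - 1) ≤ (1 + θ) * (C * θ) :=
      mul_le_mul_of_nonneg_left h2 (by linarith)
    have h5 : (1 + θ) * (C * θ) ≤ (1 + T) * (C * θ) :=
      mul_le_mul_of_nonneg_right (by linarith) (by positivity)
    nlinarith

theorem S10_real (d : ℕ) (Θ : ℝ) : ∃ C : ℝ, 0 ≤ C ∧ ∀ θ : ℝ, 0 ≤ θ → θ ≤ Θ →
    ∀ a b : ℝ, 0 ≤ a → 0 ≤ b → a ≤ (1 + θ) ^ d * b → b ≤ (1 + θ) ^ d * a →
      a ^ (d + 1) + (d + 1) * b ^ (d + 1) ≤
        b ^ (d + 1) + (d + 1) * (a * b ^ d) + C * θ ^ 2 * b ^ (d + 1) := by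
  obtain ⟨C1, hC1, h1⟩ := S10_pow (max Θ 0) (le_max_right _ _) d
  obtain ⟨C2, hC2, h2⟩ := S10_poly ((1 + max Θ 0) ^ d) (by positivity) (d + 1)
  refine ⟨C2 * C1 ^ 2, by positivity, ?_⟩
  intro θ h0 hθ a b ha hb hab hba
  have hθ' : θ ≤ max Θ 0 := hθ.trans (le_max_left _ _)
  rcases hb.eq_or_lt with hb0 | hb0
  · subst hb0
    have ha0 : a = 0 := le_antisymm (by simpa using hab) ha
    subst ha0
    simp
  set r := a / b with hr
  have har : a = r * b := by rw [hr]; field_simp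
  have hr0 : 0 ≤ r := by positivity
  set R := (1 + θ) ^ d with hR
  have hR1 : 1 ≤ R := one_le_pow₀ (by linarith)
  have hrR : r ≤ R := by rw [hr, div_le_iff₀ hb0]; exact hab
  have hRr : 1 ≤ R * r := by
    rw [hr, ← mul_div_assoc, le_div_iff₀ hb0, one_mul]; exact hba
  have hRM : R ≤ (1 + max Θ 0) ^ d := pow_le_pow_left₀ (by linarith) (by linarith) d
  have h3 := h2 r hr0 (hrR.trans hRM)
  have h4 := h1 θ h0 hθ'
  rw [← hR] at h4
  have h5 : (r - 1) ^ 2 ≤ (R - 1) ^ 2 := by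
    rw [sq_le_sq, abs_of_nonneg (by linarith : 0 ≤ R - 1), abs_le]
    constructor
    · nlinarith
    · linarith
  have h6 : (R - 1) ^ 2 ≤ (C1 * θ) ^ 2 := by
    rw [sq_le_sq, abs_of_nonneg (by linarith : 0 ≤ R - 1), abs_of_nonneg (by positivity)]
    exact h4
  have h7 : r ^ (d + 1) - 1 - ((d : ℝ) + 1) * (r - 1) ≤ C2 * C1 ^ 2 * θ ^ 2 := by
    have h8 : C2 * (r - 1) ^ 2 ≤ C2 * (C1 * θ) ^ 2 := mul_le_mul_of_nonneg_left (h5.trans h6) hC2
    push_cast at h3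
    nlinarith
  have hbp : 0 ≤ b ^ (d + 1) := by positivity
  have h9 := mul_le_mul_of_nonneg_right h7 hbp
  have h10 : (r ^ (d + 1) - 1 - ((d : ℝ) + 1) * (r - 1)) * b ^ (d + 1) =
      a ^ (d + 1) + (d + 1) * b ^ (d + 1) - b ^ (d + 1) - (d + 1) * (a * b ^ d) := by
    rw [har, mul_pow]; ring
  rw [h10] at h9
  linarith

theorem S10 (d : ℕ) (Θ : ℝ) : ∃ C : ℝ, 0 ≤ C ∧ ∀ θ : ℝ, 0 ≤ θ → θ ≤ Θ →
    ∀ (α : Type) [MeasurableSpace α] (μ : Measure α) (f g : α → ℝ≥0∞), Measurable f →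
      Measurable g →
      (∀ x, f x ≤ ENNReal.ofReal ((1 + θ) ^ d) * g x) →
      (∀ x, g x ≤ ENNReal.ofReal ((1 + θ) ^ d) * f x) →
      ∫⁻ x, g x ^ (d + 1) ∂μ ≠ ∞ →
      ∫⁻ x, f x * g x ^ d ∂μ ≤ ∫⁻ x, g x ^ (d + 1) ∂μ →
      ∫⁻ x, f x ^ (d + 1) ∂μ ≤
        ∫⁻ x, g x ^ (d + 1) ∂μ + ENNReal.ofReal (C * θ ^ 2) * ∫⁻ x, g x ^ (d + 1) ∂μ := by
  obtain ⟨C, hC, h⟩ := S10_real d Θ
  refine ⟨C, hC, ?_⟩
  intro θ h0 h1 α _ μ f g hf hg hfg hgf hfin hint
  have hR0 : 0 ≤ (1 + θ) ^ d := by positivity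
  have hgae : ∀ᵐ x ∂μ, g x < ∞ := by
    have h2 := ae_lt_top (hg.pow_const (d + 1)) hfin
    filter_upwards [h2] with x hx
    by_contra hcon
    push Not at hcon
    rw [top_le_iff] at hcon
    rw [hcon] at hx
    simp at hx
  have hpt : ∀ᵐ x ∂μ, f x ^ (d + 1) + ((d : ℝ≥0∞) + 1) * g x ^ (d + 1) ≤
      g x ^ (d + 1) + ((d : ℝ≥0∞) + 1) * (f x * g x ^ d) +
        ENNReal.ofReal (C * θ ^ 2) * g x ^ (d + 1) := by
    filter_upwards [hgae] with x hx
    have hfx : f x < ∞ := (hfg x).trans_lt (ENNReal.mul_lt_top ENNReal.ofReal_lt_top hx)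
    have e1 := hfg x
    have e2 := hgf x
    obtain ⟨a, ha⟩ : ∃ a : NNReal, f x = a := ⟨(f x).toNNReal, (ENNReal.coe_toNNReal hfx.ne).symm⟩
    obtain ⟨b, hb⟩ : ∃ b : NNReal, g x = b := ⟨(g x).toNNReal, (ENNReal.coe_toNNReal hx.ne).symm⟩
    rw [ha, hb] at e1 e2 ⊢
    obtain ⟨R', hR'⟩ : ∃ R' : NNReal, (R' : ℝ) = (1 + θ) ^ d := ⟨⟨_, hR0⟩, rfl⟩
    have hK0 : 0 ≤ C * θ ^ 2 := by positivity
    obtain ⟨K', hK'⟩ : ∃ K' : NNReal, (K' : ℝ) = C * θ ^ 2 := ⟨⟨_, hK0⟩, rfl⟩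
    rw [← hR', ENNReal.ofReal_coe_nnreal] at e1 e2
    rw [← hK', ENNReal.ofReal_coe_nnreal]
    have e1' : a ≤ R' * b := by exact_mod_cast e1
    have e2' : b ≤ R' * a := by exact_mod_cast e2
    have e1r : (a : ℝ) ≤ (1 + θ) ^ d * b := by
      have := NNReal.coe_le_coe.2 e1'
      rw [← hR']
      exact_mod_cast this
    have e2r : (b : ℝ) ≤ (1 + θ) ^ d * a := by
      have := NNReal.coe_le_coe.2 e2'
      rw [← hR']
      exact_mod_cast this
    have h3 := h θ h0 h1 a b a.2 b.2 e1r e2r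
    have h4 : a ^ (d + 1) + ((d : NNReal) + 1) * b ^ (d + 1) ≤
        b ^ (d + 1) + ((d : NNReal) + 1) * (a * b ^ d) +
        K' * b ^ (d + 1) := by
      rw [← NNReal.coe_le_coe]
      push_cast
      rw [hK']
      exact h3
    exact_mod_cast h4
  have hI := lintegral_mono_ae hpt
  have m0 : Measurable (fun x => f x ^ (d + 1)) := hf.pow_const _
  have m1 : Measurable (fun x => g x ^ (d + 1)) := hg.pow_const _
  have m2 : Measurable (fun x => f x * g x ^ d) := hf.mul (hg.pow_const _)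
  have m3 : Measurable (fun x => g x ^ (d + 1) + ((d : ℝ≥0∞) + 1) * (f x * g x ^ d)) :=
    m1.add (m2.const_mul _)
  rw [lintegral_add_left m0, lintegral_const_mul _ m1, lintegral_add_left m3,
    lintegral_add_left m1, lintegral_const_mul _ m2, lintegral_const_mul _ m1] at hI
  have hfin2 : ((d : ℝ≥0∞) + 1) * ∫⁻ x, g x ^ (d + 1) ∂μ ≠ ∞ :=
    ENNReal.mul_ne_top (by simp) hfin
  have hI2 : ∫⁻ x, f x ^ (d + 1) ∂μ + ((d : ℝ≥0∞) + 1) * ∫⁻ x, g x ^ (d + 1) ∂μ ≤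
      (∫⁻ x, g x ^ (d + 1) ∂μ + ENNReal.ofReal (C * θ ^ 2) * ∫⁻ x, g x ^ (d + 1) ∂μ) +
        ((d : ℝ≥0∞) + 1) * ∫⁻ x, g x ^ (d + 1) ∂μ := by
    refine hI.trans ?_
    have h5 : ((d : ℝ≥0∞) + 1) * ∫⁻ x, f x * g x ^ d ∂μ ≤
        ((d : ℝ≥0∞) + 1) * ∫⁻ x, g x ^ (d + 1) ∂μ := by gcongr
    calc ∫⁻ x, g x ^ (d + 1) ∂μ + ((d : ℝ≥0∞) + 1) * ∫⁻ x, f x * g x ^ d ∂μ +
          ENNReal.ofReal (C * θ ^ 2) * ∫⁻ x, g x ^ (d + 1) ∂μ
        ≤ ∫⁻ x, g x ^ (d + 1) ∂μ + ((d : ℝ≥0∞) + 1) * ∫⁻ x, g x ^ (d + 1) ∂μ +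
          ENNReal.ofReal (C * θ ^ 2) * ∫⁻ x, g x ^ (d + 1) ∂μ := by gcongr
      _ = _ := by ring
  exact (ENNReal.add_le_add_iff_right hfin2).1 hI2

end S10

section S12
theorem S12_lin {d : ℕ} (a b : ℝ) (y y' : Fin d → ℝ) (t t' : ℝ) :
    emb (a • y + b • y') (a * t + b * t') = a • emb y t + b • emb y' t' := by
  unfold emb
  ext i
  refine Fin.cases ?_ (fun i => ?_) i
  · simp
  · simp

theorem S12_neg {d : ℕ} (y : Fin d → ℝ) (t : ℝ) : emb (-y) (-t) = -emb y t := by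
  have := S12_lin (-1) 0 y y t t
  simpa using this

theorem S12_cont {d : ℕ} : Continuous (fun p : (Fin d → ℝ) × ℝ => emb p.1 p.2) := by
  unfold emb
  refine (PiLp.continuous_toLp 2 _).comp (continuous_pi fun i => ?_)
  refine Fin.cases ?_ (fun i => ?_) i
  · simp only [Fin.cons_zero]
    exact continuous_snd
  · simp only [Fin.cons_succ]
    exact (continuous_apply i).comp continuous_fst

theorem S12_zero {d : ℕ} : emb (0 : Fin d → ℝ) 0 = 0 := by
  have := S12_lin 0 0 (0 : Fin d → ℝ) 0 0 0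
  simpa using this

theorem S12_abs {d : ℕ} (y : Fin d → ℝ) (t : ℝ) : |t| ≤ ‖emb y t‖ := by
  have h := PiLp.norm_apply_le (emb y t) 0
  have h2 : (emb y t) 0 = t := rfl
  rw [h2, Real.norm_eq_abs] at h
  exact h

section S12_sec

variable {d : ℕ} {L : Set (E (d + 1))} (hL : Body L)
include hL

theorem S12_zero_int : (0 : E (d + 1)) ∈ interior L := by
  obtain ⟨x, hx⟩ := hL.int_nonempty
  have h1 : -x ∈ interior L := by
    have hopen : IsOpen ((fun z : E (d + 1) => -z) ⁻¹' interior L) :=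
      isOpen_interior.preimage continuous_neg
    have hsub : (fun z : E (d + 1) => -z) ⁻¹' interior L ⊆ L := by
      intro z hz
      have := hL.symm _ (interior_subset hz)
      simpa using this
    refine interior_maximal hsub hopen ?_
    simpa using hx
  have h2 := hL.convex.interior hx h1 (show (0 : ℝ) ≤ 1 / 2 by norm_num)
    (show (0 : ℝ) ≤ 1 / 2 by norm_num) (by norm_num)
  simpa using h2

theorem S12_bdd (y : Fin d → ℝ) : BddAbove {t | emb y t ∈ L} := by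
  obtain ⟨R, hR⟩ := hL.compact.isBounded.exists_norm_le
  exact ⟨R, fun t ht => (le_abs_self t).trans ((S12_abs y t).trans (hR _ ht))⟩

theorem S12_up_mem {y : Fin d → ℝ} (hy : y ∈ PP L) : emb y (up L y) ∈ L := by
  have hcl : IsClosed {t | emb y t ∈ L} := by
    have : Continuous (fun t : ℝ => emb y t) := S12_cont.comp (Continuous.prodMk_right y)
    exact hL.compact.isClosed.preimage this
  exact hcl.csSup_mem hy (S12_bdd hL y)

theorem S12_le_up {y : Fin d → ℝ} {t : ℝ} (ht : emb y t ∈ L) : t ≤ up L y :=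
  le_csSup (S12_bdd hL y) ht

theorem S12_PP_convex : Convex ℝ (PP L) := by
  rintro y ⟨t, ht⟩ y' ⟨t', ht'⟩ a b ha hb hab
  refine ⟨a * t + b * t', ?_⟩
  rw [S12_lin]
  exact hL.convex ht ht' ha hb hab

theorem S12_PP_neg {y : Fin d → ℝ} (hy : y ∈ PP L) : -y ∈ PP L := by
  obtain ⟨t, ht⟩ := hy
  refine ⟨-t, ?_⟩
  rw [S12_neg]
  exact hL.symm _ ht

theorem S12_int_neg {y : Fin d → ℝ} (hy : y ∈ interior (PP L)) : -y ∈ interior (PP L) := by
  have hopen : IsOpen ((fun z : Fin d → ℝ => -z) ⁻¹' interior (PP L)) :=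
    isOpen_interior.preimage continuous_neg
  have hsub : (fun z : Fin d → ℝ => -z) ⁻¹' interior (PP L) ⊆ PP L := by
    intro z hz
    have := S12_PP_neg hL (interior_subset hz)
    simpa using this
  refine interior_maximal hsub hopen ?_
  simpa using hy

theorem S12_zero_PP : (0 : Fin d → ℝ) ∈ interior (PP L) := by
  have hc : Continuous (fun y : Fin d → ℝ => emb y 0) :=
    S12_cont.comp (Continuous.prodMk_left 0)
  have hopen : IsOpen ((fun y : Fin d → ℝ => emb y 0) ⁻¹' interior L) :=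
    isOpen_interior.preimage hc
  have hsub : (fun y : Fin d → ℝ => emb y 0) ⁻¹' interior L ⊆ PP L :=
    fun y hy => ⟨0, interior_subset hy⟩
  refine interior_maximal hsub hopen ?_
  show emb (0 : Fin d → ℝ) 0 ∈ interior L
  rw [S12_zero]
  exact S12_zero_int hL

theorem S12_concave : ConcaveOn ℝ (PP L) (up L) := by
  refine ⟨S12_PP_convex hL, fun y hy y' hy' a b ha hb hab => ?_⟩
  refine S12_le_up hL ?_
  rw [smul_eq_mul, smul_eq_mul, S12_lin]
  exact hL.convex (S12_up_mem hL hy) (S12_up_mem hL hy') ha hb hab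

theorem S12_ll_concave : ConcaveOn ℝ (PP L) (ll L) := by
  refine ⟨S12_PP_convex hL, fun y hy y' hy' a b ha hb hab => ?_⟩
  have h1 := (S12_concave hL).2 hy hy' ha hb hab
  have h2 := (S12_concave hL).2 (S12_PP_neg hL hy) (S12_PP_neg hL hy') ha hb hab
  have h3 : a • -y + b • -y' = -(a • y + b • y') := by
    rw [smul_neg, smul_neg, neg_add]
  rw [h3] at h2
  simp only [smul_eq_mul, ll] at h1 h2 ⊢
  linarith

theorem S12_ll_nonneg {y : Fin d → ℝ} (hy : y ∈ PP L) : 0 ≤ ll L y := by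
  have h1 := S12_up_mem hL (S12_PP_neg hL hy)
  have h2 := hL.symm _ h1
  rw [← S12_neg, neg_neg] at h2
  have h3 := S12_le_up hL h2
  unfold ll
  linarith

theorem S12_ll_zero : 0 < ll L 0 := by
  have hc : Continuous (fun t : ℝ => emb (0 : Fin d → ℝ) t) :=
    S12_cont.comp (Continuous.prodMk_right 0)
  have hopen : IsOpen ((fun t : ℝ => emb (0 : Fin d → ℝ) t) ⁻¹' interior L) :=
    isOpen_interior.preimage hc
  have h0 : (0 : ℝ) ∈ (fun t : ℝ => emb (0 : Fin d → ℝ) t) ⁻¹' interior L := by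
    show emb (0 : Fin d → ℝ) 0 ∈ interior L
    rw [S12_zero]
    exact S12_zero_int hL
  obtain ⟨ε, hε, hb⟩ := Metric.isOpen_iff.1 hopen 0 h0
  have h1 : ε / 2 ∈ Metric.ball (0 : ℝ) ε := by
    rw [Metric.mem_ball, Real.dist_eq, sub_zero, abs_of_pos (by linarith)]
    linarith
  have h2 := S12_le_up hL (interior_subset (hb h1))
  unfold ll
  rw [neg_zero]
  linarith

end S12_sec

theorem S12 {d : ℕ} (L : Set (E (d + 1))) (hL : Body L) :
    Convex ℝ (interior (PP L)) ∧ ((0 : Fin d → ℝ) ∈ interior (PP L)) ∧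
    (∀ y ∈ interior (PP L), -y ∈ interior (PP L)) ∧
    ContinuousOn (cc L) (interior (PP L)) ∧ ContinuousOn (ll L) (interior (PP L)) ∧
    (∀ y ∈ interior (PP L), 0 < ll L y) ∧ (∀ y, cc L (-y) = - cc L y) ∧
    (∀ y ∈ interior (PP L), ∀ t ∈ Icc (0 : ℝ) 1, ll L y ≤ ll L (t • y)) := by
  have hll_even : ∀ y, ll L (-y) = ll L y := by
    intro y
    unfold ll
    rw [neg_neg]
    ring
  have hupc : ContinuousOn (up L) (interior (PP L)) := (S12_concave hL).continuousOn_interior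
  have hupc' : ContinuousOn (fun y => up L (-y)) (interior (PP L)) :=
    hupc.comp continuous_neg.continuousOn fun y hy => S12_int_neg hL hy
  refine ⟨(S12_PP_convex hL).interior, S12_zero_PP hL, fun y hy => S12_int_neg hL hy,
    (hupc.sub hupc').div_const 2, (hupc.add hupc').div_const 2, ?_, ?_, ?_⟩
  · intro y hy
    have hc : ContinuousAt (fun s : ℝ => s • y) 1 := by fun_prop
    have h1 : ∀ᶠ s : ℝ in 𝓝 1, s • y ∈ interior (PP L) := by
      refine hc.eventually_mem ?_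
      rw [one_smul]
      exact isOpen_interior.mem_nhds hy
    obtain ⟨ε, hε, hb⟩ := Metric.eventually_nhds_iff.1 h1
    have h2 : (1 + ε / 2) • y ∈ interior (PP L) := by
      refine hb ?_
      rw [Real.dist_eq]
      have : 1 + ε / 2 - 1 = ε / 2 := by ring
      rw [this, abs_of_pos (by linarith)]
      linarith
    have hpos : 0 < 1 + ε / 2 := by linarith
    have h3 := (S12_ll_concave hL).2 (interior_subset h2)
      (interior_subset (S12_zero_PP hL)) (show 0 ≤ 1 / (1 + ε / 2) by positivity)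
      (show 0 ≤ (ε / 2) / (1 + ε / 2) by positivity)
      (by rw [← add_div]; exact div_self hpos.ne')
    rw [smul_zero, add_zero, smul_smul, one_div, inv_mul_cancel₀ hpos.ne', one_smul] at h3
    have h4 := S12_ll_nonneg hL (interior_subset h2)
    have h5 := S12_ll_zero hL
    simp only [smul_eq_mul] at h3
    have h6 : 0 < ε / 2 / (1 + ε / 2) * ll L 0 := by positivity
    have h7 : 0 ≤ (1 + ε / 2)⁻¹ * ll L ((1 + ε / 2) • y) := by positivity
    linarith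
  · intro y
    unfold cc
    rw [neg_neg]
    ring
  · intro y hy t ht
    have h1 := (S12_ll_concave hL).2 (interior_subset hy) (interior_subset (S12_int_neg hL hy))
      (show 0 ≤ (1 + t) / 2 by linarith [ht.1]) (show 0 ≤ (1 - t) / 2 by linarith [ht.2])
      (by ring)
    have h2 : ((1 + t) / 2) • y + ((1 - t) / 2) • -y = t • y := by
      rw [smul_neg, ← sub_eq_add_neg, ← sub_smul]
      congr 1
      ring
    rw [h2, hll_even] at h1
    simp only [smul_eq_mul] at h1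
    linarith

end S12

end Pool.Agent.H14IIB
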