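import Mathlib
import Pool.Agent.H14IIB.Defs
import Pool.Agent.H14IIB.S

set_option autoImplicit false

open MeasureTheory Set Module Filter Topology
open scoped ENNReal Pointwise

namespace Pool.Agent.H14IIB

section S13
theorem S13_null {d : ℕ} (v : Fin d → ℝ) (hv : v ≠ 0) (a : ℝ) :
    volume {w : Fin d → ℝ | w ⬝ᵥ v = a} = 0 := by
  let s : AffineSubspace ℝ (Fin d → ℝ) :=
    { carrier := {w | w ⬝ᵥ v = a}
      smul_vsub_vadd_mem' := by
        intro c p1 p2 p3 h1 h2 h3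
        have h1' : p1 ⬝ᵥ v = a := h1
        have h2' : p2 ⬝ᵥ v = a := h2
        have h3' : p3 ⬝ᵥ v = a := h3
        show (c • (p1 - p2) + p3) ⬝ᵥ v = a
        rw [add_dotProduct, smul_dotProduct, sub_dotProduct, h1', h2', h3']
        simp }
  have hs : s ≠ ⊤ := by
    intro h
    have h0 : (0 : Fin d → ℝ) ∈ s := by rw [h]; trivial
    have hv' : v ∈ s := by rw [h]; trivial
    have e0 : (0 : Fin d → ℝ) ⬝ᵥ v = a := h0
    have e1 : v ⬝ᵥ v = a := hv'
    rw [zero_dotProduct] at e0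
    rw [← e0] at e1
    exact hv (dotProduct_self_eq_zero.1 e1)
  exact Measure.addHaar_affineSubspace volume s hs

theorem S13_cd {d : ℕ} (v : Fin d → ℝ) : Continuous fun w : Fin d → ℝ => w ⬝ᵥ v := by
  unfold dotProduct
  exact continuous_finsetSum _ fun i _ => (continuous_apply i).mul continuous_const

theorem S13_cz {d m : ℕ} (w : Fin d → ℝ) (i : Fin m) :
    Continuous fun z : Fin m → (Fin d → ℝ) => w ⬝ᵥ z i := by
  unfold dotProduct
  exact continuous_finsetSum _ fun j _ => continuous_const.mul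
    ((continuous_apply j).comp (continuous_apply i))

theorem S13_meas {d m : ℕ} (z : Fin m → (Fin d → ℝ)) (c l : Fin m → ℝ) :
    MeasurableSet {w : Fin d → ℝ | ∀ i, |w ⬝ᵥ z i - c i| ≤ l i} := by
  have h : {w : Fin d → ℝ | ∀ i, |w ⬝ᵥ z i - c i| ≤ l i}
      = ⋂ i, {w : Fin d → ℝ | |w ⬝ᵥ z i - c i| ≤ l i} := by
    ext w
    simp only [mem_ofPred_eq, mem_iInter]
  rw [h]
  apply MeasurableSet.iInter
  intro i
  exact (isClosed_le (continuous_abs.comp ((S13_cd (z i)).sub continuous_const))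
    continuous_const).measurableSet

theorem S13_bdd {d : ℕ} (c l : (Fin d → ℝ) → ℝ) (U : Set (Fin d → ℝ)) (hU : IsOpen U)
    (hc : ContinuousOn c U) (hl : ContinuousOn l U)
    (y : Fin (d + 1) → (Fin d → ℝ)) (hy : ∀ i, y i ∈ U)
    (hli : LinearIndependent ℝ (fun i : Fin d => y i.succ)) :
    ∃ R : ℝ, ∀ᶠ z in 𝓝 y, {w : Fin d → ℝ | ∀ i, |w ⬝ᵥ z i - c (z i)| ≤ l (z i)}
      ⊆ Metric.closedBall 0 R := by
  let M : Matrix (Fin d) (Fin d) ℝ := Matrix.of fun i j => y i.succ j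
  have hM : IsUnit M := Matrix.linearIndependent_rows_iff_isUnit.1 hli
  have hinj : Function.Injective M.mulVec := Matrix.mulVec_injective_iff_isUnit.2 hM
  have hker : LinearMap.ker M.mulVecLin = ⊥ := LinearMap.ker_eq_bot.2 hinj
  obtain ⟨K, hK0, hK⟩ := M.mulVecLin.exists_antilipschitzWith hker
  have hK' : ∀ w : Fin d → ℝ, ‖w‖ ≤ K * ‖M.mulVec w‖ := by
    intro w
    have h1 := hK.le_mul_dist w 0
    rw [map_zero, dist_zero_right, dist_zero_right] at h1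
    exact h1
  have hKpos : (0 : ℝ) < K := by exact_mod_cast hK0
  -- bound of the data
  obtain ⟨C, hC⟩ : ∃ C : ℝ, ∀ i, |c (y i)| + l (y i) < C := by
    obtain ⟨C, hC⟩ := (Set.finite_range fun i => |c (y i)| + l (y i)).bddAbove
    exact ⟨C + 1, fun i => lt_of_le_of_lt (hC ⟨i, rfl⟩) (lt_add_one C)⟩
  have hev : ∀ᶠ z in 𝓝 y, ∀ i, |c (z i)| + l (z i) < C := by
    rw [eventually_all]
    intro i
    have t1 : Tendsto (fun z : Fin (d + 1) → (Fin d → ℝ) => c (z i)) (𝓝 y) (𝓝 (c (y i))) :=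
      ((hc.continuousAt (hU.mem_nhds (hy i))).tendsto).comp ((continuous_apply i).tendsto y)
    have t2 : Tendsto (fun z : Fin (d + 1) → (Fin d → ℝ) => l (z i)) (𝓝 y) (𝓝 (l (y i))) :=
      ((hl.continuousAt (hU.mem_nhds (hy i))).tendsto).comp ((continuous_apply i).tendsto y)
    exact (t1.abs.add t2).eventually (gt_mem_nhds (hC i))
  have hδ : (0 : ℝ) < 1 / (2 * K * (d + 1)) := by positivity
  refine ⟨2 * K * max C 0, ?_⟩
  filter_upwards [hev, Metric.ball_mem_nhds y hδ] with z hz1 hz2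
  intro w hw
  rw [mem_closedBall_zero_iff]
  have hw' : ∀ i, |w ⬝ᵥ z i - c (z i)| ≤ l (z i) := hw
  have hzy : ∀ (i : Fin (d + 1)) (j : Fin d), |y i j - z i j| ≤ 1 / (2 * K * (d + 1)) := by
    intro i j
    have h1 : dist z y < 1 / (2 * K * (d + 1)) := hz2
    have h2 := (dist_le_pi_dist (z i) (y i) j).trans (dist_le_pi_dist z y i)
    rw [Real.dist_eq, abs_sub_comm] at h2
    exact h2.trans h1.le
  have hcomp : ∀ i : Fin d, |(M.mulVec w) i| ≤ max C 0 + ‖w‖ / (2 * K) := by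
    intro i
    have h1 : (M.mulVec w) i = (w ⬝ᵥ z i.succ - c (z i.succ)) + c (z i.succ)
        + (y i.succ - z i.succ) ⬝ᵥ w := by
      show (fun j => M i j) ⬝ᵥ w = _
      rw [sub_dotProduct, dotProduct_comm w (z i.succ)]
      show y i.succ ⬝ᵥ w = _
      ring
    have h2 : |(y i.succ - z i.succ) ⬝ᵥ w| ≤ ‖w‖ / (2 * K) := by
      calc |(y i.succ - z i.succ) ⬝ᵥ w| = |∑ j, (y i.succ - z i.succ) j * w j| := rfl
        _ ≤ ∑ j, |(y i.succ - z i.succ) j * w j| := Finset.abs_sum_le_sum_abs _ _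
        _ ≤ ∑ j : Fin d, 1 / (2 * K * (d + 1)) * ‖w‖ := by
            apply Finset.sum_le_sum
            intro j _
            rw [abs_mul]
            exact mul_le_mul (hzy i.succ j) (norm_le_pi_norm w j) (abs_nonneg _) hδ.le
        _ = d * (1 / (2 * K * (d + 1)) * ‖w‖) := by
            rw [Finset.sum_const, Finset.card_univ, Fintype.card_fin, nsmul_eq_mul]
        _ ≤ (d + 1) * (1 / (2 * K * (d + 1)) * ‖w‖) := by
            apply mul_le_mul_of_nonneg_right _ (by positivity)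
            linarith
        _ = ‖w‖ / (2 * K) := by
            field_simp
    have h3 := hz1 i.succ
    have h4 := hw' i.succ
    have h5 := le_max_left C 0
    rw [h1]
    calc |(w ⬝ᵥ z i.succ - c (z i.succ)) + c (z i.succ) + (y i.succ - z i.succ) ⬝ᵥ w|
        ≤ |w ⬝ᵥ z i.succ - c (z i.succ)| + |c (z i.succ)| + |(y i.succ - z i.succ) ⬝ᵥ w| :=
          abs_add_three _ _ _
      _ ≤ max C 0 + ‖w‖ / (2 * K) := by linarith
  have hnorm : ‖M.mulVec w‖ ≤ max C 0 + ‖w‖ / (2 * K) := by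
    rw [pi_norm_le_iff_of_nonneg (by positivity)]
    intro i
    exact hcomp i
  have h6 := (hK' w).trans (mul_le_mul_of_nonneg_left hnorm hKpos.le)
  have h7 : (K : ℝ) * (max C 0 + ‖w‖ / (2 * K)) = K * max C 0 + ‖w‖ / 2 := by
    field_simp
  rw [h7] at h6
  linarith

theorem S13_cont {d : ℕ} (c l : (Fin d → ℝ) → ℝ) (U : Set (Fin d → ℝ)) (hU : IsOpen U)
    (hc : ContinuousOn c U) (hl : ContinuousOn l U)
    (y : Fin (d + 1) → (Fin d → ℝ)) (hy : ∀ i, y i ∈ U)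
    (hli : LinearIndependent ℝ (fun i : Fin d => y i.succ)) (hy0 : y 0 ≠ 0) :
    Tendsto (fun z : Fin (d + 1) → (Fin d → ℝ) =>
      volume {w : Fin d → ℝ | ∀ i, |w ⬝ᵥ z i - c (z i)| ≤ l (z i)}) (𝓝 y)
      (𝓝 (volume {w : Fin d → ℝ | ∀ i, |w ⬝ᵥ y i - c (y i)| ≤ l (y i)})) := by
  obtain ⟨R, hR⟩ := S13_bdd c l U hU hc hl y hy hli
  apply tendsto_measure_of_ae_tendsto_indicator (𝓝 y) (S13_meas y _ _)
    (fun z => S13_meas z _ _) (B := Metric.closedBall 0 R) measurableSet_closedBall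
    measure_closedBall_lt_top.ne hR
  have hne : ∀ i, y i ≠ 0 := by
    intro i
    refine Fin.cases hy0 (fun j => ?_) i
    exact hli.ne_zero j
  have hnull : ∀ᵐ w : Fin d → ℝ, ∀ i, |w ⬝ᵥ y i - c (y i)| ≠ l (y i) := by
    rw [ae_all_iff]
    intro i
    rw [ae_iff]
    apply measure_mono_null (t := {w : Fin d → ℝ | w ⬝ᵥ y i = c (y i) + l (y i)}
      ∪ {w | w ⬝ᵥ y i = c (y i) - l (y i)})
    · intro w hw
      have hw' : |w ⬝ᵥ y i - c (y i)| = l (y i) := not_not.1 hw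
      rcases abs_choice (w ⬝ᵥ y i - c (y i)) with h | h
      · left
        show w ⬝ᵥ y i = c (y i) + l (y i)
        linarith
      · right
        show w ⬝ᵥ y i = c (y i) - l (y i)
        linarith
    · exact measure_union_null (S13_null _ (hne i) _) (S13_null _ (hne i) _)
  filter_upwards [hnull] with w hw
  have hone : ∀ i, ∀ᶠ z in 𝓝 y, (|w ⬝ᵥ z i - c (z i)| ≤ l (z i) ↔
      |w ⬝ᵥ y i - c (y i)| ≤ l (y i)) := by
    intro i
    have t1 : Tendsto (fun z : Fin (d + 1) → (Fin d → ℝ) => c (z i)) (𝓝 y) (𝓝 (c (y i))) :=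
      ((hc.continuousAt (hU.mem_nhds (hy i))).tendsto).comp ((continuous_apply i).tendsto y)
    have t2 : Tendsto (fun z : Fin (d + 1) → (Fin d → ℝ) => l (z i)) (𝓝 y) (𝓝 (l (y i))) :=
      ((hl.continuousAt (hU.mem_nhds (hy i))).tendsto).comp ((continuous_apply i).tendsto y)
    have t3 : Tendsto (fun z : Fin (d + 1) → (Fin d → ℝ) => |w ⬝ᵥ z i - c (z i)|) (𝓝 y)
        (𝓝 |w ⬝ᵥ y i - c (y i)|) := (((S13_cz w i).tendsto y).sub t1).abs
    rcases lt_or_gt_of_ne (hw i) with h | h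
    · filter_upwards [t3.eventually_lt t2 h] with z hz
      exact iff_of_true hz.le h.le
    · filter_upwards [t2.eventually_lt t3 h] with z hz
      exact iff_of_false (not_le.2 hz) (not_le.2 h)
  have hall := eventually_all.2 hone
  filter_upwards [hall] with z hz
  exact forall_congr' hz

theorem S13 {d : ℕ} (c l : (Fin d → ℝ) → ℝ) (U : Set (Fin d → ℝ)) (hU : IsOpen U)
    (hc : ContinuousOn c U) (hl : ContinuousOn l U) (hl0 : ∀ y ∈ U, 0 < l y)
    (hae : ∀ᵐ y : Fin (d + 1) → (Fin d → ℝ), (∀ i, y i ∈ U) →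
      (volume {w : Fin d → ℝ | ∀ i, |w ⬝ᵥ y i - c (y i)| ≤ l (y i)} = 0 ∨
        volume {w : Fin d → ℝ | ∀ i, |w ⬝ᵥ y i| ≤ l (y i)} =
          volume {w : Fin d → ℝ | ∀ i, |w ⬝ᵥ y i - c (y i)| ≤ l (y i)}))
    (y : Fin (d + 1) → (Fin d → ℝ)) (hy : ∀ i, y i ∈ U)
    (hli : LinearIndependent ℝ (fun i : Fin d => y i.succ)) (hy0 : y 0 ≠ 0) :
    volume {w : Fin d → ℝ | ∀ i, |w ⬝ᵥ y i - c (y i)| ≤ l (y i)} = 0 ∨
      volume {w : Fin d → ℝ | ∀ i, |w ⬝ᵥ y i| ≤ l (y i)} =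
        volume {w : Fin d → ℝ | ∀ i, |w ⬝ᵥ y i - c (y i)| ≤ l (y i)} := by
  by_contra hcon
  push Not at hcon
  obtain ⟨h1, h2⟩ := hcon
  have hF1 := S13_cont c l U hU hc hl y hy hli hy0
  have hF0 := S13_cont (fun _ => 0) l U hU continuousOn_const hl y hy hli hy0
  simp only [sub_zero] at hF0
  have e1 := hF1.eventually_ne h1
  have e2 : ∀ᶠ z in 𝓝 y, volume {w : Fin d → ℝ | ∀ i, |w ⬝ᵥ z i| ≤ l (z i)} ≠
      volume {w : Fin d → ℝ | ∀ i, |w ⬝ᵥ z i - c (z i)| ≤ l (z i)} := by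
    have h3 := (hF0.prodMk_nhds hF1).eventually
      ((isOpen_ne_fun continuous_fst continuous_snd).mem_nhds h2)
    exact h3
  have e3 : ∀ᶠ z in 𝓝 y, ∀ i, z i ∈ U := by
    rw [eventually_all]
    intro i
    exact ((continuous_apply i).tendsto y).eventually (hU.mem_nhds (hy i))
  have hnhds : {z : Fin (d + 1) → (Fin d → ℝ) | ¬ ((∀ i, z i ∈ U) →
      (volume {w : Fin d → ℝ | ∀ i, |w ⬝ᵥ z i - c (z i)| ≤ l (z i)} = 0 ∨
        volume {w : Fin d → ℝ | ∀ i, |w ⬝ᵥ z i| ≤ l (z i)} =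
          volume {w : Fin d → ℝ | ∀ i, |w ⬝ᵥ z i - c (z i)| ≤ l (z i)}))} ∈ 𝓝 y := by
    filter_upwards [e1, e2, e3] with z hz1 hz2 hz3
    intro h
    rcases h hz3 with h | h
    · exact hz1 h
    · exact hz2 h
  have hpos := MeasureTheory.Measure.measure_pos_of_mem_nhds volume hnhds
  rw [ae_iff] at hae
  exact hpos.ne' hae

end S13

section S14a
private def S14a_W (b₁ b₂ l e : ℝ) : Set (ℝ × ℝ) :=
  {s : ℝ × ℝ | |s.1| ≤ b₁ ∧ |s.2| ≤ b₂ ∧ |s.1 + s.2 - e| ≤ l}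

private lemma S14a_meas (b₁ b₂ l e : ℝ) : MeasurableSet (S14a_W b₁ b₂ l e) := by
  apply IsClosed.measurableSet
  have e1 : Continuous (fun s : ℝ × ℝ => |s.1|) := by fun_prop
  have e2 : Continuous (fun s : ℝ × ℝ => |s.2|) := by fun_prop
  have e3 : Continuous (fun s : ℝ × ℝ => |s.1 + s.2 - e|) := by fun_prop
  exact (isClosed_le e1 continuous_const).inter
    ((isClosed_le e2 continuous_const).inter (isClosed_le e3 continuous_const))

private lemma S14a_fin (b₁ b₂ l e : ℝ) : volume (S14a_W b₁ b₂ l e) < ∞ := by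
  have h : S14a_W b₁ b₂ l e ⊆ Icc (-b₁) b₁ ×ˢ Icc (-b₂) b₂ := by
    rintro ⟨x, y⟩ ⟨h1, h2, -⟩
    exact ⟨abs_le.1 h1, abs_le.1 h2⟩
  exact (measure_mono h).trans_lt (isCompact_Icc.prod isCompact_Icc).measure_lt_top

private lemma S14a_pos (b₁ b₂ l e : ℝ) (h1 : 0 < b₁) (h2 : 0 < b₂) (hl : 0 < l) (p1 : l < b₁ + b₂)
    (he : 0 < e) (he2 : e ≤ 2 * l) :
    0 < volume (S14a_W b₁ b₂ l e) := by
  have hO : IsOpen {s : ℝ × ℝ | |s.1| < b₁ ∧ |s.2| < b₂ ∧ |s.1 + s.2 - e| < l} := by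
    have e1 : Continuous (fun s : ℝ × ℝ => |s.1|) := by fun_prop
    have e2 : Continuous (fun s : ℝ × ℝ => |s.2|) := by fun_prop
    have e3 : Continuous (fun s : ℝ × ℝ => |s.1 + s.2 - e|) := by fun_prop
    exact (isOpen_lt e1 continuous_const).inter
      ((isOpen_lt e2 continuous_const).inter (isOpen_lt e3 continuous_const))
  have hne : {s : ℝ × ℝ | |s.1| < b₁ ∧ |s.2| < b₂ ∧ |s.1 + s.2 - e| < l}.Nonempty := by
    obtain ⟨σ, hσ1, hσ2⟩ := exists_between (show max 0 (e - l) < min (b₁ + b₂) (e + l) by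
      rw [max_lt_iff, lt_min_iff, lt_min_iff]
      constructor <;> constructor <;> linarith)
    rw [max_lt_iff] at hσ1
    rw [lt_min_iff] at hσ2
    have hB : 0 < b₁ + b₂ := by linarith
    have hq : σ / (b₁ + b₂) < 1 := by rw [div_lt_one hB]; exact hσ2.1
    have hq0 : 0 < σ / (b₁ + b₂) := div_pos hσ1.1 hB
    refine ⟨(σ / (b₁ + b₂) * b₁, σ / (b₁ + b₂) * b₂), ?_, ?_, ?_⟩
    · show |σ / (b₁ + b₂) * b₁| < b₁
      rw [abs_of_pos (by positivity)]
      nlinarith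
    · show |σ / (b₁ + b₂) * b₂| < b₂
      rw [abs_of_pos (by positivity)]
      nlinarith
    · show |σ / (b₁ + b₂) * b₁ + σ / (b₁ + b₂) * b₂ - e| < l
      have : σ / (b₁ + b₂) * b₁ + σ / (b₁ + b₂) * b₂ = σ := by
        field_simp
      rw [this, abs_lt]
      constructor <;> linarith [hσ1.2, hσ2.2]
  refine (hO.measure_pos volume hne).trans_le (measure_mono ?_)
  rintro s ⟨h3, h4, h5⟩
  exact ⟨h3.le, h4.le, h5.le⟩

private lemma S14a_lt (b₁ b₂ l e : ℝ) (h1 : 0 < b₁) (h2 : 0 < b₂) (hl : 0 < l) (p1 : l < b₁ + b₂)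
    (p2 : b₁ < l + b₂) (p3 : b₂ < l + b₁) (he : 0 < e) (he2 : e ≤ 2 * l) :
    volume (S14a_W b₁ b₂ l e) < volume (S14a_W b₁ b₂ l 0) := by
  set c₁ : ℝ := e * (l + b₁ - b₂) / (2 * l) with hc1
  set c₂ : ℝ := e * (l + b₂ - b₁) / (2 * l) with hc2
  have hsum : c₁ + c₂ = e := by
    rw [hc1, hc2]; field_simp; ring
  have c10 : 0 < c₁ := div_pos (mul_pos he (by linarith)) (by linarith)
  have c20 : 0 < c₂ := div_pos (mul_pos he (by linarith)) (by linarith)
  have c1l : c₁ ≤ l + b₁ - b₂ := by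
    rw [hc1, div_le_iff₀ (by linarith)]
    nlinarith
  have c2l : c₂ ≤ l + b₂ - b₁ := by
    rw [hc2, div_le_iff₀ (by linarith)]
    nlinarith
  -- the box
  obtain ⟨η, hη0, hη⟩ := exists_between (show 0 < min (min c₁ (b₂ + l - b₁)) (min (e / 2) b₁) by
    rw [lt_min_iff, lt_min_iff, lt_min_iff]
    refine ⟨⟨c10, by linarith⟩, by linarith, h1⟩)
  rw [lt_min_iff, lt_min_iff, lt_min_iff] at hη
  obtain ⟨⟨hη1, hη2⟩, hη3, hη4⟩ := hη
  let X : Set (ℝ × ℝ) := Ioo (-b₁) (-b₁ + η) ×ˢ Ioo (b₁ - l) (b₁ - l + η)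
  have hXm : MeasurableSet X := measurableSet_Ioo.prod measurableSet_Ioo
  have hXpos : 0 < volume X := by
    apply (isOpen_Ioo.prod isOpen_Ioo).measure_pos volume
    refine ⟨(-b₁ + η / 2, b₁ - l + η / 2), ⟨?_, ?_⟩, ?_, ?_⟩ <;> simp only <;> linarith
  have hXB : X ⊆ S14a_W b₁ b₂ l 0 \ S14a_W b₁ b₂ l e := by
    rintro ⟨x, y⟩ ⟨⟨hx1, hx2⟩, hy1, hy2⟩
    simp only at hx1 hx2 hy1 hy2
    refine ⟨⟨?_, ?_, ?_⟩, ?_⟩
    · simp only
      rw [abs_le]; constructor <;> linarith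
    · simp only
      rw [abs_le]; constructor <;> linarith
    · simp only
      rw [abs_le]; constructor <;> linarith
    · rintro ⟨-, -, h⟩
      simp only at h
      rw [abs_le] at h
      linarith [h.1]
  have hAB : S14a_W b₁ b₂ l e \ S14a_W b₁ b₂ l 0 ⊆
      (fun s : ℝ × ℝ => (c₁, c₂) - s) ⁻¹' ((S14a_W b₁ b₂ l 0 \ S14a_W b₁ b₂ l e) \ X) := by
    rintro ⟨x, y⟩ ⟨⟨hx, hy, hxy⟩, hn⟩
    simp only at hx hy hxy
    have hx' := abs_le.1 hx
    have hy' := abs_le.1 hy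
    have hxy' := abs_le.1 hxy
    have hl' : l < x + y := by
      by_contra hcon
      push Not at hcon
      apply hn
      refine ⟨hx, hy, ?_⟩
      simp only
      rw [abs_le]
      constructor <;> linarith
    refine ⟨⟨⟨?_, ?_, ?_⟩, ?_⟩, ?_⟩
    · simp only [Prod.mk_sub_mk]
      rw [abs_le]; constructor <;> linarith
    · simp only [Prod.mk_sub_mk]
      rw [abs_le]; constructor <;> linarith
    · simp only [Prod.mk_sub_mk]
      rw [abs_le]; constructor <;> linarith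
    · rintro ⟨-, -, h⟩
      simp only [Prod.mk_sub_mk] at h
      rw [abs_le] at h
      linarith [h.1]
    · rintro ⟨⟨h3, h4⟩, -⟩
      simp only [Prod.mk_sub_mk] at h3 h4
      linarith
  have hA : volume (S14a_W b₁ b₂ l e \ S14a_W b₁ b₂ l 0) ≤
      volume ((S14a_W b₁ b₂ l 0 \ S14a_W b₁ b₂ l e) \ X) := by
    have hmp : MeasurePreserving (fun s : ℝ × ℝ => (c₁, c₂) - s) volume volume :=
      Measure.measurePreserving_sub_left volume (c₁, c₂)
    refine (measure_mono hAB).trans (le_of_eq ?_)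
    exact hmp.measure_preimage
      ((((S14a_meas _ _ _ _).diff (S14a_meas _ _ _ _)).diff hXm).nullMeasurableSet)
  have hBfin : volume (S14a_W b₁ b₂ l 0 \ S14a_W b₁ b₂ l e) ≠ ∞ :=
    ((measure_mono sdiff_subset).trans_lt (S14a_fin _ _ _ _)).ne
  have hBX : volume ((S14a_W b₁ b₂ l 0 \ S14a_W b₁ b₂ l e) \ X) <
      volume (S14a_W b₁ b₂ l 0 \ S14a_W b₁ b₂ l e) := by
    have h3 := measure_inter_add_sdiff (μ := volume) (S14a_W b₁ b₂ l 0 \ S14a_W b₁ b₂ l e) hXm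
    rw [inter_eq_self_of_subset_right hXB] at h3
    have h4 : volume ((S14a_W b₁ b₂ l 0 \ S14a_W b₁ b₂ l e) \ X) ≠ ∞ :=
      ne_top_of_le_ne_top hBfin (measure_mono sdiff_subset)
    rw [← h3]
    calc volume ((S14a_W b₁ b₂ l 0 \ S14a_W b₁ b₂ l e) \ X)
        = 0 + volume ((S14a_W b₁ b₂ l 0 \ S14a_W b₁ b₂ l e) \ X) := (zero_add _).symm
      _ < _ := ENNReal.add_lt_add_right h4 hXpos
  have hlt := hA.trans_lt hBX
  have e1 := measure_inter_add_sdiff (μ := volume) (S14a_W b₁ b₂ l e) (S14a_meas b₁ b₂ l 0)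
  have e2 := measure_inter_add_sdiff (μ := volume) (S14a_W b₁ b₂ l 0) (S14a_meas b₁ b₂ l e)
  rw [← e1, ← e2, inter_comm (S14a_W b₁ b₂ l 0)]
  apply ENNReal.add_lt_add_left _ hlt
  exact ((measure_mono inter_subset_left).trans_lt (S14a_fin _ _ _ _)).ne

private lemma S14a_neg (b₁ b₂ l e : ℝ) :
    volume (S14a_W b₁ b₂ l (-e)) = volume (S14a_W b₁ b₂ l e) := by
  have hmp : MeasurePreserving (fun s : ℝ × ℝ => -s) volume volume :=
    Measure.measurePreserving_neg volume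
  rw [← hmp.measure_preimage (S14a_meas b₁ b₂ l e).nullMeasurableSet]
  congr 1
  ext ⟨x, y⟩
  show (|x| ≤ b₁ ∧ |y| ≤ b₂ ∧ |x + y - -e| ≤ l) ↔ (|-x| ≤ b₁ ∧ |-y| ≤ b₂ ∧ |-x + -y - e| ≤ l)
  rw [abs_neg, abs_neg, ← abs_neg (-x + -y - e)]
  have : -(-x + -y - e) = x + y - -e := by ring
  rw [this]

theorem S14a (b₁ b₂ l e : ℝ) (h1 : 0 < b₁) (h2 : 0 < b₂) (hl : 0 < l) (p1 : l < b₁ + b₂)
    (p2 : b₁ < l + b₂) (p3 : b₂ < l + b₁) (he : e ≠ 0) (he2 : |e| ≤ 2 * l) :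
    volume {s : ℝ × ℝ | |s.1| ≤ b₁ ∧ |s.2| ≤ b₂ ∧ |s.1 + s.2 - e| ≤ l} <
      volume {s : ℝ × ℝ | |s.1| ≤ b₁ ∧ |s.2| ≤ b₂ ∧ |s.1 + s.2| ≤ l} ∧
    0 < volume {s : ℝ × ℝ | |s.1| ≤ b₁ ∧ |s.2| ≤ b₂ ∧ |s.1 + s.2 - e| ≤ l} := by
  have h0 : {s : ℝ × ℝ | |s.1| ≤ b₁ ∧ |s.2| ≤ b₂ ∧ |s.1 + s.2| ≤ l} = S14a_W b₁ b₂ l 0 := by
    ext s
    show _ ↔ (|s.1| ≤ b₁ ∧ |s.2| ≤ b₂ ∧ |s.1 + s.2 - 0| ≤ l)
    rw [sub_zero]
    rfl
  rw [h0]
  change volume (S14a_W b₁ b₂ l e) < _ ∧ 0 < volume (S14a_W b₁ b₂ l e)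
  rcases lt_or_gt_of_ne he with h | h
  · rw [abs_of_neg h] at he2
    rw [← S14a_neg]
    exact ⟨S14a_lt b₁ b₂ l (-e) h1 h2 hl p1 p2 p3 (by linarith) he2,
      S14a_pos b₁ b₂ l (-e) h1 h2 hl p1 (by linarith) he2⟩
  · rw [abs_of_pos h] at he2
    exact ⟨S14a_lt b₁ b₂ l e h1 h2 hl p1 p2 p3 h he2, S14a_pos b₁ b₂ l e h1 h2 hl p1 h he2⟩

end S14a

section S14
theorem S14_scale {V : Type*} [NormedAddCommGroup V] [NormedSpace ℝ V] (U : Set V) (hU : IsOpen U)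
    (h0 : (0 : V) ∈ U) (x : V) : ∃ t : ℝ, t ≠ 0 ∧ t • x ∈ U := by
  have hc : Filter.Tendsto (fun t : ℝ => t • x) (𝓝[≠] 0) (𝓝 (0 : V)) := by
    have : Continuous (fun t : ℝ => t • x) := by fun_prop
    have h := this.tendsto 0
    rw [zero_smul] at h
    exact h.mono_left nhdsWithin_le_nhds
  have h1 := hc.eventually (hU.mem_nhds h0)
  have h2 : ∀ᶠ t : ℝ in 𝓝[≠] 0, t ≠ 0 := self_mem_nhdsWithin
  obtain ⟨t, ht⟩ := (h2.and h1).exists
  exact ⟨t, ht⟩

theorem S14_ext {k : ℕ} (U : Set (Fin (k + 2) → ℝ)) (hU : IsOpen U) (h0 : (0 : Fin (k + 2) → ℝ) ∈ U)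
    (y₁ y₂ : Fin (k + 2) → ℝ) (hy₁ : y₁ ∈ U) (hy₂ : y₂ ∈ U)
    (hli : LinearIndependent ℝ ![y₁, y₂]) (m : ℕ) (hm : m ≤ k) :
    ∃ v : Fin (m + 2) → (Fin (k + 2) → ℝ), v 0 = y₁ ∧ v 1 = y₂ ∧ (∀ j, v j ∈ U) ∧
      LinearIndependent ℝ v := by
  induction m with
  | zero =>
    refine ⟨![y₁, y₂], rfl, rfl, ?_, hli⟩
    intro j
    fin_cases j
    · exact hy₁
    · exact hy₂
  | succ m ih =>
    obtain ⟨v, h1, h2, h3, h4⟩ := ih (by omega)
    obtain ⟨x, hx⟩ := exists_linearIndependent_snoc_of_lt_finrank h4 (by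
      rw [Module.finrank_fin_fun]; omega)
    obtain ⟨t, ht, htU⟩ := S14_scale U hU h0 x
    refine ⟨Fin.snoc v (t • x), ?_, ?_, ?_, ?_⟩
    · rw [← h1]
      exact Fin.snoc_castSucc (α := fun _ => Fin (k + 2) → ℝ) (t • x) v 0
    · rw [← h2]
      exact Fin.snoc_castSucc (α := fun _ => Fin (k + 2) → ℝ) (t • x) v 1
    · intro j
      refine Fin.lastCases ?_ (fun i => ?_) j
      · rw [Fin.snoc_last]; exact htU
      · rw [Fin.snoc_castSucc]; exact h3 i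
    · rw [linearIndependent_finSnoc] at hx ⊢
      refine ⟨hx.1, fun h => hx.2 ?_⟩
      exact (Submodule.smul_mem_iff _ ht).1 h

theorem S14_haar {V W : Type*} [NormedAddCommGroup V] [NormedSpace ℝ V] [FiniteDimensional ℝ V]
    [MeasurableSpace V] [BorelSpace V] (μ : Measure V) [μ.IsAddHaarMeasure]
    [NormedAddCommGroup W] [NormedSpace ℝ W] [FiniteDimensional ℝ W]
    [MeasurableSpace W] [BorelSpace W] (ν : Measure W) [ν.IsAddHaarMeasure]
    (ψ : V ≃ₗ[ℝ] W) : ∃ κ : ℝ≥0∞, κ ≠ 0 ∧ κ ≠ ∞ ∧ ∀ s : Set W, μ (ψ ⁻¹' s) = κ * ν s := by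
  let e : V ≃L[ℝ] W := ψ.toContinuousLinearEquiv
  have h1 : (Measure.map e μ).IsAddHaarMeasure := e.isAddHaarMeasure_map μ
  have h2 := Measure.isAddLeftInvariant_eq_smul (Measure.map e μ) ν
  refine ⟨(Measure.addHaarScalarFactor (Measure.map e μ) ν : ℝ≥0∞), ?_, ENNReal.coe_ne_top, ?_⟩
  · have := Measure.addHaarScalarFactor_pos_of_isAddHaarMeasure (Measure.map e μ) ν
    exact_mod_cast this.ne'
  · intro s
    have h3 : μ (ψ ⁻¹' s) = Measure.map e μ s :=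
      (e.toHomeomorph.toMeasurableEquiv.map_apply s).symm
    have h4 := congrArg (fun m : Measure W => m s) h2
    rw [h3]
    refine h4.trans ?_
    simp

theorem S14 {d : ℕ} (c l : (Fin d → ℝ) → ℝ) (U : Set (Fin d → ℝ)) (hU : IsOpen U)
    (h0 : (0 : Fin d → ℝ) ∈ U) (hUc : Convex ℝ U) (hl0 : ∀ y ∈ U, 0 < l y)
    (hall : ∀ y : Fin (d + 1) → (Fin d → ℝ), (∀ i, y i ∈ U) →
      LinearIndependent ℝ (fun i : Fin d => y i.succ) → y 0 ≠ 0 →
      volume {w : Fin d → ℝ | ∀ i, |w ⬝ᵥ y i - c (y i)| ≤ l (y i)} = 0 ∨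
        volume {w : Fin d → ℝ | ∀ i, |w ⬝ᵥ y i| ≤ l (y i)} =
          volume {w : Fin d → ℝ | ∀ i, |w ⬝ᵥ y i - c (y i)| ≤ l (y i)})
    (y₁ y₂ : Fin d → ℝ) (hy₁ : y₁ ∈ U) (hy₂ : y₂ ∈ U) (a₁ a₂ : ℝ)
    (hli : LinearIndependent ℝ ![y₁, y₂]) (hz : a₁ • y₁ + a₂ • y₂ ∈ U)
    (p1 : l (a₁ • y₁ + a₂ • y₂) < |a₁| * l y₁ + |a₂| * l y₂)
    (p2 : |a₁| * l y₁ < l (a₁ • y₁ + a₂ • y₂) + |a₂| * l y₂)
    (p3 : |a₂| * l y₂ < l (a₁ • y₁ + a₂ • y₂) + |a₁| * l y₁)
    (he : |c (a₁ • y₁ + a₂ • y₂) - (a₁ * c y₁ + a₂ * c y₂)| ≤ 2 * l (a₁ • y₁ + a₂ • y₂))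
    (ha₁ : a₁ ≠ 0) (ha₂ : a₂ ≠ 0) :
    c (a₁ • y₁ + a₂ • y₂) = a₁ * c y₁ + a₂ * c y₂ := by
  by_contra hne
  have hd : 2 ≤ d := by
    have := hli.fintype_card_le_finrank
    rw [Module.finrank_fin_fun] at this
    simpa using this
  obtain ⟨k, rfl⟩ : ∃ k, d = k + 2 := ⟨d - 2, by omega⟩
  obtain ⟨v, hv0, hv1, hvU, hvli⟩ := S14_ext U hU h0 y₁ y₂ hy₁ hy₂ hli k le_rfl
  set z := a₁ • y₁ + a₂ • y₂ with hzdef
  set e := c z - (a₁ * c y₁ + a₂ * c y₂) with hedef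
  have hene : e ≠ 0 := fun h => hne (by linarith)
  have hzne : z ≠ 0 := by
    intro h
    have := LinearIndependent.pair_iff.1 hli a₁ a₂ h
    exact ha₁ this.1
  -- the linear map
  let φ : (Fin (k + 2) → ℝ) →ₗ[ℝ] (ℝ × ℝ) × (Fin k → ℝ) :=
    { toFun := fun w => ((a₁ * (w ⬝ᵥ y₁), a₂ * (w ⬝ᵥ y₂)), fun j => w ⬝ᵥ v j.succ.succ)
      map_add' := by
        intro w w'
        ext <;> simp [add_dotProduct, mul_add]
      map_smul' := by
        intro r w
        ext <;> simp [smul_dotProduct] <;> ring }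
  have hφinj : Function.Injective φ := by
    rw [← LinearMap.ker_eq_bot, LinearMap.ker_eq_bot']
    intro w hw
    have hw1 : a₁ * (w ⬝ᵥ y₁) = 0 := congrArg (fun p => p.1.1) hw
    have hw2 : a₂ * (w ⬝ᵥ y₂) = 0 := congrArg (fun p => p.1.2) hw
    have hw3 : ∀ j : Fin k, w ⬝ᵥ v j.succ.succ = 0 := fun j =>
      congrFun (congrArg (fun p => p.2) hw) j
    have hall0 : ∀ i, w ⬝ᵥ v i = 0 := by
      intro i
      refine Fin.cases ?_ (fun i => ?_) i
      · rw [hv0]; exact (mul_eq_zero.1 hw1).resolve_left ha₁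
      · refine Fin.cases ?_ (fun i => ?_) i
        · have : (Fin.succ 0 : Fin (k + 2)) = 1 := rfl
          rw [this, hv1]; exact (mul_eq_zero.1 hw2).resolve_left ha₂
        · exact hw3 i
    have hspan : ⊤ ≤ Submodule.span ℝ (Set.range v) := by
      rw [hvli.span_eq_top_of_card_eq_finrank' (by simp)]
    have hmem : ∀ x : Fin (k + 2) → ℝ, w ⬝ᵥ x = 0 := by
      intro x
      have hx : x ∈ Submodule.span ℝ (Set.range v) := hspan trivial
      induction hx using Submodule.span_induction with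
      | mem x h =>
        obtain ⟨i, rfl⟩ := h
        exact hall0 i
      | zero => simp
      | add x y _ _ hx hy => rw [dotProduct_add, hx, hy, add_zero]
      | smul a x _ hx => rw [dotProduct_smul, hx, smul_zero]
    exact dotProduct_self_eq_zero.1 (hmem w)
  let ψ : (Fin (k + 2) → ℝ) ≃ₗ[ℝ] (ℝ × ℝ) × (Fin k → ℝ) :=
    LinearMap.linearEquivOfInjective φ hφinj (by simp; ring)
  have hψ : ∀ w, ψ w = ((a₁ * (w ⬝ᵥ y₁), a₂ * (w ⬝ᵥ y₂)), fun j => w ⬝ᵥ v j.succ.succ) := fun w => rfl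
  haveI : (((volume : Measure ℝ).prod (volume : Measure ℝ)).prod
      (volume : Measure (Fin k → ℝ))).IsAddHaarMeasure := Measure.prod.instIsAddHaarMeasure _ _
  obtain ⟨κ, hκ0, hκt, hκ⟩ := S14_haar (volume : Measure (Fin (k + 2) → ℝ))
    (((volume : Measure ℝ).prod (volume : Measure ℝ)).prod (volume : Measure (Fin k → ℝ))) ψ
  -- sets
  let A (f : ℝ) : Set (ℝ × ℝ) := {s : ℝ × ℝ | |s.1| ≤ |a₁| * l y₁ ∧ |s.2| ≤ |a₂| * l y₂ ∧ |s.1 + s.2 - f| ≤ l z}
  let B : Set (Fin k → ℝ) := {r | ∀ j, |r j| ≤ l (v j.succ.succ)}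
  have hBeq : B = Set.Icc (fun j => - l (v j.succ.succ)) (fun j => l (v j.succ.succ)) := by
    ext r
    simp only [B, Set.mem_setOf_eq, Set.mem_Icc, Pi.le_def, abs_le]
    exact forall_and
  have hBvol : volume B = ∏ j : Fin k, ENNReal.ofReal (l (v j.succ.succ) - -l (v j.succ.succ)) := by
    rw [hBeq, Real.volume_Icc_pi]
  have hBpos : 0 < volume B := by
    rw [hBvol]
    refine pos_iff_ne_zero.2 (Finset.prod_ne_zero_iff.2 fun j _ => ?_)
    have := hl0 _ (hvU j.succ.succ)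
    rw [Ne, ENNReal.ofReal_eq_zero, not_le]
    linarith
  have hBtop : volume B ≠ ∞ := by
    rw [hBvol]
    exact ENNReal.prod_ne_top fun j _ => ENNReal.ofReal_ne_top
  let y : Fin (k + 2 + 1) → (Fin (k + 2) → ℝ) := Fin.cons z v
  have key : ∀ τ : ℝ, volume {w : Fin (k + 2) → ℝ | ∀ i, |w ⬝ᵥ y i - τ * c (y i)| ≤ l (y i)} =
      κ * (volume (A (τ * e)) * volume B) := by
    intro τ
    let v₀ : (ℝ × ℝ) × (Fin k → ℝ) := ((a₁ * (τ * c y₁), a₂ * (τ * c y₂)), fun j => τ * c (v j.succ.succ))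
    have hset : {w : Fin (k + 2) → ℝ | ∀ i, |w ⬝ᵥ y i - τ * c (y i)| ≤ l (y i)} =
        ψ ⁻¹' ((fun p => p - v₀) ⁻¹' (A (τ * e) ×ˢ B)) := by
      ext w
      have hone : (Fin.succ 0 : Fin (k + 2)) = 1 := rfl
      simp only [Set.mem_setOf_eq, Set.mem_preimage, Set.mem_prod, hψ, v₀, A, B, Prod.fst_sub,
        Prod.snd_sub, Pi.sub_apply, Prod.mk_sub_mk]
      rw [Fin.forall_fin_succ, Fin.forall_fin_succ, Fin.forall_fin_succ]
      simp only [y, Fin.cons_zero, Fin.cons_succ, hv0, hone, hv1]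
      have e1 : |a₁ * (w ⬝ᵥ y₁) - a₁ * (τ * c y₁)| ≤ |a₁| * l y₁ ↔ |w ⬝ᵥ y₁ - τ * c y₁| ≤ l y₁ := by
        rw [← mul_sub, abs_mul]
        exact mul_le_mul_iff_right₀ (abs_pos.2 ha₁)
      have e2 : |a₂ * (w ⬝ᵥ y₂) - a₂ * (τ * c y₂)| ≤ |a₂| * l y₂ ↔ |w ⬝ᵥ y₂ - τ * c y₂| ≤ l y₂ := by
        rw [← mul_sub, abs_mul]
        exact mul_le_mul_iff_right₀ (abs_pos.2 ha₂)
      have e3 : a₁ * (w ⬝ᵥ y₁) - a₁ * (τ * c y₁) + (a₂ * (w ⬝ᵥ y₂) - a₂ * (τ * c y₂)) - τ * e =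
          w ⬝ᵥ z - τ * c z := by
        rw [hzdef, dotProduct_add, dotProduct_smul, dotProduct_smul, hedef]
        simp only [smul_eq_mul]
        ring
      rw [e1, e2, e3]
      tauto
    have hpre : ((fun p => p - v₀) ⁻¹' (A (τ * e) ×ˢ B) : Set ((ℝ × ℝ) × (Fin k → ℝ))) =
        (fun p => p + -v₀) ⁻¹' (A (τ * e) ×ˢ B) := by
      simp only [sub_eq_add_neg]
    rw [hset, hκ, hpre, measure_preimage_add_right, Measure.prod_prod]
    rfl
  have hk1 := key 1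
  have hk0 := key 0
  simp only [one_mul, zero_mul, sub_zero] at hk1 hk0
  have hS := S14a (|a₁| * l y₁) (|a₂| * l y₂) (l z) e (mul_pos (abs_pos.2 ha₁) (hl0 _ hy₁))
    (mul_pos (abs_pos.2 ha₂) (hl0 _ hy₂)) (hl0 _ hz) p1 p2 p3 hene he
  have hA0 : A 0 = {s : ℝ × ℝ | |s.1| ≤ |a₁| * l y₁ ∧ |s.2| ≤ |a₂| * l y₂ ∧ |s.1 + s.2| ≤ l z} := by
    simp only [A, sub_zero]
  have hcase := hall y (by
      intro i
      refine Fin.cases ?_ (fun i => ?_) i
      · exact hz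
      · exact hvU i) hvli hzne
  rw [hk1, hk0, hA0] at hcase
  rcases hcase with h | h
  · have h1 := hS.2
    have : κ * (volume (A e) * volume B) ≠ 0 := by
      refine mul_ne_zero hκ0 (mul_ne_zero h1.ne' hBpos.ne')
    exact this h
  · rw [ENNReal.mul_right_inj hκ0 hκt, ENNReal.mul_left_inj hBpos.ne' hBtop] at h
    exact hS.1.ne' h

end S14

section S15
theorem S15_indep {d : ℕ} {y v : Fin d → ℝ} (h : LinearIndependent ℝ ![y, v]) {η : ℝ}
    (hη : η ≠ 0) : LinearIndependent ℝ ![y + η • v, y - η • v] := by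
  rw [LinearIndependent.pair_iff] at h ⊢
  intro s t hst
  have e : (s + t) • y + ((s - t) * η) • v = 0 := by
    rw [← hst]
    module
  obtain ⟨h1, h2⟩ := h _ _ e
  have h3 : s - t = 0 := by
    rcases mul_eq_zero.1 h2 with h | h
    · exact h
    · exact absurd h hη
  constructor <;> linarith

theorem S15_exists {d : ℕ} (hd : 2 ≤ d) (y : Fin d → ℝ) (hy : y ≠ 0) :
    ∃ v : Fin d → ℝ, LinearIndependent ℝ ![y, v] := by
  have hne : Submodule.span ℝ {y} ≠ ⊤ := by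
    intro h
    have h1 : Module.finrank ℝ (Submodule.span ℝ {y}) = 1 := finrank_span_singleton hy
    rw [h, finrank_top, Module.finrank_fin_fun] at h1
    omega
  obtain ⟨v, hv⟩ := SetLike.exists_not_mem_of_ne_top _ hne rfl
  refine ⟨v, ?_⟩
  rw [LinearIndependent.pair_iff' hy]
  intro a ha
  apply hv
  rw [← ha]
  exact Submodule.smul_mem _ _ (Submodule.mem_span_singleton_self y)

theorem S15_A {d : ℕ} (c l : (Fin d → ℝ) → ℝ) (U : Set (Fin d → ℝ)) (hU : IsOpen U)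
    (hc : ContinuousOn c U) (hl : ContinuousOn l U) (hl0 : ∀ y ∈ U, 0 < l y)
    (hmono : ∀ y ∈ U, ∀ t ∈ Icc (0 : ℝ) 1, l y ≤ l (t • y))
    (H : ∀ y₁ ∈ U, ∀ y₂ ∈ U, ∀ a₁ a₂ : ℝ, LinearIndependent ℝ ![y₁, y₂] →
      a₁ • y₁ + a₂ • y₂ ∈ U → a₁ ≠ 0 → a₂ ≠ 0 →
      l (a₁ • y₁ + a₂ • y₂) < |a₁| * l y₁ + |a₂| * l y₂ →
      |a₁| * l y₁ < l (a₁ • y₁ + a₂ • y₂) + |a₂| * l y₂ →
      |a₂| * l y₂ < l (a₁ • y₁ + a₂ • y₂) + |a₁| * l y₁ →
      |c (a₁ • y₁ + a₂ • y₂) - (a₁ * c y₁ + a₂ * c y₂)| ≤ 2 * l (a₁ • y₁ + a₂ • y₂) →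
      c (a₁ • y₁ + a₂ • y₂) = a₁ * c y₁ + a₂ * c y₂)
    (y : Fin d → ℝ) (hy : y ∈ U) (v : Fin d → ℝ) (hv : LinearIndependent ℝ ![y, v]) :
    ∀ᶠ ε in 𝓝[>] (0 : ℝ), ∀ᶠ η in 𝓝[≠] (0 : ℝ),
      c ((1 + ε) • y) = (1 + ε) / 2 * c (y + η • v) + (1 + ε) / 2 * c (y - η • v) := by
  have hcy : ContinuousAt c y := hc.continuousAt (hU.mem_nhds hy)
  have hly : ContinuousAt l y := hl.continuousAt (hU.mem_nhds hy)
  have hz : Tendsto (fun ε : ℝ => (1 + ε) • y) (𝓝 0) (𝓝 y) := by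
    have h : Continuous fun ε : ℝ => (1 + ε) • y := by fun_prop
    have := h.tendsto 0
    simpa using this
  have e1 : ∀ᶠ ε in 𝓝 (0 : ℝ), (1 + ε) • y ∈ U := hz.eventually (hU.mem_nhds hy)
  have hlin : Tendsto (fun ε : ℝ => (1 + ε) * c y) (𝓝 0) (𝓝 (c y)) := by
    have h : Continuous fun ε : ℝ => (1 + ε) * c y := by fun_prop
    have := h.tendsto 0
    simpa using this
  have e2 : Tendsto (fun ε : ℝ => 2 * l ((1 + ε) • y) - |c ((1 + ε) • y) - (1 + ε) * c y|) (𝓝 0)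
      (𝓝 (2 * l y - |c y - c y|)) :=
    ((hly.tendsto.comp hz).const_mul 2).sub (((hcy.tendsto.comp hz).sub hlin).abs)
  have e3 : ∀ᶠ ε in 𝓝 (0 : ℝ), 0 < 2 * l ((1 + ε) • y) - |c ((1 + ε) • y) - (1 + ε) * c y| := by
    apply e2.eventually (eventually_gt_nhds _)
    rw [sub_self, abs_zero]
    linarith [hl0 y hy]
  filter_upwards [nhdsWithin_le_nhds e1, nhdsWithin_le_nhds e3, self_mem_nhdsWithin] with
    ε hε1 hε2 hε0
  have hε0' : 0 < ε := hε0
  have hlz : l ((1 + ε) • y) ≤ l y := by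
    have := hmono _ hε1 (1 / (1 + ε)) ⟨by positivity, by
      rw [div_le_one (by linarith)]; linarith⟩
    rwa [smul_smul, one_div, inv_mul_cancel₀ (by linarith : (1 + ε) ≠ 0), one_smul] at this
  have hlz0 := hl0 _ hε1
  have hly0 := hl0 y hy
  set a : ℝ := (1 + ε) / 2 with ha
  have ha0 : 0 < a := by positivity
  have hp : Tendsto (fun η : ℝ => y + η • v) (𝓝 0) (𝓝 y) := by
    have h : Continuous fun η : ℝ => y + η • v := by fun_prop
    have := h.tendsto 0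
    simpa using this
  have hm : Tendsto (fun η : ℝ => y - η • v) (𝓝 0) (𝓝 y) := by
    have h : Continuous fun η : ℝ => y - η • v := by fun_prop
    have := h.tendsto 0
    simpa using this
  have lp := hly.tendsto.comp hp
  have lm := hly.tendsto.comp hm
  have cp := hcy.tendsto.comp hp
  have cm := hcy.tendsto.comp hm
  have q1 : ∀ᶠ η in 𝓝 (0 : ℝ), y + η • v ∈ U := hp.eventually (hU.mem_nhds hy)
  have q2 : ∀ᶠ η in 𝓝 (0 : ℝ), y - η • v ∈ U := hm.eventually (hU.mem_nhds hy)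
  have q3 : ∀ᶠ η in 𝓝 (0 : ℝ), l ((1 + ε) • y) < a * l (y + η • v) + a * l (y - η • v) := by
    apply ((lp.const_mul a).add (lm.const_mul a)).eventually (eventually_gt_nhds _)
    have : a * l y + a * l y = l y + ε * l y := by rw [ha]; ring
    rw [this]
    have := mul_pos hε0' hly0
    linarith
  have q4 : ∀ᶠ η in 𝓝 (0 : ℝ), 0 < l ((1 + ε) • y) + a * l (y - η • v) - a * l (y + η • v) := by
    apply (((lm.const_mul a).const_add (l ((1 + ε) • y))).sub (lp.const_mul a)).eventually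
      (eventually_gt_nhds _)
    linarith
  have q5 : ∀ᶠ η in 𝓝 (0 : ℝ), 0 < l ((1 + ε) • y) + a * l (y + η • v) - a * l (y - η • v) := by
    apply (((lp.const_mul a).const_add (l ((1 + ε) • y))).sub (lm.const_mul a)).eventually
      (eventually_gt_nhds _)
    linarith
  have q6 : ∀ᶠ η in 𝓝 (0 : ℝ),
      |c ((1 + ε) • y) - (a * c (y + η • v) + a * c (y - η • v))| < 2 * l ((1 + ε) • y) := by
    apply (((cp.const_mul a).add (cm.const_mul a)).const_sub (c ((1 + ε) • y))).abs.eventually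
      (eventually_lt_nhds _)
    have : a * c y + a * c y = (1 + ε) * c y := by rw [ha]; ring
    rw [this]
    linarith
  filter_upwards [nhdsWithin_le_nhds q1, nhdsWithin_le_nhds q2, nhdsWithin_le_nhds q3,
    nhdsWithin_le_nhds q4, nhdsWithin_le_nhds q5, nhdsWithin_le_nhds q6, self_mem_nhdsWithin] with
    η h1 h2 h3 h4 h5 h6 h7
  have hzeq : a • (y + η • v) + a • (y - η • v) = (1 + ε) • y := by
    rw [ha]
    module
  have := H _ h1 _ h2 a a (S15_indep hv h7)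
  rw [hzeq, abs_of_pos ha0] at this
  exact this hε1 ha0.ne' ha0.ne' h3 (by linarith) (by linarith) h6.le

/-- one-dimensional maximum principle -/
theorem S15_max (h : ℝ → ℝ) (a b : ℝ) (hc : ContinuousOn h (Icc a b)) (ha : h a = 0)
    (hb : h b = 0)
    (hm : ∀ s ∈ Ioo a b, ∀ᶠ η in 𝓝 (0 : ℝ), h (s + η) + h (s - η) = 2 * h s) :
    ∀ s ∈ Icc a b, h s ≤ 0 := by
  intro s hs
  by_contra hpos
  push Not at hpos
  obtain ⟨s0, hs0, hmax⟩ := isCompact_Icc.exists_isMaxOn ⟨s, hs⟩ hc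
  have hM : 0 < h s0 := lt_of_lt_of_le hpos (hmax hs)
  have hS : IsCompact (Icc a b ∩ h ⁻¹' {h s0}) :=
    isCompact_Icc.of_isClosed_subset (hc.preimage_isClosed_of_isClosed isClosed_Icc
      isClosed_singleton) inter_subset_left
  obtain ⟨s1, hs1, hleast⟩ := hS.exists_isLeast ⟨s0, hs0, rfl⟩
  have hs1v : h s1 = h s0 := hs1.2
  have hlt1 : a < s1 := lt_of_le_of_ne hs1.1.1 (by
    rintro rfl
    rw [ha] at hs1v
    linarith)
  have hlt2 : s1 < b := lt_of_le_of_ne hs1.1.2 (by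
    rintro rfl
    rw [hb] at hs1v
    linarith)
  have e1 := hm s1 ⟨hlt1, hlt2⟩
  have e2 : ∀ᶠ η in 𝓝 (0 : ℝ), η < min (s1 - a) (b - s1) :=
    eventually_lt_nhds (lt_min (by linarith) (by linarith))
  have e3 : ∀ᶠ η in 𝓝[>] (0 : ℝ), h (s1 + η) + h (s1 - η) = 2 * h s1 ∧
      η < min (s1 - a) (b - s1) := nhdsWithin_le_nhds (e1.and e2)
  have e4 : ∀ᶠ η in 𝓝[>] (0 : ℝ), 0 < η := self_mem_nhdsWithin
  obtain ⟨η, ⟨h1, h2⟩, h3'⟩ := (e3.and e4).exists
  obtain ⟨h4, h5⟩ := lt_min_iff.1 h2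
  have m1 : s1 - η ∈ Icc a b := ⟨by linarith, by linarith⟩
  have m2 : s1 + η ∈ Icc a b := ⟨by linarith, by linarith⟩
  have k1 := hmax m1
  have k2 := hmax m2
  simp only [mem_setOf_eq] at k1 k2
  have k3 : h (s1 - η) = h s0 := by linarith
  have := hleast ⟨m1, k3⟩
  linarith

theorem S15_aff (f : ℝ → ℝ) (hc : ContinuousOn f (Icc 0 1))
    (hm : ∀ s ∈ Ioo (0 : ℝ) 1, ∀ᶠ η in 𝓝 (0 : ℝ), f (s + η) + f (s - η) = 2 * f s) :
    f (1 / 2) = (f 0 + f 1) / 2 := by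
  have hch : Continuous fun s : ℝ => (1 - s) * f 0 + s * f 1 := by fun_prop
  have h1 := S15_max (fun s => f s - ((1 - s) * f 0 + s * f 1)) 0 1
    (hc.sub hch.continuousOn) (by ring) (by ring) (fun s hs => by
      filter_upwards [hm s hs] with η hη
      linear_combination hη) (1 / 2) ⟨by norm_num, by norm_num⟩
  have h2 := S15_max (fun s => ((1 - s) * f 0 + s * f 1) - f s) 0 1
    (hch.continuousOn.sub hc) (by ring) (by ring) (fun s hs => by
      filter_upwards [hm s hs] with η hη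
      linear_combination -hη) (1 / 2) ⟨by norm_num, by norm_num⟩
  linarith

/-- radial homogeneity -/
theorem S15_B {d : ℕ} (c : (Fin d → ℝ) → ℝ) (U : Set (Fin d → ℝ))
    (hUc : Convex ℝ U) (h0 : (0 : Fin d → ℝ) ∈ U) (hc : ContinuousOn c U) (hc0 : c 0 = 0)
    (hA1 : ∀ y ∈ U, y ≠ 0 → ∀ᶠ ε in 𝓝[>] (0 : ℝ), c ((1 + ε) • y) = (1 + ε) * c y)
    (y : Fin d → ℝ) (hy : y ∈ U) (t : ℝ) (ht : 0 < t) (ht1 : t ≤ 1) :
    c (t • y) = t * c y := by
  by_cases hy0 : y = 0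
  · rw [hy0, smul_zero, hc0, mul_zero]
  have hmem : ∀ s ∈ Icc t 1, s • y ∈ U := fun s hs =>
    hUc.smul_mem_of_zero_mem h0 hy ⟨ht.le.trans hs.1, hs.2⟩
  have hcont : ContinuousOn (fun s : ℝ => c (s • y) / s) (Icc t 1) := by
    apply ContinuousOn.div
    · exact hc.comp (by fun_prop) hmem
    · exact continuousOn_id
    · intro s hs
      linarith [hs.1]
  have hd := constant_of_has_deriv_right_zero hcont (fun x hx => by
    have hx0 : 0 < x := lt_of_lt_of_le ht hx.1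
    have hxy : x • y ≠ 0 := smul_ne_zero hx0.ne' hy0
    have h1 := hA1 (x • y) (hmem x ⟨hx.1, hx.2.le⟩) hxy
    have h2 : ∀ᶠ s in 𝓝[>] x, c (s • y) / s = c (x • y) / x := by
      have hT : Tendsto (fun s : ℝ => s / x - 1) (𝓝[>] x) (𝓝[>] 0) := by
        rw [tendsto_nhdsWithin_iff]
        constructor
        · have hcc : Continuous fun s : ℝ => s / x - 1 := by fun_prop
          have := hcc.tendsto x
          rw [div_self hx0.ne', sub_self] at this
          exact this.mono_left nhdsWithin_le_nhds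
        · filter_upwards [self_mem_nhdsWithin] with s hs
          have hs' : x < s := hs
          show 0 < s / x - 1
          rw [sub_pos, lt_div_iff₀ hx0]
          linarith
      filter_upwards [hT.eventually h1, self_mem_nhdsWithin] with s hs hs2
      have hs' : x < s := hs2
      have e1 : (1 + (s / x - 1)) • x • y = s • y := by
        rw [smul_smul]
        congr 1
        field_simp
        ring
      rw [e1] at hs
      rw [hs]
      have hs0 : s ≠ 0 := by linarith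
      field_simp
      ring
    refine (hasDerivWithinAt_const x (Ici x) (c (x • y) / x)).congr_of_eventuallyEq ?_ rfl
    rw [← Ioi_insert, nhdsWithin_insert]
    exact Filter.eventually_sup.2 ⟨rfl, h2⟩)
  have h1 := hd 1 ⟨ht1, le_rfl⟩
  simp only [one_smul, div_one] at h1
  rw [h1]
  field_simp

theorem S15_D {d : ℕ} (c : (Fin d → ℝ) → ℝ) (U : Set (Fin d → ℝ))
    (hUc : Convex ℝ U) (hc : ContinuousOn c U)
    (hA2 : ∀ y ∈ U, ∀ v, LinearIndependent ℝ ![y, v] →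
      ∀ᶠ η in 𝓝 (0 : ℝ), c (y + η • v) + c (y - η • v) = 2 * c y)
    (y₁ y₂ : Fin d → ℝ) (h₁ : y₁ ∈ U) (h₂ : y₂ ∈ U) (hi : LinearIndependent ℝ ![y₁, y₂]) :
    c ((1 / 2 : ℝ) • (y₁ + y₂)) = (c y₁ + c y₂) / 2 := by
  have hmem : ∀ s ∈ Icc (0 : ℝ) 1, y₁ + s • (y₂ - y₁) ∈ U := fun s hs =>
    hUc.add_smul_sub_mem h₁ h₂ hs
  have h := S15_aff (fun s => c (y₁ + s • (y₂ - y₁))) (hc.comp (by fun_prop) hmem) (fun s hs => by
    have hind : LinearIndependent ℝ ![y₁ + s • (y₂ - y₁), y₂ - y₁] := by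
      rw [LinearIndependent.pair_iff] at hi ⊢
      intro p q hpq
      have e : (p * (1 - s) - q) • y₁ + (p * s + q) • y₂ = 0 := by
        rw [← hpq]
        module
      obtain ⟨e1, e2⟩ := hi _ _ e
      have : p = 0 := by linarith
      subst this
      exact ⟨rfl, by linarith⟩
    filter_upwards [hA2 _ (hmem s ⟨hs.1.le, hs.2.le⟩) _ hind] with η hη
    have e1 : y₁ + (s + η) • (y₂ - y₁) = y₁ + s • (y₂ - y₁) + η • (y₂ - y₁) := by module
    have e2 : y₁ + (s - η) • (y₂ - y₁) = y₁ + s • (y₂ - y₁) - η • (y₂ - y₁) := by module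
    rw [e1, e2]
    exact hη)
  simp only [zero_smul, add_zero, one_smul] at h
  have e1 : y₁ + (1 / 2 : ℝ) • (y₂ - y₁) = (1 / 2 : ℝ) • (y₁ + y₂) := by module
  have e2 : y₁ + (y₂ - y₁) = y₂ := by abel
  rw [e1, e2] at h
  exact h

theorem S15_lin {d : ℕ} (c : (Fin d → ℝ) → ℝ) (U : Set (Fin d → ℝ)) (hU : IsOpen U)
    (hUc : Convex ℝ U) (h0 : (0 : Fin d → ℝ) ∈ U) (hc : ContinuousOn c U)
    (hodd : ∀ y, c (-y) = - c y)
    (hA1 : ∀ y ∈ U, y ≠ 0 → ∀ᶠ ε in 𝓝[>] (0 : ℝ), c ((1 + ε) • y) = (1 + ε) * c y)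
    (hA2 : ∀ y ∈ U, ∀ v, LinearIndependent ℝ ![y, v] →
      ∀ᶠ η in 𝓝 (0 : ℝ), c (y + η • v) + c (y - η • v) = 2 * c y) :
    ∃ a : Fin d → ℝ, ∀ y ∈ U, c y = a ⬝ᵥ y := by
  have hc0 : c 0 = 0 := by
    have := hodd 0
    rw [neg_zero] at this
    linarith
  have hB := S15_B c U hUc h0 hc hc0 hA1
  -- small multiples are in U
  have hsmall : ∀ y : Fin d → ℝ, ∀ᶠ t in 𝓝[>] (0 : ℝ), t • y ∈ U := by
    intro y
    have h : Continuous fun t : ℝ => t • y := by fun_prop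
    have h1 := h.tendsto 0
    simp only [zero_smul] at h1
    exact nhdsWithin_le_nhds (h1.eventually (hU.mem_nhds h0))
  have hpos : ∀ᶠ t in 𝓝[>] (0 : ℝ), 0 < t := self_mem_nhdsWithin
  -- independence of the choice
  have hind : ∀ y : Fin d → ℝ, ∀ t s : ℝ, 0 < t → 0 < s → t • y ∈ U → s • y ∈ U →
      c (t • y) / t = c (s • y) / s := by
    have key : ∀ y : Fin d → ℝ, ∀ t s : ℝ, 0 < t → t ≤ s → s • y ∈ U →
        c (t • y) / t = c (s • y) / s := by
      intro y t s ht hts hs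
      have hs0 : 0 < s := lt_of_lt_of_le ht hts
      have := hB (s • y) hs (t / s) (div_pos ht hs0) ((div_le_one hs0).2 hts)
      rw [smul_smul, div_mul_cancel₀ _ hs0.ne'] at this
      rw [this]
      field_simp
    intro y t s ht hs h1 h2
    rcases le_total t s with h | h
    · exact key y t s ht h h2
    · exact (key y s t hs h h1).symm
  choose τ hτ using fun y : Fin d → ℝ => ((hsmall y).and hpos).exists
  let C : (Fin d → ℝ) → ℝ := fun y => c (τ y • y) / τ y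
  have hC : ∀ y t, 0 < t → t • y ∈ U → c (t • y) = t * C y := by
    intro y t ht hty
    have := hind y t (τ y) ht (hτ y).2 hty (hτ y).1
    have e : c (t • y) / t = C y := this
    rw [← e]
    field_simp
  have hCU : ∀ y ∈ U, c y = C y := by
    intro y hy
    have := hC y 1 one_pos (by rwa [one_smul])
    rwa [one_smul, one_mul] at this
  have hCpos : ∀ (s : ℝ) (y : Fin d → ℝ), 0 < s → C (s • y) = s * C y := by
    intro s y hs
    obtain ⟨t, ht1, ht2⟩ := ((hsmall (s • y)).and hpos).exists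
    have h1 := hC (s • y) t ht2 ht1
    have h2 := hC y (t * s) (mul_pos ht2 hs) (by rwa [← smul_smul])
    rw [smul_smul, h2] at h1
    have : t * (C (s • y) - s * C y) = 0 := by linarith
    rcases mul_eq_zero.1 this with h | h
    · linarith
    · linarith
  have hCneg : ∀ y : Fin d → ℝ, C (-y) = - C y := by
    intro y
    obtain ⟨t, ⟨ht1, ht2⟩, ht3⟩ := (((hsmall (-y)).and (hsmall y)).and hpos).exists
    have h1 := hC (-y) t ht3 ht1
    have h2 := hC y t ht3 ht2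
    rw [smul_neg, hodd, h2] at h1
    have : t * (C (-y) + C y) = 0 := by linarith
    rcases mul_eq_zero.1 this with h | h
    · linarith
    · linarith
  have hC0 : C 0 = 0 := by
    have := hCneg 0
    rw [neg_zero] at this
    linarith
  have hCsmul : ∀ (s : ℝ) (y : Fin d → ℝ), C (s • y) = s * C y := by
    intro s y
    rcases lt_trichotomy s 0 with h | h | h
    · have h1 := hCpos (-s) (-y) (by linarith)
      rw [smul_neg, neg_smul, neg_neg, hCneg] at h1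
      rw [h1]
      ring
    · rw [h, zero_smul, zero_mul, hC0]
    · exact hCpos s y h
  have hCadd : ∀ x y : Fin d → ℝ, C (x + y) = C x + C y := by
    intro x y
    by_cases hi : LinearIndependent ℝ ![x, y]
    · obtain ⟨t, ⟨⟨ht1, ht2⟩, ht3⟩, ht4⟩ :=
        ((((hsmall x).and (hsmall y)).and (hsmall ((1 / 2 : ℝ) • (x + y)))).and hpos).exists
      have hi' : LinearIndependent ℝ ![t • x, t • y] := by
        rw [LinearIndependent.pair_iff] at hi ⊢
        intro p q hpq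
        have e : (p * t) • x + (q * t) • y = 0 := by
          rw [← hpq]
          module
        obtain ⟨e1, e2⟩ := hi _ _ e
        exact ⟨(mul_eq_zero.1 e1).resolve_right ht4.ne', (mul_eq_zero.1 e2).resolve_right ht4.ne'⟩
      have h1 := S15_D c U hUc hc hA2 _ _ ht1 ht2 hi'
      rw [hC x t ht4 ht1, hC y t ht4 ht2] at h1
      have e : (1 / 2 : ℝ) • (t • x + t • y) = t • ((1 / 2 : ℝ) • (x + y)) := by module
      rw [e, hC _ t ht4 ht3, hCsmul] at h1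
      have : t * (C (x + y) - (C x + C y)) = 0 := by linarith
      rcases mul_eq_zero.1 this with h | h
      · linarith
      · linarith
    · rw [LinearIndependent.pair_iff] at hi
      push Not at hi
      obtain ⟨p, q, hpq, hne⟩ := hi
      by_cases hp : p = 0
      · have hq : q ≠ 0 := hne hp
        rw [hp, zero_smul, zero_add] at hpq
        have hy : y = 0 := (smul_eq_zero.1 hpq).resolve_left hq
        rw [hy, add_zero, hC0, add_zero]
      · have hx : x = (-(q / p)) • y := by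
          have h1 : p • x = -(q • y) := eq_neg_of_add_eq_zero_left hpq
          have h2 : x = p⁻¹ • (p • x) := by rw [smul_smul, inv_mul_cancel₀ hp, one_smul]
          rw [h2, h1, smul_neg, smul_smul, neg_smul, div_eq_inv_mul]
        have e : x + y = (-(q / p) + 1) • y := by
          rw [hx]
          module
        rw [e, hCsmul, hx, hCsmul]
        ring
  let L : (Fin d → ℝ) →ₗ[ℝ] ℝ :=
    { toFun := C
      map_add' := hCadd
      map_smul' := fun s y => by simpa using hCsmul s y }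
  refine ⟨fun i => C (fun j => if i = j then 1 else 0), fun y hy => ?_⟩
  rw [hCU y hy]
  have := LinearMap.pi_apply_eq_sum_univ L y
  have e : C y = L y := rfl
  rw [e, this, dotProduct]
  apply Finset.sum_congr rfl
  intro i _
  rw [smul_eq_mul, mul_comm]
  rfl

theorem S15 {d : ℕ} (hd : 2 ≤ d) (c l : (Fin d → ℝ) → ℝ) (U : Set (Fin d → ℝ)) (hU : IsOpen U)
    (hUc : Convex ℝ U) (h0 : (0 : Fin d → ℝ) ∈ U) (hUs : ∀ y ∈ U, -y ∈ U)
    (hc : ContinuousOn c U) (hl : ContinuousOn l U) (hl0 : ∀ y ∈ U, 0 < l y)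
    (hodd : ∀ y, c (-y) = - c y)
    (hmono : ∀ y ∈ U, ∀ t ∈ Icc (0 : ℝ) 1, l y ≤ l (t • y))
    (H : ∀ y₁ ∈ U, ∀ y₂ ∈ U, ∀ a₁ a₂ : ℝ, LinearIndependent ℝ ![y₁, y₂] →
      a₁ • y₁ + a₂ • y₂ ∈ U → a₁ ≠ 0 → a₂ ≠ 0 →
      l (a₁ • y₁ + a₂ • y₂) < |a₁| * l y₁ + |a₂| * l y₂ →
      |a₁| * l y₁ < l (a₁ • y₁ + a₂ • y₂) + |a₂| * l y₂ →
      |a₂| * l y₂ < l (a₁ • y₁ + a₂ • y₂) + |a₁| * l y₁ →
      |c (a₁ • y₁ + a₂ • y₂) - (a₁ * c y₁ + a₂ * c y₂)| ≤ 2 * l (a₁ • y₁ + a₂ • y₂) →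
      c (a₁ • y₁ + a₂ • y₂) = a₁ * c y₁ + a₂ * c y₂) :
    ∃ a : Fin d → ℝ, ∀ y ∈ U, c y = a ⬝ᵥ y := by
  have hA := S15_A c l U hU hc hl hl0 hmono H
  have hlim : ∀ y ∈ U, ∀ v : Fin d → ℝ, ∀ ε : ℝ,
      Tendsto (fun η : ℝ => (1 + ε) / 2 * c (y + η • v) + (1 + ε) / 2 * c (y - η • v)) (𝓝[≠] 0)
        (𝓝 ((1 + ε) * c y)) := by
    intro y hy v ε
    have hcy : ContinuousAt c y := hc.continuousAt (hU.mem_nhds hy)
    have hp : Tendsto (fun η : ℝ => y + η • v) (𝓝 0) (𝓝 y) := by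
      have h : Continuous fun η : ℝ => y + η • v := by fun_prop
      have := h.tendsto 0
      simpa using this
    have hm : Tendsto (fun η : ℝ => y - η • v) (𝓝 0) (𝓝 y) := by
      have h : Continuous fun η : ℝ => y - η • v := by fun_prop
      have := h.tendsto 0
      simpa using this
    have h1 := ((hcy.tendsto.comp hp).const_mul ((1 + ε) / 2)).add
      ((hcy.tendsto.comp hm).const_mul ((1 + ε) / 2))
    have e : (1 + ε) / 2 * c y + (1 + ε) / 2 * c y = (1 + ε) * c y := by ring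
    rw [e] at h1
    exact h1.mono_left nhdsWithin_le_nhds
  have hA1 : ∀ y ∈ U, y ≠ 0 → ∀ᶠ ε in 𝓝[>] (0 : ℝ), c ((1 + ε) • y) = (1 + ε) * c y := by
    intro y hy hy0
    obtain ⟨v, hv⟩ := S15_exists hd y hy0
    filter_upwards [hA y hy v hv] with ε hε
    refine tendsto_nhds_unique ?_ (hlim y hy v ε)
    exact tendsto_const_nhds.congr' hε
  refine S15_lin c U hU hUc h0 hc hodd hA1 (fun y hy v hv => ?_)
  have hy0 : y ≠ 0 := by
    have := hv.ne_zero 0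
    simpa using this
  obtain ⟨ε, ⟨h1, h2⟩, h3⟩ := (((hA y hy v hv).and (hA1 y hy hy0)).and
    (self_mem_nhdsWithin : Ioi (0 : ℝ) ∈ 𝓝[>] (0 : ℝ))).exists
  have h3' : 0 < ε := h3
  have h4 : ∀ᶠ η in 𝓝[≠] (0 : ℝ), c (y + η • v) + c (y - η • v) = 2 * c y := by
    filter_upwards [h1] with η hη
    rw [h2] at hη
    have : (1 + ε) * (c (y + η • v) + c (y - η • v) - 2 * c y) = 0 := by linarith
    rcases mul_eq_zero.1 this with h | h
    · linarith
    · linarith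
  rw [eventually_nhdsWithin_iff] at h4
  filter_upwards [h4] with η hη
  by_cases h : η = 0
  · rw [h, zero_smul, add_zero, sub_zero]
    ring
  · exact hη h

end S15

section S16
theorem S16_smul {d : ℕ} (s : ℝ) (y : Fin d → ℝ) (t : ℝ) : emb (s • y) (s * t) = s • emb y t := by
  ext i
  refine Fin.cases ?_ (fun j => ?_) i
  · simp [emb]
  · simp [emb]

theorem S16_add {d : ℕ} (y y' : Fin d → ℝ) (t t' : ℝ) : emb (y + y') (t + t') = emb y t + emb y' t' := by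
  ext i
  refine Fin.cases ?_ (fun j => ?_) i
  · simp [emb]
  · simp [emb]

theorem S16_cont {d : ℕ} : Continuous (fun y : Fin d → ℝ => emb y 0) := by
  unfold emb
  refine (PiLp.continuous_toLp 2 _).comp ?_
  refine continuous_pi fun i => ?_
  refine Fin.cases ?_ (fun j => ?_) i
  · simp only [Fin.cons_zero]
    exact continuous_const
  · simp only [Fin.cons_succ]
    exact continuous_apply j

theorem S16_zero_int {d : ℕ} (L : Set (E (d + 1))) (hL : Body L) : (0 : E (d + 1)) ∈ interior L := by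
  obtain ⟨x, hx⟩ := hL.int_nonempty
  have hx' : -x ∈ interior L := by
    have hU : IsOpen ((fun z : E (d + 1) => -z) ⁻¹' interior L) := isOpen_interior.preimage continuous_neg
    refine interior_maximal (fun z hz => ?_) hU ?_
    · have := hL.symm _ (interior_subset (show -z ∈ interior L from hz))
      rwa [neg_neg] at this
    · show - -x ∈ interior L
      rw [neg_neg]
      exact hx
  have := hL.convex.interior hx hx' (show (0 : ℝ) ≤ 1 / 2 by norm_num) (show (0 : ℝ) ≤ 1 / 2 by norm_num)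
    (by norm_num)
  simpa using this

theorem S16_zero_PP {d : ℕ} (L : Set (E (d + 1))) (hL : Body L) : (0 : Fin d → ℝ) ∈ interior (PP L) := by
  have hU : IsOpen ((fun y : Fin d → ℝ => emb y 0) ⁻¹' interior L) := isOpen_interior.preimage S16_cont
  have hsub : (fun y : Fin d → ℝ => emb y 0) ⁻¹' interior L ⊆ PP L := fun y hy =>
    ⟨0, interior_subset hy⟩
  refine interior_maximal hsub hU ?_
  show emb (0 : Fin d → ℝ) 0 ∈ interior L
  have e : emb (0 : Fin d → ℝ) 0 = 0 := by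
    have := S16_smul 0 (0 : Fin d → ℝ) 0
    rw [zero_smul, zero_smul, zero_mul] at this
    exact this
  rw [e]
  exact S16_zero_int L hL

theorem S16_convex {d : ℕ} (L : Set (E (d + 1))) (hL : Body L) : Convex ℝ (PP L) := by
  rintro y ⟨t, ht⟩ y' ⟨t', ht'⟩ a b ha hb hab
  refine ⟨a * t + b * t', ?_⟩
  rw [S16_add, S16_smul, S16_smul]
  exact hL.convex ht ht' ha hb hab

theorem S16 {d : ℕ} (L : Set (E (d + 1))) (hL : Body L) (a : Fin d → ℝ)
    (h : ∀ y ∈ interior (PP L), cc L y = a ⬝ᵥ y) (y : Fin d → ℝ) (t : ℝ) (ht : emb y t ∈ L) :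
    emb y (2 * (a ⬝ᵥ y) - t) ∈ L := by
  have key : ∀ s : ℝ, 0 ≤ s → s < 1 → s • emb y (2 * (a ⬝ᵥ y) - t) ∈ L := by
    intro s hs0 hs1
    have hyP : y ∈ PP L := ⟨t, ht⟩
    have hint : s • y ∈ interior (PP L) := by
      have := (S16_convex L hL).combo_interior_self_mem_interior (S16_zero_PP L hL) hyP
        (show (0 : ℝ) < 1 - s by linarith) hs0 (by ring)
      simpa using this
    have h0L : (0 : E (d + 1)) ∈ L := interior_subset (S16_zero_int L hL)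
    have hst : emb (s • y) (s * t) ∈ L := by
      rw [S16_smul]
      have := hL.convex h0L ht (show (0 : ℝ) ≤ 1 - s by linarith) hs0 (by ring)
      simpa using this
    obtain ⟨h1, h2⟩ := (S1 L hL _ _).1 hst
    have hcc : cc L (s • y) = s * (a ⬝ᵥ y) := by
      rw [h _ hint, dotProduct_smul, smul_eq_mul]
    have h3 : emb (s • y) (s * (2 * (a ⬝ᵥ y) - t)) ∈ L := by
      rw [S1 L hL]
      refine ⟨h1, ?_⟩
      rw [hcc] at h2 ⊢
      have e : s * (2 * (a ⬝ᵥ y) - t) - s * (a ⬝ᵥ y) = -(s * t - s * (a ⬝ᵥ y)) := by ring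
      rw [e, abs_neg]
      exact h2
    rwa [S16_smul] at h3
  have hlim : Filter.Tendsto (fun s : ℝ => s • emb y (2 * (a ⬝ᵥ y) - t)) (𝓝[<] 1)
      (𝓝 (emb y (2 * (a ⬝ᵥ y) - t))) := by
    have hc : Continuous (fun s : ℝ => s • emb y (2 * (a ⬝ᵥ y) - t)) := by fun_prop
    have := (hc.tendsto 1).mono_left (nhdsWithin_le_nhds (s := Set.Iio 1))
    simpa using this
  refine hL.compact.isClosed.mem_of_tendsto hlim ?_
  have h1 : ∀ᶠ s : ℝ in 𝓝[<] 1, s < 1 := self_mem_nhdsWithin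
  have h2 : ∀ᶠ s : ℝ in 𝓝[<] 1, 0 < s :=
    (eventually_gt_nhds (show (0 : ℝ) < 1 by norm_num)).filter_mono nhdsWithin_le_nhds
  filter_upwards [h1, h2] with s hs1 hs0
  exact key s hs0.le hs1

end S16

end Pool.Agent.H14IIB
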