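import Mathlib
import Pool.Agent.H14IIB.G
import Pool.Agent.H14IIB.B
import Pool.Agent.H14IIB.S
import Pool.Agent.H14IIB.T
import Pool.Agent.H14IIB.R

set_option autoImplicit false

open MeasureTheory Set Module Filter Topology
open scoped ENNReal Pointwise

namespace Pool.Agent.H14IIB


theorem emb_ne {d : ℕ} (x : Fin d → ℝ) (t : ℝ) (ht : t ≠ 0) : (emb x t : E (d + 1)) ≠ 0 := by
  intro h
  apply ht
  have h1 : (emb x t : E (d + 1)) 0 = 0 := by rw [h]; rfl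
  simpa [emb] using h1

theorem IBchart {d : ℕ} (L : Set (E (d + 1))) (hL : MeasurableSet L) (x : Fin d → ℝ) (t : ℝ)
    (ht : t ≠ 0) : emb x t ∈ IB L ↔ ENNReal.ofReal |t| ≤ A L (-(t⁻¹ • x)) := by
  rw [G5 L _ (emb_ne x t ht), G4 L hL x t ht, ENNReal.le_div_iff_mul_le, one_mul]
  · left; simp [ht]
  · left; exact ENNReal.ofReal_ne_top

theorem Body.meas {n : ℕ} {K : Set (E n)} (h : Body K) : MeasurableSet K :=
  h.compact.measurableSet

theorem KI {d : ℕ} (hd : 1 ≤ d) (L M : Set (E (d + 1))) (hL : Body L) (hM : Body M) :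
    ∫⁻ w, A M w * A L w ^ d = ∫⁻ w, A (IB L) w * rad M w ^ d := by
  have hIL := B7 hd L hL
  have e1 := G7b hd (IB L) hIL.meas (A L) (G10 L hL.meas) (IBchart L hL.meas) M hM.meas
  have e2 := G7b hd M hM.meas (rad M) (G9 M hM).1 (G9 M hM).2 (IB L) hIL.meas
  have e3 := G8 hd M (IB L) hM.meas hIL.meas
  rw [e1, e2] at e3
  have hc : ENNReal.ofReal (2 / d) ≠ 0 := by
    have : (0:ℝ) < d := by exact_mod_cast hd
    simp; positivity
  exact (ENNReal.mul_right_inj hc ENNReal.ofReal_ne_top).1 e3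

theorem volIB {d : ℕ} (hd : 1 ≤ d) (L : Set (E (d + 1))) (hL : Body L) :
    volume (IB L) = ENNReal.ofReal (2 / (d + 1)) * ∫⁻ w, A L w ^ (d + 1) :=
  G7 (IB L) (B7 hd L hL).meas (A L) (G10 L hL.meas) (IBchart L hL.meas)

theorem volL {d : ℕ} (L : Set (E (d + 1))) (hL : Body L) :
    volume L = ENNReal.ofReal (2 / (d + 1)) * ∫⁻ w, rad L w ^ (d + 1) :=
  G7 L hL.meas (rad L) (G9 L hL).1 (G9 L hL).2

theorem cst_ne (d : ℕ) : ENNReal.ofReal (2 / ((d : ℝ) + 1)) ≠ 0 := by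
  have : (0:ℝ) < (d:ℝ) + 1 := by positivity
  simp only [ne_eq, ENNReal.ofReal_eq_zero, not_le]
  positivity

theorem Body.vol_ne_top {n : ℕ} {K : Set (E n)} (h : Body K) : volume K ≠ ∞ :=
  h.compact.measure_ne_top

theorem Body.vol_ne_zero {n : ℕ} {K : Set (E n)} (h : Body K) : volume K ≠ 0 :=
  (Measure.measure_pos_of_nonempty_interior volume h.int_nonempty).ne'

theorem S11a {d : ℕ} (hd : 1 ≤ d) (L M : Set (E (d + 1))) (hL : Body L) (hM : Body M)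
    (hv : volume M = volume L)
    (hE : (∫⁻ w, A (IB L) w ^ (d + 1)) * (∫⁻ w, rad L w ^ (d + 1)) ^ d ≤
      (∫⁻ w, A L w ^ (d + 1)) ^ (d + 1)) :
    ∫⁻ w, A M w * A L w ^ d ≤ ∫⁻ w, A L w ^ (d + 1) := by
  have hIL := B7 hd L hL
  have h1 : (∫⁻ w, A M w * A L w ^ d) ^ (d + 1) ≤ (∫⁻ w, A L w ^ (d + 1)) ^ (d + 1) := by
    rw [KI hd L M hL hM]
    refine (H1 volume d _ _ (G10 _ hIL.meas) (G9 M hM).1).trans ?_
    have h2 : ∫⁻ w, rad M w ^ (d + 1) = ∫⁻ w, rad L w ^ (d + 1) := by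
      rw [volL M hM, volL L hL] at hv
      exact (ENNReal.mul_right_inj (cst_ne d) ENNReal.ofReal_ne_top).1 hv
    rw [h2]
    exact hE
  exact (ENNReal.pow_le_pow_left_iff (by omega)).1 h1

theorem S11 {d : ℕ} (hd : 1 ≤ d) (L : Set (E (d + 1))) (hL : Body L)
    (hE : (∫⁻ w, A (IB L) w ^ (d + 1)) * (∫⁻ w, rad L w ^ (d + 1)) ^ d ≤
      (∫⁻ w, A L w ^ (d + 1)) ^ (d + 1)) :
    ∀ᵐ y : Fin (d + 1) → (Fin d → ℝ), FF L 1 y = 0 ∨ FF L 0 y = FF L 1 y := by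
  obtain ⟨C₁, hC₁, h5⟩ := S5 L hL
  obtain ⟨C₂, hC₂, h10⟩ := S10 d C₁
  set τ : ℕ → ℝ := fun k => 1 - (1 / 2) ^ k with hτ
  have hp0 : ∀ k : ℕ, (0:ℝ) < (1 / 2 : ℝ) ^ k := fun k => by positivity
  have hp1 : ∀ k : ℕ, (1 / 2 : ℝ) ^ k ≤ 1 := fun k => pow_le_one₀ (by norm_num) (by norm_num)
  have hτ0 : ∀ k, 0 ≤ τ k := fun k => by simp only [hτ]; linarith [hp1 k]
  have hτ1 : ∀ k, τ k ≤ 1 := fun k => by simp only [hτ]; linarith [hp0 k]
  have hB : ∀ k, Body (Lt L (τ k)) := fun k => S3 L hL (τ k) (hτ0 k) (hτ1 k)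
  have hB1 : Body (Lt L 1) := S3 L hL 1 (by norm_num) le_rfl
  have hint : ∀ σ : ℝ, Body (Lt L σ) → ∫⁻ y, FF L σ y = ∫⁻ w, A (Lt L σ) w ^ (d + 1) := by
    intro σ hσ
    rw [S8 _ hσ.meas]
    rfl
  have hG : ∫⁻ y, FF L 1 y = ∫⁻ w, A L w ^ (d + 1) := by
    rw [hint 1 hB1, S3b L hL]
  have hX : ∫⁻ w, A L w ^ (d + 1) ≠ ∞ := by
    have := (B7 hd L hL).vol_ne_top
    rw [volIB hd L hL] at this
    intro h
    rw [h] at this
    exact this (ENNReal.mul_top (cst_ne d))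
  have hF0 : τ 0 = 0 := by simp [hτ]
  have key := S9 (volume : Measure (Fin (d + 1) → (Fin d → ℝ))) (fun k => FF L (τ k)) (FF L 1)
    (fun k => S8b _ (hB k).meas) (S8b _ hB1.meas)
    (fun k y => by
      have := (S7 L hL (τ k) (hτ0 k) (hτ1 k) y).1
      have h2 : (1 + τ k) / 2 = τ (k + 1) := by simp only [hτ, pow_succ]; ring
      rw [h2] at this
      exact this)
    (fun y => by
      have := (S7 L hL (τ 0) (hτ0 0) (hτ1 0) y).2
      simp only [hF0]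
      exact this)
    (C₂ * C₁ ^ 2) (by positivity) (by rw [hG]; exact hX)
    (fun k => by
      rw [hint _ (hB k), hG]
      have hθ0 : 0 ≤ C₁ * (1 - τ k) := mul_nonneg hC₁ (by linarith [hτ1 k])
      have hθ1 : C₁ * (1 - τ k) ≤ C₁ := by nlinarith [hτ0 k]
      obtain ⟨h5a, h5b⟩ := h5 (τ k) (hτ0 k) (hτ1 k)
      have hpos : 0 < 1 + C₁ * (1 - τ k) := by linarith
      have := h10 (C₁ * (1 - τ k)) hθ0 hθ1 _ volume (A (Lt L (τ k))) (A L)
        (G10 _ (hB k).meas) (G10 _ hL.meas)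
        (fun w => G11 _ _ _ hpos h5a w) (fun w => G11 _ _ _ hpos h5b w) hX
        (S11a hd L _ hL (hB k) (S4 L hL (τ k) (hτ0 k) (hτ1 k)) hE)
      convert this using 3
      congr 1
      simp only [hτ]
      have : ((1:ℝ)/4)^k = ((1/2)^k)^2 := by rw [← pow_mul, mul_comm, pow_mul]; norm_num
      rw [this]; ring)
  simp only [hF0] at key
  exact key

theorem R1 {d : ℕ} (hd : 2 ≤ d) (L : Set (E (d + 1))) (hL : Body L)
    (hE : (∫⁻ w, A (IB L) w ^ (d + 1)) * (∫⁻ w, rad L w ^ (d + 1)) ^ d ≤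
      (∫⁻ w, A L w ^ (d + 1)) ^ (d + 1)) :
    ∃ a : Fin d → ℝ, ∀ (y : Fin d → ℝ) (t : ℝ), emb y t ∈ L → emb y (2 * (a ⬝ᵥ y) - t) ∈ L := by
  obtain ⟨hUc, h0, hUs, hcc, hll, hpos, hodd, hmono⟩ := S12 L hL
  set U := interior (PP L) with hU
  have hUo : IsOpen U := isOpen_interior
  have hUP : U ⊆ PP L := interior_subset
  have hae := S11 (by omega) L hL hE
  have hF : ∀ (σ : ℝ), 0 ≤ σ → σ ≤ 1 → ∀ y : Fin (d + 1) → (Fin d → ℝ), (∀ i, y i ∈ U) →
      FF L σ y = volume {w : Fin d → ℝ | ∀ i, |w ⬝ᵥ y i - σ * cc L (y i)| ≤ ll L (y i)} := by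
    intro σ h0 h1 y hy
    unfold FF
    congr 1
    ext w
    simp only [mem_setOf_eq]
    refine forall_congr' fun i => ?_
    rw [S2 L hL σ h0 h1]
    exact and_iff_right (hUP (hy i))
  have hall := S13 (cc L) (ll L) U hUo hcc hll hpos (by
    filter_upwards [hae] with y hy hyU
    rw [hF 1 (by norm_num) le_rfl y hyU, hF 0 le_rfl (by norm_num) y hyU] at hy
    simpa using hy)
  obtain ⟨a, ha⟩ := S15 hd (cc L) (ll L) U hUo hUc h0 hUs hcc hll hpos hodd hmono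
    (fun y₁ hy₁ y₂ hy₂ a₁ a₂ hli hz ha₁ ha₂ p1 p2 p3 he =>
      S14 (cc L) (ll L) U hUo h0 hUc hpos (fun y hy hli hy0 => hall y hy hli hy0)
        y₁ y₂ hy₁ hy₂ a₁ a₂ hli hz p1 p2 p3 he ha₁ ha₂)
  exact ⟨a, fun y t ht => S16 L hL a ha y t ht⟩

theorem Body.image {n : ℕ} {K : Set (E n)} (h : Body K) (T : E n ≃ₗ[ℝ] E n) : Body (T '' K) := by
  have hc : Continuous T := T.toLinearMap.continuous_of_finiteDimensional
  have hc' : Continuous T.symm := T.symm.toLinearMap.continuous_of_finiteDimensional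
  refine ⟨h.compact.image hc, h.convex.linear_image T.toLinearMap, ?_, ?_⟩
  · have ho : IsOpenMap T := fun s hs => by
      rw [T.image_eq_preimage_symm]
      exact hs.preimage hc'
    obtain ⟨x, hx⟩ := h.int_nonempty
    exact ⟨T x, ho.image_interior_subset K ⟨x, hx, rfl⟩⟩
  · rintro _ ⟨x, hx, rfl⟩
    exact ⟨-x, h.symm x hx, by simp⟩

theorem Body.zero_mem {n : ℕ} {K : Set (E n)} (h : Body K) : (0 : E n) ∈ K := by
  obtain ⟨x, hx⟩ := h.int_nonempty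
  have hx := interior_subset hx
  have := h.convex hx (h.symm x hx) (by norm_num : (0:ℝ) ≤ 1/2) (by norm_num : (0:ℝ) ≤ 1/2)
    (by norm_num)
  simpa using this

theorem Body.sub_smul {n : ℕ} {K : Set (E n)} (h : Body K) {c : ℝ} (hc : 1 ≤ c) : K ⊆ c • K := by
  intro x hx
  refine ⟨c⁻¹ • x, ?_, ?_⟩
  · exact h.convex.smul_mem_of_zero_mem h.zero_mem hx ⟨by positivity, inv_le_one_of_one_le₀ hc⟩
  · simp only [smul_smul]
    rw [mul_inv_cancel₀ (by linarith), one_smul]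

theorem vol_image {n : ℕ} (T : E n ≃ₗ[ℝ] E n) (K : Set (E n)) :
    volume (T '' K) = ENNReal.ofReal |LinearMap.det (T : E n →ₗ[ℝ] E n)| * volume K := by
  have := Measure.addHaar_image_linearMap (volume : Measure (E n)) (T : E n →ₗ[ℝ] E n) K
  exact this

theorem detT_ne {n : ℕ} (T : E n ≃ₗ[ℝ] E n) : LinearMap.det (T : E n →ₗ[ℝ] E n) ≠ 0 :=
  (LinearEquiv.isUnit_det' T).ne_zero

theorem Q_pos {d : ℕ} (hd : 1 ≤ d) (K : Set (E (d + 1))) (hK : Body K) : 0 < Q K := by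
  have hI := B7 hd K hK
  unfold Q
  have h1 := ENNReal.toReal_pos hI.vol_ne_zero hI.vol_ne_top
  have h2 := ENNReal.toReal_pos hK.vol_ne_zero hK.vol_ne_top
  positivity

theorem Q_image {d : ℕ} (K : Set (E (d + 1))) (hK : Body K) (T : E (d + 1) ≃ₗ[ℝ] E (d + 1)) :
    Q (T '' K) = Q K := by
  obtain ⟨S, hS, hSI⟩ := G6 T
  unfold Q
  rw [hSI K hK.meas, vol_image, vol_image, hS, ENNReal.toReal_mul, ENNReal.toReal_mul,
    ENNReal.toReal_ofReal (by positivity), ENNReal.toReal_ofReal (by positivity), mul_pow]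
  have := detT_ne T
  rw [mul_div_mul_left _ _ (by positivity)]

theorem Q_IB_image {d : ℕ} (hd : 1 ≤ d) (K : Set (E (d + 1))) (hK : Body K)
    (T : E (d + 1) ≃ₗ[ℝ] E (d + 1)) : Q (IB (T '' K)) = Q (IB K) := by
  obtain ⟨S, hS, hSI⟩ := G6 T
  rw [hSI K hK.meas]
  exact Q_image _ (B7 hd K hK) S

/-- the constant `2/(d+1)` -/
theorem Q_mono {d : ℕ} (hd : 1 ≤ d) (K : Set (E (d + 1))) (hK : Body K) : Q K ≤ Q (IB K) := by
  have hI := B7 hd K hK
  have hII := B7 hd _ hI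
  have h1 : (∫⁻ w, A K w ^ (d + 1)) ^ (d + 1) ≤
      (∫⁻ w, A (IB K) w ^ (d + 1)) * (∫⁻ w, rad K w ^ (d + 1)) ^ d := by
    have e : ∫⁻ w, A K w ^ (d + 1) = ∫⁻ w, A (IB K) w * rad K w ^ d := by
      rw [← KI hd K K hK hK]
      refine lintegral_congr fun w => ?_
      rw [pow_succ, mul_comm]
    calc (∫⁻ w, A K w ^ (d + 1)) ^ (d + 1) = (∫⁻ w, A (IB K) w * rad K w ^ d) ^ (d + 1) := by rw [e]
      _ ≤ _ := H1 volume d _ _ (G10 _ hI.meas) (G9 K hK).1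
  have h2 : volume (IB K) ^ (d + 1) ≤ volume (IB (IB K)) * volume K ^ d := by
    rw [volIB hd K hK, volIB hd _ hI, volL K hK, mul_pow, mul_pow]
    calc ENNReal.ofReal (2 / (d + 1)) ^ (d + 1) * (∫⁻ w, A K w ^ (d + 1)) ^ (d + 1)
        ≤ ENNReal.ofReal (2 / (d + 1)) ^ (d + 1) * ((∫⁻ w, A (IB K) w ^ (d + 1)) *
            (∫⁻ w, rad K w ^ (d + 1)) ^ d) := by gcongr
      _ = _ := by rw [pow_succ]; ring
  have h3 : (volume (IB K)).toReal ^ (d + 1) ≤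
      (volume (IB (IB K))).toReal * (volume K).toReal ^ d := by
    have := ENNReal.toReal_mono (by
      exact ENNReal.mul_ne_top hII.vol_ne_top (ENNReal.pow_ne_top hK.vol_ne_top)) h2
    simpa [ENNReal.toReal_mul, ENNReal.toReal_pow] using this
  unfold Q
  have p1 := ENNReal.toReal_pos hI.vol_ne_zero hI.vol_ne_top
  have p2 := ENNReal.toReal_pos hK.vol_ne_zero hK.vol_ne_top
  rw [div_le_div_iff₀ (by positivity) (by positivity)]
  calc (volume (IB K)).toReal * (volume (IB K)).toReal ^ d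
      = (volume (IB K)).toReal ^ (d + 1) := by rw [pow_succ]; ring
    _ ≤ _ := h3

theorem Q_hE {d : ℕ} (hd : 1 ≤ d) (L : Set (E (d + 1))) (hL : Body L) (h : Q (IB L) ≤ Q L) :
    (∫⁻ w, A (IB L) w ^ (d + 1)) * (∫⁻ w, rad L w ^ (d + 1)) ^ d ≤
      (∫⁻ w, A L w ^ (d + 1)) ^ (d + 1) := by
  have hI := B7 hd L hL
  have hII := B7 hd _ hI
  have p1 := ENNReal.toReal_pos hI.vol_ne_zero hI.vol_ne_top
  have p2 := ENNReal.toReal_pos hL.vol_ne_zero hL.vol_ne_top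
  unfold Q at h
  rw [div_le_div_iff₀ (by positivity) (by positivity)] at h
  have h2 : volume (IB (IB L)) * volume L ^ d ≤ volume (IB L) ^ (d + 1) := by
    rw [← ENNReal.toReal_le_toReal (ENNReal.mul_ne_top hII.vol_ne_top
      (ENNReal.pow_ne_top hL.vol_ne_top)) (ENNReal.pow_ne_top hI.vol_ne_top)]
    rw [ENNReal.toReal_mul, ENNReal.toReal_pow, ENNReal.toReal_pow]
    calc _ ≤ _ := h
      _ = _ := by rw [pow_succ]; ring
  rw [volIB hd L hL, volIB hd _ hI, volL L hL, mul_pow, mul_pow] at h2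
  have h3 : ENNReal.ofReal (2 / (d + 1)) ^ (d + 1) * ((∫⁻ w, A (IB L) w ^ (d + 1)) *
            (∫⁻ w, rad L w ^ (d + 1)) ^ d) ≤
      ENNReal.ofReal (2 / (d + 1)) ^ (d + 1) * (∫⁻ w, A L w ^ (d + 1)) ^ (d + 1) := by
    calc _ = _ := by rw [pow_succ]; ring
      _ ≤ _ := h2
  exact (ENNReal.mul_le_mul_iff_right (pow_ne_zero _ (cst_ne d))
    (ENNReal.pow_ne_top ENNReal.ofReal_ne_top)).1 h3

theorem ELL {d : ℕ} (hd : 2 ≤ d) (L : Set (E (d + 1))) (hL : Body L) (h : Q (IB L) ≤ Q L) :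
    ∃ T : E (d + 1) ≃ₗ[ℝ] E (d + 1), T '' L = Metric.closedBall 0 1 := by
  apply R3 L hL
  intro v hv
  obtain ⟨T, hT⟩ := R2b v hv
  have hL' := hL.image T
  have h' : Q (IB (T '' L)) ≤ Q (T '' L) := by
    rw [Q_IB_image (by omega) L hL T, Q_image L hL T]
    exact h
  obtain ⟨a, ha⟩ := R1 hd _ hL' (Q_hE (by omega) _ hL' h')
  exact R2 L T v hT a ha

theorem vol_smul {n : ℕ} (c : ℝ) (hc : 0 < c) (K : Set (E n)) :
    volume (c • K) = ENNReal.ofReal (c ^ n) * volume K := by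
  rw [Measure.addHaar_smul, finrank_euclideanSpace_fin, abs_of_pos (by positivity)]

theorem Q_le {d : ℕ} (hd : 1 ≤ d) (K L : Set (E (d + 1))) (hK : Body K) (hL : Body L) (c : ℝ)
    (hc : 0 < c) (h1 : K ⊆ c • L) (h2 : L ⊆ c • K) : Q K ≤ c ^ (2 * d * (d + 1)) * Q L := by
  have hIK := B7 hd K hK
  have hIL := B7 hd L hL
  have a1 : (volume (IB K)).toReal ≤ c ^ (d * (d + 1)) * (volume (IB L)).toReal := by
    have := measure_mono (μ := volume) (G12 K L c hc h1)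
    rw [vol_smul _ (by positivity)] at this
    have := ENNReal.toReal_mono (ENNReal.mul_ne_top ENNReal.ofReal_ne_top hIL.vol_ne_top) this
    rwa [ENNReal.toReal_mul, ENNReal.toReal_ofReal (by positivity), ← pow_mul] at this
  have a2 : (volume L).toReal ≤ c ^ (d + 1) * (volume K).toReal := by
    have := measure_mono (μ := volume) h2
    rw [vol_smul _ hc] at this
    have := ENNReal.toReal_mono (ENNReal.mul_ne_top ENNReal.ofReal_ne_top hK.vol_ne_top) this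
    rwa [ENNReal.toReal_mul, ENNReal.toReal_ofReal (by positivity)] at this
  unfold Q
  have p1 := ENNReal.toReal_pos hK.vol_ne_zero hK.vol_ne_top
  have p2 := ENNReal.toReal_pos hL.vol_ne_zero hL.vol_ne_top
  have p3 := ENNReal.toReal_pos hIL.vol_ne_zero hIL.vol_ne_top
  rw [← mul_div_assoc, div_le_div_iff₀ (by positivity) (by positivity)]
  calc (volume (IB K)).toReal * (volume L).toReal ^ d
      ≤ (c ^ (d * (d + 1)) * (volume (IB L)).toReal) * (c ^ (d + 1) * (volume K).toReal) ^ d := by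
        gcongr
    _ = _ := by
        rw [mul_pow, ← pow_mul]
        have : c ^ (2 * d * (d + 1)) = c ^ (d * (d + 1)) * c ^ ((d + 1) * d) := by
          rw [← pow_add]; ring_nf
        rw [this]; ring

theorem dBM_le {n : ℕ} (K B : Set (E n)) (l : ℝ) (hl : 1 ≤ l) (T : E n ≃ₗ[ℝ] E n)
    (h1 : B ⊆ T '' K) (h2 : T '' K ⊆ l • B) : dBM K B ≤ l :=
  csInf_le ⟨1, fun _ hx => hx.1⟩ ⟨hl, T, h1, h2⟩

theorem dBM_exists {n : ℕ} (K : Set (E n)) (hK : Body K) :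
    ∃ l : ℝ, 1 ≤ l ∧ ∃ T : E n ≃ₗ[ℝ] E n,
      Metric.closedBall 0 1 ⊆ T '' K ∧ T '' K ⊆ l • Metric.closedBall 0 1 := by
  obtain ⟨R, hR, h⟩ := C1 n
  obtain ⟨T, h1, h2⟩ := h K hK
  refine ⟨R, hR, T, h1, h2.trans ?_⟩
  rw [smul_closedBall _ _ (by norm_num : (0:ℝ) ≤ 1)]
  simp [abs_of_pos (by linarith : (0:ℝ) < R)]

theorem one_le_dBM {n : ℕ} (K : Set (E n)) (hK : Body K) : 1 ≤ dBM K (Metric.closedBall 0 1) :=
  le_csInf (dBM_exists K hK) (fun _ hx => hx.1)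

theorem dBM_lt {n : ℕ} (K : Set (E n)) (hK : Body K) (c : ℝ)
    (h : dBM K (Metric.closedBall 0 1) < c) : ∃ l : ℝ, 1 ≤ l ∧ l < c ∧ ∃ T : E n ≃ₗ[ℝ] E n,
      Metric.closedBall 0 1 ⊆ T '' K ∧ T '' K ⊆ l • Metric.closedBall 0 1 := by
  obtain ⟨l, ⟨hl, T, h1, h2⟩, hlc⟩ := exists_lt_of_csInf_lt (dBM_exists K hK) h
  exact ⟨l, hl, hlc, T, h1, h2⟩

theorem image_smul_lin {n : ℕ} (T : E n ≃ₗ[ℝ] E n) (c : ℝ) (K : Set (E n)) :
    T '' (c • K) = c • (T '' K) := by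
  ext x
  simp only [mem_image, mem_smul_set]
  constructor
  · rintro ⟨_, ⟨y, hy, rfl⟩, rfl⟩
    exact ⟨T y, ⟨y, hy, rfl⟩, by simp⟩
  · rintro ⟨_, ⟨y, hy, rfl⟩, rfl⟩
    exact ⟨c • y, ⟨y, hy, rfl⟩, by simp⟩

theorem ball_body (n : ℕ) : Body (Metric.closedBall (0 : E n) 1) := by
  refine ⟨isCompact_closedBall _ _, convex_closedBall _ _, ?_, ?_⟩
  · rw [interior_closedBall _ (by norm_num)]
    exact ⟨0, by simp⟩
  · intro x hx
    simpa using hx

theorem C4 {d : ℕ} (hd : 2 ≤ d) (ε : ℝ) (hε : 0 < ε) : ∃ η : ℝ, 0 < η ∧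
    ∀ K : Set (E (d + 1)), Body K → 1 + ε ≤ dBM K (Metric.closedBall 0 1) →
      (1 + η) * Q K ≤ Q (IB K) := by
  by_contra hcon
  push Not at hcon
  have hd1 : 1 ≤ d := by omega
  have hpos : ∀ j : ℕ, (0:ℝ) < 1 / ((j:ℝ) + 1) := fun j => by positivity
  choose K hKb hKd hKQ using fun j : ℕ => hcon (1 / ((j:ℝ) + 1)) (hpos j)
  obtain ⟨R, hR, hC1⟩ := C1 (d + 1)
  choose T hT1 hT2 using fun j : ℕ => hC1 (K j) (hKb j)
  set U : Ultrafilter ℕ := Filter.hyperfilter ℕ with hU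
  have hUat : (U : Filter ℕ) ≤ atTop := Nat.hyperfilter_le_atTop
  obtain ⟨L, hL, hLim⟩ := C2 R (fun j => T j '' K j) (fun j => (hKb j).image (T j)) hT1 hT2 U
  have hQL := Q_pos hd1 L hL
  set N : ℕ := 2 * d * (d + 1) with hN
  -- key inequality
  have key : ∀ δ : ℝ, 0 < δ → Q (IB L) ≤ ((1 + δ) ^ d) ^ N * ((1 + δ) * ((1 + δ) ^ N * Q L)) := by
    intro δ hδ
    have e1 : ∀ᶠ j : ℕ in (U : Filter ℕ), 1 / ((j:ℝ) + 1) ≤ δ := by
      apply hUat
      have := tendsto_one_div_add_atTop_nhds_zero_nat (𝕜 := ℝ)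
      filter_upwards [this.eventually (gt_mem_nhds hδ)] with j hj
      exact hj.le
    obtain ⟨j, hj1, hj2, hj3⟩ := (e1.and (hLim δ hδ)).exists
    have hc : (0:ℝ) < 1 + δ := by linarith
    have hK' := (hKb j).image (T j)
    have b1 : Q (IB L) ≤ ((1 + δ) ^ d) ^ N * Q (IB (T j '' K j)) :=
      Q_le hd1 _ _ (B7 hd1 L hL) (B7 hd1 _ hK') _ (by positivity) (G12 _ _ _ hc hj3)
        (G12 _ _ _ hc hj2)
    have b2 : Q (T j '' K j) ≤ (1 + δ) ^ N * Q L := Q_le hd1 _ _ hK' hL _ hc hj2 hj3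
    rw [Q_IB_image hd1 _ (hKb j)] at b1
    rw [Q_image _ (hKb j)] at b2
    have b3 := (hKQ j).le
    have hQK := Q_pos hd1 _ (hKb j)
    calc Q (IB L) ≤ ((1 + δ) ^ d) ^ N * Q (IB (K j)) := b1
      _ ≤ ((1 + δ) ^ d) ^ N * ((1 + 1 / ((j:ℝ) + 1)) * Q (K j)) := by gcongr
      _ ≤ ((1 + δ) ^ d) ^ N * ((1 + δ) * ((1 + δ) ^ N * Q L)) := by gcongr
  have hfin : Q (IB L) ≤ Q L := by
    have hcont : Continuous fun δ : ℝ => ((1 + δ) ^ d) ^ N * ((1 + δ) * ((1 + δ) ^ N * Q L)) := by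
      fun_prop
    have ht : Tendsto (fun δ : ℝ => ((1 + δ) ^ d) ^ N * ((1 + δ) * ((1 + δ) ^ N * Q L)))
        (𝓝[>] 0) (𝓝 (Q L)) := by
      have := hcont.tendsto 0
      simp only [add_zero, one_pow, one_mul] at this
      exact this.mono_left nhdsWithin_le_nhds
    refine ge_of_tendsto ht ?_
    filter_upwards [self_mem_nhdsWithin] with δ hδ
    exact key δ hδ
  obtain ⟨S, hS⟩ := ELL hd L hL hfin
  -- choose δ with (1+δ)^2 < 1+ε
  obtain ⟨δ, hδ, hδε⟩ : ∃ δ : ℝ, 0 < δ ∧ (1 + δ) * (1 + δ) < 1 + ε := by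
    refine ⟨min 1 (ε / 4), by positivity, ?_⟩
    have h1 : min 1 (ε / 4) ≤ 1 := min_le_left _ _
    have h2 : min 1 (ε / 4) ≤ ε / 4 := min_le_right _ _
    have h3 : 0 < min 1 (ε / 4) := by positivity
    nlinarith
  obtain ⟨j, hj2, hj3⟩ := (hLim δ hδ).exists
  have hc : (0:ℝ) < 1 + δ := by linarith
  -- the linear map (1+δ) • S ∘ T j
  let T' : E (d + 1) ≃ₗ[ℝ] E (d + 1) :=
    ((T j).trans S).trans (LinearEquiv.smulOfNeZero ℝ _ (1 + δ) hc.ne')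
  have hT' : T' '' K j = (1 + δ) • (S '' (T j '' K j)) := by
    ext x
    simp only [mem_image, mem_smul_set, T', LinearEquiv.trans_apply]
    constructor
    · rintro ⟨y, hy, rfl⟩
      exact ⟨S (T j y), ⟨T j y, ⟨y, hy, rfl⟩, rfl⟩, rfl⟩
    · rintro ⟨_, ⟨_, ⟨y, hy, rfl⟩, rfl⟩, rfl⟩
      exact ⟨y, hy, rfl⟩
  have c1 : Metric.closedBall 0 1 ⊆ T' '' K j := by
    rw [hT', ← image_smul_lin, ← hS]
    exact image_mono hj3
  have c2 : T' '' K j ⊆ ((1 + δ) * (1 + δ)) • Metric.closedBall (0 : E (d + 1)) 1 := by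
    have e3 : (1 + δ) • (S '' L) = S '' ((1 + δ) • L) := (image_smul_lin _ _ _).symm
    rw [hT', mul_smul, ← hS, e3]
    exact smul_set_mono (image_mono hj2)
  have := dBM_le (K j) (Metric.closedBall 0 1) ((1 + δ) * (1 + δ)) (by nlinarith) T' c1 c2
  linarith [hKd j]

theorem iter_body {d : ℕ} (hd : 1 ≤ d) (K : Set (E (d + 1))) (hK : Body K) (m : ℕ) :
    Body (IB^[m] K) := by
  induction m with
  | zero => exact hK
  | succ m ih => rw [Function.iterate_succ_apply']; exact B7 hd _ ih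

theorem Q_iter_mono {d : ℕ} (hd : 1 ≤ d) (K : Set (E (d + 1))) (hK : Body K) :
    Monotone fun m => Q (IB^[m] K) := by
  apply monotone_nat_of_le_succ
  intro m
  rw [Function.iterate_succ_apply']
  exact Q_mono hd _ (iter_body hd K hK m)

/-- comparison of `Q K` with the ball -/
theorem Q_ball_cmp {d : ℕ} (hd : 1 ≤ d) (K : Set (E (d + 1))) (hK : Body K) (l : ℝ) (hl : 1 ≤ l)
    (T : E (d + 1) ≃ₗ[ℝ] E (d + 1)) (h1 : Metric.closedBall 0 1 ⊆ T '' K)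
    (h2 : T '' K ⊆ l • Metric.closedBall 0 1) :
    Q K ≤ l ^ (2 * d * (d + 1)) * Q (Metric.closedBall (0 : E (d + 1)) 1) ∧
    Q (Metric.closedBall (0 : E (d + 1)) 1) ≤ l ^ (2 * d * (d + 1)) * Q K := by
  have hK' := hK.image T
  have h3 : Metric.closedBall 0 1 ⊆ l • (T '' K) := h1.trans (hK'.sub_smul hl)
  have hl0 : 0 < l := by linarith
  rw [← Q_image K hK T]
  exact ⟨Q_le hd _ _ hK' (ball_body _) l hl0 h2 h3, Q_le hd _ _ (ball_body _) hK' l hl0 h3 h2⟩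

theorem stepA {d : ℕ} (hd : 2 ≤ d) (ε : ℝ) (hε : 0 < ε) : ∃ N : ℕ,
    ∀ K : Set (E (d + 1)), Body K → ∃ m ≤ N, dBM (IB^[m] K) (Metric.closedBall 0 1) < 1 + ε := by
  have hd1 : 1 ≤ d := by omega
  obtain ⟨η, hη, h4⟩ := C4 hd ε hε
  obtain ⟨R, hR, hC1⟩ := C1 (d + 1)
  set P : ℝ := R ^ (2 * d * (d + 1)) with hP
  have hP0 : 0 < P := by positivity
  obtain ⟨N, hN⟩ := pow_unbounded_of_one_lt (P * P) (by linarith : 1 < 1 + η)
  refine ⟨N, fun K hK => ?_⟩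
  by_contra hcon
  push Not at hcon
  have hQ : ∀ m, m ≤ N + 1 → (1 + η) ^ m * Q K ≤ Q (IB^[m] K) := by
    intro m
    induction m with
    | zero => intro _; simp
    | succ m ih =>
      intro hm
      rw [Function.iterate_succ_apply', pow_succ]
      have := h4 _ (iter_body hd1 K hK m) (hcon m (by omega))
      calc (1 + η) ^ m * (1 + η) * Q K = (1 + η) * ((1 + η) ^ m * Q K) := by ring
        _ ≤ (1 + η) * Q (IB^[m] K) := by
            have := ih (by omega)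
            gcongr
        _ ≤ _ := this
  have hcmp : ∀ K : Set (E (d + 1)), Body K →
      Q K ≤ P * Q (Metric.closedBall (0 : E (d + 1)) 1) ∧
      Q (Metric.closedBall (0 : E (d + 1)) 1) ≤ P * Q K := by
    intro K hK
    obtain ⟨T, t1, t2⟩ := hC1 K hK
    refine Q_ball_cmp hd1 K hK R hR T t1 (t2.trans ?_)
    rw [smul_closedBall _ _ (by norm_num : (0:ℝ) ≤ 1)]
    simp [abs_of_pos (by linarith : (0:ℝ) < R)]
  have q1 := hQ N (by omega)
  have q2 := (hcmp _ (iter_body hd1 K hK N)).1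
  have q3 := (hcmp K hK).2
  have q0 := Q_pos hd1 K hK
  have : (1 + η) ^ N * Q K ≤ P * P * Q K := by
    calc (1 + η) ^ N * Q K ≤ P * Q (Metric.closedBall (0 : E (d + 1)) 1) := q1.trans q2
      _ ≤ P * (P * Q K) := by gcongr
      _ = _ := by ring
  have := le_of_mul_le_mul_right this q0
  linarith

theorem stepB {d : ℕ} (hd : 2 ≤ d) (K : Set (E (d + 1))) (hK : Body K) :
    Q K ≤ Q (Metric.closedBall (0 : E (d + 1)) 1) := by
  have hd1 : 1 ≤ d := by omega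
  have key : ∀ ε : ℝ, 0 < ε →
      Q K ≤ (1 + ε) ^ (2 * d * (d + 1)) * Q (Metric.closedBall (0 : E (d + 1)) 1) := by
    intro ε hε
    obtain ⟨N, hN⟩ := stepA hd ε hε
    obtain ⟨m, -, hm⟩ := hN K hK
    obtain ⟨l, hl, hlε, T, h1, h2⟩ := dBM_lt _ (iter_body hd1 K hK m) _ hm
    have := (Q_ball_cmp hd1 _ (iter_body hd1 K hK m) l hl T h1 h2).1
    have hB := Q_pos hd1 _ (ball_body (d + 1))
    have h0 : Q K ≤ Q (IB^[m] K) := by
      have := Q_iter_mono hd1 K hK (Nat.zero_le m)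
      simpa only [Function.iterate_zero, id_eq] using this
    have h7 : l ^ (2 * d * (d + 1)) ≤ (1 + ε) ^ (2 * d * (d + 1)) :=
      pow_le_pow_left₀ (by linarith) hlε.le _
    exact (h0.trans this).trans (mul_le_mul_of_nonneg_right h7 hB.le)
  have hcont : Continuous fun ε : ℝ =>
      (1 + ε) ^ (2 * d * (d + 1)) * Q (Metric.closedBall (0 : E (d + 1)) 1) := by fun_prop
  have ht : Tendsto (fun ε : ℝ =>
      (1 + ε) ^ (2 * d * (d + 1)) * Q (Metric.closedBall (0 : E (d + 1)) 1))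
      (𝓝[>] 0) (𝓝 (Q (Metric.closedBall (0 : E (d + 1)) 1))) := by
    have := hcont.tendsto 0
    simp only [add_zero, one_pow, one_mul] at this
    exact this.mono_left nhdsWithin_le_nhds
  refine ge_of_tendsto ht ?_
  filter_upwards [self_mem_nhdsWithin] with ε hε
  exact key ε hε

theorem uniform {d : ℕ} (hd : 2 ≤ d) (ε : ℝ) (hε : 0 < ε) : ∃ N : ℕ,
    ∀ K : Set (E (d + 1)), Body K → ∀ m ≥ N,
      dBM (IB^[m] K) (Metric.closedBall 0 1) < 1 + ε := by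
  have hd1 : 1 ≤ d := by omega
  obtain ⟨η, hη, h4⟩ := C4 hd ε hε
  obtain ⟨ε', hε', h5⟩ : ∃ ε' : ℝ, 0 < ε' ∧ (1 + ε') ^ (2 * d * (d + 1)) < 1 + η := by
    have hcont : Continuous fun x : ℝ => (1 + x) ^ (2 * d * (d + 1)) := by fun_prop
    have := hcont.tendsto 0
    simp only [add_zero, one_pow] at this
    have h2 := (this.mono_left (nhdsWithin_le_nhds (s := Ioi 0))).eventually
      (gt_mem_nhds (by linarith : (1:ℝ) < 1 + η))
    obtain ⟨x, hx1, hx2⟩ := (h2.and self_mem_nhdsWithin).exists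
    exact ⟨x, hx2, hx1⟩
  obtain ⟨N, hN⟩ := stepA hd ε' hε'
  refine ⟨N, fun K hK m hm => ?_⟩
  by_contra hcon
  push Not at hcon
  obtain ⟨m₀, hm₀, hd0⟩ := hN K hK
  obtain ⟨l, hl, hlε, T, t1, t2⟩ := dBM_lt _ (iter_body hd1 K hK m₀) _ hd0
  have c1 := (Q_ball_cmp hd1 _ (iter_body hd1 K hK m₀) l hl T t1 t2).2
  have p0 := Q_pos hd1 _ (iter_body hd1 K hK m₀)
  have c2 : Q (Metric.closedBall (0 : E (d + 1)) 1) < (1 + η) * Q (IB^[m₀] K) := by
    refine c1.trans_lt ?_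
    have : l ^ (2 * d * (d + 1)) ≤ (1 + ε') ^ (2 * d * (d + 1)) := by gcongr
    have h6 : l ^ (2 * d * (d + 1)) < 1 + η := this.trans_lt h5
    gcongr
  have c3 : Q (IB^[m₀] K) ≤ Q (IB^[m] K) := Q_iter_mono hd1 K hK (by omega)
  have c4 := h4 _ (iter_body hd1 K hK m) hcon
  have c5 := stepB hd _ (B7 hd1 _ (iter_body hd1 K hK m))
  have : (1 + η) * Q (IB^[m₀] K) ≤ (1 + η) * Q (IB^[m] K) := by gcongr
  linarith

theorem main (n : ℕ) (hn : 3 ≤ n) :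
    (∀ K : Set (E n), Body K →
      Tendsto (fun m : ℕ => dBM (IB^[m] K) (Metric.closedBall 0 1)) atTop (𝓝 1)) ∧
    (∀ ε : ℝ, 0 < ε → ∃ N : ℕ, ∀ K : Set (E n), Body K → ∀ m ≥ N,
      dBM (IB^[m] K) (Metric.closedBall 0 1) < 1 + ε) := by
  obtain ⟨d, rfl⟩ : ∃ d, n = d + 1 := ⟨n - 1, by omega⟩
  have hd : 2 ≤ d := by omega
  refine ⟨fun K hK => ?_, fun ε hε => uniform hd ε hε⟩
  rw [Metric.tendsto_atTop]
  intro ε hε
  obtain ⟨N, hN⟩ := uniform hd ε hε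
  refine ⟨N, fun m hm => ?_⟩
  have h1 := hN K hK m hm
  have h2 := one_le_dBM _ (iter_body (by omega : 1 ≤ d) K hK m)
  rw [Real.dist_eq, abs_lt]
  constructor <;> linarith

end Pool.Agent.H14IIB
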