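import Mathlib
import Pool.Agent.H14IIB.Asm

set_option autoImplicit false

open MeasureTheory Set Module Filter Topology
open scoped ENNReal Pointwise

namespace Pool.Agent.H14IIB

theorem G6x {d : ℕ} (T : E (d + 1) ≃ₗ[ℝ] E (d + 1)) (c : ℝ) (hc0 : 0 < c)
    (hc : c = |LinearMap.det (T : E (d + 1) →ₗ[ℝ] E (d + 1))|) :
    ∀ K : Set (E (d + 1)), MeasurableSet K → IB (T '' K) =
      ((G6_U T).trans (LinearEquiv.smulOfNeZero ℝ (E (d + 1)) c hc0.ne')) '' (IB K) := by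
  intro K hK
  ext x
  rw [LinearEquiv.image_eq_preimage_symm _ (IB K), mem_preimage]
  have hs : ((G6_U T).trans (LinearEquiv.smulOfNeZero ℝ (E (d + 1)) c hc0.ne')).symm x =
      c⁻¹ • LinearMap.adjoint (T : E (d + 1) →ₗ[ℝ] E (d + 1)) x := by
    rw [LinearEquiv.symm_apply_eq]
    change x = c • LinearMap.adjoint (T.symm : E (d + 1) →ₗ[ℝ] E (d + 1))
      (c⁻¹ • LinearMap.adjoint (T : E (d + 1) →ₗ[ℝ] E (d + 1)) x)
    rw [map_smul, smul_smul, mul_inv_cancel₀ hc0.ne', one_smul, ← LinearMap.comp_apply,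
      ← LinearMap.adjoint_comp]
    simp
  by_cases hx : x = 0
  · subst hx
    simp [IB]
  have hy : c⁻¹ • LinearMap.adjoint (T : E (d + 1) →ₗ[ℝ] E (d + 1)) x ≠ 0 := by
    rw [← hs]
    exact (LinearEquiv.map_ne_zero_iff _).mpr hx
  rw [hs, G5 _ _ hx, G5 _ _ hy, G3 T x hx K hK, G5b _ _ ?_ _ (inv_ne_zero hc0.ne'),
    abs_of_pos (inv_pos.mpr hc0), ENNReal.ofReal_inv_of_pos hc0, ← hc, div_eq_mul_inv, inv_inv,
    mul_comm]
  intro h0
  exact hy (by rw [h0, smul_zero])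

/-- the intersection body of the unit ball is a ball -/
theorem IB_ball (d : ℕ) : ∃ κ : ℝ, 0 < κ ∧
    IB (Metric.closedBall (0 : E (d + 1)) 1) = κ • Metric.closedBall (0 : E (d + 1)) 1 := by
  have hfin : volume (Metric.closedBall (0 : E d) 1) ≠ ∞ := measure_closedBall_lt_top.ne
  have hpos : 0 < (volume (Metric.closedBall (0 : E d) 1)).toReal :=
    ENNReal.toReal_pos (Metric.measure_closedBall_pos _ _ one_pos).ne' hfin
  refine ⟨_, hpos, ?_⟩
  rw [smul_closedBall _ _ (by norm_num : (0:ℝ) ≤ 1)]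
  ext x
  by_cases hx : x = 0
  · subst hx
    simp [IB]
  obtain ⟨T, hT⟩ := B6_par x hx
  have h1 : {y : E d | T y ∈ Metric.closedBall (0 : E (d + 1)) 1} = Metric.closedBall 0 1 := by
    ext y
    simp [T.norm_map]
  simp only [IB, Set.mem_ofPred_eq, hx, false_or, Nat.add_sub_cancel, mem_closedBall_zero_iff]
  rw [B6_sec _ x T hT, h1, ENNReal.ofReal_le_iff_le_toReal hfin]
  simp [abs_of_pos hpos]

theorem adj_inv {n : ℕ} (S : E n ≃ₗ[ℝ] E n) (x : E n) : G6_U (G6_U S) x = S x := by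
  change LinearMap.adjoint ((G6_U S).symm : E n →ₗ[ℝ] E n) x = S x
  have : ((G6_U S).symm : E n →ₗ[ℝ] E n) = LinearMap.adjoint (S : E n →ₗ[ℝ] E n) := by
    ext y
    rfl
  rw [this, LinearMap.adjoint_adjoint]
  rfl

theorem ell_step {d : ℕ} (hd : 1 ≤ d) (S : E (d + 1) ≃ₗ[ℝ] E (d + 1)) :
    ∃ T : E (d + 1) ≃ₗ[ℝ] E (d + 1),
      IB (T '' Metric.closedBall 0 1) = S '' Metric.closedBall 0 1 := by
  obtain ⟨κ, hκ, hB⟩ := IB_ball d
  set s : ℝ := |LinearMap.det (S : E (d + 1) →ₗ[ℝ] E (d + 1))| with hs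
  have hs0 : 0 < s := abs_pos.2 (detT_ne S)
  -- a ^ d = s / κ
  obtain ⟨a, ha, had⟩ : ∃ a : ℝ, 0 < a ∧ a ^ d = s / κ :=
    ⟨(s / κ) ^ ((d : ℝ)⁻¹), by positivity, by
      rw [← Real.rpow_natCast, ← Real.rpow_mul (by positivity), inv_mul_cancel₀ (by
        have : (0:ℝ) < d := by exact_mod_cast hd
        exact this.ne'), Real.rpow_one]⟩
  let T : E (d + 1) ≃ₗ[ℝ] E (d + 1) :=
    (G6_U S).trans (LinearEquiv.smulOfNeZero ℝ (E (d + 1)) a ha.ne')
  have hTl : (T : E (d + 1) →ₗ[ℝ] E (d + 1)) =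
      a • LinearMap.adjoint (S.symm : E (d + 1) →ₗ[ℝ] E (d + 1)) := by
    ext x
    rfl
  have hdetT : |LinearMap.det (T : E (d + 1) →ₗ[ℝ] E (d + 1))| = a ^ (d + 1) * s⁻¹ := by
    rw [hTl, LinearMap.det_smul, G6_det_adjoint, finrank_euclideanSpace, Fintype.card_fin, abs_mul,
      abs_of_nonneg (by positivity)]
    have h2 : |LinearMap.det (S.symm : E (d + 1) →ₗ[ℝ] E (d + 1))| * s = 1 := by
      rw [hs, ← abs_mul, LinearEquiv.det_symm_mul_det, abs_one]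
    rw [eq_inv_of_mul_eq_one_left h2]
  set c : ℝ := a ^ (d + 1) * s⁻¹ with hc
  have hc0 : 0 < c := by positivity
  refine ⟨T, ?_⟩
  rw [G6x T c hc0 hdetT.symm _ measurableSet_closedBall, hB]
  have key : ∀ x : E (d + 1), ((G6_U T).trans (LinearEquiv.smulOfNeZero ℝ (E (d + 1)) c hc0.ne')) x
      = (c * a⁻¹) • S x := by
    intro x
    change c • LinearMap.adjoint (T.symm : E (d + 1) →ₗ[ℝ] E (d + 1)) x = _
    have h3 : (T.symm : E (d + 1) →ₗ[ℝ] E (d + 1)) =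
        a⁻¹ • LinearMap.adjoint (S : E (d + 1) →ₗ[ℝ] E (d + 1)) := by
      ext1 y
      change T.symm y = a⁻¹ • LinearMap.adjoint (S : E (d + 1) →ₗ[ℝ] E (d + 1)) y
      rw [LinearEquiv.symm_apply_eq]
      change y = a • LinearMap.adjoint (S.symm : E (d + 1) →ₗ[ℝ] E (d + 1))
        (a⁻¹ • LinearMap.adjoint (S : E (d + 1) →ₗ[ℝ] E (d + 1)) y)
      rw [map_smul, smul_smul, mul_inv_cancel₀ ha.ne', one_smul, ← LinearMap.comp_apply,
        ← LinearMap.adjoint_comp]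
      simp
    rw [h3]
    have h4 : LinearMap.adjoint (a⁻¹ • LinearMap.adjoint (S : E (d + 1) →ₗ[ℝ] E (d + 1))) =
        a⁻¹ • (S : E (d + 1) →ₗ[ℝ] E (d + 1)) := by
      rw [map_smulₛₗ, LinearMap.adjoint_adjoint]
      simp
    rw [h4, LinearMap.smul_apply, smul_smul]
    rfl
  have hk : c * a⁻¹ * κ = 1 := by
    rw [hc, pow_succ]
    have : a ^ d * κ = s := by rw [had]; field_simp
    calc a ^ d * a * s⁻¹ * a⁻¹ * κ = (a ^ d * κ) * s⁻¹ * (a * a⁻¹) := by ring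
      _ = 1 := by rw [this, mul_inv_cancel₀ ha.ne', mul_inv_cancel₀ hs0.ne', one_mul]
  ext x
  simp only [mem_image, mem_smul_set]
  constructor
  · rintro ⟨_, ⟨y, hy, rfl⟩, rfl⟩
    refine ⟨y, hy, ?_⟩
    rw [key, map_smul, smul_smul, hk, one_smul]
  · rintro ⟨y, hy, rfl⟩
    refine ⟨κ • y, ⟨y, hy, rfl⟩, ?_⟩
    rw [key, map_smul, smul_smul, hk, one_smul]

theorem ell_iter {d : ℕ} (hd : 1 ≤ d) (m : ℕ) : ∀ S : E (d + 1) ≃ₗ[ℝ] E (d + 1),
    ∃ K : Set (E (d + 1)), Body K ∧ IB^[m] K = S '' Metric.closedBall 0 1 := by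
  induction m with
  | zero => intro S; exact ⟨_, (ball_body (d + 1)).image S, rfl⟩
  | succ m ih =>
    intro S
    obtain ⟨T, hT⟩ := ell_step hd S
    obtain ⟨K, hK, hKe⟩ := ih T
    exact ⟨K, hK, by rw [Function.iterate_succ_apply', hKe, hT]⟩

theorem per {d : ℕ} (hd : 2 ≤ d) (L : Set (E (d + 1))) :
    (∀ m : ℕ, 1 ≤ m → ∃ K : Set (E (d + 1)), Body K ∧ IB^[m] K = L) ↔
      ∃ T : E (d + 1) ≃ₗ[ℝ] E (d + 1), L = T '' Metric.closedBall 0 1 := by
  have hd1 : 1 ≤ d := by omega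
  constructor
  · intro h
    obtain ⟨K₁, hK₁, e₁⟩ := h 1 le_rfl
    have hL : Body L := by rw [← e₁]; exact iter_body hd1 K₁ hK₁ 1
    have hQ : Q (Metric.closedBall (0 : E (d + 1)) 1) ≤ Q L := by
      have key : ∀ ε : ℝ, 0 < ε →
          Q (Metric.closedBall (0 : E (d + 1)) 1) ≤ (1 + ε) ^ (2 * d * (d + 1)) * Q L := by
        intro ε hε
        obtain ⟨N, hN⟩ := uniform hd ε hε
        obtain ⟨K, hK, e⟩ := h (N + 1) (by omega)
        have h1 := hN K hK (N + 1) (by omega)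
        rw [e] at h1
        obtain ⟨l, hl, hlε, T, t1, t2⟩ := dBM_lt _ hL _ h1
        have h2 := (Q_ball_cmp hd1 _ hL l hl T t1 t2).2
        have hQL := Q_pos hd1 L hL
        have h7 : l ^ (2 * d * (d + 1)) ≤ (1 + ε) ^ (2 * d * (d + 1)) :=
          pow_le_pow_left₀ (by linarith) hlε.le _
        exact h2.trans (mul_le_mul_of_nonneg_right h7 hQL.le)
      have hcont : Continuous fun ε : ℝ => (1 + ε) ^ (2 * d * (d + 1)) * Q L := by fun_prop
      have ht : Tendsto (fun ε : ℝ => (1 + ε) ^ (2 * d * (d + 1)) * Q L) (𝓝[>] 0) (𝓝 (Q L)) := by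
        have := hcont.tendsto 0
        simp only [add_zero, one_pow, one_mul] at this
        exact this.mono_left nhdsWithin_le_nhds
      refine ge_of_tendsto ht ?_
      filter_upwards [self_mem_nhdsWithin] with ε hε
      exact key ε hε
    obtain ⟨T, hT⟩ := ELL hd L hL ((stepB hd _ (B7 hd1 L hL)).trans hQ)
    refine ⟨T.symm, ?_⟩
    rw [← hT, ← image_comp]
    simp
  · rintro ⟨T, rfl⟩ m -
    exact ell_iter hd1 m T

end Pool.Agent.H14IIB
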